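import Pool.Agent.Lib.MP_ed43e6_ag.Local

/-! A point moving in along an arc. -/

namespace Pool.Agent.Lib.MP_ed43e6_ag

open MvPolynomial Module Matrix

universe u

variable {K : Type u} [Field K]

theorem mul_mem_of_mem_mm {I : Ideal (SS K)} {s : SS K} (hs : ∀ i, X i * s ∈ I) {r : SS K}
    (hr : r ∈ mm K) : r * s ∈ I := by
  obtain ⟨c, rfl⟩ := Ideal.mem_span_range_iff_exists_fun.1 hr
  rw [Finset.sum_mul]
  exact Submodule.sum_mem _ fun i _ => by rw [mul_assoc]; exact Ideal.mul_mem_left _ _ (hs i)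

theorem sub_C_mem_mm (r : SS K) : r - C (coeff 0 r) ∈ mm K := by
  rw [← pow_one (mm K), mem_pow_idealOfVars_iff']
  intro x hx
  have : x = 0 := (Finsupp.degree_eq_zero_iff x).1 (by omega)
  subst this
  simp

theorem mem_sup_socle {I : Ideal (SS K)} {s : SS K} (hs : ∀ i, X i * s ∈ I) {f : SS K}
    (hf : f ∈ I ⊔ Ideal.span {s}) : ∃ c : K, f - c • s ∈ I := by
  obtain ⟨g, hg, _, h, rfl⟩ := Submodule.mem_sup.1 hf
  obtain ⟨r, rfl⟩ := Ideal.mem_span_singleton'.1 h
  refine ⟨coeff 0 r, ?_⟩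
  rw [add_sub_assoc, smul_eq_C_mul, ← sub_mul]
  exact add_mem hg (mul_mem_of_mem_mm hs (sub_C_mem_mm r))

theorem addPt_mat {ι : Type} [Fintype ι] [DecidableEq ι] (a : Fin 3 → Matrix ι ι K)
    (hc : SmM K a) (γ : Fin 3 → ι → K) {O Ω κ : Type u} [CommRing O] [Field Ω]
    [Field κ] [Algebra K O] [Algebra K Ω] [Algebra K κ] (e : O →ₐ[K] Ω)
    (he : Function.Injective e) (res : O →ₐ[K] κ) (p : Fin 3 → O) (s : O) (hs : s ≠ 0) (b : ι → O)
    (q : Fin 3 → ι → O) (q' : Fin 3 → O) (hq1 : ∀ i j, res (q i j) = 0) (hq1' : ∀ i, res (q' i) = 0)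
    (hq2 : ∀ i j, p i * b j - ∑ k, a i k j • b k - γ i j • s = q i j * s)
    (hq2' : ∀ i, p i * s = q' i * s) :
    SmM K fun i => fromBlocks (a i) 0 (Matrix.of fun (_ : Unit) j => γ i j)
      (0 : Matrix Unit Unit K) := by
  let MO : Fin 3 → Matrix (ι ⊕ Unit) (ι ⊕ Unit) O := fun i =>
    fromBlocks ((a i).map (algebraMap K O)) 0 (Matrix.of fun _ j => algebraMap K O (γ i j) + q i j)
      (Matrix.of fun _ _ => q' i)
  have hne : e s ≠ 0 := (map_ne_zero_iff e he).2 hs
  have hD : SmM K fun i => fromBlocks ((a i).map (Algebra.ofId K Ω)) 0 0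
      (Matrix.of fun (_ _ : Unit) => e (p i)) :=
    (hc.map (Algebra.ofId K Ω)).fromBlocks (Diag.smM ⟨1, 1, by simp, fun i _ => e (p i),
      fun i => by ext; simp⟩)
  have hconj := hD.conj
    (fromBlocks 1 0 (Matrix.of fun _ j => -(e s)⁻¹ * e (b j)) (Matrix.of fun _ _ => (e s)⁻¹))
    (fromBlocks 1 0 (Matrix.of fun _ j => e (b j)) (Matrix.of fun _ _ => e s)) (by
      rw [fromBlocks_multiply, ← fromBlocks_one]
      congr 1 <;> ext <;> simp [Matrix.mul_apply, hne, Matrix.one_apply])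
  have hMO : SmM K MO := by
    refine SmM.of_map e he ?_
    convert hconj using 2 with i
    rw [fromBlocks_multiply, fromBlocks_multiply, fromBlocks_map]
    congr 1
    · ext; simp
    · ext; simp
    · ext x j
      have := congrArg e (hq2 i j)
      simp only [map_sub, map_mul, map_sum, map_smul] at this
      simp only [Matrix.map_apply, of_apply, map_add, AlgHom.commutes, Matrix.mul_zero, add_zero,
        Matrix.mul_one, zero_add, Matrix.add_apply]
      simp only [Matrix.mul_apply, Fintype.sum_unique, of_apply, Matrix.map_apply,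
        Algebra.ofId_apply, neg_mul, Finset.sum_neg_distrib, mul_assoc, ← Finset.mul_sum]
      simp only [Algebra.smul_def] at this
      simp only [mul_comm (e (b _)) (algebraMap K Ω _)]
      field_simp
      linear_combination -this
    · ext x y
      have := congrArg e (hq2' i)
      simp only [map_mul] at this
      simp [Matrix.mul_apply, mul_right_cancel₀ hne this]
      field_simp
  refine SmM.of_map (Algebra.ofId K κ) (algebraMap K κ).injective ?_
  convert hMO.map res using 2 with i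
  rw [fromBlocks_map, fromBlocks_map]
  congr 1 <;> ext <;> simp [hq1, hq1']

theorem addPt {I : Ideal (SS K)} {s : SS K} (hs : ∀ i, X i * s ∈ I) (hsI : s ∉ I)
    (h : Sm (act K (SS K ⧸ (I ⊔ Ideal.span {s})))) {O Ω κ : Type u} [CommRing O] [Field Ω]
    [Field κ] [Algebra K O] [Algebra K Ω] [Algebra K κ] (e : O →ₐ[K] Ω)
    (he : Function.Injective e) (res : O →ₐ[K] κ) (p : Fin 3 → O) (hsp : aeval p s ≠ 0)
    (hg : ∀ g ∈ I, ∃ q : O, res q = 0 ∧ aeval p g = q * aeval p s) : Sm (act K (SS K ⧸ I)) := by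
  set I' := I ⊔ Ideal.span {s} with hI'
  obtain ⟨ι, _, _, c, hc⟩ := h
  obtain ⟨σ, hσ⟩ := LinearMap.exists_rightInverse_of_surjective
    (Ideal.Quotient.mkₐ K I').toLinearMap (LinearMap.range_eq_top.2 Ideal.Quotient.mk_surjective)
  have hσ' : ∀ x, Ideal.Quotient.mk I' (σ x) = x := fun x => LinearMap.congr_fun hσ x
  have hsI' : s ∈ I' := Ideal.mem_sup_right (Ideal.mem_span_singleton_self s)
  let E : ((SS K ⧸ I') × K) →ₗ[K] (SS K ⧸ I) :=
    ((Ideal.Quotient.mkₐ K I).toLinearMap ∘ₗ σ).coprod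
      (LinearMap.toSpanSingleton K _ (Ideal.Quotient.mk I s))
  have hE : ∀ y a, E (y, a) = Ideal.Quotient.mk I (σ y + a • s) := fun _ _ => rfl
  have hEb : Function.Bijective E := by
    refine ⟨(injective_iff_map_eq_zero E).2 fun ⟨y, a⟩ hya => ?_, fun x => ?_⟩
    · rw [hE, Ideal.Quotient.eq_zero_iff_mem] at hya
      have h1 : σ y ∈ I' := by
        rw [← add_sub_cancel_right (σ y) (a • s)]
        exact sub_mem (Ideal.mem_sup_left hya) (Submodule.smul_of_tower_mem _ _ hsI')
      have h2 : y = 0 := by rw [← hσ' y, Ideal.Quotient.eq_zero_iff_mem.2 h1]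
      subst h2
      rw [map_zero, zero_add] at hya
      by_cases ha : a = 0
      · rw [ha]; rfl
      · exact absurd (by simpa [ha] using Submodule.smul_of_tower_mem I a⁻¹ hya) hsI
    · obtain ⟨f, rfl⟩ := Ideal.Quotient.mk_surjective x
      obtain ⟨a, ha⟩ := mem_sup_socle hs (Ideal.Quotient.eq.1 (hσ' (Ideal.Quotient.mk I' f)).symm)
      refine ⟨(Ideal.Quotient.mk I' f, a), ?_⟩
      rw [hE, eq_comm, Ideal.Quotient.eq, ← sub_sub]
      exact ha
  let B := (c.prod (Basis.singleton Unit K)).map (LinearEquiv.ofBijective E hEb)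
  have hB1 : ∀ j, B (Sum.inl j) = Ideal.Quotient.mk I (σ (c j)) := fun j => by
    simp [B, E, Basis.prod_apply]
  have hB2 : ∀ j, B (Sum.inr j) = Ideal.Quotient.mk I s := fun j => by
    simp [B, E, Basis.prod_apply]
  let a : Fin 3 → Matrix ι ι K := fun i => LinearMap.toMatrix c c (act K _ i)
  have h1 : ∀ i j, ∃ γ : K, X i * σ (c j) - ∑ k, a i k j • σ (c k) - γ • s ∈ I := fun i j => by
    refine mem_sup_socle hs (Ideal.Quotient.eq.1 ?_)
    rw [← smul_mk, hσ', map_sum]
    have : ∀ k, Ideal.Quotient.mk I' (a i k j • σ (c k)) = a i k j • c k := fun k =>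
      congrArg (a i k j • ·) (hσ' (c k))
    rw [Finset.sum_congr rfl fun k _ => this k, ← Matrix.toLin_self c c, Matrix.toLin_toMatrix]
    rfl
  choose γ hγ using h1
  choose q hq1 hq2 using fun i j => hg _ (hγ i j)
  choose q' hq1' hq2' using fun i => hg _ (hs i)
  let M0 : Fin 3 → Matrix (ι ⊕ Unit) (ι ⊕ Unit) K := fun i =>
    fromBlocks (a i) 0 (Matrix.of fun _ j => γ i j) 0
  have hM0 : ∀ i, LinearMap.toMatrix B B (act K _ i) = M0 i := fun i => by
    rw [← LinearMap.toMatrix_toLin B B (M0 i)]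
    congr 1
    refine B.ext fun x => ?_
    rw [Matrix.toLin_self, Fintype.sum_sum_type, Fintype.sum_unique (ι := Unit)]
    rcases x with j | j
    · simp only [hB1, hB2, act_apply, smul_mk, M0, fromBlocks_apply₁₁, fromBlocks_apply₂₁,
        of_apply]
      have := Ideal.Quotient.eq.2 (sub_sub (X i * σ (c j)) _ _ ▸ hγ i j)
      rw [this, map_add, map_sum]
      rfl
    · simp only [hB1, hB2, act_apply, smul_mk, M0, fromBlocks_apply₁₂, fromBlocks_apply₂₂]
      simp [Ideal.Quotient.eq_zero_iff_mem.2 (hs i)]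
  refine ⟨_, inferInstance, inferInstance, B, ?_⟩
  simp only [hM0]
  refine addPt_mat a hc γ e he res p _ hsp (fun j => aeval p (σ (c j))) q q' hq1 hq1'
    (fun i j => ?_) fun i => ?_
  · simpa using hq2 i j
  · simpa using hq2' i

end Pool.Agent.Lib.MP_ed43e6_ag
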