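import Pool.Agent.Lib.MP_ed43e6_ag.Diag

/-! Evaluation at commuting matrices, places, and arcs through a point of the closure. -/

namespace Pool.Agent.Lib.MP_ed43e6_ag

open Matrix MvPolynomial IsLocalRing

universe u

section rep

variable {ι : Type} [Fintype ι] [DecidableEq ι] {O O' : Type*} [CommRing O] [CommRing O']

open scoped IsMulCommutative in
theorem exists_rep (M : Fin 3 → Matrix ι ι O) (hM : ∀ i j, M i * M j = M j * M i) :
    ∃ ρ : MvPolynomial (Fin 3) O →ₐ[O] Matrix ι ι O, ∀ i, ρ (X i) = M i := by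
  have := Algebra.isMulCommutative_adjoin O (s := Set.range M) (by
    rintro _ ⟨i, rfl⟩ _ ⟨j, rfl⟩; exact hM i j)
  refine ⟨(Algebra.adjoin O (Set.range M)).val.comp
    (aeval fun i => (⟨M i, Algebra.subset_adjoin ⟨i, rfl⟩⟩ : Algebra.adjoin O (Set.range M))),
    fun i => ?_⟩
  simp

theorem rep_map (ρ : MvPolynomial (Fin 3) O →ₐ[O] Matrix ι ι O)
    (ρ' : MvPolynomial (Fin 3) O' →ₐ[O'] Matrix ι ι O') (φ : O →+* O')
    (h : ∀ i, (ρ (X i)).map φ = ρ' (X i)) (f : MvPolynomial (Fin 3) O) :
    (ρ f).map φ = ρ' (MvPolynomial.map φ f) := by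
  induction f using MvPolynomial.induction_on with
  | C a =>
    rw [map_C, ← algebraMap_eq, ← algebraMap_eq, AlgHom.commutes, AlgHom.commutes]
    ext b c
    by_cases hbc : b = c <;> simp [algebraMap_matrix_apply, hbc]
  | add p q hp hq => rw [map_add, map_add, map_add, Matrix.map_add _ (map_add φ), hp, hq]
  | mul_X p i hp => rw [map_mul, map_mul, map_mul, Matrix.map_mul, hp, h, map_X]

theorem rep_diag (ρ : MvPolynomial (Fin 3) O →ₐ[O] Matrix ι ι O) (g h : Matrix ι ι O)
    (hgh : g * h = 1) (l : Fin 3 → ι → O) (hl : ∀ i, ρ (X i) = g * diagonal (l i) * h)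
    (f : MvPolynomial (Fin 3) O) :
    ρ f = g * diagonal (fun a => eval (fun i => l i a) f) * h := by
  have hhg : h * g = 1 := mul_eq_one_comm.1 hgh
  induction f using MvPolynomial.induction_on with
  | C a =>
    rw [← algebraMap_eq, AlgHom.commutes, Algebra.algebraMap_eq_smul_one]
    simp only [algebraMap_eq, eval_C]
    rw [← smul_one_eq_diagonal, Matrix.mul_smul, Matrix.mul_one, Matrix.smul_mul, hgh]
  | add p q hp hq =>
    rw [map_add, hp, hq, ← Matrix.add_mul, ← Matrix.mul_add, diagonal_add]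
    simp
  | mul_X p i hp =>
    rw [map_mul, hp, hl]
    simp only [map_mul, eval_X]
    rw [← diagonal_mul_diagonal]
    simp only [Matrix.mul_assoc]
    rw [← Matrix.mul_assoc h g, hhg, Matrix.one_mul]

end rep

variable {K : Type u} [Field K]

/-- The residue map as an algebra map. -/
noncomputable abbrev resA (K : Type u) [Field K] (O : Type u) [CommRing O] [IsLocalRing O]
    [Algebra K O] : O →ₐ[K] ResidueField O := IsScalarTower.toAlgHom K O (ResidueField O)

theorem isUnit_of_resA {O : Type u} [CommRing O] [IsLocalRing O] [Algebra K O] {a : O}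
    (h : resA K O a ≠ 0) : IsUnit a := by
  by_contra hu
  exact h ((residue_eq_zero_iff a).2 hu)

theorem resA_ne_zero {O : Type u} [CommRing O] [IsLocalRing O] [Algebra K O] {a : O}
    (h : IsUnit a) : resA K O a ≠ 0 := (h.map (resA K O)).ne_zero

theorem exists_inv_of_resA {O : Type u} [CommRing O] [IsLocalRing O] [Algebra K O]
    {ι : Type} [Fintype ι] [DecidableEq ι] (U : Matrix ι ι O) (h : U.map (resA K O) = 1) :
    ∃ W : Matrix ι ι O, W * U = 1 ∧ U * W = 1 ∧ W.map (resA K O) = 1 := by
  have hu : IsUnit U.det := by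
    apply isUnit_of_resA (K := K)
    rw [show resA K O U.det = (U.map (resA K O)).det from
      (resA K O : O →+* ResidueField O).map_det U, h, det_one]
    exact one_ne_zero
  refine ⟨U⁻¹, nonsing_inv_mul _ hu, mul_nonsing_inv _ hu, ?_⟩
  have := congrArg (fun A : Matrix ι ι O => A.map (resA K O)) (nonsing_inv_mul _ hu)
  simp only [Matrix.map_mul, h, Matrix.mul_one] at this
  rw [this, Matrix.map_one _ (map_zero _) (map_one _)]

theorem exists_place {R Φ : Type u} [CommRing R] [Algebra K R] [Field Φ] [Algebra K Φ]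
    (φ : R →ₐ[K] Φ) (ψ : R →ₐ[K] K) (hker : ∀ r, φ r = 0 → ψ r = 0) :
    ∃ (O : Type u) (_ : CommRing O) (_ : IsDomain O) (_ : ValuationRing O) (_ : Algebra K O)
      (e : O →ₐ[K] Φ) (θ : R →ₐ[K] O), Function.Injective e ∧ (∀ r, e (θ r) = φ r) ∧
      (∀ r, resA K O (θ r) = algebraMap K _ (ψ r)) ∧
      ∀ (x : Φ) (p : Polynomial O), p.Monic → (p.map (e : O →+* Φ)).IsRoot x → ∃ a, e a = x := by
  let A : Subring Φ := (φ : R →+* Φ).range
  let I : Ideal A := (RingHom.ker ψ).map (φ : R →+* Φ).rangeRestrict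
  have hI : I ≠ ⊤ := by
    intro h
    have h1 : (1 : A) ∈ I := h ▸ Submodule.mem_top
    obtain ⟨r, hr, hr1⟩ := (Ideal.mem_map_iff_of_surjective _
      (φ : R →+* Φ).rangeRestrict_surjective).1 h1
    have h2 : φ r = 1 := congrArg Subtype.val hr1
    have h3 : ψ (r - 1) = 0 := hker _ (by rw [map_sub, h2, map_one, sub_self])
    rw [map_sub, show ψ r = 0 from hr, map_one, zero_sub, neg_eq_zero] at h3
    exact one_ne_zero h3
  obtain ⟨V, hAV, hIV⟩ := Ideal.image_subset_nonunits_valuationSubring I hI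
  have hV : ∀ r, φ r ∈ V := fun r => hAV ⟨r, rfl⟩
  let θ0 : R →+* V := (φ : R →+* Φ).codRestrict V.toSubring hV
  let _ : Algebra K V := (θ0.comp (algebraMap K R)).toAlgebra
  let θ : R →ₐ[K] V := { θ0 with commutes' := fun _ => rfl }
  let e : V →ₐ[K] Φ := { V.subtype with commutes' := fun k => φ.commutes k }
  refine ⟨V, inferInstance, inferInstance, inferInstance, inferInstance, e, θ,
    Subtype.val_injective, fun _ => rfl, fun r => ?_, fun x p hp hx => ?_⟩
  · rw [← (resA K V).commutes, ← θ.commutes, ← sub_eq_zero, ← map_sub, ← map_sub]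
    apply (residue_eq_zero_iff _).2
    apply V.coe_mem_nonunits_iff.1
    apply hIV
    refine ⟨(φ : R →+* Φ).rangeRestrict (r - algebraMap K R (ψ r)), Ideal.mem_map_of_mem _ ?_, rfl⟩
    simp [RingHom.mem_ker]
  · have : IsIntegral V x := ⟨p, hp, by
      rw [← Polynomial.eval_map]; exact hx⟩
    exact IsIntegrallyClosed.isIntegral_iff.1 this

theorem SmM.arc {ι : Type} [Fintype ι] [DecidableEq ι] {M : Fin 3 → Matrix ι ι K}
    (hM : SmM K M) :
    ∃ (O Φ : Type u) (_ : CommRing O) (_ : IsDomain O) (_ : ValuationRing O) (_ : Algebra K O)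
      (_ : Field Φ) (_ : Algebra K Φ) (e : O →ₐ[K] Φ) (N : Fin 3 → Matrix ι ι O)
      (g h : Matrix ι ι Φ) (μ : Fin 3 → ι → O), Function.Injective e ∧ g * h = 1 ∧
      (∀ i, (N i).map e = g * diagonal (fun a => e (μ i a)) * h) ∧
      (∀ i, (N i).map (resA K O) = (M i).map (algebraMap K _)) ∧
      ∀ i, Function.Injective (μ i) := by
  let f := algebraMap (GenRing K ι) (GenField K ι)
  have hf : Function.Injective f := IsFractionRing.injective _ _
  let φ : MvPolynomial (Var ι) K →ₐ[K] GenField K ι :=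
    (IsScalarTower.toAlgHom K (GenRing K ι) (GenField K ι)).comp (aeval (ent (genM K ι)))
  obtain ⟨O, _, _, _, _, e, θ, he, hθ, hres, hint⟩ := exists_place φ (aeval (ent M))
    (fun P hP => hM P (hf (by rw [map_zero]; exact hP)))
  let N : Fin 3 → Matrix ι ι O := fun i => Matrix.of fun a b => θ (X (i, a, b))
  have hN : ∀ i, (N i).map e = (genM K ι i).map f := fun i => by
    ext a b; simp [N, hθ, φ, ent, f]
  set g := (genG K ι).map f with hg
  have hgh : g * g⁻¹ = 1 := genG_mul_inv
  have hhg : g⁻¹ * g = 1 := mul_eq_one_comm.1 hgh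
  have hroot : ∀ i a, ∃ m, e m = f ((genG K ι).det * genL K ι i a) := by
    intro i a
    refine hint _ (N i).charpoly (N i).charpoly_monic ?_
    rw [← charpoly_map]
    refine isRoot_charpoly_of_mulVec (v := g *ᵥ Pi.single a 1) ?_ ?_
    · intro h0
      have := congrArg (g⁻¹ *ᵥ ·) h0
      simp only [mulVec_mulVec, hhg, one_mulVec, mulVec_zero] at this
      simpa using congrFun this a
    · rw [show (N i).map (e : O →+* GenField K ι) = (N i).map e from rfl, hN, genM_eq,
        mulVec_mulVec, Matrix.mul_assoc, hhg, Matrix.mul_one, ← mulVec_mulVec, ← mulVec_smul]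
      congr 1
      ext b
      by_cases hb : b = a
      · subst hb; simp [mulVec_diagonal, f]
      · simp [mulVec_diagonal, hb]
  choose μ hμ using hroot
  refine ⟨O, GenField K ι, inferInstance, inferInstance, inferInstance, inferInstance,
    inferInstance, inferInstance, e, N, g, g⁻¹, μ, he, hgh, fun i => ?_, fun i => ?_,
    fun i a b hab => ?_⟩
  · rw [hN, genM_eq]; simp only [hμ]; rfl
  · ext a b
    simp only [N, Matrix.map_apply, Matrix.of_apply, hres]
    simp [ent]
  · have h1 := (hμ i a).symm.trans ((congrArg e hab).trans (hμ i b))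
    have h2 := mul_left_cancel₀ det_genG_ne_zero (hf h1)
    simpa [genL] using X_injective h2

end Pool.Agent.Lib.MP_ed43e6_ag
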