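import Mathlib

/-! Quotients of a polynomial ring in three variables by three polynomials
`X i ^ N + (lower degree)` are free on the monomials with all exponents below `N`. -/

namespace Pool.Agent.Lib.MP_ed43e6_ag

open Matrix MvPolynomial Finsupp

variable {O O' : Type*} [CommRing O] [CommRing O']

/-- Polynomials of total degree below `n`. -/
def low (O : Type*) [CommRing O] (n : ℕ) : Submodule O (MvPolynomial (Fin 3) O) where
  carrier := {p | ∀ m : Fin 3 →₀ ℕ, n ≤ degree m → coeff m p = 0}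
  add_mem' := fun hp hq m hm => by rw [coeff_add, hp m hm, hq m hm, add_zero]
  zero_mem' := fun m _ => rfl
  smul_mem' := fun c p hp m hm => by rw [coeff_smul, hp m hm, smul_zero]

theorem mem_low {n : ℕ} {p : MvPolynomial (Fin 3) O} :
    p ∈ low O n ↔ ∀ m : Fin 3 →₀ ℕ, n ≤ degree m → coeff m p = 0 := Iff.rfl

theorem low_mono {a b : ℕ} (h : a ≤ b) : low O a ≤ low O b :=
  fun _ hp m hm => hp m (h.trans hm)

theorem monomial_mem_low {n : ℕ} {m : Fin 3 →₀ ℕ} (h : degree m < n) (c : O) :
    monomial m c ∈ low O n := fun m' hm' => by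
  rw [coeff_monomial, if_neg]
  rintro rfl
  omega

theorem eq_zero_of_mem_low_zero {p : MvPolynomial (Fin 3) O} (h : p ∈ low O 0) : p = 0 := by
  ext m; exact h m (Nat.zero_le _)

theorem exists_mem_low (p : MvPolynomial (Fin 3) O) : ∃ n, p ∈ low O n :=
  ⟨p.totalDegree + 1, fun m hm => coeff_eq_zero_of_totalDegree_lt (by
    rw [degree_eq_sum] at hm
    rw [← Finset.sum_subset (Finset.subset_univ m.support)
      (fun i _ hi => by simpa using hi)] at hm
    omega)⟩

theorem mul_mem_low {a b : ℕ} {p q : MvPolynomial (Fin 3) O} (hp : p ∈ low O a)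
    (hq : q ∈ low O (b + 1)) : p * q ∈ low O (a + b) := fun m hm => by
  rw [coeff_mul]
  refine Finset.sum_eq_zero fun x hx => ?_
  have := congrArg degree (Finset.HasAntidiagonal.mem_antidiagonal.1 hx)
  rw [map_add] at this
  by_cases h : a ≤ degree x.1
  · rw [hp _ h, zero_mul]
  · rw [hq _ (by omega), mul_zero]

theorem map_mem_low {n : ℕ} {p : MvPolynomial (Fin 3) O} (hp : p ∈ low O n) (φ : O →+* O') :
    MvPolynomial.map φ p ∈ low O' n := fun m hm => by rw [coeff_map, hp m hm, map_zero]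

theorem mem_of_monomial {n : ℕ} {p : MvPolynomial (Fin 3) O} (hp : p ∈ low O n)
    {W : Type*} [AddCommGroup W] [Module O W] (L : MvPolynomial (Fin 3) O →ₗ[O] W)
    (U : Submodule O W) (h : ∀ m, degree m < n → L (monomial m 1) ∈ U) : L p ∈ U := by
  rw [p.as_sum, map_sum]
  refine Submodule.sum_mem _ fun m hm => ?_
  have : monomial m (coeff m p) = coeff m p • monomial m (1 : O) := by
    rw [smul_monomial, smul_eq_mul, mul_one]
  rw [this, map_smul]
  refine U.smul_mem _ (h m ?_)
  by_contra hc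
  exact (MvPolynomial.mem_support_iff.1 hm) (hp m (not_lt.1 hc))

/-- `p` is the monomial `m` plus terms of lower degree. -/
def Lead (p : MvPolynomial (Fin 3) O) (m : Fin 3 →₀ ℕ) : Prop :=
  p - monomial m 1 ∈ low O (degree m)

theorem lead_monomial (m : Fin 3 →₀ ℕ) : Lead (monomial m (1 : O)) m := by
  simp [Lead]

theorem Lead.mul {p q : MvPolynomial (Fin 3) O} {m m' : Fin 3 →₀ ℕ} (hp : Lead p m)
    (hq : Lead q m') : Lead (p * q) (m + m') := by
  have e : p * q - monomial (m + m') 1 =
      (p - monomial m 1) * q + (q - monomial m' 1) * monomial m 1 := by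
    rw [show monomial (m + m') (1 : O) = monomial m 1 * monomial m' 1 by
      rw [monomial_mul, one_mul]]
    ring
  have hq' : q ∈ low O (degree m' + 1) := by
    have := add_mem (low_mono (Nat.le_succ _) hq) (monomial_mem_low (Nat.lt_succ_self _) (1 : O))
    rwa [sub_add_cancel] at this
  rw [Lead, e, map_add]
  refine add_mem (mul_mem_low hp hq') ?_
  rw [add_comm]
  exact mul_mem_low hq (monomial_mem_low (Nat.lt_succ_self _) _)

theorem Lead.pow {p : MvPolynomial (Fin 3) O} {m : Fin 3 →₀ ℕ} (hp : Lead p m) (k : ℕ) :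
    Lead (p ^ k) (k • m) := by
  induction k with
  | zero => simpa using lead_monomial (O := O) 0
  | succ k ih => rw [pow_succ, succ_nsmul]; exact ih.mul hp

/-- Exponent vectors with all entries below `N`. -/
abbrev Std (N : ℕ) := Fin 3 → Fin N

noncomputable def expo {N : ℕ} (δ : Std N) : Fin 3 →₀ ℕ :=
  Finsupp.equivFunOnFinite.symm fun i => (δ i : ℕ)

@[simp] theorem expo_apply {N : ℕ} (δ : Std N) (i : Fin 3) : expo δ i = δ i := rfl

theorem expo_injective {N : ℕ} : Function.Injective (expo (N := N)) := fun a b h => by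
  funext i
  exact Fin.ext (by simpa using DFunLike.congr_fun h i)

theorem exists_expo {N : ℕ} {m : Fin 3 →₀ ℕ} (h : ∀ i, m i < N) : ∃ δ : Std N, expo δ = m :=
  ⟨fun i => ⟨m i, h i⟩, by ext i; rfl⟩

/-- The polynomial with given coefficients on the standard monomials. -/
noncomputable def stdL (O : Type*) [CommRing O] (N : ℕ) :
    (Std N → O) →ₗ[O] MvPolynomial (Fin 3) O :=
  ∑ δ, (monomial (expo δ)).comp (LinearMap.proj δ)

theorem stdL_apply {N : ℕ} (a : Std N → O) : stdL O N a = ∑ δ, monomial (expo δ) (a δ) := by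
  simp [stdL]

theorem stdL_single {N : ℕ} (δ : Std N) (c : O) :
    stdL O N (Pi.single δ c) = monomial (expo δ) c := by
  rw [stdL_apply, Finset.sum_eq_single δ (fun b _ hb => by simp [hb]) (by simp)]
  simp

theorem coeff_stdL {N : ℕ} (a : Std N → O) (δ : Std N) : coeff (expo δ) (stdL O N a) = a δ := by
  rw [stdL_apply, coeff_sum, Finset.sum_eq_single δ
    (fun b _ hb => by rw [coeff_monomial, if_neg (expo_injective.ne hb)]) (by simp)]
  simp

theorem map_stdL {N : ℕ} (φ : O →+* O') (a : Std N → O) :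
    MvPolynomial.map φ (stdL O N a) = stdL O' N fun δ => φ (a δ) := by
  simp [stdL_apply]

theorem exists_stdL {N : ℕ} {p : MvPolynomial (Fin 3) O} (hp : p ∈ low O N) :
    ∃ a, stdL O N a = p := by
  refine mem_of_monomial hp LinearMap.id (LinearMap.range (stdL O N)) fun m hm => ?_
  obtain ⟨δ, rfl⟩ := exists_expo (N := N) (m := m) fun i => (le_degree i m).trans_lt hm
  exact ⟨_, stdL_single δ 1⟩

/-- Each `F i` is `X i ^ N` plus terms of degree below `N`. -/
def IsMon (N : ℕ) (F : Fin 3 → MvPolynomial (Fin 3) O) : Prop :=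
  0 < N ∧ ∀ i, F i - X i ^ N ∈ low O N

theorem IsMon.map {N : ℕ} {F : Fin 3 → MvPolynomial (Fin 3) O} (h : IsMon N F) (φ : O →+* O') :
    IsMon N fun i => MvPolynomial.map φ (F i) :=
  ⟨h.1, fun i => by simpa using map_mem_low (h.2 i) φ⟩

theorem exists_nf {N : ℕ} {F : Fin 3 → MvPolynomial (Fin 3) O} (hF : IsMon N F) :
    ∃ nf : MvPolynomial (Fin 3) O →ₗ[O] (Std N → O), (∀ a, nf (stdL O N a) = a) ∧
      (∀ f, f - stdL O N (nf f) ∈ Ideal.span (Set.range F)) ∧
      (∀ f ∈ Ideal.span (Set.range F), nf f = 0) ∧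
      ∀ f δ, f ∈ low O (degree (expo δ) + 1) → nf f δ = coeff (expo δ) f := by
  have hN := hF.1
  let rem : (Fin 3 →₀ ℕ) → (Fin 3 →₀ ℕ) := fun γ => γ.mapRange (· % N) (Nat.zero_mod N)
  let Ψ : MvPolynomial (Fin 3) O →ₗ[O] MvPolynomial (Fin 3) O :=
    (basisMonomials (Fin 3) O).constr O fun γ => (∏ i, F i ^ (γ i / N)) * monomial (rem γ) 1
  have hΨ : ∀ γ, Ψ (monomial γ 1) = (∏ i, F i ^ (γ i / N)) * monomial (rem γ) 1 := fun γ =>
    (basisMonomials (Fin 3) O).constr_basis O _ γ
  have hL : ∀ i, Lead (F i) (single i N) := fun i => by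
    have := hF.2 i
    rwa [Lead, ← X_pow_eq_monomial, degree_single]
  have hT : ∀ γ, Lead (Ψ (monomial γ 1)) γ := fun γ => by
    have := ((((hL 0).pow (γ 0 / N)).mul ((hL 1).pow (γ 1 / N))).mul ((hL 2).pow (γ 2 / N))).mul
      (lead_monomial (rem γ))
    rw [hΨ, Fin.prod_univ_three]
    convert this using 1
    ext i
    fin_cases i <;> simp [rem, Nat.div_add_mod']
  have h1 : ∀ n f, f ∈ low O (n + 1) → Ψ f - f ∈ low O n := fun n f hf =>
    mem_of_monomial hf (Ψ - LinearMap.id) _ fun m hm => low_mono (by omega) (hT m)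
  have hinj : ∀ n g, Ψ g ∈ low O n → g ∈ low O n := by
    intro n g hg
    obtain ⟨k, hk⟩ := exists_mem_low g
    have : ∀ j, g ∈ low O (n + j) → g ∈ low O n := by
      intro j
      induction j with
      | zero => exact id
      | succ j ih =>
        intro h
        have := sub_mem (low_mono (Nat.le_add_right n j) hg) (h1 (n + j) g h)
        exact ih (by simpa using this)
    exact this k (low_mono (Nat.le_add_left _ _) hk)
  have hsurj : ∀ n f, f ∈ low O n → ∃ g, Ψ g = f := by
    intro n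
    induction n with
    | zero => intro f hf; exact ⟨0, by rw [eq_zero_of_mem_low_zero hf, map_zero]⟩
    | succ n ih =>
      intro f hf
      obtain ⟨g, hg⟩ := ih _ (h1 n f hf)
      exact ⟨f - g, by rw [map_sub, hg]; simp⟩
  let E : MvPolynomial (Fin 3) O ≃ₗ[O] MvPolynomial (Fin 3) O := LinearEquiv.ofBijective Ψ
    ⟨(injective_iff_map_eq_zero Ψ).2 fun g hg =>
      eq_zero_of_mem_low_zero (hinj 0 g (hg ▸ zero_mem _)),
     fun f => by obtain ⟨n, hn⟩ := exists_mem_low f; exact hsurj n f hn⟩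
  have hE : ∀ g, E.symm (Ψ g) = g := E.symm_apply_apply
  have hE' : ∀ f, Ψ (E.symm f) = f := E.apply_symm_apply
  let cf : MvPolynomial (Fin 3) O →ₗ[O] (Std N → O) := LinearMap.pi fun δ => lcoeff O (expo δ)
  have hcf : ∀ g δ, cf g δ = coeff (expo δ) g := fun _ _ => rfl
  have hstd : ∀ δ : Std N, Ψ (monomial (expo δ) 1) = monomial (expo δ) 1 := fun δ => by
    rw [hΨ, Finset.prod_eq_one, one_mul]
    · congr 2
      ext i
      simp [rem, Nat.mod_eq_of_lt (δ i).2]
    · intro i _
      rw [expo_apply, Nat.div_eq_of_lt (δ i).2, pow_zero]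
  have hstdL : ∀ a, Ψ (stdL O N a) = stdL O N a := fun a => by
    rw [stdL_apply, map_sum]
    refine Finset.sum_congr rfl fun δ _ => ?_
    have : monomial (expo δ) (a δ) = a δ • monomial (expo δ) (1 : O) := by
      rw [smul_monomial, smul_eq_mul, mul_one]
    rw [this, map_smul, hstd]
  have hmul : ∀ i g, Ψ (X i ^ N * g) = F i * Ψ g := fun i g => by
    have : Ψ ∘ₗ LinearMap.mulLeft O (X i ^ N) = LinearMap.mulLeft O (F i) ∘ₗ Ψ := by
      refine (basisMonomials (Fin 3) O).ext fun γ => ?_
      simp only [coe_basisMonomials, LinearMap.comp_apply, LinearMap.mulLeft_apply]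
      rw [X_pow_eq_monomial, monomial_mul, one_mul, hΨ, hΨ, ← mul_assoc]
      congr 1
      · fin_cases i <;> simp [Fin.prod_univ_three, Nat.add_div_left _ hN] <;> ring
      · congr 2
        ext j
        by_cases hj : j = i
        · subst hj; simp [rem]
        · simp [rem, single_eq_of_ne hj]
    exact LinearMap.congr_fun this g
  refine ⟨cf ∘ₗ E.symm.toLinearMap, fun a => ?_, fun f => ?_, fun f hf => ?_, fun f δ hf => ?_⟩
  · funext δ
    rw [← hstdL a]
    simp only [LinearMap.comp_apply, LinearEquiv.coe_coe, hE, hcf, coeff_stdL]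
  · obtain ⟨n, hn⟩ := exists_mem_low (E.symm f)
    have := mem_of_monomial hn (Ψ - stdL O N ∘ₗ cf)
      ((Ideal.span (Set.range F)).restrictScalars O) fun m _ => by
        simp only [LinearMap.sub_apply, LinearMap.comp_apply, Submodule.restrictScalars_mem]
        by_cases hm : ∀ i, m i < N
        · obtain ⟨δ, rfl⟩ := exists_expo hm
          have : cf (monomial (expo δ) 1) = Pi.single δ 1 := by
            funext δ'
            rw [← stdL_single, hcf, coeff_stdL]
          rw [hstd, this, stdL_single, sub_self]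
          exact zero_mem _
        · push Not at hm
          obtain ⟨i, hi⟩ := hm
          have : cf (monomial m 1) = 0 := by
            funext δ
            rw [hcf, coeff_monomial, if_neg, Pi.zero_apply]
            rintro rfl
            exact absurd (δ i).2 (not_lt.2 hi)
          rw [this, map_zero, sub_zero, hΨ]
          refine Ideal.mul_mem_right _ _ (Ideal.mem_of_dvd _
            ((dvd_pow_self (F i) ?_).trans (Finset.dvd_prod_of_mem _ (Finset.mem_univ i)))
            (Ideal.subset_span ⟨i, rfl⟩))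
          exact (Nat.div_pos hi hN).ne'
    simpa [hE'] using this
  · obtain ⟨c, rfl⟩ := Ideal.mem_span_range_iff_exists_fun.1 hf
    rw [map_sum]
    refine Finset.sum_eq_zero fun i _ => ?_
    rw [← hE' (c i), mul_comm, ← hmul]
    funext δ
    simp only [LinearMap.comp_apply, LinearEquiv.coe_coe, hE, hcf, X_pow_eq_monomial,
      coeff_monomial_mul', Pi.zero_apply]
    rw [if_neg]
    simp
  · have h2 := h1 _ _ (hinj _ (E.symm f) (by rwa [hE']))
    have := h2 (expo δ) le_rfl
    rw [hE', coeff_sub, sub_eq_zero] at this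
    exact this.symm

/-- `A i` is the matrix of multiplication by `X i` on the standard monomials modulo `F`. -/
def IsReg {N : ℕ} (F : Fin 3 → MvPolynomial (Fin 3) O) (A : Fin 3 → Matrix (Std N) (Std N) O) :
    Prop :=
  ∀ i δ, X i * monomial (expo δ) 1 - stdL O N (fun δ' => A i δ' δ) ∈ Ideal.span (Set.range F)

theorem map_mem_span {F : Fin 3 → MvPolynomial (Fin 3) O} (φ : O →+* O')
    {f : MvPolynomial (Fin 3) O} (hf : f ∈ Ideal.span (Set.range F)) :
    MvPolynomial.map φ f ∈ Ideal.span (Set.range fun i => MvPolynomial.map φ (F i)) := by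
  have := Ideal.mem_map_of_mem (MvPolynomial.map φ) hf
  rwa [Ideal.map_span, ← Set.range_comp] at this

theorem IsReg.map {N : ℕ} {F : Fin 3 → MvPolynomial (Fin 3) O}
    {A : Fin 3 → Matrix (Std N) (Std N) O} (h : IsReg F A) (φ : O →+* O') :
    IsReg (fun i => MvPolynomial.map φ (F i)) fun i => (A i).map φ := fun i δ => by
  simpa [map_stdL] using map_mem_span φ (h i δ)

theorem IsMon.eq_of_sub_mem {N : ℕ} {F : Fin 3 → MvPolynomial (Fin 3) O} (hF : IsMon N F)
    {a b : Std N → O} (h : stdL O N a - stdL O N b ∈ Ideal.span (Set.range F)) : a = b := by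
  obtain ⟨nf, h1, -, h3, -⟩ := exists_nf hF
  have := h3 _ h
  rwa [map_sub, h1, h1, sub_eq_zero] at this

theorem IsReg.unique {N : ℕ} {F : Fin 3 → MvPolynomial (Fin 3) O} (hF : IsMon N F)
    {A B : Fin 3 → Matrix (Std N) (Std N) O} (hA : IsReg F A) (hB : IsReg F B) : A = B := by
  funext i
  ext δ' δ
  have := sub_mem (hB i δ) (hA i δ)
  rw [sub_sub_sub_cancel_left] at this
  exact congrFun (hF.eq_of_sub_mem this) δ'

theorem IsReg.mulVec {N : ℕ} {F : Fin 3 → MvPolynomial (Fin 3) O}
    {A : Fin 3 → Matrix (Std N) (Std N) O} (h : IsReg F A) (i : Fin 3) (a : Std N → O) :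
    X i * stdL O N a - stdL O N (A i *ᵥ a) ∈ Ideal.span (Set.range F) := by
  have : A i *ᵥ a = ∑ δ, a δ • fun δ' => A i δ' δ := by
    funext δ'
    simp [Matrix.mulVec, dotProduct, mul_comm]
  rw [this, map_sum, stdL_apply a, Finset.mul_sum, ← Finset.sum_sub_distrib]
  refine Submodule.sum_mem _ fun δ _ => ?_
  have e : monomial (expo δ) (a δ) = a δ • monomial (expo δ) (1 : O) := by
    rw [smul_monomial, smul_eq_mul, mul_one]
  rw [e, map_smul, mul_smul_comm, ← smul_sub]
  exact Submodule.smul_of_tower_mem _ _ (h i δ)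

theorem exists_reg {N : ℕ} {F : Fin 3 → MvPolynomial (Fin 3) O} (hF : IsMon N F) :
    ∃ ρ : MvPolynomial (Fin 3) O →ₐ[O] Matrix (Std N) (Std N) O, IsReg F (fun i => ρ (X i)) ∧
      ∀ h a, h * stdL O N a - stdL O N (ρ h *ᵥ a) ∈ Ideal.span (Set.range F) := by
  obtain ⟨nf, h1, h2, h3, -⟩ := exists_nf hF
  let L : MvPolynomial (Fin 3) O →ₗ[O] Matrix (Std N) (Std N) O :=
    { toFun := fun h => LinearMap.toMatrix' (nf ∘ₗ LinearMap.mulLeft O h ∘ₗ stdL O N)
      map_add' := fun p q => by
        rw [← map_add]; congr 1; refine LinearMap.ext fun a => ?_; simp [add_mul]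
      map_smul' := fun c p => by
        rw [← map_smul]; congr 1; refine LinearMap.ext fun a => ?_; simp }
  have hL : ∀ h a, L h *ᵥ a = nf (h * stdL O N a) := fun h a =>
    LinearMap.toMatrix'_mulVec (nf ∘ₗ LinearMap.mulLeft O h ∘ₗ stdL O N) a
  have hext : ∀ A B : Matrix (Std N) (Std N) O, (∀ a, A *ᵥ a = B *ᵥ a) → A = B :=
    fun A B h => Matrix.toLin'.injective (LinearMap.ext h)
  refine ⟨AlgHom.ofLinearMap L (hext _ _ fun a => by rw [hL, one_mul, h1, one_mulVec])
    fun p q => hext _ _ fun a => ?_, fun i δ => ?_, fun h a => ?_⟩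
  · rw [← mulVec_mulVec, hL, hL, hL, ← sub_eq_zero, ← map_sub, mul_assoc, ← mul_sub]
    exact h3 _ (Ideal.mul_mem_left _ _ (h2 _))
  · have := h2 (X i * monomial (expo δ) 1)
    rw [← stdL_single, ← hL] at this
    rw [← stdL_single]
    convert this using 3
    funext δ'
    simp
  · have := h2 (h * stdL O N a)
    rwa [← hL] at this

theorem IsReg.vecMul_eval {N : ℕ} {F : Fin 3 → MvPolynomial (Fin 3) O}
    {A : Fin 3 → Matrix (Std N) (Std N) O} (h : IsReg F A) (p : Fin 3 → O)
    (hp : ∀ i, eval p (F i) = 0) (i : Fin 3) :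
    (A i)ᵀ *ᵥ (fun δ => eval p (monomial (expo δ) 1)) =
      p i • fun δ => eval p (monomial (expo δ) 1) := by
  funext δ
  have hk : Ideal.span (Set.range F) ≤ RingHom.ker (eval p) := by
    rw [Ideal.span_le]; rintro _ ⟨j, rfl⟩; exact hp j
  have := hk (h i δ)
  rw [RingHom.mem_ker, map_sub, sub_eq_zero, map_mul, eval_X, stdL_apply, map_sum] at this
  rw [Pi.smul_apply, smul_eq_mul, this]
  simp [Matrix.mulVec, dotProduct, eval_monomial]

end Pool.Agent.Lib.MP_ed43e6_ag
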