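import Pool.Agent.Lib.MP_ed43e6_ag.Local

/-! Polynomial families over the affine line and semicontinuity. -/

namespace Pool.Agent.Lib.MP_ed43e6_ag

open MvPolynomial Module Matrix

universe u

variable {K : Type u} [Field K]

/-- Polynomial maps from the line to a vector space. -/
def PF (K : Type u) [Field K] (W : Type*) [AddCommGroup W] [Module K W] : Submodule K (K → W) :=
  Submodule.span K {f | ∃ (k : ℕ) (w : W), f = fun t => t ^ k • w}

variable {W W' W'' : Type*} [AddCommGroup W] [Module K W] [AddCommGroup W'] [Module K W']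
  [AddCommGroup W''] [Module K W'']

theorem pf_pow (k : ℕ) (w : W) : (fun t : K => t ^ k • w) ∈ PF K W :=
  Submodule.subset_span ⟨k, w, rfl⟩

theorem pf_const (w : W) : (fun _ : K => w) ∈ PF K W := by simpa using pf_pow (K := K) 0 w

theorem pf_add {f g : K → W} (hf : f ∈ PF K W) (hg : g ∈ PF K W) :
    (fun t => f t + g t) ∈ PF K W := add_mem hf hg

theorem pf_sub {f g : K → W} (hf : f ∈ PF K W) (hg : g ∈ PF K W) :
    (fun t => f t - g t) ∈ PF K W := sub_mem hf hg

theorem pf_csmul (c : K) {f : K → W} (hf : f ∈ PF K W) : (fun t => c • f t) ∈ PF K W :=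
  Submodule.smul_mem _ c hf

theorem pf_line (a b : W) : (fun t : K => (1 - t) • a + t • b) ∈ PF K W := by
  have := add_mem (sub_mem (pf_const (K := K) a) (pf_pow (K := K) 1 a)) (pf_pow (K := K) 1 b)
  convert this using 1
  funext t; simp [sub_smul]

theorem pf_comp (L : W →ₗ[K] W') {f : K → W} (hf : f ∈ PF K W) : (fun t => L (f t)) ∈ PF K W' := by
  induction hf using Submodule.span_induction with
  | mem f hf => obtain ⟨k, w, rfl⟩ := hf; simpa using pf_pow k (L w)
  | zero => simpa using pf_const (K := K) (0 : W')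
  | add f g _ _ hf hg => simpa using pf_add hf hg
  | smul c f _ hf => simpa using pf_csmul c hf

theorem pf_bilin (B : W →ₗ[K] W' →ₗ[K] W'') {f : K → W} {g : K → W'} (hf : f ∈ PF K W)
    (hg : g ∈ PF K W') : (fun t => B (f t) (g t)) ∈ PF K W'' := by
  induction hf using Submodule.span_induction with
  | mem f hf =>
    obtain ⟨k, w, rfl⟩ := hf
    induction hg using Submodule.span_induction with
    | mem g hg =>
      obtain ⟨l, w', rfl⟩ := hg
      simpa [smul_smul, pow_add, mul_comm] using pf_pow (k + l) (B w w')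
    | zero => simpa using pf_const (K := K) (0 : W'')
    | add g g' _ _ hg hg' => simpa using pf_add hg hg'
    | smul c g _ hg => simpa using pf_csmul c hg
  | zero => simpa using pf_const (K := K) (0 : W'')
  | add f f' _ _ hf hf' => simpa using pf_add hf hf'
  | smul c f _ hf => simpa using pf_csmul c hf

theorem pf_smul {f : K → K} {g : K → W} (hf : f ∈ PF K K) (hg : g ∈ PF K W) :
    (fun t => f t • g t) ∈ PF K W := pf_bilin (LinearMap.lsmul K W) hf hg

theorem pf_mul {A : Type*} [Ring A] [Algebra K A] {f g : K → A} (hf : f ∈ PF K A)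
    (hg : g ∈ PF K A) : (fun t => f t * g t) ∈ PF K A := pf_bilin (LinearMap.mul K A) hf hg

theorem pf_sum {ι : Type*} (s : Finset ι) {f : ι → K → W} (hf : ∀ i ∈ s, f i ∈ PF K W) :
    (fun t => ∑ i ∈ s, f i t) ∈ PF K W := by
  have := Submodule.sum_mem _ hf
  rwa [show ∑ i ∈ s, f i = fun t => ∑ i ∈ s, f i t from funext fun t => by simp] at this

theorem pf_prod {ι : Type*} (s : Finset ι) {f : ι → K → K} (hf : ∀ i ∈ s, f i ∈ PF K K) :
    (fun t => ∏ i ∈ s, f i t) ∈ PF K K := by
  classical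
  induction s using Finset.induction_on with
  | empty => simpa using pf_const (K := K) (1 : K)
  | insert a s ha ih =>
    simp only [Finset.prod_insert ha]
    exact pf_mul (hf a (Finset.mem_insert_self _ _))
      (ih fun i hi => hf i (Finset.mem_insert_of_mem hi))

theorem pf_det {ι : Type*} [Fintype ι] [DecidableEq ι] {A : K → Matrix ι ι K}
    (hA : ∀ i j, (fun t => A t i j) ∈ PF K K) : (fun t => (A t).det) ∈ PF K K := by
  simp only [det_apply']
  exact pf_sum _ fun σ _ => pf_mul (pf_const _) (pf_prod _ fun i _ => hA _ _)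

theorem pf_poly {f : K → K} (hf : f ∈ PF K K) : ∃ p : Polynomial K, ∀ t, f t = p.eval t := by
  induction hf using Submodule.span_induction with
  | mem f hf => obtain ⟨k, w, rfl⟩ := hf; exact ⟨Polynomial.monomial k w, by simp [mul_comm]⟩
  | zero => exact ⟨0, by simp⟩
  | add f g _ _ hf hg =>
    obtain ⟨p, hp⟩ := hf; obtain ⟨q, hq⟩ := hg; exact ⟨p + q, by simp [hp, hq]⟩
  | smul c f _ hf => obtain ⟨p, hp⟩ := hf; exact ⟨c • p, by simp [hp]⟩

theorem pf_finite {f : K → K} (hf : f ∈ PF K K) {t0 : K} (h : f t0 ≠ 0) :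
    {t | f t = 0}.Finite := by
  obtain ⟨p, hp⟩ := pf_poly hf
  have hp0 : p ≠ 0 := by rintro rfl; exact h (by simp [hp])
  simpa only [hp, Polynomial.IsRoot] using Polynomial.finite_setOfPred_isRoot hp0

theorem pf_bij [FiniteDimensional K W] {A : K → End K W} (hA : ∀ w, (fun t => A t w) ∈ PF K W)
    {t0 : K} (h : A t0 = 1) : {t | ¬ Function.Bijective (A t)}.Finite := by
  let b := Module.finBasis K W
  have h1 : (fun t => (LinearMap.toMatrix b b (A t)).det) ∈ PF K K := pf_det fun i j => by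
    simpa [LinearMap.toMatrix_apply] using pf_comp (b.coord i) (hA (b j))
  refine (pf_finite h1 (t0 := t0) (by simp [h])).subset fun t ht => ?_
  by_contra h0
  apply ht
  rw [← End.isUnit_iff, LinearMap.isUnit_iff_isUnit_det, ← LinearMap.det_toMatrix b]
  exact IsUnit.mk0 _ h0

theorem pf_surj [FiniteDimensional K W] {A : K → W' →ₗ[K] W} (hA : ∀ w, (fun t => A t w) ∈ PF K W)
    {t0 : K} (h : Function.Surjective (A t0)) : {t | ¬ Function.Surjective (A t)}.Finite := by
  obtain ⟨s, hs⟩ := LinearMap.exists_rightInverse_of_surjective _ (LinearMap.range_eq_top.2 h)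
  refine (pf_bij (A := fun t => A t ∘ₗ s) (fun w => hA (s w)) hs).subset fun t ht hb => ht ?_
  exact Function.Surjective.of_comp (g := s) hb.2

theorem pf_inj [FiniteDimensional K W'] {A : K → W' →ₗ[K] W}
    (hA : ∀ w, (fun t => A t w) ∈ PF K W)
    {t0 : K} (h : Function.Injective (A t0)) : {t | ¬ Function.Injective (A t)}.Finite := by
  obtain ⟨s, hs⟩ := LinearMap.exists_leftInverse_of_injective _ (LinearMap.ker_eq_bot.2 h)
  refine (pf_bij (A := fun t => s ∘ₗ A t) (fun w => pf_comp s (hA w)) hs).subset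
    fun t ht hb => ht ?_
  exact Function.Injective.of_comp (f := s) hb.1

theorem sm_of_curve {T : K → Fin 3 → End K W} (hT : ∀ i w, (fun t => T t i w) ∈ PF K W)
    (h : {t | Sm (T t)}.Infinite) : Sm (T 0) := by
  obtain ⟨t0, ht0⟩ := h.nonempty
  obtain ⟨ι, _, _, b, -⟩ := id ht0
  refine ⟨ι, inferInstance, inferInstance, b, fun P hP => ?_⟩
  have h1 : ∀ Q : MvPolynomial (Var ι) K,
      (fun t => aeval (ent fun i => LinearMap.toMatrix b b (T t i)) Q) ∈ PF K K := fun Q => by
    induction Q using MvPolynomial.induction_on with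
    | C a => simpa using pf_const (K := K) a
    | add p q hp hq => simpa using pf_add hp hq
    | mul_X p v hp =>
      simp only [map_mul, aeval_X]
      refine pf_mul hp ?_
      simpa [ent, LinearMap.toMatrix_apply] using pf_comp (b.coord v.2.1) (hT v.1 (b v.2.2))
  by_contra h0
  exact h ((pf_finite (h1 P) h0).subset fun t ht => Sm.smM ht b P hP)

theorem semicont {f : K → Fin 3 → SS K} (hf : ∀ i, (fun t => f t i) ∈ PF K (SS K)) (M : ℕ)
    (t0 : K) : {t | finrank K (SS K ⧸ (Ideal.span (Set.range (f t0)) ⊔ mm K ^ M)) <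
      finrank K (SS K ⧸ (Ideal.span (Set.range (f t)) ⊔ mm K ^ M))}.Finite := by
  have : Module.Finite K (SS K ⧸ mm K ^ M) := finite_quot le_rfl
  set J := fun t => Ideal.span (Set.range (f t)) ⊔ mm K ^ M with hJ
  obtain ⟨σ, hσ⟩ := LinearMap.exists_rightInverse_of_surjective
    (Ideal.Quotient.mkₐ K (J t0)).toLinearMap
    (LinearMap.range_eq_top.2 Ideal.Quotient.mk_surjective)
  have hσ' : ∀ x, Ideal.Quotient.mk (J t0) (σ x) = x := fun x => LinearMap.congr_fun hσ x
  let A : K → ((Fin 3 → SS K) × (SS K ⧸ J t0)) →ₗ[K] (SS K ⧸ mm K ^ M) := fun t =>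
    (Ideal.Quotient.mkₐ K _).toLinearMap ∘ₗ
      ((Fintype.linearCombination (SS K) (f t)).restrictScalars K).coprod σ
  have hA : ∀ t a y, A t (a, y) = Ideal.Quotient.mk _ (∑ i, a i * f t i + σ y) := fun _ _ _ => rfl
  refine (pf_surj (A := A) (t0 := t0) (fun ⟨a, y⟩ => ?_) fun x => ?_).subset fun t ht hs => ?_
  · refine pf_comp (Ideal.Quotient.mkₐ K (mm K ^ M)).toLinearMap
      (f := fun t => ∑ i, a i * f t i + σ y) ?_
    exact add_mem (pf_sum _ fun i _ => pf_mul (pf_const _) (hf i)) (pf_const _)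
  · obtain ⟨g, rfl⟩ := Ideal.Quotient.mk_surjective x
    obtain ⟨g1, h1, g2, h2, h3⟩ := Submodule.mem_sup.1
      (Ideal.Quotient.eq.1 (hσ' (Ideal.Quotient.mk _ g)).symm)
    obtain ⟨a, rfl⟩ := Ideal.mem_span_range_iff_exists_fun.1 h1
    refine ⟨(a, Ideal.Quotient.mk _ g), ?_⟩
    rw [hA, eq_comm, Ideal.Quotient.eq, add_comm, ← sub_sub, ← h3, add_sub_cancel_left]
    exact h2
  · refine absurd ht (not_lt.2 (LinearMap.finrank_le_finrank_of_surjective
      (f := (Ideal.Quotient.mkₐ K (J t)).toLinearMap ∘ₗ σ) fun x => ?_))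
    obtain ⟨g, rfl⟩ := Ideal.Quotient.mk_surjective x
    obtain ⟨⟨a, y⟩, h⟩ := hs (Ideal.Quotient.mk _ g)
    refine ⟨y, Ideal.Quotient.eq.2 ?_⟩
    rw [hA, Ideal.Quotient.eq] at h
    have := sub_mem (Ideal.mem_sup_right (S := Ideal.span (Set.range (f t))) h)
      (Ideal.mem_sup_left (Ideal.mem_span_range_iff_exists_fun.2 ⟨a, rfl⟩))
    rwa [sub_right_comm, add_sub_cancel_left] at this

end Pool.Agent.Lib.MP_ed43e6_ag
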