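import Pool.Agent.Lib.MP_ed43e6_ag.Tree
import Pool.Agent.Lib.MP_ed43e6_ag.PolyFam

/-! An ideal of colength at most eleven, not inside the cube of the maximal ideal, contains three
elements of local length at most twice the colength plus one. -/

namespace Pool.Agent.Lib.MP_ed43e6_ag

open MvPolynomial Module

universe u

variable {K : Type u} [Field K]

/-- A weight that refines the degree. -/
def wt (x : Fin 3 →₀ ℕ) : ℕ := 400 * x 0 + 401 * x 1 + 420 * x 2

/-- `x` is the exponent of the lowest term of an element of `I`. -/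
def InJ (I : Ideal (SS K)) (x : Fin 3 →₀ ℕ) : Prop :=
  ∃ g ∈ I, coeff x g = 1 ∧ ∀ y, coeff y g ≠ 0 → y ≠ x → wt x < wt y

theorem InJ.add {I : Ideal (SS K)} {x : Fin 3 →₀ ℕ} (h : InJ I x) (z : Fin 3 →₀ ℕ) :
    InJ I (z + x) := by
  obtain ⟨g, hg, h1, h2⟩ := h
  refine ⟨monomial z 1 * g, Ideal.mul_mem_left _ _ hg, by rw [coeff_monomial_mul, h1, one_mul],
    fun y hy hne => ?_⟩
  rw [coeff_monomial_mul'] at hy
  split_ifs at hy with hz
  · obtain ⟨y', rfl⟩ := le_iff_exists_add.1 hz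
    rw [add_tsub_cancel_left, one_mul] at hy
    have := h2 y' hy fun h => hne (by rw [h])
    simp only [wt, Finsupp.add_apply] at this ⊢
    omega
  · exact absurd rfl hy

theorem wt_inj {y z : Fin 3 →₀ ℕ} (h : wt y = wt z) (hy : wt y < 8000) : z = y := by
  have aux : ∀ q n r n' r' : ℕ, r < q → r' < q → q * n + r = q * n' + r' → n = n' ∧ r = r' :=
    fun q n r n' r' h1 h2 h3 => by
      have h4 := congrArg (· % q) h3
      simp only [Nat.mul_add_mod, Nat.mod_eq_of_lt h1, Nat.mod_eq_of_lt h2] at h4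
      subst h4
      exact ⟨Nat.eq_of_mul_eq_mul_left (by omega) (Nat.add_right_cancel h3), rfl⟩
  simp only [wt] at h hy
  obtain ⟨h1, h2⟩ := aux 400 (y 0 + y 1 + y 2) (y 1 + 20 * y 2) (z 0 + z 1 + z 2) (z 1 + 20 * z 2)
    (by omega) (by omega) (by omega)
  obtain ⟨h3, h4⟩ := aux 20 (y 2) (y 1) (z 2) (z 1) (by omega) (by omega) (by omega)
  ext i
  fin_cases i <;> simp <;> omega

theorem exists_inJ {I : Ideal (SS K)} {g : SS K} (hg : g ∈ I) {x : Fin 3 →₀ ℕ}
    (hx : coeff x g ≠ 0) (hw : wt x < 8000) : ∃ y, coeff y g ≠ 0 ∧ wt y ≤ wt x ∧ InJ I y := by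
  obtain ⟨y, hy, hmin⟩ := Finset.exists_min_image g.support wt ⟨x, mem_support_iff.2 hx⟩
  have hy' := mem_support_iff.1 hy
  have h1 := hmin x (mem_support_iff.2 hx)
  refine ⟨y, hy', h1, (coeff y g)⁻¹ • g, Submodule.smul_of_tower_mem _ _ hg, by simp [hy'],
    fun z hz hne => ?_⟩
  have h2 := hmin z (mem_support_iff.2 fun h => hz (by simp [h]))
  exact lt_of_le_of_ne h2 fun h => hne (wt_inj h (h1.trans_lt hw))

theorem toF_injective : Function.Injective toF := fun a b h => by
  have h0 := DFunLike.congr_fun h 0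
  have h1 := DFunLike.congr_fun h 1
  have h2 := DFunLike.congr_fun h 2
  ext
  exacts [h0, h1, h2]

theorem length_le_finrank {I : Ideal (SS K)} [Module.Finite K (SS K ⧸ I)] (inn : List Mono)
    (hn : inn.Nodup) (h : ∀ m ∈ inn, ¬ InJ I (toF m) ∧ m.1 + m.2.1 + m.2.2 < 20) :
    inn.length ≤ finrank K (SS K ⧸ I) := by
  rw [← List.toFinset_card_of_nodup hn, ← Fintype.card_coe]
  refine LinearIndependent.fintype_card_le_finrank
    (b := fun m : inn.toFinset => Ideal.Quotient.mk I (mon K m)) ?_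
  rw [Fintype.linearIndependent_iff]
  intro c hc m
  by_contra hm
  have hg : ∑ m : inn.toFinset, c m • mon K m ∈ I := by
    rw [← Ideal.Quotient.eq_zero_iff_mem, map_sum]
    exact hc
  have hco : ∀ y, coeff y (∑ m : inn.toFinset, c m • mon K m) ≠ 0 → ∃ m ∈ inn, toF m = y := by
    intro y hy
    rw [coeff_sum] at hy
    obtain ⟨m', -, h'⟩ := Finset.exists_ne_zero_of_sum_ne_zero hy
    refine ⟨m', List.mem_toFinset.1 m'.2, ?_⟩
    by_contra hne
    exact h' (by rw [coeff_smul, mon, coeff_monomial, if_neg hne, smul_zero])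
  have hx : coeff (toF m) (∑ m : inn.toFinset, c m • mon K m) ≠ 0 := by
    rw [coeff_sum, Finset.sum_eq_single m (fun b _ hb => by
      rw [coeff_smul, mon, coeff_monomial,
        if_neg (fun h => hb (Subtype.ext (toF_injective h))), smul_zero]) (by simp)]
    simpa [mon] using hm
  obtain ⟨y, hy, -, hJ⟩ := exists_inJ hg hx (by
    have := (h m (List.mem_toFinset.1 m.2)).2
    simp only [wt, toF_zero, toF_one, toF_two]
    omega)
  obtain ⟨m', hm', rfl⟩ := hco y hy
  exact (h m' hm').1 hJ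

/-- The torus action with the weights of `wt`. -/
noncomputable def tor (t : K) : SS K →ₐ[K] SS K :=
  aeval ![C (t ^ 400) * X 0, C (t ^ 401) * X 1, C (t ^ 420) * X 2]

theorem tor_monomial (t : K) (y : Fin 3 →₀ ℕ) (c : K) :
    tor t (monomial y c) = t ^ wt y • monomial y c := by
  rw [tor, aeval_monomial, Finsupp.prod_fintype _ _ (by simp), Fin.prod_univ_three, monomial_eq,
    Finsupp.prod_fintype _ _ (by simp), Fin.prod_univ_three, smul_eq_C_mul, wt]
  simp only [Matrix.cons_val_zero, Matrix.cons_val_one, Matrix.cons_val, mul_pow, pow_add, pow_mul,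
    map_mul, map_pow, algebraMap_eq]
  ring

theorem tor_tor {t : K} (ht : t ≠ 0) (f : SS K) : tor t⁻¹ (tor t f) = f := by
  induction f using MvPolynomial.induction_on' with
  | monomial y c => simp [tor_monomial, smul_smul, ht]
  | add p q hp hq => simp only [map_add, hp, hq]

theorem tor_mem_pow (t : K) {n : ℕ} {f : SS K} (hf : f ∈ mm K ^ n) : tor t f ∈ mm K ^ n := by
  have : (mm K).map (tor t) ≤ mm K := by
    rw [Ideal.map_span, Ideal.span_le]
    rintro _ ⟨_, ⟨i, rfl⟩, rfl⟩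
    rw [show (X i : SS K) = monomial (Finsupp.single i 1) 1 from rfl, tor_monomial]
    exact Submodule.smul_of_tower_mem _ _ (Ideal.subset_span ⟨i, rfl⟩)
  have h2 := Ideal.mem_map_of_mem (tor t) hf
  rw [Ideal.map_pow] at h2
  exact Ideal.pow_right_mono this n h2

theorem InJ.family {I : Ideal (SS K)} {x : Fin 3 →₀ ℕ} (h : InJ I x) :
    ∃ G : K → SS K, G ∈ PF K (SS K) ∧ G 0 = monomial x 1 ∧ ∀ t, t ≠ 0 → tor t⁻¹ (G t) ∈ I := by
  obtain ⟨g, hg, h1, h2⟩ := h
  refine ⟨fun t => ∑ y ∈ g.support, t ^ (wt y - wt x) • monomial y (coeff y g),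
    pf_sum _ fun y _ => pf_pow _ _, ?_, fun t ht => ?_⟩
  · beta_reduce
    rw [Finset.sum_eq_single x (fun y hy hne => by
      rw [zero_pow (Nat.sub_ne_zero_of_lt (h2 y (mem_support_iff.1 hy) hne)), zero_smul])
      (fun h => absurd (mem_support_iff.2 (by rw [h1]; exact one_ne_zero)) h)]
    simp [h1]
  · have : ∑ y ∈ g.support, t ^ (wt y - wt x) • monomial y (coeff y g) =
        (t ^ wt x)⁻¹ • tor t g := by
      conv_rhs => rw [g.as_sum, map_sum, Finset.smul_sum]
      refine Finset.sum_congr rfl fun y hy => ?_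
      have : wt x ≤ wt y := by
        by_cases hne : y = x
        · rw [hne]
        · exact (h2 y (mem_support_iff.1 hy) hne).le
      rw [tor_monomial, smul_smul, pow_sub₀ _ ht this, mul_comm]
    beta_reduce
    rw [this, map_smul, tor_tor ht]
    exact Submodule.smul_of_tower_mem _ _ hg

theorem poly_family {I : Ideal (SS K)} (l : List Mono) (h : ∀ m ∈ l, InJ I (toF m)) :
    ∃ G : K → SS K, G ∈ PF K (SS K) ∧ G 0 = poly K l ∧ ∀ t, t ≠ 0 → tor t⁻¹ (G t) ∈ I := by
  induction l with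
  | nil => exact ⟨0, zero_mem _, rfl, fun t _ => by simp⟩
  | cons m l ih =>
    obtain ⟨G, h1, h2, h3⟩ := ih fun x hx => h x (by simp [hx])
    obtain ⟨G', h1', h2', h3'⟩ := (h m (by simp)).family
    refine ⟨G' + G, add_mem h1' h1, ?_, fun t ht => ?_⟩
    · rw [Pi.add_apply, h2, h2']; simp [poly, mon]
    · rw [Pi.add_apply, map_add]
      exact add_mem (h3' t ht) (h3 t ht)

theorem exists_short [Infinite K] {I : Ideal (SS K)} [Module.Finite K (SS K ⧸ I)]
    (h11 : finrank K (SS K ⧸ I) ≤ 11) (hI : ¬ I ≤ mm K ^ 3) :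
    ∃ f : Fin 3 → SS K, (∀ i, f i ∈ I) ∧
      LocLen (Ideal.span (Set.range f)) (2 * finrank K (SS K ⧸ I) + 1) := by
  obtain ⟨c, hc, hlen, hJ⟩ := Tr.sound (fun m => InJ I (toF m)) (fun o m ho h0 h1 h2 => by
      have : toF m = toF (m.1 - o.1, m.2.1 - o.2.1, m.2.2 - o.2.2) + toF o := by
        ext i; fin_cases i <;> simp <;> omega
      rw [this]; exact ho.add _) h11 length_le_finrank (by
      obtain ⟨g, hg, hg'⟩ := SetLike.not_le_iff_exists.1 hI
      rw [mem_pow_idealOfVars_iff'] at hg'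
      push Not at hg'
      obtain ⟨x, hx, hx'⟩ := hg'
      rw [Finsupp.degree_eq_sum, Fin.sum_univ_three] at hx
      obtain ⟨y, -, h1, h2⟩ := exists_inJ hg hx' (by simp only [wt]; omega)
      obtain ⟨m, rfl⟩ := exists_toF y
      simp only [wt, toF_zero, toF_one, toF_two] at h1
      exact ⟨m, by omega, h2⟩) tree [] [] tree_ok List.nodup_nil (by simp) (by simp)
  obtain ⟨G0, a0, b0, c0⟩ := poly_family c.f0 fun m hm => hJ m (by simp [hm])
  obtain ⟨G1, a1, b1, c1⟩ := poly_family c.f1 fun m hm => hJ m (by simp [hm])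
  obtain ⟨G2, a2, b2, c2⟩ := poly_family c.f2 fun m hm => hJ m (by simp [hm])
  let f : K → Fin 3 → SS K := fun t => ![G0 t, G1 t, G2 t]
  have hf0 : f 0 = c.phi K := by simp only [f, b0, b1, b2]; rfl
  set e := 2 * finrank K (SS K ⧸ I) + 1
  obtain ⟨t, ht⟩ := ((semicont (f := f) (fun i => by fin_cases i; exacts [a0, a1, a2]) (e + 1)
    0).union (Set.finite_singleton 0)).exists_notMem
  rw [Set.mem_union, not_or, Set.mem_ofPred_eq, not_lt, hf0] at ht
  have ht0 : t ≠ 0 := ht.2
  refine ⟨fun i => tor t⁻¹ (f t i), fun i => ?_, locLen_of_le (M := e + 1) ?_ (Nat.lt_succ_self _)⟩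
  · fin_cases i
    exacts [c0 t ht0, c1 t ht0, c2 t ht0]
  · refine le_trans ?_ (ht.1.trans (((c.sound hc).le _).trans hlen))
    refine LinearMap.finrank_le_finrank_of_surjective
      (f := (Ideal.quotientMapₐ _ (tor t⁻¹) (sup_le ?_ fun g hg =>
        Ideal.mem_sup_right (tor_mem_pow _ hg))).toLinearMap) fun x => ?_
    · rw [Ideal.span_le]
      rintro _ ⟨i, rfl⟩
      exact Ideal.mem_sup_left (Ideal.subset_span ⟨i, rfl⟩)
    · obtain ⟨g, rfl⟩ := Ideal.Quotient.mk_surjective x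
      refine ⟨Ideal.Quotient.mk _ (tor t g), ?_⟩
      conv_rhs => rw [← tor_tor ht0 g]
      rfl

end Pool.Agent.Lib.MP_ed43e6_ag
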