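import Pool.Agent.Lib.MP_ed43e6_ag.Fib
import Pool.Agent.Lib.MP_ed43e6_ag.CaseA
import Pool.Agent.Lib.MP_ed43e6_ag.AddPt

/-! The level algebras with Hilbert function (1,3,6,2). -/

namespace Pool.Agent.Lib.MP_ed43e6_ag

open MvPolynomial Module Matrix

universe u

variable {K : Type u} [Field K]

theorem X_mem (i : Fin 3) : (X i : SS K) ∈ mm K := Ideal.subset_span ⟨i, rfl⟩

theorem X_mul_mem {n : ℕ} (i : Fin 3) {f : SS K} (hf : f ∈ mm K ^ n) :
    X i * f ∈ mm K ^ (n + 1) := by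
  rw [pow_succ']; exact Ideal.mul_mem_mul (X_mem i) hf

theorem exists_L : ∃ L : SS K →ₗ[K] SS K, (∀ f, f - L f ∈ mm K ^ 3) ∧
    (∀ f ∈ mm K ^ 3, L f = 0) ∧ ∀ f ∈ low K 3, L f = f := by
  have h : IsCompl (low K 3) ((mm K ^ 3).restrictScalars K) := by
    refine ⟨Submodule.disjoint_def.2 fun f h1 h2 => ?_, codisjoint_iff.2 (eq_top_iff.2 fun f _ => ?_)⟩
    · ext x
      by_cases hx : Finsupp.degree x < 3
      · exact (mem_pow_idealOfVars_iff' _ _).1 h2 x hx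
      · exact h1 x (not_lt.1 hx)
    · obtain ⟨m, h1, h2⟩ := exists_low_sub_mem 3 f
      rw [← add_sub_cancel m f]
      exact Submodule.add_mem_sup h1 h2
  exact ⟨Submodule.projection _ _ h, Submodule.sub_projection_mem h,
    fun f hf => (Submodule.projection_apply_eq_zero_iff h).2 hf,
    fun f hf => Submodule.projection_apply_left h ⟨f, hf⟩⟩

theorem decomp (g : SS K) : ∃ (c : K) (a : Fin 3 → K),
    g - (C c + ∑ i, a i • X i) ∈ mm K ^ 2 := by
  obtain ⟨r, hr⟩ := Ideal.mem_span_range_iff_exists_fun.1 (sub_C_mem_mm g)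
  refine ⟨coeff 0 g, fun i => coeff 0 (r i), ?_⟩
  rw [← sub_sub, ← hr, ← Finset.sum_sub_distrib]
  refine Submodule.sum_mem _ fun i _ => ?_
  rw [smul_eq_C_mul, ← sub_mul, sq]
  exact Ideal.mul_mem_mul (sub_C_mem_mm _) (X_mem i)

theorem finrank_sq_le : finrank K (SS K ⧸ mm K ^ 2) ≤ 4 := by
  refine (LinearMap.finrank_le_finrank_of_surjective
    (f := (Ideal.Quotient.mkₐ K _).toLinearMap ∘ₗ
      (Algebra.linearMap K (SS K)).coprod (Fintype.linearCombination K X)) fun x => ?_).trans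
    (by simp)
  obtain ⟨g, rfl⟩ := Ideal.Quotient.mk_surjective x
  obtain ⟨c, a, h⟩ := decomp g
  exact ⟨(c, a), (Ideal.Quotient.eq.2 h).symm⟩

theorem le_finrank_pow {n : ℕ} (hn : n < 20) (h : (monsLE n).Nodup) :
    (monsLE n).length ≤ finrank K (SS K ⧸ mm K ^ (n + 1)) := by
  have : Module.Finite K (SS K ⧸ mm K ^ (n + 1)) := finite_quot le_rfl
  refine length_le_finrank _ h fun m hm => ?_
  rw [mem_monsLE] at hm
  refine ⟨fun ⟨g, hg, h1, _⟩ => ?_, by omega⟩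
  rw [(mem_pow_idealOfVars_iff' _ _).1 hg _ (by rw [degree_toF]; omega)] at h1
  exact zero_ne_one h1

theorem dim_aux {A : Type*} [AddCommGroup A] [Module K A] [FiniteDimensional K A]
    (P Q : Submodule K A) (T : Fin 3 → End K A) (hT : ∀ i, ∀ x ∈ P, T i x ∈ Q)
    (hsoc : ∀ x ∈ P, (∀ i, T i x = 0) → x ∈ Q) (hP : 6 + finrank K Q ≤ finrank K P)
    (hQ : finrank K Q ≤ 2) :
    finrank K Q = 2 ∧ finrank K P ≤ 8 ∧ ∀ x ∈ Q, ∀ i, T i x = 0 := by
  let μ : P →ₗ[K] (Fin 3 → Q) :=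
    LinearMap.pi fun i => (T i ∘ₗ P.subtype).codRestrict _ fun x => hT i x.1 x.2
  have hμ : ∀ x ∈ (LinearMap.ker μ).map P.subtype, ∀ i, T i x = 0 := by
    rintro _ ⟨w, hw, rfl⟩ i
    exact congrArg Subtype.val (congrFun (LinearMap.mem_ker.1 hw) i)
  have hle : (LinearMap.ker μ).map P.subtype ≤ Q := fun x hx =>
    hsoc x (Submodule.map_subtype_le _ _ hx) (hμ x hx)
  have e4 := μ.finrank_range_add_finrank_ker
  have e5 := (LinearMap.range μ).finrank_le
  rw [Module.finrank_pi_fintype, Finset.sum_const, Finset.card_univ, Fintype.card_fin,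
    smul_eq_mul] at e5
  have e6 := Submodule.finrank_mono hle
  have e7 := Submodule.finrank_map_subtype_eq P (LinearMap.ker μ)
  refine ⟨by omega, by omega, ?_⟩
  rw [← Submodule.eq_of_le_of_finrank_eq hle (by omega)]
  exact hμ

theorem caseB_dim {I : Ideal (SS K)} [Module.Finite K (SS K ⧸ I)]
    (h12 : finrank K (SS K ⧸ I) ≤ 12) (hB : ∀ s, (∀ i, X i * s ∈ I) → s ∈ mm K ^ 3)
    (h3 : I ≤ mm K ^ 3) : mm K ^ 4 ≤ I ∧ finrank K (SS K ⧸ I) = 12 ∧
      finrank K (LinearMap.ker (qmap h3)) = 2 := by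
  have h2 : I ≤ mm K ^ 2 := h3.trans (Ideal.pow_le_pow_right (by omega))
  have e3 := (qmap h3).finrank_range_add_finrank_ker
  have e2 := (qmap h2).finrank_range_add_finrank_ker
  rw [LinearMap.range_eq_top.2 (qmap_surjective _), finrank_top] at e2 e3
  have b2 := finrank_sq_le (K := K)
  have b3 : 10 ≤ finrank K (SS K ⧸ mm K ^ 3) := le_finrank_pow (n := 2) (by omega) (by decide)
  have hk : ∀ {n} (h : I ≤ mm K ^ n) f,
      Ideal.Quotient.mk I f ∈ LinearMap.ker (qmap h) ↔ f ∈ mm K ^ n :=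
    fun h f => Ideal.Quotient.eq_zero_iff_mem
  obtain ⟨e4, e5, e6⟩ := dim_aux (LinearMap.ker (qmap h2)) (LinearMap.ker (qmap h3))
    (act K (SS K ⧸ I)) (fun i x hx => by
      obtain ⟨f, rfl⟩ := Ideal.Quotient.mk_surjective x
      exact (hk h3 _).2 (X_mul_mem i ((hk h2 f).1 hx))) (fun x _ hx => by
      obtain ⟨f, rfl⟩ := Ideal.Quotient.mk_surjective x
      exact (hk h3 _).2 (hB f fun i => Ideal.Quotient.eq_zero_iff_mem.1 (hx i)))
    (by omega) (by omega)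
  refine ⟨?_, by omega, e4⟩
  rw [pow_succ', Ideal.mul_le]
  intro r hr f hf
  exact mul_mem_of_mem_mm
    (fun i => Ideal.Quotient.eq_zero_iff_mem.1 (e6 _ ((hk h3 f).2 hf) i)) hr

theorem caseB_good [Infinite K] {A : Type*} [AddCommGroup A] [Module K A] (hA : finrank K A = 12)
    (φ : SS K →ₗ[K] A) (T : Fin 3 → End K A) (hφ : Function.Surjective φ)
    (hT : ∀ i f, T i (φ f) = φ (X i * f)) (hsoc : ∀ f, (∀ i, φ (X i * f) = 0) → f ∈ mm K ^ 3)
    (ψ : Fin 2 → SS K →ₗ[K] K) (hψ : ∀ f ∈ mm K ^ 3, (∀ k, ψ k f = 0) → φ f = 0)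
    (hψ4 : ∀ k, ∀ f ∈ mm K ^ 4, ψ k f = 0) (q : Fin 2 → Fin 3 → SS K)
    (hq2 : ∀ k i, q k i ∈ mm K ^ 2) (hq0 : ∀ k i, ψ k (q k i) = 0)
    (hq1 : ∀ k i j, ψ k (X j * q k i) = 0)
    (hq8 : ∀ k, finrank K (SS K ⧸ (Ideal.span (Set.range (q k)) ⊔ mm K ^ 9)) ≤ 8)
    (IH : ∀ J : Ideal (SS K), Module.Finite K (SS K ⧸ J) → finrank K (SS K ⧸ J) < 12 →
      Sm (act K (SS K ⧸ J))) : Sm T := by
  set a : Fin 2 → Ideal (SS K) := fun k => Ideal.span (Set.range (q k)) ⊔ mm K ^ 9 with ha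
  have hfin : ∀ k, Module.Finite K (SS K ⧸ a k) := fun k => finite_quot le_sup_right
  have := hfin 0
  have := hfin 1
  have : Module.Finite K (SS K ⧸ (a 0 ⊓ a 1)) := finite_quot (le_inf le_sup_right le_sup_right)
  have : Module.Finite K (SS K ⧸ (a 0 ⊔ a 1)) := finite_of_le le_sup_left
  have h8 : ∀ k, finrank K (SS K ⧸ a k) ≤ 8 := hq8
  have hS : Sm (act K (SS K ⧸ (a 0 ⊓ a 1))) := by
    refine fib q (fun k => ?_) (IH _ inferInstance
      (((finrank_quot_le le_sup_left).trans (h8 0)).trans_lt (by omega)))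
    obtain ⟨j, hj, h⟩ := exists_stab _ 9 ((hq8 k).trans_lt (by omega))
    exact (Ideal.pow_le_pow_right hj.le).trans (stab h _)
  have ha2 : ∀ k, a k ≤ mm K ^ 2 := fun k => sup_le (by
    rw [Ideal.span_le]; rintro _ ⟨i, rfl⟩; exact hq2 k i) (Ideal.pow_le_pow_right (by omega))
  have hann : ∀ k, ∀ f ∈ a k, ∀ g, ψ k (g * f) = 0 := fun k f hf g => by
    obtain ⟨_, h1, f2, h2, rfl⟩ := Submodule.mem_sup.1 hf
    obtain ⟨r, rfl⟩ := Ideal.mem_span_range_iff_exists_fun.1 h1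
    rw [mul_add, map_add, hψ4 k _ (Ideal.mul_mem_left _ _
      (Ideal.pow_le_pow_right (by omega) h2)), add_zero, Finset.mul_sum, map_sum]
    refine Finset.sum_eq_zero fun i _ => ?_
    obtain ⟨c, b, h⟩ := decomp (g * r i)
    have h4 := hψ4 k _ (pow_add (mm K) 2 2 ▸ Ideal.mul_mem_mul h (hq2 k i))
    rw [sub_mul, map_sub, sub_eq_zero] at h4
    rw [← mul_assoc, h4, add_mul, ← smul_eq_C_mul, Finset.sum_mul]
    simp [hq0, hq1]
  have hker : ∀ f ∈ (a 0 ⊓ a 1).restrictScalars K, φ f = 0 := fun f hf => by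
    have hf' : ∀ k, f ∈ a k := fun k => by fin_cases k; exacts [hf.1, hf.2]
    refine hψ f (hsoc f fun i => hψ _ (X_mul_mem i (ha2 0 (hf' 0))) fun k => hann k f (hf' k) _)
      fun k => ?_
    simpa using hann k f (hf' k) 1
  let φ' : (SS K ⧸ (a 0 ⊓ a 1)) →ₗ[K] A :=
    Submodule.liftQ _ φ hker ∘ₗ (Submodule.Quotient.restrictScalarsEquiv K _).symm.toLinearMap
  have hφ' : ∀ f, φ' (Ideal.Quotient.mk _ f) = φ f := fun _ => rfl
  have hs : Function.Surjective φ' := fun x => by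
    obtain ⟨f, rfl⟩ := hφ x; exact ⟨_, hφ' f⟩
  have h1 := finrank_add_le
    ((qmap (inf_le_left : a 0 ⊓ a 1 ≤ a 0)).prod (qmap (inf_le_right : a 0 ⊓ a 1 ≤ a 1)))
    ((qmap (le_sup_left : a 0 ≤ a 0 ⊔ a 1)).coprod (-qmap (le_sup_right : a 1 ≤ a 0 ⊔ a 1)))
    (inj_of_ker _ fun x hx => by
      obtain ⟨f, rfl⟩ := Ideal.Quotient.mk_surjective x
      exact Ideal.Quotient.eq_zero_iff_mem.2
        ⟨Ideal.Quotient.eq_zero_iff_mem.1 (congrArg Prod.fst hx),
          Ideal.Quotient.eq_zero_iff_mem.1 (congrArg Prod.snd hx)⟩)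
    (fun x => by
      obtain ⟨f, rfl⟩ := Ideal.Quotient.mk_surjective x
      exact ⟨(Ideal.Quotient.mk _ f, 0), by simp⟩)
    (fun x => by
      obtain ⟨f, rfl⟩ := Ideal.Quotient.mk_surjective x
      simp)
  rw [finrank_prod] at h1
  have h4 : 4 ≤ finrank K (SS K ⧸ (a 0 ⊔ a 1)) :=
    (le_finrank_pow (n := 1) (by omega) (by decide)).trans
      (finrank_quot_le (sup_le (ha2 0) (ha2 1)))
  have : FiniteDimensional K A := Module.Finite.of_surjective φ' hs
  have h5 := LinearMap.finrank_le_finrank_of_surjective hs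
  have h6 := h8 0
  have h7 := h8 1
  have hi := (LinearMap.injective_iff_surjective_of_finrank_eq_finrank (f := φ') (by omega)).2 hs
  refine hS.of_equiv (LinearEquiv.ofBijective φ' ⟨hi, hs⟩) fun i x => ?_
  obtain ⟨f, rfl⟩ := Ideal.Quotient.mk_surjective x
  exact (hT i f).symm

/-- The three squarefree quadratic monomials. -/
noncomputable def nq (K : Type u) [Field K] : Fin 3 → SS K := ![X 1 * X 2, X 0 * X 2, X 0 * X 1]

/-- Three quadrics annihilating a cubic functional. -/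
noncomputable def quad (ψ : SS K →ₗ[K] K) (i : Fin 3) : SS K :=
  (Matrix.of fun j l => ψ (X j * nq K l)).det • (X i * X i) -
    ∑ l, cramer (Matrix.of fun j l => ψ (X j * nq K l)) (fun j => ψ (X j * (X i * X i))) l • nq K l

theorem XX_mem (i j : Fin 3) : (X i * X j : SS K) ∈ mm K ^ 2 ∧ (X i * X j : SS K) ∈ low K 3 := by
  refine ⟨by rw [sq]; exact Ideal.mul_mem_mul (X_mem i) (X_mem j), ?_⟩
  have : ∀ i, (X i : SS K) ∈ low K 2 := fun i => monomial_mem_low (by simp) _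
  exact mul_mem_low (this i) (this j)

theorem quad_mem (ψ : SS K →ₗ[K] K) (i : Fin 3) : quad ψ i ∈ mm K ^ 2 ∧ quad ψ i ∈ low K 3 := by
  have h : ∀ l, nq K l ∈ mm K ^ 2 ∧ nq K l ∈ low K 3 := fun l => by
    fin_cases l <;> exact XX_mem _ _
  exact ⟨sub_mem (Submodule.smul_of_tower_mem _ _ (XX_mem i i).1)
      (Submodule.sum_mem _ fun l _ => Submodule.smul_of_tower_mem _ _ (h l).1),
    sub_mem (Submodule.smul_mem _ _ (XX_mem i i).2)
      (Submodule.sum_mem _ fun l _ => Submodule.smul_mem _ _ (h l).2)⟩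

theorem quad_ann (ψ : SS K →ₗ[K] K) (i j : Fin 3) : ψ (X j * quad ψ i) = 0 := by
  have := congrFun (mulVec_cramer (Matrix.of fun j l => ψ (X j * nq K l))
    (fun j => ψ (X j * (X i * X i)))) j
  rw [quad, mul_sub, map_sub, mul_smul_comm, map_smul, Finset.mul_sum, map_sum, sub_eq_zero]
  rw [Matrix.mulVec, dotProduct] at this
  refine this.symm.trans (Finset.sum_congr rfl fun l _ => ?_)
  rw [mul_smul_comm, map_smul, smul_eq_mul, mul_comm, of_apply]

theorem quad_pf {ψ : K → SS K →ₗ[K] K} (hψ : ∀ f, (fun t => ψ t f) ∈ PF K K) (i : Fin 3) :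
    (fun t => quad (ψ t) i) ∈ PF K (SS K) := by
  refine pf_sub (pf_smul (pf_det fun j l => hψ _) (pf_const _))
    (pf_sum _ fun l _ => pf_smul ?_ (pf_const _))
  simp only [cramer_apply]
  refine pf_det fun a b => ?_
  by_cases h : b = l
  · subst h; simpa using hψ _
  · simpa [updateCol_ne h] using hψ _

theorem quad_one {ψ : SS K →ₗ[K] K} (hψ : ∀ f ∈ mm K ^ 3, ψ f = coeff (toF (1, 1, 1)) f)
    (i : Fin 3) : quad ψ i = X i * X i := by
  have h : ∀ a b c : Fin 3, ψ (X a * (X b * X c)) =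
      if Finsupp.single a 1 + (Finsupp.single b 1 + Finsupp.single c 1) = toF (1, 1, 1) then 1
      else 0 := fun a b c => by
    rw [hψ _ (X_mul_mem a (XX_mem b c).1)]
    simp only [X, monomial_mul, coeff_monomial, one_mul]
  have h' : ∀ a b c : Fin 3, (Finsupp.single a 1 + (Finsupp.single b 1 + Finsupp.single c 1) =
      toF (1, 1, 1)) ↔ (a ≠ b ∧ a ≠ c ∧ b ≠ c) := fun a b c => by
    rw [Finsupp.ext_iff, Fin.forall_fin_succ, Fin.forall_fin_two]
    fin_cases a <;> fin_cases b <;> fin_cases c <;> simp [toF]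
  have h1 : (Matrix.of fun j l => ψ (X j * nq K l)) = 1 := by
    ext j l
    fin_cases j <;> fin_cases l <;> simp [nq, h, h']
  have h2 : (fun j => ψ (X j * (X i * X i))) = 0 := by
    funext j; simp [h, h']
  rw [quad, h1, h2]
  simp

theorem squares_le : finrank K (SS K ⧸ (Ideal.span (Set.range fun i : Fin 3 =>
    (X i * X i : SS K)) ⊔ mm K ^ 9)) ≤ 8 := by
  let c : Cert := ⟨[(2,0,0)], [(0,2,0)], [(0,0,2)], 3,
    [(0,0,0), (0,0,1), (0,1,0), (0,1,1), (1,0,0), (1,0,1), (1,1,0), (1,1,1)], 1⟩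
  have h := (c.sound (K := K) (by decide +kernel)).le 9
  have e : c.phi K = fun i : Fin 3 => (X i * X i : SS K) := by
    funext i
    have h : ∀ (m : Mono) (i : Fin 3), toF m = Finsupp.single i 1 + Finsupp.single i 1 →
        poly K [m] = X i * X i := fun m i h => by simp [poly, mon, X, monomial_mul, h]
    fin_cases i <;> refine h _ _ ?_ <;> ext j <;> fin_cases j <;> simp
  rwa [e] at h

theorem caseB [Infinite K] {I : Ideal (SS K)} [Module.Finite K (SS K ⧸ I)]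
    (h12 : finrank K (SS K ⧸ I) ≤ 12) (hB : ∀ s, (∀ i, X i * s ∈ I) → s ∈ mm K ^ 3)
    (IH : ∀ J : Ideal (SS K), Module.Finite K (SS K ⧸ J) →
      finrank K (SS K ⧸ J) < finrank K (SS K ⧸ I) → Sm (act K (SS K ⧸ J))) :
    Sm (act K (SS K ⧸ I)) := by
  have h3 : I ≤ mm K ^ 3 := fun s hs => hB s fun i => Ideal.mul_mem_left _ _ hs
  obtain ⟨h4, hd, hρ⟩ := caseB_dim h12 hB h3
  rw [hd] at IH
  obtain ⟨L, hL1, hL2, hL3⟩ := exists_L (K := K)
  let π : SS K →ₗ[K] SS K ⧸ I := (Ideal.Quotient.mkₐ K I).toLinearMap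
  have hπ : ∀ f, π f = Ideal.Quotient.mk I f := fun _ => rfl
  let b := Module.finBasisOfFinrankEq K _ hρ
  choose lam hlam using fun k => LinearMap.exists_extend (b.coord k)
  have hlam' : ∀ k (a : LinearMap.ker (qmap h3)), lam k a = b.coord k a :=
    fun k a => LinearMap.congr_fun (hlam k) a
  let u : LinearMap.ker (qmap h3) := b 0 + b 1
  have hu : ∀ k, lam k u = 1 := fun k => by rw [hlam']; fin_cases k <;> simp [u]
  let δ : SS K →ₗ[K] SS K ⧸ I := (lcoeff K (toF (1, 1, 1))).smulRight u.1 - π ∘ₗ (LinearMap.id - L)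
  obtain ⟨φ, hφ⟩ : ∃ φ : K → SS K →ₗ[K] SS K ⧸ I,
      ∀ t f, φ t f = π f + t • (coeff (toF (1, 1, 1)) f • u.1 - π (f - L f)) :=
    ⟨fun t => π + t • δ, fun _ _ => rfl⟩
  have hφ0 : φ 0 = π := LinearMap.ext fun f => by rw [hφ, zero_smul, add_zero]
  have hpf : ∀ f, (fun t => φ t f) ∈ PF K (SS K ⧸ I) := fun f => by
    simp only [hφ]
    exact pf_add (pf_const _) (by simpa only [pow_one] using pf_pow 1 _)
  have hq : ∀ t f, qmap h3 (φ t f) = Ideal.Quotient.mk _ f := fun t f => by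
    rw [hφ, map_add, map_smul, map_sub, map_smul, LinearMap.mem_ker.1 u.2, hπ, hπ, qmap_mk, qmap_mk,
      Ideal.Quotient.eq_zero_iff_mem.2 (hL1 f)]
    simp
  have hφ4 : ∀ t, ∀ f ∈ mm K ^ 4, φ t f = 0 := fun t f hf => by
    rw [hφ, hL2 f (Ideal.pow_le_pow_right (by omega) hf), sub_zero, hπ,
      Ideal.Quotient.eq_zero_iff_mem.2 (h4 hf),
      (mem_pow_idealOfVars_iff' _ _).1 hf _ (by rw [degree_toF]; decide)]
    simp
  obtain ⟨s, hs⟩ := LinearMap.exists_rightInverse_of_surjective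
    (Ideal.Quotient.mkₐ K (mm K ^ 3)).toLinearMap
    (LinearMap.range_eq_top.2 Ideal.Quotient.mk_surjective)
  have hs' : ∀ f, s (Ideal.Quotient.mk _ f) - f ∈ mm K ^ 3 := fun f =>
    Ideal.Quotient.eq.1 (LinearMap.congr_fun hs _)
  have hφs : ∀ t i f, φ t (X i * s (Ideal.Quotient.mk _ f)) = φ t (X i * f) := fun t i f => by
    rw [← sub_eq_zero, ← map_sub, ← mul_sub]
    exact hφ4 t _ (X_mul_mem i (hs' f))
  obtain ⟨T, hT'⟩ : ∃ T : K → Fin 3 → End K (SS K ⧸ I),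
      ∀ t i x, T t i x = φ t (X i * s (qmap h3 x)) :=
    ⟨fun t i => φ t ∘ₗ LinearMap.mulLeft K (X i) ∘ₗ s ∘ₗ qmap h3, fun _ _ _ => rfl⟩
  have hT : ∀ t i f, T t i (φ t f) = φ t (X i * f) := fun t i f => by rw [hT', hq, hφs]
  have hT0 : T 0 = act K (SS K ⧸ I) := by
    funext i
    refine LinearMap.ext fun x => ?_
    obtain ⟨f, rfl⟩ := Ideal.Quotient.mk_surjective x
    have := hT 0 i f
    rwa [hφ0] at this
  obtain ⟨Θ, hΘ'⟩ : ∃ Θ : K → (SS K ⧸ mm K ^ 3) →ₗ[K] (Fin 3 → SS K ⧸ I),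
      ∀ t y i, Θ t y i = φ t (X i * s y) :=
    ⟨fun t => LinearMap.pi fun i => φ t ∘ₗ LinearMap.mulLeft K (X i) ∘ₗ s, fun _ _ _ => rfl⟩
  have hΘ : ∀ t f i, Θ t (Ideal.Quotient.mk _ f) i = φ t (X i * f) := fun t f i => by
    rw [hΘ', hφs]
  obtain ⟨ψ, hψ⟩ : ∃ ψ : K → Fin 2 → SS K →ₗ[K] K, ∀ t k f, ψ t k f = lam k (φ t (f - L f)) :=
    ⟨fun t k => lam k ∘ₗ φ t ∘ₗ (LinearMap.id - L), fun _ _ _ => rfl⟩
  have : Module.Finite K (SS K ⧸ mm K ^ 3) := finite_quot le_rfl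
  have f1 := pf_surj (A := φ) (t0 := 0) hpf (by rw [hφ0]; exact Ideal.Quotient.mk_surjective)
  have f2 := pf_inj (A := Θ) (t0 := 0) (fun y => by
      have := pf_sum Finset.univ fun i _ => pf_comp (LinearMap.single K (fun _ => SS K ⧸ I) i)
        (hpf (X i * s y))
      convert this using 2 with t
      funext i
      simp [hΘ', Pi.single_apply]) (inj_of_ker _ fun y hy => by
      obtain ⟨f, rfl⟩ := Ideal.Quotient.mk_surjective y
      refine Ideal.Quotient.eq_zero_iff_mem.2 (hB f fun i => ?_)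
      have := congrFun hy i
      rw [hΘ, hφ0] at this
      exact Ideal.Quotient.eq_zero_iff_mem.1 this)
  have f3 := fun k => semicont (f := fun t => quad (ψ t k))
    (fun i => quad_pf (fun f => by simp only [hψ]; exact pf_comp (lam k) (hpf _)) i) 9 1
  rw [← hT0]
  refine sm_of_curve (T := T) (fun i x => by simp only [hT']; exact hpf _) (Set.Infinite.mono ?_
    (f1.union (f2.union ((f3 0).union (f3 1)))).infinite_compl)
  intro t ht
  simp only [Set.mem_compl_iff, Set.mem_union, Set.mem_ofPred_eq, not_or, not_not, not_lt] at ht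
  obtain ⟨g1, g2, g3, g4⟩ := ht
  refine caseB_good hd (φ t) (T t) g1 (hT t) (fun f hf => ?_) (ψ t) (fun f hf h => ?_)
    (fun k f hf => ?_) (fun k => quad (ψ t k)) (fun k i => (quad_mem _ _).1) (fun k i => ?_)
    (fun k i j => quad_ann _ _ _) (fun k => ?_) IH
  · refine Ideal.Quotient.eq_zero_iff_mem.1 (g2 ?_)
    funext i
    rw [map_zero, hΘ, hf, Pi.zero_apply]
  · have hm : φ t f ∈ LinearMap.ker (qmap h3) := by
      rw [LinearMap.mem_ker, hq]; exact Ideal.Quotient.eq_zero_iff_mem.2 hf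
    refine congrArg Subtype.val ((b.forall_coord_eq_zero_iff (x := ⟨_, hm⟩)).1 fun k => ?_)
    have := h k
    rwa [hψ, hL2 f hf, sub_zero, hlam' k ⟨_, hm⟩] at this
  · rw [hψ, hL2 f (Ideal.pow_le_pow_right (by omega) hf), sub_zero, hφ4 t f hf, map_zero]
  · rw [hψ, hL3 _ (quad_mem _ _).2, sub_self, map_zero, map_zero]
  · have e : ∀ k, quad (ψ 1 k) = fun i => X i * X i := fun k => funext (quad_one fun f hf => by
      rw [hψ, hL2 f hf, sub_zero, hφ, hL2 f hf, sub_zero, one_smul, add_sub_cancel, map_smul, hu,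
        smul_eq_mul, mul_one])
    rw [e] at g3 g4
    fin_cases k
    exacts [g3.trans squares_le, g4.trans squares_le]

end Pool.Agent.Lib.MP_ed43e6_ag
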