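import Pool.Agent.Lib.MP_ed43e6_ag.Local

/-! A checker for upper bounds on local lengths of three sums of monomials. -/

namespace Pool.Agent.Lib.MP_ed43e6_ag

open MvPolynomial Module

universe u

abbrev Mono := ℕ × ℕ × ℕ

def code (m : Mono) : ℕ := m.1 + 32 * m.2.1 + 1024 * m.2.2

def maskOf (l : List Mono) : ℕ := l.foldr (fun m B => B ||| (1 <<< code m)) 0

def monsLE (D : ℕ) : List Mono :=
  (List.range (D + 1)).flatMap fun a => (List.range (D + 1 - a)).flatMap fun b =>
    (List.range (D + 1 - a - b)).map fun c => (a, b, c)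

def picks : List Mono → List (Mono × List Mono)
  | [] => []
  | a :: l => (a, l) :: (picks l).map fun p => (p.1, a :: p.2)

def minus (a b : ℕ) : ℕ := a ^^^ (a &&& b)

def step (R U : ℕ) (p : Mono × List Mono) : ℕ :=
  minus U (minus R (p.2.foldr (fun m B => B ||| (U >>> code m)) 0) <<< code p.1)

def iter (R : ℕ) (ps : List (Mono × List Mono)) : ℕ → ℕ → ℕ
  | 0, U => U
  | n + 1, U => iter R ps n (ps.foldl (step R) U)

/-- A certificate: three sums of monomials, a degree, a spanning set and a number of rounds. -/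
structure Cert where
  f0 : List Mono
  f1 : List Mono
  f2 : List Mono
  D : ℕ
  sp : List Mono
  n : ℕ

def Cert.ps (c : Cert) : List (Mono × List Mono) := picks c.f0 ++ (picks c.f1 ++ picks c.f2)

def Cert.ok (c : Cert) : Bool :=
  decide (c.D < 15) && (c.f0 ++ (c.f1 ++ c.f2)).all (fun m => decide (m.1 < 16 ∧ m.2.1 < 16)) &&
    c.sp.all (fun m => decide (m.1 < 32 ∧ m.2.1 < 32)) &&
    (minus (iter (maskOf (monsLE (c.D + 1))) c.ps c.n (maskOf (monsLE (c.D + 1))))
      (maskOf (monsLE c.D)) == 0) &&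
    (iter (maskOf (monsLE (c.D + 1))) c.ps c.n
      (minus (iter (maskOf (monsLE (c.D + 1))) c.ps c.n (maskOf (monsLE (c.D + 1))))
        (maskOf c.sp)) == 0)

theorem testBit_minus (a b n : ℕ) : (minus a b).testBit n = (a.testBit n && !b.testBit n) := by
  simp only [minus, Nat.testBit_xor, Nat.testBit_and]
  cases a.testBit n <;> cases b.testBit n <;> rfl

theorem testBit_maskOf (l : List Mono) (n : ℕ) :
    (maskOf l).testBit n = true ↔ ∃ m ∈ l, code m = n := by
  induction l with
  | nil => simp [maskOf]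
  | cons a l ih =>
    rw [maskOf, List.foldr_cons, ← maskOf, Nat.testBit_or, Bool.or_eq_true, ih, Nat.one_shiftLeft,
      Nat.testBit_two_pow]
    simp [or_comm]

theorem mem_monsLE (D : ℕ) (m : Mono) : m ∈ monsLE D ↔ m.1 + m.2.1 + m.2.2 ≤ D := by
  obtain ⟨a, b, c⟩ := m
  simp only [monsLE, List.mem_flatMap, List.mem_range, List.mem_map, Prod.mk.injEq]
  constructor
  · rintro ⟨a', ha, b', hb, c', hc, rfl, rfl, rfl⟩; omega
  · intro h; exact ⟨a, by omega, b, by omega, c, by omega, rfl, rfl, rfl⟩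

noncomputable def toF (m : Mono) : Fin 3 →₀ ℕ := Finsupp.equivFunOnFinite.symm ![m.1, m.2.1, m.2.2]

@[simp] theorem toF_zero (m : Mono) : toF m 0 = m.1 := rfl
@[simp] theorem toF_one (m : Mono) : toF m 1 = m.2.1 := rfl
@[simp] theorem toF_two (m : Mono) : toF m 2 = m.2.2 := rfl

theorem toF_add (m m' : Mono) : toF (m + m') = toF m + toF m' := by
  ext i; fin_cases i <;> rfl

theorem exists_toF (x : Fin 3 →₀ ℕ) : ∃ m, toF m = x :=
  ⟨(x 0, x 1, x 2), by ext i; fin_cases i <;> rfl⟩

theorem degree_toF (m : Mono) : Finsupp.degree (toF m) = m.1 + m.2.1 + m.2.2 := by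
  rw [Finsupp.degree_eq_sum, Fin.sum_univ_three]; rfl

variable {K : Type u} [Field K]

noncomputable def mon (K : Type u) [Field K] (m : Mono) : SS K := monomial (toF m) 1

noncomputable def poly (K : Type u) [Field K] (l : List Mono) : SS K := (l.map (mon K)).sum

theorem mon_add (m m' : Mono) : mon K (m + m') = mon K m * mon K m' := by
  rw [mon, mon, mon, monomial_mul, one_mul, toF_add]

theorem mem_picks {l : List Mono} {p : Mono × List Mono} (h : p ∈ picks l) :
    poly K l = mon K p.1 + poly K p.2 ∧ p.1 ∈ l ∧ ∀ m ∈ p.2, m ∈ l := by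
  induction l generalizing p with
  | nil => simp [picks] at h
  | cons a l ih =>
    rw [picks, List.mem_cons, List.mem_map] at h
    rcases h with rfl | ⟨q, hq, rfl⟩
    · exact ⟨by simp [poly], by simp, fun m hm => by simp [hm]⟩
    · obtain ⟨h1, h2, h3⟩ := ih hq
      refine ⟨?_, by simp [h2], fun m hm => ?_⟩
      · simp only [poly, List.map_cons, List.sum_cons] at h1 ⊢
        rw [h1]; ring
      · rcases List.mem_cons.1 hm with rfl | hm
        · simp
        · simp [h3 m hm]

/-- All monomials whose bit is not set lie in `N`. -/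
def Inv (N : Submodule K (SS K)) (U : ℕ) : Prop :=
  ∀ m : Mono, m.1 < 32 → m.2.1 < 32 → U.testBit (code m) = false → mon K m ∈ N

/-- A usable rule. -/
def Good (N : Submodule K (SS K)) (p : Mono × List Mono) : Prop :=
  (∀ v, mon K v * (mon K p.1 + poly K p.2) ∈ N) ∧ (p.1.1 < 16 ∧ p.1.2.1 < 16) ∧
    ∀ m ∈ p.2, m.1 < 16 ∧ m.2.1 < 16

theorem Inv.step {N : Submodule K (SS K)} {U D : ℕ} (hD : D < 16) (h : Inv N U)
    {p : Mono × List Mono} (hp : Good N p) : Inv N (step (maskOf (monsLE D)) U p) := by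
  intro m h1 h2 hm
  rw [Pool.Agent.Lib.MP_ed43e6_ag.step, testBit_minus, Bool.and_eq_false_imp] at hm
  by_cases hU : U.testBit (code m) = true
  swap
  · exact h m h1 h2 (by simpa using hU)
  have h3 := hm hU
  rw [Bool.not_eq_false', Nat.testBit_shiftLeft, Bool.and_eq_true, testBit_minus,
    Bool.and_eq_true, testBit_maskOf] at h3
  obtain ⟨h4, ⟨v, hv, hvc⟩, h5⟩ := h3
  rw [mem_monsLE] at hv
  have h4' : code p.1 ≤ code m := by simpa using h4
  obtain ⟨hN, hp1, hp2⟩ := hp
  have hmv : m = v + p.1 := by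
    simp only [code] at h4' hvc
    ext <;> simp <;> omega
  have key : ∀ l : List Mono, (∀ x ∈ l, x.1 < 16 ∧ x.2.1 < 16) →
      (l.foldr (fun m B => B ||| (U >>> code m)) 0).testBit (code v) = false →
      mon K v * poly K l ∈ N := by
    intro l
    induction l with
    | nil => intro _ _; simp [poly]
    | cons x l ih =>
      intro hl hb
      rw [List.foldr_cons, Nat.testBit_or, Bool.or_eq_false_iff, Nat.testBit_shiftRight] at hb
      rw [poly, List.map_cons, List.sum_cons, mul_add, ← mon_add]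
      have := hl x (by simp)
      refine add_mem (h _ (by simp; omega) (by simp; omega) ?_)
        (ih (fun y hy => hl y (by simp [hy])) hb.1)
      rw [← hb.2]
      congr 1
      simp [code]; ring
  have := sub_mem (hN v) (key p.2 hp2 (by rw [hvc]; simpa using h5))
  rwa [mul_add, add_sub_cancel_right, ← mon_add, ← hmv] at this

theorem Inv.iter {N : Submodule K (SS K)} {D : ℕ} (hD : D < 16) {ps : List (Mono × List Mono)}
    (hps : ∀ p ∈ ps, Good N p) (n : ℕ) {U : ℕ} (h : Inv N U) :
    Inv N (iter (maskOf (monsLE D)) ps n U) := by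
  induction n generalizing U with
  | zero => exact h
  | succ n ih =>
    refine ih ?_
    clear ih
    induction ps generalizing U with
    | nil => exact h
    | cons p ps ih => exact ih (fun q hq => hps q (by simp [hq])) (h.step hD (hps p (by simp)))

noncomputable def Cert.phi (K : Type u) [Field K] (c : Cert) : Fin 3 → SS K :=
  ![poly K c.f0, poly K c.f1, poly K c.f2]

theorem mon_mem_pow {m : Mono} {n : ℕ} (h : n ≤ m.1 + m.2.1 + m.2.2) : mon K m ∈ mm K ^ n :=
  (monomial_mem_pow_idealOfVars_iff _ _ one_ne_zero).2 (by rwa [degree_toF])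

theorem Cert.sound (c : Cert) (h : c.ok = true) :
    LocLen (Ideal.span (Set.range (c.phi K))) c.sp.length := by
  simp only [Cert.ok, Bool.and_eq_true, decide_eq_true_eq, List.all_eq_true, beq_iff_eq] at h
  obtain ⟨⟨⟨⟨hD, hb⟩, hsp⟩, h1⟩, h2⟩ := h
  set C := Ideal.span (Set.range (c.phi K))
  let N1 := (C ⊔ mm K ^ (c.D + 1 + 1)).restrictScalars K
  have hgood : ∀ N, N1 ≤ N → ∀ p ∈ c.ps, Good N p := fun N hN p hp => by
    have aux : ∀ l : List Mono, poly K l ∈ C → (∀ m ∈ l, m ∈ c.f0 ++ (c.f1 ++ c.f2)) →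
        p ∈ picks l → Good N p := fun l hl hl' hp => by
      obtain ⟨e1, e2, e3⟩ := mem_picks (K := K) hp
      exact ⟨fun v => hN (e1 ▸ Ideal.mem_sup_left (Ideal.mul_mem_left _ _ hl)),
        hb _ (hl' _ e2), fun m hm => hb _ (hl' _ (e3 m hm))⟩
    rcases List.mem_append.1 hp with hp | hp
    · exact aux _ (Ideal.subset_span ⟨0, rfl⟩) (fun m hm => by simp [hm]) hp
    rcases List.mem_append.1 hp with hp | hp
    · exact aux _ (Ideal.subset_span ⟨1, rfl⟩) (fun m hm => by simp [hm]) hp
    · exact aux _ (Ideal.subset_span ⟨2, rfl⟩) (fun m hm => by simp [hm]) hp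
  have i0 : Inv N1 (maskOf (monsLE (c.D + 1))) := fun m _ _ hm => by
    refine Ideal.mem_sup_right (mon_mem_pow ?_)
    by_contra hc
    rw [(testBit_maskOf _ _).2 ⟨m, (mem_monsLE _ _).2 (by omega), rfl⟩] at hm
    exact Bool.noConfusion hm
  have i1 := i0.iter (D := c.D + 1) (by omega) (hgood _ le_rfl) c.n
  set U1 := iter (maskOf (monsLE (c.D + 1))) c.ps c.n (maskOf (monsLE (c.D + 1)))
  let N2 := N1 ⊔ Submodule.span K (Set.range fun i : Fin c.sp.length => mon K c.sp[i])
  have i2 : Inv N2 (minus U1 (maskOf c.sp)) := fun m h3 h4 hm => by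
    rw [testBit_minus, Bool.and_eq_false_imp] at hm
    by_cases hU : U1.testBit (code m) = true
    · have := hm hU
      rw [Bool.not_eq_false', testBit_maskOf] at this
      obtain ⟨m', hm', hc⟩ := this
      have h5 := hsp m' hm'
      have : m' = m := by
        simp only [code] at hc
        ext <;> omega
      subst this
      obtain ⟨i, rfl⟩ := List.mem_iff_get.1 hm'
      exact Submodule.mem_sup_right (Submodule.subset_span ⟨i, rfl⟩)
    · exact Submodule.mem_sup_left (i1 m h3 h4 (by simpa using hU))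
  have i3 := i2.iter (D := c.D + 1) (by omega) (hgood _ le_sup_left) c.n
  rw [h2] at i3
  have hall : ∀ m, mon K m ∈ N2 := fun m => by
    by_cases hm : m.1 < 32 ∧ m.2.1 < 32
    · exact i3 m hm.1 hm.2 (Nat.zero_testBit _)
    · exact Submodule.mem_sup_left (Ideal.mem_sup_right (mon_mem_pow (by omega)))
  refine ⟨c.D + 1, ?_, (finrank_quot_le (sup_le_sup_left
    (Ideal.pow_le_pow_right (Nat.le_succ _)) _)).trans ?_⟩
  · rw [pow_idealOfVars_eq_span, Ideal.span_le]
    rintro _ ⟨x, hx, rfl⟩
    obtain ⟨m, rfl⟩ := exists_toF x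
    have hx' : m.1 + m.2.1 + m.2.2 = c.D + 1 := by rw [← degree_toF]; exact hx
    refine i1 m (by omega) (by omega) ?_
    by_contra hU
    have := congrArg (·.testBit (code m)) h1
    simp only [testBit_minus, Nat.zero_testBit, Bool.and_eq_false_imp, Bool.not_eq_false',
      testBit_maskOf] at this
    obtain ⟨m', hm', hc⟩ := this (by simpa using hU)
    rw [mem_monsLE] at hm'
    simp only [code] at hc
    omega
  · refine (LinearMap.finrank_le_finrank_of_surjective
      (f := (Ideal.Quotient.mkₐ K _).toLinearMap ∘ₗ Fintype.linearCombination K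
        fun i : Fin c.sp.length => mon K c.sp[i]) fun x => ?_).trans (by simp)
    obtain ⟨g, rfl⟩ := Ideal.Quotient.mk_surjective x
    obtain ⟨n, hn⟩ := exists_mem_low g
    have : g ∈ N2 := mem_of_monomial hn LinearMap.id N2 fun x _ => by
      obtain ⟨m, rfl⟩ := exists_toF x
      exact hall m
    obtain ⟨g1, h3, g2, h4, rfl⟩ := Submodule.mem_sup.1 this
    obtain ⟨a, rfl⟩ := (Submodule.mem_span_range_iff_exists_fun K).1 h4
    refine ⟨a, Ideal.Quotient.eq.2 ?_⟩
    have h5 : g1 ∈ C ⊔ mm K ^ (c.D + 1 + 1) := h3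
    simpa [Fintype.linearCombination_apply] using h5

end Pool.Agent.Lib.MP_ed43e6_ag
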