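import Pool.Agent.Lib.MP_ed43e6_ag.Local

/-! Determinants of a representation of the polynomial ring, and lengths of cokernels. -/

namespace Pool.Agent.Lib.MP_ed43e6_ag

open Module Matrix

universe u v

section chars

open MvPolynomial

variable {Ω : Type u} [Field Ω] [IsAlgClosed Ω]

theorem exists_joint {V : Type v} [AddCommGroup V] [Module Ω V] [FiniteDimensional Ω V]
    [Nontrivial V] (ρ : MvPolynomial (Fin 3) Ω →ₐ[Ω] End Ω V) :
    ∃ (v : V) (p : Fin 3 → Ω), v ≠ 0 ∧ ∀ h, ρ h v = eval p h • v := by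
  have step : ∀ (q : Submodule Ω V) (i : Fin 3), q ≠ ⊥ → (∀ h, ∀ x ∈ q, ρ h x ∈ q) →
      ∃ μ, q ⊓ End.eigenspace (ρ (X i)) μ ≠ ⊥ ∧
        ∀ h, ∀ x ∈ q ⊓ End.eigenspace (ρ (X i)) μ, ρ h x ∈ q ⊓ End.eigenspace (ρ (X i)) μ := by
    intro q i hq hinv
    have := Submodule.nontrivial_iff_ne_bot.2 hq
    obtain ⟨μ, hμ⟩ := End.exists_eigenvalue ((ρ (X i)).restrict (hinv (X i)))
    obtain ⟨x, hx⟩ := hμ.exists_hasEigenvector
    refine ⟨μ, (Submodule.ne_bot_iff _).2 ⟨x.1, ⟨x.2, End.mem_eigenspace_iff.2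
      (congrArg Subtype.val hx.apply_eq_smul)⟩, fun h => hx.2 (Subtype.ext h)⟩,
      fun h y hy => ⟨hinv h y hy.1, End.mem_eigenspace_iff.2 ?_⟩⟩
    rw [← End.mul_apply, ← map_mul, mul_comm, map_mul, End.mul_apply,
      End.mem_eigenspace_iff.1 hy.2, map_smul]
  obtain ⟨a, ha, ha'⟩ := step ⊤ 0 top_ne_bot fun _ _ _ => trivial
  obtain ⟨b, hb, hb'⟩ := step _ 1 ha ha'
  obtain ⟨c, hc, -⟩ := step _ 2 hb hb'
  obtain ⟨v, ⟨⟨⟨-, h0⟩, h1⟩, h2⟩, hv⟩ := (Submodule.ne_bot_iff _).1 hc
  have hX : ∀ i, ρ (X i) v = ![a, b, c] i • v := fun i => by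
    fin_cases i
    exacts [End.mem_eigenspace_iff.1 h0, End.mem_eigenspace_iff.1 h1, End.mem_eigenspace_iff.1 h2]
  refine ⟨v, ![a, b, c], hv, fun h => ?_⟩
  induction h using MvPolynomial.induction_on with
  | C r => rw [← algebraMap_eq, AlgHom.commutes]; simp
  | add p q hp hq => simp [hp, hq, add_smul]
  | mul_X p i hp => rw [map_mul, End.mul_apply, hX, map_smul, hp, map_mul, eval_X, smul_smul,
      mul_comm]

theorem exists_chars (n : ℕ) : ∀ (V : Type v) [AddCommGroup V] [Module Ω V] [FiniteDimensional Ω V]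
    (ρ : MvPolynomial (Fin 3) Ω →ₐ[Ω] End Ω V), finrank Ω V = n →
    ∃ p : Fin n → Fin 3 → Ω, ∀ h, LinearMap.det (ρ h) = ∏ j, eval (p j) h := by
  induction n with
  | zero =>
    intro V _ _ _ ρ hV
    exact ⟨Fin.elim0, fun h => by simp [LinearMap.det_eq_one_of_finrank_eq_zero hV]⟩
  | succ n ih =>
    intro V _ _ _ ρ hV
    have : Nontrivial V := Module.nontrivial_of_finrank_eq_succ hV
    obtain ⟨v, p0, hv, hp⟩ := exists_joint ρ
    let W := Submodule.span Ω {v}
    have hW : ∀ h, W ≤ W.comap (ρ h) := fun h => by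
      rw [Submodule.span_le, Set.singleton_subset_iff]
      change ρ h v ∈ W
      rw [hp]
      exact W.smul_mem _ (Submodule.mem_span_singleton_self v)
    let ρ' : MvPolynomial (Fin 3) Ω →ₐ[Ω] End Ω (V ⧸ W) :=
      { toFun := fun h => W.mapQ W (ρ h) (hW h)
        map_one' := by ext x; simp
        map_mul' := fun a b => by ext x; simp
        map_zero' := by ext x; simp
        map_add' := fun a b => by ext x; simp
        commutes' := fun r => by
          ext x
          have : ρ (algebraMap Ω _ r) x = r • x := by rw [AlgHom.commutes]; rfl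
          simp only [LinearMap.comp_apply, Submodule.mkQ_apply, Submodule.mapQ_apply, this]
          rfl }
    have hfin : finrank Ω W = 1 := finrank_span_singleton hv
    obtain ⟨p, hp'⟩ := ih (V ⧸ W) ρ' (by
      have := W.finrank_quotient_add_finrank; omega)
    refine ⟨Fin.cons p0 p, fun h => ?_⟩
    rw [LinearMap.det_eq_det_mul_det W (ρ h) (hW h), Fin.prod_univ_succ, Fin.cons_zero]
    simp only [Fin.cons_succ]
    rw [← hp' h]
    congr 1
    have : (ρ h).restrict (p := W) (q := W) (hW h) = eval p0 h • LinearMap.id := by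
      ext ⟨x, hx⟩
      obtain ⟨c, rfl⟩ := Submodule.mem_span_singleton.1 hx
      simp [hp, smul_smul, mul_comm]
    rw [this, LinearMap.det_smul, hfin, pow_one, LinearMap.det_id, mul_one]

theorem exists_chars_mat {ι : Type} [Fintype ι] [DecidableEq ι]
    (ρ : MvPolynomial (Fin 3) Ω →ₐ[Ω] Matrix ι ι Ω) :
    ∃ (n : ℕ) (p : Fin n → Fin 3 → Ω), (∀ h, (ρ h).det = ∏ j, eval (p j) h) ∧
      ∀ h, (ρ h).charpoly = ∏ j, (Polynomial.X - Polynomial.C (eval (p j) h)) := by
  obtain ⟨p, hp⟩ := exists_chars _ (ι → Ω) (Matrix.toLinAlgEquiv'.toAlgHom.comp ρ) rfl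
  have h1 : ∀ h, (ρ h).det = ∏ j, eval (p j) h := fun h => by
    rw [← hp h, ← LinearMap.det_toLin']; rfl
  refine ⟨_, p, h1, fun h => Polynomial.funext fun t => ?_⟩
  have := h1 (C t - h)
  rw [map_sub, ← algebraMap_eq, AlgHom.commutes] at this
  rw [eval_charpoly, Polynomial.eval_prod]
  simpa [algebraMap_eq_diagonal, Pi.algebraMap_def] using this

end chars

open Polynomial

variable {K : Type u} [Field K]

theorem finrank_le_of_det {ι : Type} [Fintype ι] [DecidableEq ι] (L k : ℕ) :
    ∀ (A : Matrix ι ι K[X]) (W : Type v) [AddCommGroup W] [Module K W] [Module K[X] W]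
      [IsScalarTower K K[X] W] [FiniteDimensional K W] (π : (ι → K[X]) →ₗ[K[X]] W),
      Function.Surjective π → (∀ a, π (A *ᵥ a) = 0) → (∀ w : W, (X : K[X]) ^ L • w = 0) →
      ¬ X ^ (k + 1) ∣ A.det → finrank K W ≤ k := by
  have base : ∀ (A : Matrix ι ι K[X]) (W : Type v) [AddCommGroup W] [Module K W] [Module K[X] W]
      (π : (ι → K[X]) →ₗ[K[X]] W),
      Function.Surjective π → (∀ a, π (A *ᵥ a) = 0) → (∀ w : W, (X : K[X]) ^ L • w = 0) →
      ¬ X ∣ A.det → finrank K W = 0 := by
    intro A W _ _ _ π hπ hA hL hd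
    obtain ⟨a, b, hab⟩ := ((irreducible_X.coprime_iff_not_dvd.2 hd).pow_left (m := L))
    have : Subsingleton W := subsingleton_of_forall_eq 0 fun w => by
      obtain ⟨x, rfl⟩ := hπ w
      have h1 : A.det • π x = 0 := by rw [← map_smul, ← mulVec_cramer, hA]
      rw [← one_smul K[X] (π x), ← hab, add_smul, mul_smul, mul_smul, hL, h1, smul_zero,
        smul_zero, add_zero]
    exact finrank_zero_of_subsingleton
  induction k with
  | zero =>
    intro A W _ _ _ _ _ π hπ hA hL hd
    exact (base A W π hπ hA hL (by simpa using hd)).le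
  | succ k ih =>
    intro A W _ _ _ _ _ π hπ hA hL hd
    by_cases h0 : ¬ X ∣ A.det
    · rw [base A W π hπ hA hL h0]; exact Nat.zero_le _
    rw [not_not, X_dvd_iff, coeff_zero_eq_eval_zero, ← coe_evalRingHom, RingHom.map_det,
      ← exists_mulVec_eq_zero_iff] at h0
    obtain ⟨c, hc, hAc⟩ := h0
    obtain ⟨j, hj⟩ := Function.ne_iff.1 hc
    have h1 : ∀ i, X ∣ (A *ᵥ fun l => C (c l)) i := fun i => by
      rw [X_dvd_iff, coeff_zero_eq_eval_zero, ← coe_evalRingHom, RingHom.map_mulVec]
      refine Eq.trans ?_ (congrFun hAc i)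
      congr 2
      funext l; simp
    choose a' ha' using h1
    have h2 : (A *ᵥ fun l => C (c l)) = (X : K[X]) • a' := funext ha'
    have h3 : X * (A.updateCol j a').det = C (c j) * A.det := by
      rw [← det_updateCol_smul, ← h2, ← smul_eq_mul, ← det_updateCol_sum A j fun l => C (c l)]
      congr 2
      funext i
      simp [Matrix.mulVec, dotProduct, mul_comm]
    have h4 : (X : K[X]) • π a' = 0 := by rw [← map_smul, ← h2, hA]
    let U := Submodule.span K[X] {π a'}
    have h5 : finrank K (W ⧸ U) ≤ k := by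
      refine ih (A.updateCol j a') (W ⧸ U) (U.mkQ ∘ₗ π) (U.mkQ_surjective.comp hπ) (fun a => ?_)
        (fun w => ?_) fun hd' => hd ?_
      · have : A.updateCol j a' *ᵥ a = A *ᵥ Function.update a j 0 + a j • a' := by
          funext i
          simp only [Matrix.mulVec, dotProduct, Pi.add_apply, Pi.smul_apply, smul_eq_mul]
          rw [← Finset.add_sum_erase _ _ (Finset.mem_univ j),
            ← Finset.add_sum_erase _ _ (Finset.mem_univ j), updateCol_self, Function.update_self,
            mul_zero, zero_add, add_comm, mul_comm]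
          congr 1
          refine Finset.sum_congr rfl fun l hl => ?_
          rw [updateCol_ne (Finset.ne_of_mem_erase hl),
            Function.update_of_ne (Finset.ne_of_mem_erase hl)]
        rw [LinearMap.comp_apply, this, map_add, hA, zero_add, map_smul, Submodule.mkQ_apply,
          Submodule.Quotient.mk_eq_zero]
        exact U.smul_mem _ (Submodule.mem_span_singleton_self _)
      · obtain ⟨w, rfl⟩ := U.mkQ_surjective w
        rw [← map_smul, hL, map_zero]
      · have := mul_dvd_mul_left X hd'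
        rw [h3, ← pow_succ'] at this
        exact (isUnit_C.2 (IsUnit.mk0 _ hj)).dvd_mul_left.1 this
    have h6 : finrank K (U.restrictScalars K) ≤ 1 := by
      refine (Submodule.finrank_mono (t := Submodule.span K {π a'}) fun w hw => ?_).trans
        ((finrank_span_le_card _).trans (by simp))
      obtain ⟨r, rfl⟩ := Submodule.mem_span_singleton.1 hw
      rw [← X_mul_divX_add r, add_smul, mul_comm, mul_smul, h4, smul_zero, zero_add,
        C_eq_algebraMap, algebraMap_smul]
      exact Submodule.smul_mem _ _ (Submodule.mem_span_singleton_self _)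
    have h7 := (U.mkQ.restrictScalars K).finrank_range_add_finrank_ker
    rw [LinearMap.range_eq_top (f := U.mkQ.restrictScalars K) |>.2 U.mkQ_surjective, finrank_top, LinearMap.ker_restrictScalars,
      Submodule.ker_mkQ] at h7
    omega

theorem card_le_finrank {ι : Type} [Fintype ι] [DecidableEq ι] (A : Matrix ι ι K) {κ : Type*}
    [Field κ] [Algebra K κ] {n : ℕ} (α : Fin n → κ)
    (h : A.charpoly.map (algebraMap K κ) = ∏ j, (X - C (α j))) (s : Finset (Fin n))
    (hs : ∀ j ∈ s, α j = 0) : s.card ≤ finrank K (End.maxGenEigenspace (toLin' A) 0) := by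
  rw [LinearMap.finrank_maxGenEigenspace_eq, charpoly_toLin',
    eq_rootMultiplicity_map (algebraMap K κ).injective, le_rootMultiplicity_iff
      (A.charpoly_monic.map _).ne_zero, h, map_zero, ← Finset.prod_const]
  refine (dvd_of_eq (Finset.prod_congr rfl fun j hj => by rw [hs j hj])).trans
    (Finset.prod_dvd_prod_of_subset _ _ _ (Finset.subset_univ s))

end Pool.Agent.Lib.MP_ed43e6_ag
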