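import Pool.Agent.Lib.MP_ed43e6_ag.Gen

/-! Criteria for simultaneous diagonalisability over a field. -/

namespace Pool.Agent.Lib.MP_ed43e6_ag

open Matrix Module

variable {Ω : Type*} [Field Ω] {ι κ : Type} [Fintype ι] [DecidableEq ι] [Fintype κ] [DecidableEq κ]

/-- Joint eigenvectors. -/
def jointEig (Y : Fin 3 → Matrix κ κ Ω) : Set (κ → Ω) := {v | ∀ i, ∃ a : Ω, Y i *ᵥ v = a • v}

theorem diag_of_span (Y : Fin 3 → Matrix κ κ Ω) (h : ⊤ ≤ Submodule.span Ω (jointEig Y)) :
    Diag Y := by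
  let b0 := Basis.ofSpan h
  let b : Basis κ Ω (κ → Ω) := b0.reindex (b0.indexEquiv (Pi.basisFun Ω κ))
  have hb : ∀ j, b j ∈ jointEig Y := fun j => by
    apply Basis.ofSpan_subset h
    simp only [b, Basis.reindex_apply]
    exact Set.mem_range_self _
  choose l hl using hb
  let g : Matrix κ κ Ω := (Pi.basisFun Ω κ).toMatrix b
  have hg : ∀ a j, g a j = b j a := fun a j => by simp [g, Basis.toMatrix_apply]
  have hgh : g * b.toMatrix (Pi.basisFun Ω κ) = 1 := by
    simp [g, Basis.toMatrix_mul_toMatrix]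
  refine ⟨g, b.toMatrix (Pi.basisFun Ω κ), hgh, fun i j => l j i, fun i => ?_⟩
  have : Y i * g = g * diagonal fun j => l j i := by
    ext a j
    have := congrFun (hl j i) a
    rw [mul_diagonal, hg, mul_apply]
    simp only [hg]
    simpa [mulVec, dotProduct, mul_comm] using this
  rw [← this, Matrix.mul_assoc, hgh, Matrix.mul_one]

theorem Diag.commute {A : Type*} [CommRing A] {X : Fin 3 → Matrix ι ι A} (h : Diag X)
    (i j : Fin 3) : X i * X j = X j * X i := by
  obtain ⟨g, h, hgh, l, hl⟩ := h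
  have hhg : h * g = 1 := mul_eq_one_comm.1 hgh
  have : ∀ a b : ι → A, g * diagonal a * h * (g * diagonal b * h) =
      g * diagonal (fun k => a k * b k) * h := fun a b => by
    rw [← diagonal_mul_diagonal]
    simp only [Matrix.mul_assoc]
    rw [← Matrix.mul_assoc h g, hhg, Matrix.one_mul]
  rw [hl i, hl j, this, this]
  simp only [mul_comm]

theorem Diag.iSup_eig {X : Fin 3 → Matrix ι ι Ω} (h : Diag X) (i : Fin 3) :
    ⨆ μ, End.genEigenspace (toLin' (X i)) μ 1 = ⊤ := by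
  obtain ⟨g, h, hgh, l, hl⟩ := h
  have hhg : h * g = 1 := mul_eq_one_comm.1 hgh
  rw [eq_top_iff]
  intro v _
  have hv : v = ∑ j, (h *ᵥ v) j • (g *ᵥ Pi.single j 1) := by
    have : ∑ j, (h *ᵥ v) j • (g *ᵥ (Pi.single j 1 : ι → Ω)) =
        g *ᵥ (∑ j, (h *ᵥ v) j • (Pi.single j 1 : ι → Ω)) := by
      rw [mulVec_sum]; simp only [mulVec_smul]
    rw [this, ← pi_eq_sum_univ', mulVec_mulVec, hgh, one_mulVec]
  rw [hv]
  refine Submodule.sum_mem _ fun j _ => Submodule.smul_mem _ _ ?_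
  refine Submodule.mem_iSup_of_mem (l i j) ?_
  change _ ∈ End.eigenspace _ _
  rw [End.mem_eigenspace_iff, toLin'_apply, mulVec_mulVec, hl i, Matrix.mul_assoc, hhg,
    Matrix.mul_one, ← mulVec_mulVec, ← mulVec_smul]
  congr 1
  ext a
  by_cases ha : a = j
  · subst ha; simp [mulVec_diagonal]
  · simp [mulVec_diagonal, ha]

theorem Diag.sub {X : Fin 3 → Matrix ι ι Ω} (hX : Diag X) {Y : Fin 3 → Matrix κ κ Ω}
    (E : Matrix ι κ Ω) (D : Matrix κ ι Ω) (hDE : D * E = 1) (hE : ∀ i, E * Y i = X i * E) :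
    Diag Y := by
  apply diag_of_span
  let f : Fin 3 → End Ω (ι → Ω) := fun i => toLin' (X i)
  have hc : ∀ i j, Commute (f i) (f j) := fun i j => by
    change f i ∘ₗ f j = f j ∘ₗ f i
    simp only [f, ← toLin'_mul, hX.commute i j]
  let p : Submodule Ω (ι → Ω) := LinearMap.range (toLin' E)
  have hp : ∀ i, ∀ x ∈ p, f i x ∈ p := by
    rintro i x ⟨y, rfl⟩
    exact ⟨Y i *ᵥ y, by simp [f, hE i]⟩
  have step : ∀ (q : Submodule Ω (ι → Ω)) (i : Fin 3) (r : Submodule Ω (ι → Ω)),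
      (∀ j, ∀ x ∈ q, f j x ∈ q) →
      (∀ μ, (∀ j, ∀ x ∈ q ⊓ End.genEigenspace (f i) μ 1, f j x ∈ q ⊓ End.genEigenspace (f i) μ 1) →
        q ⊓ End.genEigenspace (f i) μ 1 ≤ r) → q ≤ r := by
    intro q i r hq hr
    rw [Submodule.eq_iSup_inf_genEigenspace 1 (hq i) (hX.iSup_eig i)]
    refine iSup_le fun μ => hr μ fun j x hx => ⟨hq j x hx.1, ?_⟩
    exact End.mapsTo_genEigenspace_of_comm (hc i j) μ 1 hx.2
  have key : p ≤ (Submodule.span Ω (jointEig Y)).map (toLin' E) := by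
    refine step p 0 _ hp fun a ha => step _ 1 _ ha fun b hb => step _ 2 _ hb fun c _ => ?_
    rintro x ⟨⟨⟨⟨y, rfl⟩, h0⟩, h1⟩, h2⟩
    refine ⟨y, Submodule.subset_span ?_, rfl⟩
    have aux : ∀ i μ, toLin' E y ∈ End.genEigenspace (f i) μ 1 → Y i *ᵥ y = μ • y := by
      intro i μ h
      have h' : f i (toLin' E y) = μ • toLin' E y := End.mem_eigenspace_iff.1 h
      have h'' := congrArg (D *ᵥ ·) h'
      simp only [f, toLin'_apply, mulVec_mulVec, mulVec_smul, ← hE i, ← Matrix.mul_assoc,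
        hDE, Matrix.one_mul, one_mulVec] at h''
      exact h''
    intro i
    fin_cases i
    · exact ⟨a, aux 0 a h0⟩
    · exact ⟨b, aux 1 b h1⟩
    · exact ⟨c, aux 2 c h2⟩
  intro y _
  obtain ⟨z, hz, hzy⟩ := key (⟨y, rfl⟩ : toLin' E y ∈ p)
  have h'' := congrArg (D *ᵥ ·) hzy
  simp only [toLin'_apply, mulVec_mulVec, hDE, one_mulVec] at h''
  rwa [← h'']

theorem diag_of_separable [IsAlgClosed Ω] (X : Fin 3 → Matrix ι ι Ω) (L : Matrix ι ι Ω)
    (hc : ∀ i, L * X i = X i * L) (hL : L.charpoly.Separable) : Diag X := by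
  apply diag_of_span
  rw [← End.iSup_maxGenEigenspace_eq_top (toLin' L)]
  refine iSup_le fun μ v hv => Submodule.subset_span fun i => ?_
  have h1 : finrank Ω (End.maxGenEigenspace (toLin' L) μ) ≤ 1 := by
    rw [LinearMap.finrank_maxGenEigenspace_eq, charpoly_toLin']
    exact Polynomial.rootMultiplicity_le_one_of_separable hL μ
  have hcomm : Commute (toLin' L) (toLin' (X i)) := by
    change toLin' L ∘ₗ toLin' (X i) = toLin' (X i) ∘ₗ toLin' L
    simp only [← toLin'_mul, hc i]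
  have h2 : toLin' (X i) v ∈ End.maxGenEigenspace (toLin' L) μ :=
    End.mapsTo_maxGenEigenspace_of_comm hcomm μ hv
  by_cases h0 : v = 0
  · exact ⟨0, by simp [h0]⟩
  have h3 : finrank Ω (End.maxGenEigenspace (toLin' L) μ) = 1 := by
    refine le_antisymm h1 ?_
    have : Nontrivial (End.maxGenEigenspace (toLin' L) μ) :=
      ⟨⟨⟨v, hv⟩, 0, fun h => h0 (congrArg Subtype.val h)⟩⟩
    exact finrank_pos
  obtain ⟨a, ha⟩ := (finrank_eq_one_iff_of_nonzero' (⟨v, hv⟩ : End.maxGenEigenspace (toLin' L) μ)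
    (fun h => h0 (congrArg Subtype.val h))).1 h3 ⟨_, h2⟩
  exact ⟨a, by simpa using (congrArg Subtype.val ha).symm⟩

open Polynomial in
theorem separable_map_of_separable_map {O Φ : Type*} [CommRing O] [Field Φ] (χ : O[X])
    (hχ : χ.Monic) (φ : O →+* Φ) (ψ : O →+* Ω) (hψ : Function.Injective ψ)
    (h : (χ.map φ).Separable) : (χ.map ψ).Separable := by
  by_cases h0 : χ.natDegree = 0
  · obtain rfl := eq_one_of_monic_natDegree_zero hχ h0
    simpa using separable_one
  set n := χ.natDegree with hn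
  have hr : resultant χ χ.derivative n n ≠ 0 := by
    intro hr
    have h1 := resultant_map_map χ χ.derivative n n φ
    rw [hr, map_zero] at h1
    have hm := hχ.map φ
    have hd : (χ.map φ).natDegree = n := hχ.natDegree_map φ
    have hle : (χ.derivative.map φ).natDegree ≤ n :=
      natDegree_map_le.trans ((natDegree_derivative_le χ).trans (Nat.sub_le _ _))
    have hcop : IsCoprime (χ.map φ) (χ.derivative.map φ) := by
      rw [← derivative_map]; exact h
    have hu := (isUnit_resultant_iff_isCoprime hm).2 hcop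
    obtain ⟨k, hk⟩ := Nat.exists_eq_add_of_le hle
    have h2 := resultant_add_right_deg (χ.map φ) (χ.derivative.map φ) n
      (χ.derivative.map φ).natDegree k le_rfl
    rw [← hk, h1, ← hd, coeff_natDegree, hm.leadingCoeff, one_pow, one_mul] at h2
    exact hu.ne_zero h2.symm
  obtain ⟨p, q, -, -, e⟩ := exists_mul_add_mul_eq_C_resultant χ χ.derivative (m := n) (n := n)
    le_rfl ((natDegree_derivative_le χ).trans (Nat.sub_le _ _)) (Or.inl h0)
  have hne : ψ (resultant χ χ.derivative n n) ≠ 0 := (map_ne_zero_iff ψ hψ).2 hr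
  have e' := congrArg (Polynomial.map ψ) e
  simp only [Polynomial.map_add, Polynomial.map_mul, map_C] at e'
  refine ⟨C (ψ (resultant χ χ.derivative n n))⁻¹ * p.map ψ,
    C (ψ (resultant χ χ.derivative n n))⁻¹ * q.map ψ, ?_⟩
  rw [derivative_map, mul_assoc, mul_assoc, ← mul_add, mul_comm (p.map ψ), mul_comm (q.map ψ), e',
    ← C_mul, inv_mul_cancel₀ hne, C_1]

theorem isRoot_charpoly_of_mulVec {L : Matrix ι ι Ω} {v : ι → Ω} (hv : v ≠ 0) {μ : Ω}
    (h : L *ᵥ v = μ • v) : L.charpoly.IsRoot μ := by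
  rw [Polynomial.IsRoot, eval_charpoly, ← exists_mulVec_eq_zero_iff]
  refine ⟨v, hv, ?_⟩
  rw [sub_mulVec, h, scalar_apply, ← smul_one_eq_diagonal, smul_mulVec, one_mulVec, sub_self]

open Polynomial in
theorem separable_charpoly_of_roots (L : Matrix ι ι Ω) (μ : ι → Ω) (hμ : Function.Injective μ)
    (h : ∀ j, L.charpoly.IsRoot (μ j)) : L.charpoly.Separable := by
  have hdvd : ∏ j, (X - C (μ j)) ∣ L.charpoly :=
    Fintype.prod_dvd_of_coprime (fun a b hab => isCoprime_X_sub_C_of_isUnit_sub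
      (sub_ne_zero.2 (hμ.ne hab)).isUnit) fun j => dvd_iff_isRoot.2 (h j)
  have hm : (∏ j, (X - C (μ j))).Monic := monic_prod_of_monic _ _ fun j _ => monic_X_sub_C _
  have : L.charpoly = ∏ j, (X - C (μ j)) := by
    refine eq_of_monic_of_dvd_of_natDegree_le hm L.charpoly_monic hdvd ?_
    rw [charpoly_natDegree_eq_dim, natDegree_prod_of_monic _ _ fun j _ => monic_X_sub_C _]
    simp
  rw [this]
  exact separable_prod_X_sub_C_iff.2 hμ

end Pool.Agent.Lib.MP_ed43e6_ag
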