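import Pool.Agent.Lib.MP_ed43e6_ag.Mod

/-! A direct summand cut out by an idempotent polynomial stays smoothable. -/

namespace Pool.Agent.Lib.MP_ed43e6_ag

open Matrix Module IsLocalRing

universe u

variable {K : Type u} [Field K]

open Polynomial in
theorem exists_interp {O : Type u} [CommRing O] [IsLocalRing O] [Algebra K O] {ι : Type}
    [Fintype ι] (α : ι → O) :
    ∃ r : O[X], ∀ j, ((1 - X + X * (X - 1) * r).eval (α j)) ^ 2 =
      (1 - X + X * (X - 1) * r).eval (α j) := by
  classical
  let γ : ι ⊕ Bool → O := Sum.elim α fun b => if b then 1 else 0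
  let s0 := Finset.univ.filter fun a => resA K O (γ a) = 0
  let s1 := Finset.univ.filter fun a => resA K O (γ a) ≠ 0
  have hcop : IsCoprime (∏ a ∈ s0, (X - C (γ a))) (∏ a ∈ s1, (X - C (γ a))) := by
    refine IsCoprime.prod_left fun a ha => IsCoprime.prod_right fun b hb => ?_
    apply isCoprime_X_sub_C_of_isUnit_sub
    apply isUnit_of_resA (K := K)
    rw [map_sub, (Finset.mem_filter.1 ha).2, zero_sub, neg_ne_zero]
    exact (Finset.mem_filter.1 hb).2
  obtain ⟨a, b, hab⟩ := hcop
  set p := b * ∏ a ∈ s1, (X - C (γ a)) with hp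
  have h0 : ∀ c ∈ s0, p.eval (γ c) = 1 := fun c hc => by
    have := congrArg (Polynomial.eval (γ c)) hab
    rw [Polynomial.eval_add, Polynomial.eval_mul, Polynomial.eval_prod,
      Finset.prod_eq_zero hc (by simp), mul_zero, zero_add, Polynomial.eval_one] at this
    exact this
  have h1 : ∀ c ∈ s1, p.eval (γ c) = 0 := fun c hc => by
    rw [hp, Polynomial.eval_mul, Polynomial.eval_prod, Finset.prod_eq_zero hc (by simp), mul_zero]
  have e0 : p.eval 0 = 1 := h0 (Sum.inr false) (by simp [s0, γ])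
  have e1 : p.eval 1 = 0 := h1 (Sum.inr true) (by simp [s1, γ])
  have d0 : X ∣ p - (1 - X) := by
    rw [X_dvd_iff, coeff_zero_eq_eval_zero]; simp [e0]
  obtain ⟨q, hq⟩ := d0
  have d1 : X - C 1 ∣ q := by
    rw [dvd_iff_isRoot, IsRoot]
    have := congrArg (Polynomial.eval 1) hq
    simpa [e1] using this.symm
  obtain ⟨r, hr⟩ := d1
  refine ⟨r, fun j => ?_⟩
  have : 1 - X + X * (X - 1) * r = p := by
    rw [mul_assoc, ← C_1, ← hr, ← hq, C_1]; ring
  rw [this]
  by_cases hj : resA K O (α j) = 0
  · rw [show α j = γ (Sum.inl j) from rfl, h0 _ (by simpa [s0, γ] using hj), one_pow]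
  · rw [show α j = γ (Sum.inl j) from rfl, h1 _ (by simpa [s1, γ] using hj)]; simp

open MvPolynomial

theorem split_mat {ι ι' : Type} [Fintype ι] [DecidableEq ι] [Fintype ι'] [DecidableEq ι']
    (ρ0 : MvPolynomial (Fin 3) K →ₐ[K] Matrix ι ι K) (hM : SmM K fun i => ρ0 (X i))
    (h : MvPolynomial (Fin 3) K) (E0 : Matrix ι ι' K) (D0 : Matrix ι' ι K) (hDE : D0 * E0 = 1)
    (hED : E0 * D0 = 1 - ρ0 h) : SmM K fun i => D0 * ρ0 (X i) * E0 := by
  obtain ⟨O, Φ, _, _, _, _, _, _, e, N, g, g', μ, he, hg, hN, hres, -⟩ := hM.arc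
  have hinj : ∀ A B : Matrix ι ι O, A.map e = B.map e → A = B := fun A B hAB => by
    ext a b; exact he (congrFun (congrFun hAB a) b)
  have hd : Diag fun i => (N i).map e := ⟨g, g', hg, _, hN⟩
  obtain ⟨ρ, hρ⟩ := exists_rep N fun i j => hinj _ _ (by
    rw [Matrix.map_mul (f := e), Matrix.map_mul (f := e)]; exact hd.commute i j)
  obtain ⟨ρΦ, hρΦ⟩ := exists_rep (fun i => (N i).map e) hd.commute
  have hev : ∀ f, (ρ f).map e = g * diagonal (fun a => e (eval (fun i => μ i a) f)) * g' := by
    intro f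
    rw [show (ρ f).map e = (ρ f).map (e : O →+* Φ) from rfl,
      rep_map ρ ρΦ (e : O →+* Φ) (fun i => by rw [hρ, hρΦ]; rfl) f,
      rep_diag ρΦ g g' hg _ (fun i => (hρΦ i).trans (hN i))]
    congr 3
    funext a
    rw [eval_map, show (fun i => e (μ i a)) = (e : O →+* Φ) ∘ fun i => μ i a from rfl,
      ← eval₂_comp]
    rfl
  let hO := MvPolynomial.map (algebraMap K O) h
  obtain ⟨r, hr⟩ := exists_interp (K := K) fun a => eval (fun i => μ i a) hO
  let q := 1 - hO + hO * (hO - 1) * Polynomial.aeval hO r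
  have hq : ∀ a, eval (fun i => μ i a) q = (1 - Polynomial.X + Polynomial.X * (Polynomial.X - 1) *
      r).eval (eval (fun i => μ i a) hO) := fun a => by
    have : eval (fun i => μ i a) (Polynomial.aeval hO r) = r.eval (eval (fun i => μ i a) hO) := by
      rw [← coe_aeval_eq_eval, ← Polynomial.coe_aeval_eq_eval]
      exact (Polynomial.aeval_algHom_apply (aeval fun i => μ i a) hO r).symm
    simp [q, this]
  set P := ρ q with hP
  have hPP : P * P = P := by
    rw [hP, ← map_mul]
    apply hinj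
    rw [hev, hev]
    congr 3
    funext a
    rw [map_mul, ← sq, hq, hr]
  have hH : (ρ hO).map (resA K O) = (ρ0 h).map (algebraMap K _) :=
    rep_res ρ0 ρ (resA K O) (fun i => by rw [hρ, hres]) hO h (map_res_map _ _)
  set e0 : Matrix ι ι K := E0 * D0 with he0
  have he0e0 : e0 * e0 = e0 := by
    rw [he0, Matrix.mul_assoc, ← Matrix.mul_assoc D0, hDE, Matrix.one_mul]
  have hh : ρ0 h = 1 - e0 := by rw [hED]; simp
  let rm : Matrix ι ι O →+* Matrix ι ι (ResidueField O) :=
    (resA K O : O →+* ResidueField O).mapMatrix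
  let am : Matrix ι ι K →+* Matrix ι ι (ResidueField O) := (algebraMap K _).mapMatrix
  let ao : Matrix ι ι K →+* Matrix ι ι O := (algebraMap K _).mapMatrix
  have hrm : ∀ A, rm (ao A) = am A := fun A => mat_res_map (resA K O) A
  have hPres : rm P = am e0 := by
    have h1 : rm (ρ hO) = am (1 - e0) := by rw [← hh]; exact hH
    have h2 : am (1 - e0) * (am (1 - e0) - 1) = 0 := by
      rw [← map_one am, ← map_sub, ← map_mul]
      have : (1 - e0) * (1 - e0 - 1) = 0 := by
        rw [sub_sub_cancel_left, mul_neg, sub_mul, one_mul, he0e0, sub_self, neg_zero]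
      rw [this, map_zero]
    simp only [hP, q, map_add, map_sub, map_mul, map_one, h1] at h2 ⊢
    rw [h2]; simp
  let w := P * ao e0 + (1 - P) * (1 - ao e0)
  have hw : rm w = 1 := by
    simp only [w, map_add, map_mul, map_sub, map_one, hPres, hrm]
    have : am e0 * am e0 = am e0 := by rw [← map_mul, he0e0]
    rw [sub_mul, mul_sub, mul_sub, this]; simp [this]
  obtain ⟨W, hWw, hwW, hW⟩ := exists_inv_of_resA (K := K) w hw
  let E0' := E0.map (algebraMap K O)
  let D0' := D0.map (algebraMap K O)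
  have hDE' : D0' * E0' = 1 := by
    rw [← Matrix.map_mul, hDE, Matrix.map_one _ (map_zero _) (map_one _)]
  have hED' : E0' * D0' = ao e0 := by rw [← Matrix.map_mul]; rfl
  have hwE : w * E0' = P * E0' := by
    have : ao e0 * E0' = E0' := by rw [← hED', Matrix.mul_assoc, hDE', Matrix.mul_one]
    simp only [w, Matrix.add_mul, Matrix.mul_assoc, Matrix.sub_mul (1 : Matrix ι ι O) (ao e0),
      this, Matrix.one_mul, sub_self, Matrix.mul_zero, add_zero]
  have hPw : P * w = P * ao e0 := by
    simp only [w, mul_add, ← mul_assoc, hPP, mul_sub P, mul_one, sub_self, zero_mul, add_zero]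
  have hEDP : P * E0' * (D0' * W) = P := by
    rw [Matrix.mul_assoc, ← Matrix.mul_assoc E0', hED', ← Matrix.mul_assoc, ← hPw,
      Matrix.mul_assoc, hwW, Matrix.mul_one]
  refine core0 e he (resA K O) N (P * E0') (D0' * W) ?_ (fun i => ?_) hd _ fun i => ?_
  · rw [← hwE, Matrix.mul_assoc, ← Matrix.mul_assoc W, hWw, Matrix.one_mul, hDE']
  · have hc : P * N i = N i * P := by rw [hP, ← hρ, ← map_mul, ← map_mul, mul_comm]
    rw [Matrix.mul_assoc (D0' * W), ← Matrix.mul_assoc (P * E0'), hEDP, ← Matrix.mul_assoc,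
      ← Matrix.mul_assoc, hc, Matrix.mul_assoc (N i), hPP, Matrix.mul_assoc]
  · have h1 : P.map (resA K O) = e0.map (algebraMap K _) := hPres
    have h2 : e0 * E0 = E0 := by rw [he0, Matrix.mul_assoc, hDE, Matrix.mul_one]
    simp only [Matrix.map_mul (f := resA K O), hW, h1, hres, E0', D0', mat_res_map,
      Matrix.mul_one]
    rw [← Matrix.map_mul, ← Matrix.map_mul, ← Matrix.map_mul, h2]

theorem Sm.split {V : Type*} [AddCommGroup V] [Module K V] [Module (MvPolynomial (Fin 3) K) V]
    [IsScalarTower K (MvPolynomial (Fin 3) K) V] (hV : Sm (act K V)) (h : MvPolynomial (Fin 3) K)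
    (hh : ∀ v : V, h • h • v = h • v) :
    Sm (act K (Submodule.torsionBy (MvPolynomial (Fin 3) K) V h)) := by
  have := hV.finite
  obtain ⟨ι, _, _, b, hb⟩ := hV
  set W := Submodule.torsionBy (MvPolynomial (Fin 3) K) V h
  let j : W →ₗ[K] V := W.subtype.restrictScalars K
  have : FiniteDimensional K W := Module.Finite.of_injective j Subtype.val_injective
  let c := Module.finBasis K W
  let p0 : V →ₗ[MvPolynomial (Fin 3) K] W :=
    (LinearMap.lsmul _ V (1 - h)).codRestrict W fun v => by
      simp [W, sub_smul, smul_sub, hh]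
  let p : V →ₗ[K] W := p0.restrictScalars K
  have hpj : ∀ w : W, p (j w) = w := fun w => Subtype.ext (by
    have : h • (w : V) = 0 := w.2
    simp [p, p0, j, sub_smul, this])
  refine ⟨_, inferInstance, inferInstance, c, ?_⟩
  have key := split_mat (repOf b) hb h (LinearMap.toMatrix c b j) (LinearMap.toMatrix b c p)
    (by
      rw [← LinearMap.toMatrix_comp, ← LinearMap.toMatrix_id c]
      congr 1
      exact LinearMap.ext hpj)
    (by
      rw [← LinearMap.toMatrix_comp, repOf_apply, ← LinearMap.toMatrix_id b, ← map_sub]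
      congr 1
      ext v
      simp [p, p0, j, sub_smul])
  convert key using 2 with i
  rw [repOf_apply, ← LinearMap.toMatrix_comp, ← LinearMap.toMatrix_comp]
  congr 1
  refine LinearMap.ext fun w => ?_
  exact (hpj _).symm

end Pool.Agent.Lib.MP_ed43e6_ag
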