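import Pool.Agent.Lib.MP_ed43e6_ag.Local
import Pool.Agent.Lib.MP_ed43e6_ag.Split

/-! Smoothability passes through a link by a short complete intersection. -/

namespace Pool.Agent.Lib.MP_ed43e6_ag

open MvPolynomial Module

universe u

variable {K : Type u} [Field K]

theorem inj_of_ker {U V : Type*} [AddCommGroup U] [Module K U] [AddCommGroup V] [Module K V]
    (f : U →ₗ[K] V) (h : ∀ u, f u = 0 → u = 0) : Function.Injective f :=
  (injective_iff_map_eq_zero f).2 h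

theorem link [Infinite K] {I : Ideal (SS K)} {M : ℕ} (hM : mm K ^ M ≤ I) (f : Fin 3 → SS K)
    (hf : ∀ i, f i ∈ I) {e : ℕ} (hl : LocLen (Ideal.span (Set.range f)) e)
    (he : e < 2 * finrank K (SS K ⧸ I))
    (IH : ∀ J : Ideal (SS K), Module.Finite K (SS K ⧸ J) →
      finrank K (SS K ⧸ J) < finrank K (SS K ⧸ I) → Sm (act K (SS K ⧸ J))) :
    Sm (act K (SS K ⧸ I)) := by
  have := finite_quot hM
  obtain ⟨j, hj, -⟩ := id hl
  obtain ⟨N, hN, hF⟩ := exists_mon f (j + M + finrank K (SS K ⧸ I))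
  set F := fun i => f i + X i ^ N with hFdef
  set C := Ideal.span (Set.range F) with hC
  have hCN : C ⊔ mm K ^ N = Ideal.span (Set.range f) ⊔ mm K ^ N := span_add_pow f N
  have hL : mm K ^ (j + M) ≤ C ⊔ mm K ^ N :=
    (Ideal.pow_le_pow_right (Nat.le_add_right _ _)).trans (hCN ▸ stab hj N)
  obtain ⟨h, hh, hidem, hle⟩ := exists_idem
    (hL.trans (sup_le_sup_left (Ideal.pow_le_pow_right (by omega)) _))
  have hNL : mm K ^ N ≤ mm K ^ (j + M) := Ideal.pow_le_pow_right (by omega)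
  have hLI : mm K ^ (j + M) ≤ I := (Ideal.pow_le_pow_right (Nat.le_add_left _ _)).trans hM
  have hhI : h ∈ I := hLI hh
  have hCI : C ≤ I := by
    rw [hC, Ideal.span_le]
    rintro _ ⟨i, rfl⟩
    exact add_mem (hf i) (hLI (hNL (X_pow_mem i N)))
  have := hF.finite
  obtain ⟨τ, hτ1, hτ2⟩ := hF.frobenius
  let J : Ideal (SS K) := C.colon I
  have hJ : ∀ b, b ∈ J ↔ ∀ g ∈ I, b * g ∈ C := fun b => Submodule.mem_colon
  have hCJ : C ≤ J := fun b hb => (hJ b).2 fun g _ => Ideal.mul_mem_right _ _ hb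
  let J0 := J ⊔ Ideal.span {h}
  let W : Submodule (SS K) (SS K ⧸ C) := Submodule.map C.mkQ J0
  have hW : ∀ b, Ideal.Quotient.mk C b ∈ W ↔ b ∈ J0 := fun b => by
    refine ⟨?_, fun hb => ⟨b, hb, rfl⟩⟩
    rintro ⟨b', hb', hbb⟩
    have : b' - b ∈ C := Ideal.Quotient.eq.1 hbb
    rw [← sub_sub_cancel b' b]
    exact sub_mem hb' (Ideal.mem_sup_left (hCJ this))
  let W0 := Submodule.torsionBy (SS K) W h
  have hW0 : ∀ w : W0, ∃ b ∈ J, Ideal.Quotient.mk C b = w.1.1 := by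
    rintro ⟨⟨_, ⟨b, hb, rfl⟩⟩, hw⟩
    obtain ⟨b1, hb1, b2, hb2, rfl⟩ := Submodule.mem_sup.1 hb
    obtain ⟨a, rfl⟩ := Ideal.mem_span_singleton'.1 hb2
    refine ⟨b1, hb1, Ideal.Quotient.eq.2 ?_⟩
    have h1 : h * (b1 + a * h) ∈ C :=
      Ideal.Quotient.eq_zero_iff_mem.1 (congrArg Subtype.val hw)
    have h2 : b1 - (b1 + a * h) = a * (h * h - h) + b1 * h - h * (b1 + a * h) := by ring
    rw [h2]
    exact sub_mem (add_mem (Ideal.mul_mem_left _ _ hidem) ((hJ _).1 hb1 _ hhI)) h1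
  obtain ⟨s, hs⟩ := LinearMap.exists_rightInverse_of_surjective
    (Ideal.Quotient.mkₐ K C).toLinearMap (LinearMap.range_eq_top.2 Ideal.Quotient.mk_surjective)
  obtain ⟨t, ht⟩ := LinearMap.exists_rightInverse_of_surjective
    (Ideal.Quotient.mkₐ K I).toLinearMap (LinearMap.range_eq_top.2 Ideal.Quotient.mk_surjective)
  have hs' : ∀ x, Ideal.Quotient.mk C (s x) = x := fun x => LinearMap.congr_fun hs x
  have ht' : ∀ x, Ideal.Quotient.mk I (t x) = x := fun x => LinearMap.congr_fun ht x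
  let β : (SS K ⧸ C) →ₗ[K] Dual K (SS K ⧸ C) := (LinearMap.mul K (SS K)).compr₂ τ |>.compl₁₂ s s
  have hτ : ∀ {x y}, x - y ∈ C → τ x = τ y := fun hxy => by
    rw [← sub_eq_zero, ← map_sub, hτ1 _ hxy]
  have hβ : ∀ b c, β (Ideal.Quotient.mk C b) (Ideal.Quotient.mk C c) = τ (c * b) := fun b c => by
    refine hτ (Ideal.Quotient.eq.1 ?_)
    simp only [LinearMap.mul_apply', map_mul, hs', mul_comm]
  have hβi : Function.Injective β := (injective_iff_map_eq_zero β).2 fun x hx => by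
    obtain ⟨b, rfl⟩ := Ideal.Quotient.mk_surjective x
    exact Ideal.Quotient.eq_zero_iff_mem.2 (hτ2 b fun c => by rw [← hβ, hx]; rfl)
  have hβs : Function.Surjective β :=
    (LinearMap.injective_iff_surjective_of_finrank_eq_finrank Subspace.dual_finrank_eq.symm).1 hβi
  let ι0 : W0 →ₗ[K] (SS K ⧸ C) := (W.subtype.restrictScalars K) ∘ₗ (W0.subtype.restrictScalars K)
  have hι0 : Function.Injective ι0 := Subtype.val_injective.comp Subtype.val_injective
  let e0 : W0 →ₗ[K] Dual K (SS K ⧸ I) :=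
    ((Ideal.Quotient.mkₐ K C).toLinearMap ∘ₗ t).dualMap ∘ₗ β ∘ₗ ι0
  have he0 : ∀ (w : W0) b g, Ideal.Quotient.mk C b = w.1.1 →
      e0 w (Ideal.Quotient.mk I g) = τ (g * b) := fun w b g hb => by
    obtain ⟨b', hb', hbw⟩ := hW0 w
    have h1 : e0 w (Ideal.Quotient.mk I g) =
      β (Ideal.Quotient.mk C b') (Ideal.Quotient.mk C (t (Ideal.Quotient.mk I g))) := by
      rw [hbw]; rfl
    rw [h1, hβ]
    apply hτ
    have h2 : b' - b ∈ C := Ideal.Quotient.eq.1 (hbw.trans hb.symm)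
    have h3 : t (Ideal.Quotient.mk I g) * b' - g * b =
      b' * (t (Ideal.Quotient.mk I g) - g) + g * (b' - b) := by ring
    rw [h3]
    exact add_mem ((hJ _).1 hb' _ (Ideal.Quotient.eq.1 (ht' _))) (Ideal.mul_mem_left _ _ h2)
  have he0b : Function.Bijective e0 := by
    refine ⟨inj_of_ker (U := W0) (V := Dual K (SS K ⧸ I)) e0 fun w hw => ?_, fun φ => ?_⟩
    · obtain ⟨b, -, hbw⟩ := hW0 w
      apply hι0
      rw [map_zero, show ι0 w = w.1.1 from rfl, ← hbw, Ideal.Quotient.eq_zero_iff_mem]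
      exact hτ2 b fun c => by rw [← he0 w b c hbw, hw]; rfl
    · obtain ⟨x, hx⟩ := hβs (φ ∘ₗ qmap hCI)
      obtain ⟨b, rfl⟩ := Ideal.Quotient.mk_surjective x
      have h1 : ∀ c, τ (c * b) = φ (Ideal.Quotient.mk I c) := fun c => by
        rw [← hβ, hx]; rfl
      have hb : b ∈ J := (hJ b).2 fun g hg => hτ2 _ fun c => by
        rw [mul_comm b, ← mul_assoc, h1,
          Ideal.Quotient.eq_zero_iff_mem.2 (Ideal.mul_mem_left _ _ hg), map_zero]
      refine ⟨⟨⟨Ideal.Quotient.mk C b, (hW b).2 (Ideal.mem_sup_left hb)⟩, Subtype.ext ?_⟩, ?_⟩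
      · exact Ideal.Quotient.eq_zero_iff_mem.2 (show h * b ∈ C from mul_comm b h ▸ (hJ b).1 hb h hhI)
      · refine LinearMap.ext fun y => ?_
        obtain ⟨g, rfl⟩ := Ideal.Quotient.mk_surjective y
        rw [he0 _ b g rfl, h1]
  let e1 := LinearEquiv.ofBijective e0 he0b
  have hdim : finrank K W0 = finrank K (SS K ⧸ I) := by
    rw [e1.finrank_eq, Subspace.dual_finrank_eq]
  have hCJ0 : C ⊔ Ideal.span {h} ≤ J0 := sup_le_sup_right hCJ _
  have := finite_of_le (le_sup_left : C ≤ C ⊔ Ideal.span {h})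
  have := finite_of_le hCJ0
  let α : W0 →ₗ[K] (SS K ⧸ (C ⊔ Ideal.span {h})) := qmap le_sup_left ∘ₗ ι0
  have hα : ∀ w, α w = qmap le_sup_left w.1.1 := fun _ => rfl
  have hαi : ∀ w, α w = 0 → w = 0 := fun w hw => by
    obtain ⟨b, hb, hbw⟩ := hW0 w
    apply hι0
    rw [hα, ← hbw, qmap_mk, Ideal.Quotient.eq_zero_iff_mem] at hw
    obtain ⟨b1, hb1, b2, hb2, rfl⟩ := Submodule.mem_sup.1 hw
    obtain ⟨a, rfl⟩ := Ideal.mem_span_singleton'.1 hb2
    rw [map_zero, show ι0 w = w.1.1 from rfl, ← hbw, Ideal.Quotient.eq_zero_iff_mem]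
    have h2 : b1 + a * h = b1 + (b1 + a * h) * h - b1 * h - a * (h * h - h) := by ring
    rw [h2]
    exact sub_mem (sub_mem (add_mem hb1 ((hJ _).1 hb _ hhI)) (Ideal.mul_mem_right _ _ hb1))
      (Ideal.mul_mem_left _ _ hidem)
  have hγα : ∀ w, qmap hCJ0 (α w) = 0 := fun w => by
    obtain ⟨b, hb, hbw⟩ := hW0 w
    rw [hα, ← hbw, qmap_mk, qmap_mk, Ideal.Quotient.eq_zero_iff_mem]
    exact Ideal.mem_sup_left hb
  have h1 := finrank_add_le (U := W0) α (qmap hCJ0) (inj_of_ker (U := W0) α hαi)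
    (qmap_surjective _) hγα
  have h2 : finrank K (SS K ⧸ (C ⊔ Ideal.span {h})) ≤ e :=
    (finrank_quot_le (hCN ▸ sup_le le_sup_left (hNL.trans hle))).trans (hl.le N)
  have hlt : finrank K (SS K ⧸ J0) < finrank K (SS K ⧸ I) := by omega
  have hWs : Sm (act K W) := by
    refine kt J0 (IH J0 inferInstance hlt) (N := N) ((hNL.trans hle).trans hCJ0)
      (hlt.le.trans (by omega))
      (fun _ : Unit => F) (fun _ => hF)
      (fun _ i => Ideal.mem_sup_left (hCJ (Ideal.subset_span ⟨i, rfl⟩))) (fun _ => 1) ()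
      one_ne_zero _ (fun _ => W.subtype.restrictScalars K)
      (fun w hw => Subtype.ext (hw ())) (fun _ _ _ => rfl) fun b => ?_
    rw [Fintype.sum_unique, one_smul, ← hW]
    exact ⟨fun hb => ⟨⟨_, hb⟩, fun _ => rfl⟩, fun ⟨w, hw⟩ => hw () ▸ w.2⟩
  have hW0s := hWs.split h fun w => Subtype.ext (by
    obtain ⟨b, hb⟩ := Ideal.Quotient.mk_surjective w.1
    change h • h • w.1 = h • w.1
    rw [← hb, smul_mk, smul_mk, Ideal.Quotient.eq, ← mul_assoc, ← sub_mul]
    exact Ideal.mul_mem_right _ _ hidem)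
  refine hW0s.dual e1 fun i w y => ?_
  obtain ⟨g, rfl⟩ := Ideal.Quotient.mk_surjective y
  obtain ⟨b, -, hbw⟩ := hW0 w
  change e0 _ _ = e0 _ _
  rw [act_apply, act_apply, smul_mk, he0 w b _ hbw, he0 _ (X i * b) g (by
    rw [← smul_mk, hbw]; rfl), mul_left_comm, mul_assoc]

end Pool.Agent.Lib.MP_ed43e6_ag
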