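import Pool.Agent.Lib.MP_ed43e6_ag.Det
import Pool.Agent.Lib.MP_ed43e6_ag.Link
import Pool.Agent.Lib.MP_ed43e6_ag.AddPt

/-! The dichotomy: either an arc along which the socle element has the smallest order, or a short
complete intersection inside the ideal. -/

namespace Pool.Agent.Lib.MP_ed43e6_ag

open MvPolynomial Module Matrix IsLocalRing

universe u

variable {K : Type u} [Field K]

theorem IsMon.reg_zero {O : Type*} [CommRing O] {N : ℕ} {F : Fin 3 → MvPolynomial (Fin 3) O}
    (hF : IsMon N F) (ρ : MvPolynomial (Fin 3) O →ₐ[O] Matrix (Std N) (Std N) O)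
    (hρ : ∀ h a, h * stdL O N a - stdL O N (ρ h *ᵥ a) ∈ Ideal.span (Set.range F))
    {h : MvPolynomial (Fin 3) O} (hh : h ∈ Ideal.span (Set.range F)) : ρ h = 0 := by
  refine Matrix.toLin'.injective (LinearMap.ext fun a => ?_)
  rw [toLin'_apply, toLin'_apply, zero_mulVec]
  apply hF.eq_of_sub_mem
  have := sub_mem (Ideal.mul_mem_right (stdL O N a) _ hh) (hρ h a)
  simpa using this

theorem finrank_gen_le {N : ℕ} {G : Fin 3 → SS K} (hG : IsMon N G)
    (ρ : SS K →ₐ[K] Matrix (Std N) (Std N) K)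
    (hρ : ∀ h a, h * stdL K N a - stdL K N (ρ h *ᵥ a) ∈ Ideal.span (Set.range G))
    {ε : SS K} (hε : ε * ε - ε ∈ Ideal.span (Set.range G)) :
    finrank K (End.maxGenEigenspace (toLin' (ρ ε)) 0) ≤
      finrank K (SS K ⧸ (Ideal.span (Set.range G) ⊔ Ideal.span {ε})) := by
  have := hG.finite
  have := finite_of_le (le_sup_left : Ideal.span (Set.range G) ≤ _ ⊔ Ideal.span {ε})
  refine LinearMap.finrank_le_finrank_of_injective
    (f := (Ideal.Quotient.mkₐ K _).toLinearMap ∘ₗ stdL K N ∘ₗ Submodule.subtype _)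
    (inj_of_ker _ ?_)
  rintro ⟨a, ha⟩ h
  obtain ⟨k, hk⟩ := (End.mem_maxGenEigenspace _ _ _).1 ha
  rw [zero_smul, sub_zero, ← toLin'_pow, toLin'_apply, ← map_pow] at hk
  have h1 := hρ (ε ^ k) a
  rw [hk, map_zero, sub_zero] at h1
  obtain ⟨g, hg, _, h', h2⟩ := Submodule.mem_sup.1 (Ideal.Quotient.eq_zero_iff_mem.1 h)
  obtain ⟨r, rfl⟩ := Ideal.mem_span_singleton'.1 h'
  have h3 : ∀ k, ε ^ k * ε - ε ∈ Ideal.span (Set.range G) := fun k => by
    induction k with
    | zero => simp
    | succ k ih =>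
      have : ε ^ (k + 1) * ε - ε = ε * (ε ^ k * ε - ε) + (ε * ε - ε) := by ring
      rw [this]
      exact add_mem (Ideal.mul_mem_left _ _ ih) hε
  refine Subtype.ext (hG.eq_of_sub_mem ?_)
  change g + r * ε = stdL K N a at h2
  have : stdL K N a = ε ^ k * stdL K N a + g - ε ^ k * g - r * (ε ^ k * ε - ε) := by
    rw [← h2]; ring
  rw [Submodule.coe_zero, map_zero, sub_zero, this]
  exact sub_mem (sub_mem (add_mem h1 hg) (Ideal.mul_mem_left _ _ hg))
    (Ideal.mul_mem_left _ _ (h3 k))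

/-- The family over the line obtained by moving the last equation. -/
noncomputable def famU (G : Fin 3 → SS K) : Fin 3 → MvPolynomial (Fin 3) (Polynomial K) :=
  ![MvPolynomial.map Polynomial.C (G 0), MvPolynomial.map Polynomial.C (G 1),
    MvPolynomial.map Polynomial.C (G 2) - C Polynomial.X]

theorem famU_isMon {N : ℕ} {G : Fin 3 → SS K} (hG : IsMon N G) : IsMon N (famU G) := by
  refine ⟨hG.1, fun i => ?_⟩
  have h := (hG.map Polynomial.C).2
  fin_cases i
  · exact h 0
  · exact h 1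
  · have := sub_mem (h 2) (monomial_mem_low (m := 0) (by simpa using hG.1) Polynomial.X)
    rw [sub_right_comm] at this
    exact this

theorem locLen_of_det {N : ℕ} {G : Fin 3 → SS K} (hN : 0 < N) (hG2 : G 2 ∈ mm K)
    (ρ : MvPolynomial (Fin 3) (Polynomial K) →ₐ[Polynomial K] Matrix (Std N) (Std N) (Polynomial K))
    (hρ : ∀ h a, h * stdL _ N a - stdL _ N (ρ h *ᵥ a) ∈ Ideal.span (Set.range (famU G)))
    (g : SS K) {k : ℕ} (hk : ¬ Polynomial.X ^ (k + 1) ∣ (ρ (MvPolynomial.map Polynomial.C g)).det) :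
    LocLen (Ideal.span (Set.range ![G 0, G 1, g])) k := by
  refine locLen_of_le (M := k + 1) ?_ (Nat.lt_succ_self k)
  set J := Ideal.span (Set.range ![G 0, G 1, g]) ⊔ mm K ^ (k + 1) with hJ
  let _ : Algebra (Polynomial K) (SS K ⧸ J) :=
    (Polynomial.aeval (Ideal.Quotient.mk J (G 2))).toRingHom.toAlgebra
  have halg : ∀ r, algebraMap (Polynomial K) (SS K ⧸ J) r =
    Polynomial.aeval (Ideal.Quotient.mk J (G 2)) r := fun _ => rfl
  have : IsScalarTower K (Polynomial K) (SS K ⧸ J) := IsScalarTower.of_algebraMap_eq fun c => by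
    rw [halg, AlgHom.commutes]
  let θ : MvPolynomial (Fin 3) (Polynomial K) →ₐ[Polynomial K] (SS K ⧸ J) :=
    aeval fun i => Ideal.Quotient.mk J (X i)
  have hθ : ∀ f, θ (MvPolynomial.map Polynomial.C f) = Ideal.Quotient.mk J f := fun f => by
    induction f using MvPolynomial.induction_on with
    | C a => rw [map_C, ← algebraMap_eq, AlgHom.commutes, halg, Polynomial.aeval_C]; rfl
    | add p q hp hq => simp only [map_add, hp, hq]
    | mul_X p i hp => simp only [map_mul, hp, map_X, θ, aeval_X]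
  have hmem : ∀ i, ![G 0, G 1, g] i ∈ J := fun i =>
    Ideal.mem_sup_left (Ideal.subset_span ⟨i, rfl⟩)
  have hθF : ∀ f ∈ Ideal.span (Set.range (famU G)), θ f = 0 := by
    have : Ideal.span (Set.range (famU G)) ≤ RingHom.ker θ := by
      rw [Ideal.span_le]
      rintro _ ⟨i, rfl⟩
      fin_cases i
      · exact (hθ _).trans (Ideal.Quotient.eq_zero_iff_mem.2 (hmem 0))
      · exact (hθ _).trans (Ideal.Quotient.eq_zero_iff_mem.2 (hmem 1))
      · change θ (_ - _) = 0
        rw [map_sub, hθ, ← algebraMap_eq, AlgHom.commutes, halg, Polynomial.aeval_X, sub_self]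
    exact this
  have hπ : ∀ h a, θ (stdL _ N (ρ h *ᵥ a)) = θ h * θ (stdL _ N a) := fun h a => by
    rw [← map_mul, eq_comm, ← sub_eq_zero, ← map_sub, hθF _ (hρ h a)]
  refine finrank_le_of_det (k + 1) k _ (SS K ⧸ J) (θ.toLinearMap ∘ₗ stdL _ N) (fun x => ?_)
    (fun a => ?_) (fun w => ?_) hk
  · obtain ⟨f, rfl⟩ := Ideal.Quotient.mk_surjective x
    refine ⟨ρ (MvPolynomial.map Polynomial.C f) *ᵥ Pi.single (fun _ => ⟨0, hN⟩) 1, ?_⟩
    refine (hπ _ _).trans ?_
    rw [stdL_single, show expo (fun _ => (⟨0, hN⟩ : Fin N)) = 0 from by ext; rfl, hθ]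
    simp
  · refine (hπ _ _).trans ?_
    rw [hθ, Ideal.Quotient.eq_zero_iff_mem.2 (show g ∈ J from hmem 2), zero_mul]
  · rw [Algebra.smul_def, halg, map_pow, Polynomial.aeval_X, ← map_pow,
      Ideal.Quotient.eq_zero_iff_mem.2 (Ideal.mem_sup_right (Ideal.pow_mem_pow hG2 _)), zero_mul]

theorem exists_branches {N : ℕ} {G : Fin 3 → SS K} (hG : IsMon N G)
    (ρ : MvPolynomial (Fin 3) (Polynomial K) →ₐ[Polynomial K] Matrix (Std N) (Std N) (Polynomial K))
    (hρ : ∀ h a, h * stdL _ N a - stdL _ N (ρ h *ᵥ a) ∈ Ideal.span (Set.range (famU G))) :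
    ∃ (O Ω : Type u) (_ : CommRing O) (_ : IsDomain O) (_ : ValuationRing O) (_ : Algebra K O)
      (_ : Field Ω) (_ : Algebra K Ω) (e : O →ₐ[K] Ω) (θ : Polynomial K →ₐ[K] O) (n : ℕ)
      (p : Fin n → Fin 3 → O), Function.Injective e ∧ θ Polynomial.X ≠ 0 ∧
      (∀ r, resA K O (θ r) = algebraMap K _ (r.eval 0)) ∧
      (∀ j, aeval (p j) (G 2) = θ Polynomial.X) ∧
      (∀ h : SS K, θ (ρ (MvPolynomial.map Polynomial.C h)).det = ∏ j, aeval (p j) h) ∧
      ∀ h : SS K, (ρ (MvPolynomial.map Polynomial.C h)).charpoly.map (θ : Polynomial K →+* O) =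
        ∏ j, (Polynomial.X - Polynomial.C (aeval (p j) h)) := by
  let Ω := AlgebraicClosure (FractionRing (Polynomial K))
  let φ : Polynomial K →ₐ[K] Ω := IsScalarTower.toAlgHom K (Polynomial K) Ω
  have hφ : Function.Injective φ :=
    (algebraMap (FractionRing (Polynomial K)) Ω).injective.comp
      (IsFractionRing.injective (Polynomial K) (FractionRing (Polynomial K)))
  obtain ⟨O, _, _, _, _, e, θ, he, hθ, hres, hint⟩ := exists_place φ (Polynomial.aeval (0 : K))
    fun r hr => by rw [(map_eq_zero_iff φ hφ).1 hr, map_zero]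
  obtain ⟨ρΩ, hρΩ⟩ := exists_rep (fun i => (ρ (X i)).map (φ : Polynomial K →+* Ω)) fun i j => by
    rw [← Matrix.map_mul, ← Matrix.map_mul, ← map_mul, ← map_mul, mul_comm]
  have hm := rep_map ρ ρΩ (φ : Polynomial K →+* Ω) fun i => (hρΩ i).symm
  obtain ⟨n, p, h1, h2⟩ := exists_chars_mat ρΩ
  have heθ : (e : O →+* Ω).comp (θ : Polynomial K →+* O) = φ := RingHom.ext hθ
  have hp : ∀ j i, ∃ a, e a = p j i := fun j i => by
    refine hint _ _ ((ρ (X i)).charpoly_monic.map (θ : Polynomial K →+* O)) ?_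
    rw [Polynomial.map_map, heθ, ← charpoly_map, ← hρΩ, h2, Polynomial.IsRoot, Polynomial.eval_prod]
    exact Finset.prod_eq_zero (Finset.mem_univ j) (by simp)
  choose q hq using hp
  have hev : ∀ j (h : SS K), eval (p j) (MvPolynomial.map (φ : Polynomial K →+* Ω)
      (MvPolynomial.map Polynomial.C h)) = e (aeval (q j) h) := fun j h => by
    induction h using MvPolynomial.induction_on with
    | C a => rw [map_C, map_C, eval_C, aeval_C, AlgHom.commutes]; exact φ.commutes a
    | add p q hp hq => simp only [map_add, hp, hq]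
    | mul_X r i hr => simp only [map_mul, hr, map_X, eval_X, aeval_X, hq]
  refine ⟨O, Ω, inferInstance, inferInstance, inferInstance, inferInstance, inferInstance,
    inferInstance, e, θ, n, q, he, fun h0 => ?_, fun r => ?_, fun j => ?_, fun h => ?_,
    fun h => ?_⟩
  · have := hθ Polynomial.X
    rw [h0, map_zero] at this
    exact Polynomial.X_ne_zero ((map_eq_zero_iff φ hφ).1 this.symm)
  · rw [hres, Polynomial.coe_aeval_eq_eval]
  · have h3 := h2 (MvPolynomial.map (φ : Polynomial K →+* Ω) (famU G 2))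
    rw [← hm, (famU_isMon hG).reg_zero ρ hρ (Ideal.subset_span ⟨2, rfl⟩),
      Matrix.map_zero _ (map_zero _), charpoly_zero] at h3
    have h4 := congrArg (Polynomial.eval
      (eval (p j) (MvPolynomial.map (φ : Polynomial K →+* Ω) (famU G 2)))) h3
    rw [Polynomial.eval_prod, Finset.prod_eq_zero (Finset.mem_univ j) (by simp),
      Polynomial.eval_pow, Polynomial.eval_X] at h4
    have h5 := pow_eq_zero_iff'.1 h4 |>.1
    rw [show famU G 2 = MvPolynomial.map Polynomial.C (G 2) - C Polynomial.X from rfl, map_sub,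
      map_sub, hev, map_C, eval_C, sub_eq_zero] at h5
    exact he (h5.trans (hθ _).symm)
  · apply he
    rw [hθ, map_prod, show φ (ρ (MvPolynomial.map Polynomial.C h)).det =
      ((ρ (MvPolynomial.map Polynomial.C h)).map (φ : Polynomial K →+* Ω)).det from
        (φ : Polynomial K →+* Ω).map_det _, hm, h1]
    simp only [hev]
  · apply Polynomial.map_injective (e : O →+* Ω) he
    rw [Polynomial.map_map, heθ, ← charpoly_map, hm, h2, Polynomial.map_prod]
    simp only [hev, Polynomial.map_sub, Polynomial.map_X, Polynomial.map_C]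
    rfl

theorem res_aeval_eq_zero {O κ : Type*} [CommRing O] [CommRing κ] [Algebra K O] [Algebra K κ]
    (res : O →ₐ[K] κ) (p : Fin 3 → O) (hp : ∀ i, res (p i) = 0) {f : SS K} (hf : f ∈ mm K) :
    res (aeval p f) = 0 := by
  obtain ⟨c, rfl⟩ := Ideal.mem_span_range_iff_exists_fun.1 hf
  simp [hp]

theorem dich [Infinite K] {I : Ideal (SS K)} {M : ℕ} (hM : mm K ^ M ≤ I) (f : Fin 3 → SS K)
    (hf0 : f 0 ∈ I) (hf1 : f 1 ∈ I) (hs : ∀ i, X i * f 2 ∈ I) (hsI : f 2 ∉ I) (hsm : f 2 ∈ mm K)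
    {e : ℕ} (hl : LocLen (Ideal.span (Set.range f)) e) (he : e < 2 * finrank K (SS K ⧸ I))
    (IH : ∀ J : Ideal (SS K), Module.Finite K (SS K ⧸ J) →
      finrank K (SS K ⧸ J) < finrank K (SS K ⧸ I) → Sm (act K (SS K ⧸ J))) :
    Sm (act K (SS K ⧸ I)) := by
  classical
  have := finite_quot hM
  obtain ⟨j, hj, -⟩ := id hl
  obtain ⟨N, hN, hG⟩ := exists_mon f (j + M + 1)
  set G := fun i => f i + X i ^ N with hGdef
  set C := Ideal.span (Set.range G) with hC
  have hCN : C ⊔ mm K ^ N = Ideal.span (Set.range f) ⊔ mm K ^ N := span_add_pow f N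
  have hL : mm K ^ (j + M + 1) ≤ C ⊔ mm K ^ N :=
    (Ideal.pow_le_pow_right (by omega)).trans (hCN ▸ stab hj N)
  obtain ⟨ε, hε, hidem, hle⟩ := exists_idem
    (hL.trans (sup_le_sup_left (Ideal.pow_le_pow_right (by omega)) _))
  have hNL : mm K ^ N ≤ mm K ^ (j + M + 1) := Ideal.pow_le_pow_right (by omega)
  have hNI : mm K ^ N ≤ I := (Ideal.pow_le_pow_right (by omega)).trans hM
  have hNm : mm K ^ N ≤ mm K := Ideal.pow_le_self (by omega)
  have := hG.finite
  have := finite_of_le (le_sup_left : C ≤ C ⊔ Ideal.span {ε})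
  have h2 : finrank K (SS K ⧸ (C ⊔ Ideal.span {ε})) ≤ e :=
    (finrank_quot_le (hCN ▸ sup_le le_sup_left (hNL.trans hle))).trans (hl.le N)
  obtain ⟨ρ, hρ, hρ'⟩ := exists_reg (famU_isMon hG)
  obtain ⟨ρ0, hρ0, hρ0'⟩ := exists_reg hG
  obtain ⟨O, Ω, _, _, _, _, _, _, e', θ, n, p, he', hu, hres, hpu, hdet, hchar⟩ :=
    exists_branches hG ρ hρ'
  let res := resA K O
  let J0 : Finset (Fin n) := Finset.univ.filter fun j => ∀ i, res (p j i) = 0
  have hcard : J0.card ≤ e := by
    refine le_trans ?_ ((finrank_gen_le hG ρ0 hρ0' hidem).trans h2)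
    refine card_le_finrank _ (fun j => res (aeval (p j) ε)) ?_ J0 fun j hj =>
      res_aeval_eq_zero res _ (Finset.mem_filter.1 hj).2 (Ideal.pow_le_self (by omega) hε)
    have h3 := congrArg (Polynomial.map (res : O →+* ResidueField O)) (hchar ε)
    have h4 : (res : O →+* ResidueField O).comp (θ : Polynomial K →+* O) =
        (algebraMap K _).comp (Polynomial.evalRingHom 0) := RingHom.ext hres
    have h5 : ∀ h : SS K, MvPolynomial.map (Polynomial.evalRingHom 0)
        (MvPolynomial.map Polynomial.C h) = h := fun h => by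
      rw [MvPolynomial.map_map, show (Polynomial.evalRingHom (0 : K)).comp Polynomial.C =
        RingHom.id K from RingHom.ext fun a => by simp, MvPolynomial.map_id]
    have h6 : (fun i => MvPolynomial.map (Polynomial.evalRingHom 0) (famU G i)) = G := by
      funext i
      fin_cases i
      · exact h5 _
      · exact h5 _
      · change MvPolynomial.map _ (_ - _) = _
        rw [map_sub, h5, map_C]; simp
    have h7 := hρ.map (Polynomial.evalRingHom 0)
    rw [h6] at h7
    have h8 := rep_map ρ ρ0 (Polynomial.evalRingHom 0)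
      (fun i => congrFun (IsReg.unique hG h7 hρ0) i) (MvPolynomial.map Polynomial.C ε)
    rw [Polynomial.map_map, h4, ← Polynomial.map_map, ← charpoly_map, h8, h5,
      Polynomial.map_prod] at h3
    rw [h3]
    simp only [Polynomial.map_sub, Polynomial.map_X, Polynomial.map_C]
    rfl
  let w : Fin n → O := fun j => if j ∈ J0 then θ Polynomial.X else 1
  let P : Fin n → Submodule K (I.restrictScalars K) := fun j =>
    { carrier := {g | ∃ q : O, res q = 0 ∧ aeval (p j) (g : SS K) = q * w j}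
      add_mem' := fun ⟨a, ha, ha'⟩ ⟨b, hb, hb'⟩ => ⟨a + b, by rw [map_add, ha, hb, add_zero], by
        rw [Submodule.coe_add, map_add, ha', hb', add_mul]⟩
      zero_mem' := ⟨0, map_zero _, by simp⟩
      smul_mem' := fun c g ⟨a, ha, ha'⟩ => ⟨c • a, by rw [map_smul, ha, smul_zero], by
        rw [Submodule.coe_smul, map_smul, ha', smul_mul_assoc]⟩ }
  by_cases hP : ∃ j, P j = ⊤
  · obtain ⟨j, hj⟩ := hP
    have hj' : ∀ g ∈ I, ∃ q : O, res q = 0 ∧ aeval (p j) g = q * w j := fun g hg =>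
      (hj ▸ Submodule.mem_top : (⟨g, hg⟩ : I.restrictScalars K) ∈ P j)
    have hj0 : j ∈ J0 := Finset.mem_filter.2 ⟨Finset.mem_univ _, fun i => by
      obtain ⟨q, hq, hq'⟩ := hj' _ (hNI (X_pow_mem i N))
      have := congrArg res hq'
      rw [map_pow, aeval_X, map_pow, map_mul, hq, zero_mul] at this
      exact (pow_eq_zero_iff'.1 this).1⟩
    have hG2 : G 2 ∉ I := fun h => hsI (by
      simpa [hGdef] using sub_mem h (hNI (X_pow_mem 2 N)))
    refine addPt (s := G 2) (fun i => ?_) hG2 (IH _ (finite_of_le le_sup_left)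
      (finrank_quot_lt le_sup_left fun h => hG2
        (h (Ideal.mem_sup_right (Ideal.mem_span_singleton_self _)))))
      e' he' res (p j) (by rw [hpu]; exact hu) fun g hg => ?_
    · rw [hGdef, mul_add]
      exact add_mem (hs i) (Ideal.mul_mem_left _ _ (hNI (X_pow_mem 2 N)))
    · simpa only [hpu, w, if_pos hj0] using hj' g hg
  push Not at hP
  obtain ⟨⟨g, hg⟩, hgP⟩ := exists_notMem_of_ne_top P hP
  have hdvd : ∀ j, aeval (p j) g ∣ w j := fun j => by
    rcases ValuationRing.dvd_total (aeval (p j) g) (w j) with h | ⟨q, hq⟩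
    · exact h
    · have hq' : res q ≠ 0 := fun h0 => hgP j ⟨q, h0, by rw [mul_comm]; exact hq⟩
      rw [hq]
      exact (isUnit_of_resA hq').mul_right_dvd.2 dvd_rfl
  have hprod : θ (ρ (MvPolynomial.map Polynomial.C g)).det ∣ θ Polynomial.X ^ J0.card := by
    rw [hdet]
    refine (Finset.prod_dvd_prod_of_dvd _ _ fun j _ => hdvd j).trans (dvd_of_eq ?_)
    simp [w, Finset.prod_ite_mem]
  have hk : ¬ Polynomial.X ^ (J0.card + 1) ∣ (ρ (MvPolynomial.map Polynomial.C g)).det := by
    intro h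
    have h1 := (map_dvd θ h).trans hprod
    rw [map_pow, pow_succ, ← mul_one (θ Polynomial.X ^ J0.card), mul_assoc,
      mul_dvd_mul_iff_left (pow_ne_zero _ hu), one_mul] at h1
    refine resA_ne_zero (K := K) (isUnit_of_dvd_one h1) ?_
    rw [hres]; simp
  have hl' := locLen_of_det hG.1 (add_mem hsm (hNm (X_pow_mem 2 N))) ρ hρ' g hk
  refine link hM ![G 0, G 1, g] (fun i => ?_) (hl'.mono hcard) he IH
  fin_cases i
  · exact add_mem hf0 (hNI (X_pow_mem 0 N))
  · exact add_mem hf1 (hNI (X_pow_mem 1 N))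
  · exact hg

end Pool.Agent.Lib.MP_ed43e6_ag
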