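import Pool.Agent.Lib.MP_ed43e6_ag.Link

/-! The union of two local complete intersections with smoothable intersection is smoothable. -/

namespace Pool.Agent.Lib.MP_ed43e6_ag

open MvPolynomial Module

universe u

variable {K : Type u} [Field K]

/-- Pairs of classes with the same image modulo `J`. -/
noncomputable def fibW (C : Fin 2 → Ideal (SS K)) (J : Ideal (SS K)) (h : ∀ k, C k ≤ J) :
    Submodule (SS K) (∀ k, SS K ⧸ C k) :=
  LinearMap.ker (Submodule.factor (h 0) ∘ₗ LinearMap.proj 0 -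
    Submodule.factor (h 1) ∘ₗ LinearMap.proj 1 : (∀ k, SS K ⧸ C k) →ₗ[SS K] SS K ⧸ J)

theorem mem_fibW {C : Fin 2 → Ideal (SS K)} {J : Ideal (SS K)} (h : ∀ k, C k ≤ J)
    (b : Fin 2 → SS K) :
    (fun k => Ideal.Quotient.mk (C k) (b k)) ∈ fibW C J h ↔ b 0 - b 1 ∈ J := by
  rw [← Ideal.Quotient.eq_zero_iff_mem]; rfl

theorem Sm.of_cyclic {V : Type*} [AddCommGroup V] [Module K V] [Module (SS K) V]
    [IsScalarTower K (SS K) V] (hV : Sm (act K V)) (h : SS K) (hh : ∀ v : V, h • h • v = h • v)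
    (w : V) (hw : h • w = 0) (a : Ideal (SS K)) (ha : ∀ g, g ∈ a ↔ g • w = 0)
    (hs : ∀ v : V, h • v = 0 → ∃ g : SS K, g • w = v) : Sm (act K (SS K ⧸ a)) := by
  let θ := LinearMap.toSpanSingleton (SS K) (Submodule.torsionBy (SS K) V h) ⟨w, hw⟩
  have hker : a = LinearMap.ker θ := by
    ext g
    rw [LinearMap.mem_ker, Subtype.ext_iff, ha]; rfl
  have hsurj : Function.Surjective θ := fun ⟨v, hv⟩ => by
    obtain ⟨g, hg⟩ := hs v hv
    exact ⟨g, Subtype.ext hg⟩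
  let e := (Submodule.quotEquivOfEq _ _ hker).trans (θ.quotKerEquivOfSurjective hsurj)
  exact (hV.split h hh).of_equiv (e.symm.restrictScalars K) fun i v => e.symm.map_smul _ _

theorem fib_aux (C a : Fin 2 → Ideal (SS K)) (hC : ∀ k, C k ≤ a 0 ⊔ a 1) (h : SS K)
    (hidk : ∀ k, h * h - h ∈ C k) (hkey : ∀ k g, (1 - h) * g ∈ C k ↔ g ∈ a k)
    (hWs : Sm (K := K) (V := fibW C _ hC) (act K (fibW C _ hC))) :
    Sm (act K (SS K ⧸ (a 0 ⊓ a 1))) := by
  have hW := mem_fibW hC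
  refine Sm.of_cyclic (V := fibW C _ hC) hWs h (fun w => Subtype.ext (funext fun k => ?_))
    ⟨fun k => Ideal.Quotient.mk (C k) (1 - h), (hW fun _ => 1 - h).2 (by simp)⟩
    (Subtype.ext (funext fun k => Ideal.Quotient.eq_zero_iff_mem.2 ?_)) _ (fun g => ?_) ?_
  · obtain ⟨b, hb⟩ := Ideal.Quotient.mk_surjective (w.1 k)
    change h • h • w.1 k = h • w.1 k
    rw [← hb, smul_mk, smul_mk, Ideal.Quotient.eq, ← mul_assoc, ← sub_mul]
    exact Ideal.mul_mem_right _ _ (hidk k)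
  · have := neg_mem (hidk k)
    rwa [show -(h * h - h) = h * (1 - h) by ring] at this
  · rw [Subtype.ext_iff, funext_iff, Fin.forall_fin_two, Ideal.mem_inf, ← hkey, ← hkey, mul_comm]
    exact and_congr Ideal.Quotient.eq_zero_iff_mem.symm Ideal.Quotient.eq_zero_iff_mem.symm
  · rintro ⟨x, hx⟩ hx'
    choose b hb using fun k => Ideal.Quotient.mk_surjective (x k)
    obtain rfl : x = fun k => Ideal.Quotient.mk (C k) (b k) := funext fun k => (hb k).symm
    obtain ⟨a0, h0, a1, h1, h2⟩ := Submodule.mem_sup.1 ((hW b).1 hx)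
    have h3 : ∀ k, h * b k ∈ C k := fun k =>
      Ideal.Quotient.eq_zero_iff_mem.1 (congrFun (congrArg Subtype.val hx') k)
    refine ⟨b 0 - a0, Subtype.ext (funext fun k => Ideal.Quotient.eq.2 ?_)⟩
    fin_cases k
    · change (b 0 - a0) * (1 - h) - b 0 ∈ C 0
      rw [show (b 0 - a0) * (1 - h) - b 0 = -((1 - h) * a0) - h * b 0 by ring]
      exact sub_mem (neg_mem ((hkey 0 _).2 h0)) (h3 0)
    · change (b 0 - a0) * (1 - h) - b 1 ∈ C 1
      rw [show b 0 - a0 = b 1 + a1 by linear_combination -h2,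
        show (b 1 + a1) * (1 - h) - b 1 = (1 - h) * a1 - h * b 1 by ring]
      exact sub_mem ((hkey 1 _).2 h1) (h3 1)

theorem fib [Infinite K] (f : Fin 2 → Fin 3 → SS K) {M : ℕ}
    (hM : ∀ k, mm K ^ M ≤ Ideal.span (Set.range (f k)) ⊔ mm K ^ (M + 1))
    (hJ : Sm (act K (SS K ⧸ ((Ideal.span (Set.range (f 0)) ⊔ mm K ^ M) ⊔
      (Ideal.span (Set.range (f 1)) ⊔ mm K ^ M))))) :
    Sm (act K (SS K ⧸ ((Ideal.span (Set.range (f 0)) ⊔ mm K ^ M) ⊓
      (Ideal.span (Set.range (f 1)) ⊔ mm K ^ M)))) := by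
  set a : Fin 2 → Ideal (SS K) := fun k => Ideal.span (Set.range (f k)) ⊔ mm K ^ M with ha
  change Sm (act K (SS K ⧸ (a 0 ⊔ a 1))) at hJ
  change Sm (act K (SS K ⧸ (a 0 ⊓ a 1)))
  choose n hn using fun k i => exists_mem_low (f k i)
  let N := M + M + 1 + finrank K (SS K ⧸ (a 0 ⊔ a 1)) + ∑ k, ∑ i, n k i
  let F : Fin 2 → Fin 3 → SS K := fun k i => f k i + X i ^ N
  have hF : ∀ k, IsMon N (F k) := fun k => ⟨by omega, fun i => by
    rw [add_sub_cancel_right]
    refine low_mono ?_ (hn k i)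
    have h1 : n k i ≤ ∑ i, n k i :=
      Finset.single_le_sum (f := n k) (fun _ _ => Nat.zero_le _) (Finset.mem_univ i)
    have h2 : ∑ i, n k i ≤ ∑ k, ∑ i, n k i :=
      Finset.single_le_sum (f := fun k => ∑ i, n k i) (fun _ _ => Nat.zero_le _)
        (Finset.mem_univ k)
    omega⟩
  let C : Fin 2 → Ideal (SS K) := fun k => Ideal.span (Set.range (F k))
  have hCN : ∀ k, C k ⊔ mm K ^ N = Ideal.span (Set.range (f k)) ⊔ mm K ^ N :=
    fun k => span_add_pow (f k) N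
  have hL : ∀ k, mm K ^ M ≤ C k ⊔ mm K ^ N := fun k => hCN k ▸ stab (hM k) N
  have hN : ∀ {j}, j ≤ M + M + 1 → mm K ^ N ≤ mm K ^ j := fun hj =>
    Ideal.pow_le_pow_right (by omega)
  obtain ⟨h, hh, hidem, hle⟩ := exists_idem (I := C 0 ⊓ C 1) (j := M + M) (by
    rw [pow_add]
    refine (Ideal.mul_mono (hL 0) (hL 1)).trans ?_
    rw [Ideal.sup_mul, Ideal.mul_sup]
    exact sup_le (sup_le (Ideal.mul_le_inf.trans le_sup_left)
      (Ideal.mul_le_right.trans ((hN le_rfl).trans le_sup_right)))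
      (Ideal.mul_le_left.trans ((hN le_rfl).trans le_sup_right)))
  have hidk : ∀ k, h * h - h ∈ C k := fun k => by fin_cases k; exacts [hidem.1, hidem.2]
  have hlek : ∀ k, mm K ^ N ≤ C k ⊔ Ideal.span {h} := fun k =>
    ((hN (by omega)).trans hle).trans (sup_le_sup_right (by
      fin_cases k; exacts [inf_le_left, inf_le_right]) _)
  have hCa : ∀ k, C k ≤ a k := fun k =>
    le_sup_left.trans ((hCN k).le.trans (sup_le_sup_left (hN (by omega)) _))
  have hha : ∀ k, h ∈ a k := fun k =>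
    Ideal.mem_sup_right (Ideal.pow_le_pow_right (Nat.le_add_right _ _) hh)
  have haC : ∀ k, a k ≤ C k ⊔ Ideal.span {h} := fun k =>
    sup_le (le_sup_left.trans ((hCN k).ge.trans (sup_le le_sup_left (hlek k))))
      ((hL k).trans (sup_le le_sup_left (hlek k)))
  have hkey : ∀ k g, (1 - h) * g ∈ C k ↔ g ∈ a k := fun k g => by
    refine ⟨fun hg => ?_, fun hg => ?_⟩
    · rw [show g = (1 - h) * g + g * h by ring]
      exact add_mem (hCa k hg) (Ideal.mul_mem_left _ _ (hha k))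
    · obtain ⟨g1, h1, _, h2, rfl⟩ := Submodule.mem_sup.1 (haC k hg)
      obtain ⟨r, rfl⟩ := Ideal.mem_span_singleton'.1 h2
      rw [show (1 - h) * (g1 + r * h) = (1 - h) * g1 - r * (h * h - h) by ring]
      exact sub_mem (Ideal.mul_mem_left _ _ h1) (Ideal.mul_mem_left _ _ (hidk k))
  have haJ : ∀ k, a k ≤ a 0 ⊔ a 1 := fun k => by fin_cases k; exacts [le_sup_left, le_sup_right]
  have hC : ∀ k, C k ≤ a 0 ⊔ a 1 := fun k => (hCa k).trans (haJ k)
  refine fib_aux C a hC h hidk hkey ?_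
  refine kt _ hJ (N := N) ((hN (by omega)).trans (le_sup_right.trans (haJ 0)))
    (show finrank K (SS K ⧸ (a 0 ⊔ a 1)) ≤ N by omega) F hF
    (fun k i => hC k (Ideal.subset_span ⟨i, rfl⟩)) ![1, -1] 0 one_ne_zero _
    (fun k => (LinearMap.proj k ∘ₗ (fibW C _ hC).subtype).restrictScalars K)
    (fun w hw => Subtype.ext (funext hw)) (fun _ _ _ => rfl) fun b => ?_
  rw [show ∑ k, ![(1 : K), -1] k • b k = b 0 - b 1 by simp [sub_eq_add_neg], ← mem_fibW hC]
  exact ⟨fun hb => ⟨⟨_, hb⟩, fun _ => rfl⟩, fun ⟨w, hw⟩ => funext hw ▸ w.2⟩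

end Pool.Agent.Lib.MP_ed43e6_ag
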