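import Pool.Agent.Lib.MP_ed43e6_ag.Main

/-! The set of multiplication tables of framed ideals of colength at most twelve is irreducible. -/

namespace Pool.Agent.Lib.MP_ed43e6_ag

open MvPolynomial Module Matrix

universe u

variable {K : Type u} [Field K] {ι : Type} [Fintype ι] [DecidableEq ι]

/-- Multiplication tables and unit vectors of quotients with a basis. -/
def tables (K : Type u) [Field K] (ι : Type) [Fintype ι] [DecidableEq ι] : Set (Var ι ⊕ ι → K) :=
  {x | ∃ (I : Ideal (SS K)) (b : Basis ι K (SS K ⧸ I)),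
    x = Sum.elim (ent fun i => LinearMap.toMatrix b b (act K (SS K ⧸ I) i)) (b.repr 1)}

theorem mem_tables_of_surj (ρ : SS K →ₐ[K] Matrix ι ι K) (v : ι → K)
    (h : ∀ w, ∃ f, ρ f *ᵥ v = w) : Sum.elim (ent fun i => ρ (X i)) v ∈ tables K ι := by
  let I : Ideal (SS K) :=
    { carrier := {f | ρ f *ᵥ v = 0}
      add_mem' := fun {a b} ha hb => by
        change ρ (a + b) *ᵥ v = 0
        rw [map_add, add_mulVec, ha, hb, add_zero]
      zero_mem' := by simp
      smul_mem' := fun c f hf => by
        change ρ (c * f) *ᵥ v = 0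
        rw [map_mul, ← mulVec_mulVec, hf, mulVec_zero] }
  let π : SS K →ₗ[K] (ι → K) := (mulVecBilin K K).flip v ∘ₗ ρ.toLinearMap
  let φ : (SS K ⧸ I) →ₗ[K] (ι → K) :=
    Submodule.liftQ (I.restrictScalars K) π (fun _ hf => hf) ∘ₗ
      (Submodule.Quotient.restrictScalarsEquiv K I).symm.toLinearMap
  have hφ : ∀ f, φ (Ideal.Quotient.mk I f) = ρ f *ᵥ v := fun _ => rfl
  let e := LinearEquiv.ofBijective φ ⟨inj_of_ker _ fun x hx => by
      obtain ⟨f, rfl⟩ := Ideal.Quotient.mk_surjective x
      exact Ideal.Quotient.eq_zero_iff_mem.2 hx, fun w => by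
      obtain ⟨f, rfl⟩ := h w
      exact ⟨_, hφ f⟩⟩
  have he : ∀ f, e (Ideal.Quotient.mk I f) = ρ f *ᵥ v := hφ
  refine ⟨I, Basis.ofEquivFun e, ?_⟩
  congr 1
  · funext ⟨i, a, c⟩
    obtain ⟨f, hf⟩ := h (Pi.single c 1)
    have : Basis.ofEquivFun e c = Ideal.Quotient.mk I f := by
      rw [Basis.coe_ofEquivFun]
      exact e.symm_apply_eq.2 (hf.symm.trans (he f).symm)
    change ρ (X i) a c = LinearMap.toMatrix _ _ _ a c
    rw [LinearMap.toMatrix_apply, this, act_apply, smul_mk, Basis.ofEquivFun_repr_apply, he,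
      map_mul, ← mulVec_mulVec, hf, mulVec_single_one]
    rfl
  · funext a
    rw [Basis.ofEquivFun_repr_apply, ← map_one (Ideal.Quotient.mk I), he]
    simp

theorem mem_tables_of_diag (g : Matrix ι ι K) (hg : g.det ≠ 0) (l : Fin 3 → ι → K)
    (hl : Function.Injective (l 0)) (v : ι → K) (hv : ∀ a, (g.adjugate *ᵥ v) a ≠ 0) :
    Sum.elim (ent fun i => g * diagonal (l i) * g.adjugate) v ∈ tables K ι := by
  have hgh : g * g⁻¹ = 1 := mul_nonsing_inv _ (IsUnit.mk0 _ hg)
  have hadj : g.adjugate = g.det • g⁻¹ := by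
    rw [Matrix.inv_def, smul_smul, Ring.inverse_eq_inv', mul_inv_cancel₀ hg, one_smul]
  have hM : ∀ i, g * diagonal (l i) * g.adjugate = g * diagonal (g.det • l i) * g⁻¹ := fun i => by
    rw [hadj, diagonal_smul]
    simp only [Matrix.mul_smul, Matrix.smul_mul]
  have hd : Diag fun i => g * diagonal (l i) * g.adjugate := ⟨g, g⁻¹, hgh, _, hM⟩
  obtain ⟨ρ, hρ⟩ := exists_rep _ hd.commute
  have hev := rep_diag ρ g g⁻¹ hgh _ fun i => (hρ i).trans (hM i)
  simp only [← hρ]
  refine mem_tables_of_surj ρ v fun w => ?_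
  let f : ι → SS K := fun a => ∏ b ∈ Finset.univ.erase a, (X 0 - C (g.det * l 0 b))
  let p : ι → Fin 3 → K := fun a i => (g.det • l i) a
  have h1 : ∀ a c, c ≠ a → eval (p c) (f a) = 0 := fun a c hc => by
    rw [map_prod]
    exact Finset.prod_eq_zero (Finset.mem_erase.2 ⟨hc, Finset.mem_univ _⟩) (by simp [p])
  have h2 : ∀ a, eval (p a) (f a) ≠ 0 := fun a => by
    rw [map_prod]
    refine Finset.prod_ne_zero_iff.2 fun b hb => ?_
    simpa [p, sub_eq_zero, hg] using hl.ne (Finset.ne_of_mem_erase hb).symm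
  have h3 : ∀ a, (g⁻¹ *ᵥ v) a ≠ 0 := fun a h => hv a (by rw [hadj, smul_mulVec]; simp [h])
  refine ⟨∑ a, ((g⁻¹ *ᵥ w) a / (eval (p a) (f a) * (g⁻¹ *ᵥ v) a)) • f a, ?_⟩
  rw [hev, ← mulVec_mulVec, ← mulVec_mulVec]
  conv_rhs => rw [← one_mulVec w, ← hgh, ← mulVec_mulVec]
  congr 1
  funext c
  rw [mulVec_diagonal, map_sum, Finset.sum_eq_single c (fun a _ ha => by
    rw [smul_eval, h1 a c ha.symm, mul_zero]) (by simp), smul_eval]
  have := h2 c
  have := h3 c
  change _ / (eval (p c) (f c) * _) * eval (p c) (f c) * _ = _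
  field_simp

abbrev GG (K : Type u) [Field K] (ι : Type) := MvPolynomial (((ι × ι) ⊕ (Fin 3 × ι)) ⊕ ι) K

theorem tables_prime [IsAlgClosed K] (h12 : Fintype.card ι ≤ 12) :
    (vanishingIdeal K (tables K ι)).IsPrime := by
  let ev : MvPolynomial (Var ι ⊕ ι) K →ₐ[K] GG K ι :=
    aeval (Sum.elim (fun v => rename Sum.inl (ent (genM K ι) v)) fun a => X (Sum.inr a))
  have : vanishingIdeal K (tables K ι) = RingHom.ker ev := by
    ext P
    rw [mem_vanishingIdeal_iff, RingHom.mem_ker]
    constructor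
    · intro hP
      let g : Matrix ι ι (GG K ι) := (genG K ι).map (rename Sum.inl)
      let D : GG K ι := g.det * ((∏ x : {x : ι × ι // x.1 ≠ x.2},
        (X (Sum.inl (Sum.inr (0, x.1.1))) - X (Sum.inl (Sum.inr (0, x.1.2))))) *
        ∏ a, (g.adjugate *ᵥ fun b => X (Sum.inr b)) a)
      have hy : ∀ y : ((ι × ι) ⊕ (Fin 3 × ι)) ⊕ ι → K, eval y D =
          (g.map (eval y)).det * ((∏ x : {x : ι × ι // x.1 ≠ x.2},
            (y (Sum.inl (Sum.inr (0, x.1.1))) - y (Sum.inl (Sum.inr (0, x.1.2))))) *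
          ∏ a, ((g.map (eval y)).adjugate *ᵥ fun b => y (Sum.inr b)) a) := fun y => by
        simp only [D, map_mul, map_prod, map_sub, eval_X, RingHom.map_det, RingHom.map_mulVec,
          RingHom.mapMatrix_apply]
        rw [show g.adjugate.map (eval y) = (g.map (eval y)).adjugate from (eval y).map_adjugate g]
        simp only [Function.comp_def, eval_X]
      have hD : D ≠ 0 := fun h => by
        let y : ((ι × ι) ⊕ (Fin 3 × ι)) ⊕ ι → K := Sum.elim (Sum.elim
          (fun p => (1 : Matrix ι ι K) p.1 p.2) fun p => Infinite.natEmbedding K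
            (Fintype.equivFin ι p.2)) fun _ => 1
        have h1 : g.map (eval y) = 1 := by ext a b; simp [g, genG, y]
        have h2 := hy y
        rw [h, map_zero, h1, det_one, adjugate_one, one_mul, one_mulVec] at h2
        refine mul_ne_zero (Finset.prod_ne_zero_iff.2 fun x _ => sub_ne_zero.2 fun h3 => x.2 ?_)
          (by simp [y]) h2.symm
        exact (Fintype.equivFin ι).injective (Fin.ext ((Infinite.natEmbedding K).injective h3))
      refine (mul_eq_zero.1 (MvPolynomial.funext fun y => ?_)).resolve_right hD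
      rw [map_mul, map_zero, mul_eq_zero, or_iff_not_imp_right, hy]
      intro h
      obtain ⟨h1, h2⟩ := mul_ne_zero_iff.1 h
      obtain ⟨h2, h3⟩ := mul_ne_zero_iff.1 h2
      have := hP _ (mem_tables_of_diag _ h1 (fun i a => y (Sum.inl (Sum.inr (i, a))))
        (fun a b hab => by
          by_contra hne
          exact Finset.prod_ne_zero_iff.1 h2 ⟨(a, b), hne⟩ (Finset.mem_univ _) (sub_eq_zero.2 hab))
        _ fun a => Finset.prod_ne_zero_iff.1 h3 a (Finset.mem_univ _))
      rw [← this, ← coe_aeval_eq_eval]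
      change ((aeval y).comp ev) P = _
      congr 1
      refine algHom_ext fun v => ?_
      rcases v with ⟨i, a, b⟩ | a
      · let ψ : GenRing K ι →ₐ[K] K := (aeval y).comp (rename Sum.inl)
        have e1 : g.map ((aeval y : GG K ι →ₐ[K] K) : GG K ι →+* K) = (genG K ι).map ψ := by ext a b; simp [g, genG, ψ]
        have e2 : (genM K ι i).map ψ = (genG K ι).map ψ *
            diagonal (fun a => y (Sum.inl (Sum.inr (i, a)))) * ((genG K ι).map ψ).adjugate := by
          rw [genM, Matrix.map_mul (f := ψ), Matrix.map_mul (f := ψ), diagonal_map (map_zero _),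
            show (genG K ι).adjugate.map ψ = ((genG K ι).map ψ).adjugate from
              (ψ : GenRing K ι →+* K).map_adjugate _]
          simp [genL, ψ]
        simp only [ev, AlgHom.comp_apply, aeval_X, Sum.elim_inl, ent, e1, ← e2]
        rfl
      · simp [ev]
    · rintro hP _ ⟨I, b, rfl⟩
      have hS := (sm_quot _ h12 I (Module.Finite.of_basis b) (finrank_eq_card_basis b)).smM b
      let s1 : MvPolynomial (Var ι ⊕ ι) K →ₐ[K] MvPolynomial (Var ι) K :=
        aeval (Sum.elim X fun a => C (b.repr 1 a))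
      let s2 : GG K ι →ₐ[K] GenRing K ι := aeval (Sum.elim X fun a => C (b.repr 1 a))
      have e1 : (aeval (ent (genM K ι))).comp s1 = s2.comp ev := by
        refine algHom_ext fun v => ?_
        rcases v with v | a
        · simp only [s1, s2, ev, AlgHom.comp_apply, aeval_X, Sum.elim_inl, aeval_rename]
          rw [show (Sum.elim X fun a => C (b.repr 1 a)) ∘ Sum.inl = (X : _ → GenRing K ι) from rfl,
            aeval_X_left_apply]
        · simp [s1, s2, ev]
      have e2 := hS (s1 P) (by rw [← AlgHom.comp_apply, e1, AlgHom.comp_apply, hP, map_zero])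
      rw [← e2, ← AlgHom.comp_apply]
      congr 1
      refine algHom_ext fun v => ?_
      rcases v with v | a <;> simp [s1]
  rw [this]
  exact RingHom.ker_isPrime ev

end Pool.Agent.Lib.MP_ed43e6_ag
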