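import Mathlib

/-! Triples of matrices in the Zariski closure of the simultaneously diagonalisable triples. -/

namespace Pool.Agent.Lib.MP_ed43e6_ag

open MvPolynomial Matrix

universe u

/-- Coordinates on triples of square matrices. -/
abbrev Var (ι : Type) := Fin 3 × ι × ι

/-- The entries of a triple of matrices. -/
def ent {ι : Type} {A : Type*} (M : Fin 3 → Matrix ι ι A) : Var ι → A :=
  fun v => M v.1 v.2.1 v.2.2

abbrev GenRing (K : Type u) [Field K] (ι : Type) := MvPolynomial ((ι × ι) ⊕ (Fin 3 × ι)) K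

noncomputable def genG (K : Type u) [Field K] (ι : Type) : Matrix ι ι (GenRing K ι) :=
  Matrix.of fun a b => X (Sum.inl (a, b))

noncomputable def genL (K : Type u) [Field K] (ι : Type) (i : Fin 3) : ι → GenRing K ι :=
  fun a => X (Sum.inr (i, a))

noncomputable def genM (K : Type u) [Field K] (ι : Type) [Fintype ι] [DecidableEq ι] (i : Fin 3) :
    Matrix ι ι (GenRing K ι) :=
  genG K ι * diagonal (genL K ι i) * adjugate (genG K ι)

/-- `M` satisfies every equation of the generic diagonalisable triple. -/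
def SmM (K : Type u) [Field K] {ι : Type} [Fintype ι] [DecidableEq ι] {A : Type*} [CommRing A]
    [Algebra K A] (M : Fin 3 → Matrix ι ι A) : Prop :=
  ∀ P : MvPolynomial (Var ι) K, aeval (ent (genM K ι)) P = 0 → aeval (ent M) P = 0

/-- Simultaneously diagonalisable triples. -/
def Diag {ι : Type} [Fintype ι] [DecidableEq ι] {A : Type*} [CommRing A]
    (M : Fin 3 → Matrix ι ι A) : Prop :=
  ∃ g h : Matrix ι ι A, g * h = 1 ∧ ∃ l : Fin 3 → ι → A, ∀ i, M i = g * diagonal (l i) * h

variable {K : Type u} [Field K] {ι : Type} [Fintype ι] [DecidableEq ι]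

section basic

variable {A B : Type*} [CommRing A] [Algebra K A] [CommRing B] [Algebra K B]

omit [Fintype ι] [DecidableEq ι] in
theorem aeval_ent_map (φ : A →ₐ[K] B) (M : Fin 3 → Matrix ι ι A) (P : MvPolynomial (Var ι) K) :
    aeval (ent fun i => (M i).map φ) P = φ (aeval (ent M) P) := by
  have : (aeval (ent fun i => (M i).map φ) : MvPolynomial (Var ι) K →ₐ[K] B) =
      φ.comp (aeval (ent M)) := by
    ext v; simp [ent]
  rw [this]; rfl

theorem SmM.map {M : Fin 3 → Matrix ι ι A} (h : SmM K M) (φ : A →ₐ[K] B) :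
    SmM K fun i => (M i).map φ := by
  intro P hP
  rw [aeval_ent_map, h P hP, map_zero]

theorem SmM.of_map {M : Fin 3 → Matrix ι ι A} (φ : A →ₐ[K] B) (hφ : Function.Injective φ)
    (h : SmM K fun i => (M i).map φ) : SmM K M := by
  intro P hP
  have := h P hP
  rw [aeval_ent_map] at this
  exact hφ (by rw [this, map_zero])

theorem smM_genM : SmM K (genM K ι) := fun _ h => h

theorem Diag.smM {M : Fin 3 → Matrix ι ι A} (h : Diag M) : SmM K M := by
  obtain ⟨g, h, hgh, l, hl⟩ := h
  let ψ : GenRing K ι →ₐ[K] A :=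
    aeval (Sum.elim (fun p => g p.1 p.2) (fun p => h.det * l p.1 p.2))
  have hG : (genG K ι).map ψ = g := by
    ext a b; simp [genG, ψ]
  have hdet : g.det * h.det = 1 := by rw [← det_mul, hgh, det_one]
  have hadj : g.adjugate = g.det • h := by
    have : g.adjugate * (g * h) = g.det • h := by
      rw [← Matrix.mul_assoc, adjugate_mul, smul_mul_assoc, Matrix.one_mul]
    rwa [hgh, Matrix.mul_one] at this
  have key : (fun i => (genM K ι i).map ψ) = M := by
    funext i
    have e1 : (diagonal (genL K ι i)).map ψ = h.det • diagonal (l i) := by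
      rw [diagonal_map (map_zero _), ← diagonal_smul]
      congr 1
      funext a
      simp [genL, ψ]
    have e2 : (adjugate (genG K ι)).map ψ = g.adjugate := by
      rw [← hG]
      exact (ψ : GenRing K ι →+* A).map_adjugate _
    rw [genM, Matrix.map_mul (f := ψ), Matrix.map_mul (f := ψ), hG, e1, e2, hadj, hl i]
    simp only [Matrix.mul_smul, Matrix.smul_mul, smul_smul, hdet, one_smul]
  rw [← key]
  exact smM_genM.map ψ

theorem Diag.map {M : Fin 3 → Matrix ι ι A} (h : Diag M) (φ : A →+* B) :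
    Diag fun i => (M i).map φ := by
  obtain ⟨g, h, hgh, l, hl⟩ := h
  refine ⟨g.map φ, h.map φ, ?_, fun i a => φ (l i a), fun i => ?_⟩
  · rw [← Matrix.map_mul, hgh, Matrix.map_one _ (map_zero _) (map_one _)]
  · beta_reduce
    rw [hl i, Matrix.map_mul, Matrix.map_mul, diagonal_map (map_zero _)]

end basic

/-- The fraction field of the generic ring. -/
abbrev GenField (K : Type u) [Field K] (ι : Type) := FractionRing (GenRing K ι)

theorem det_genG_ne_zero : (genG K ι).det ≠ 0 := by
  intro h
  let ψ : GenRing K ι →ₐ[K] K :=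
    aeval (Sum.elim (fun p => (1 : Matrix ι ι K) p.1 p.2) (fun _ => 0))
  have hG : (genG K ι).map ψ = 1 := by
    ext a b; simp [genG, ψ]
  have := congrArg ψ h
  rw [map_zero, show ψ (genG K ι).det = ((genG K ι).map ψ).det from
    (ψ : GenRing K ι →+* K).map_det _, hG, det_one] at this
  exact one_ne_zero this

/-- The generic triple over the fraction field. -/
theorem genM_eq (i : Fin 3) :
    (genM K ι i).map (algebraMap (GenRing K ι) (GenField K ι)) =
      (genG K ι).map (algebraMap (GenRing K ι) (GenField K ι)) *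
        diagonal (fun a => algebraMap (GenRing K ι) (GenField K ι)
          ((genG K ι).det * genL K ι i a)) *
        ((genG K ι).map (algebraMap (GenRing K ι) (GenField K ι)))⁻¹ := by
  set f := algebraMap (GenRing K ι) (GenField K ι)
  set g := (genG K ι).map f with hg
  have hd : g.det = f (genG K ι).det := (f.map_det _).symm
  have hne : g.det ≠ 0 := by
    rw [hd]
    exact (map_ne_zero_iff f (IsFractionRing.injective _ _)).2 det_genG_ne_zero
  have e2 : (adjugate (genG K ι)).map f = g.adjugate := f.map_adjugate _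
  have e3 : g.adjugate = g.det • g⁻¹ := by
    rw [Matrix.inv_def, smul_smul, Ring.inverse_eq_inv', mul_inv_cancel₀ hne, one_smul]
  have e4 : diagonal (fun a => f ((genG K ι).det * genL K ι i a)) =
      g.det • diagonal (fun a => f (genL K ι i a)) := by
    rw [← diagonal_smul]; congr 1; funext a; simp [hd]
  rw [genM, Matrix.map_mul, Matrix.map_mul, e2, e3, e4, diagonal_map (map_zero _)]
  simp only [Matrix.mul_smul, Matrix.smul_mul]
  rfl

theorem genG_mul_inv :
    (genG K ι).map (algebraMap (GenRing K ι) (GenField K ι)) *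
      ((genG K ι).map (algebraMap (GenRing K ι) (GenField K ι)))⁻¹ = 1 := by
  apply Matrix.mul_nonsing_inv
  rw [isUnit_iff_ne_zero, ← RingHom.mapMatrix_apply, ← RingHom.map_det]
  exact (map_ne_zero_iff _ (IsFractionRing.injective _ _)).2 det_genG_ne_zero

theorem diag_genM : Diag fun i => (genM K ι i).map (algebraMap (GenRing K ι) (GenField K ι)) :=
  ⟨_, _, genG_mul_inv, _, genM_eq⟩

open TensorProduct in
theorem SmM.transfer {A : Type u} [CommRing A] [Algebra K A] {M : Fin 3 → Matrix ι ι A}
    (hM : SmM K M) :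
    ∃ (B C : Type u) (_ : CommRing B) (_ : CommRing C) (_ : Algebra K B) (_ : Algebra K C)
      (j : A →ₐ[K] B) (ψ : B →ₐ[K] A) (φ : B →ₐ[K] C) (N : Fin 3 → Matrix ι ι B),
      (∀ a, ψ (j a) = a) ∧ Function.Injective φ ∧ (∀ i, (N i).map ψ = M i) ∧
        Diag fun i => (N i).map φ := by
  let ev : MvPolynomial (Var ι) K →ₐ[K] GenRing K ι := aeval (ent (genM K ι))
  let O := MvPolynomial (Var ι) K ⧸ RingHom.ker ev
  let ψ0 : O →ₐ[K] A := Ideal.Quotient.liftₐ _ (aeval (ent M)) (fun P hP => hM P hP)
  let φ0 : O →ₐ[K] GenField K ι :=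
    (IsScalarTower.toAlgHom K (GenRing K ι) (GenField K ι)).comp (Ideal.kerLiftAlg ev)
  have hφ0 : Function.Injective φ0 :=
    (IsFractionRing.injective (GenRing K ι) (GenField K ι)).comp (Ideal.kerLiftAlg_injective ev)
  let N0 : Fin 3 → Matrix ι ι O := fun i => Matrix.of fun a b => Ideal.Quotient.mk _ (X (i, a, b))
  let ψ : A ⊗[K] O →ₐ[K] A :=
    Algebra.TensorProduct.lift (AlgHom.id K A) ψ0 (fun _ _ => Commute.all _ _)
  let φ : A ⊗[K] O →ₐ[K] A ⊗[K] GenField K ι := Algebra.TensorProduct.map (AlgHom.id K A) φ0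
  refine ⟨A ⊗[K] O, A ⊗[K] GenField K ι, inferInstance, inferInstance, inferInstance,
    inferInstance, Algebra.TensorProduct.includeLeft, ψ, φ,
    fun i => (N0 i).map (Algebra.TensorProduct.includeRight (R := K) (A := A)), ?_, ?_, ?_, ?_⟩
  · intro a; simp [ψ]
  · exact Module.Flat.lTensor_preserves_injective_linearMap (M := A) φ0.toLinearMap hφ0
  · intro i
    ext a b
    have : ψ0 (Ideal.Quotient.mk _ (X (i, a, b))) = M i a b := by
      rw [show ψ0 (Ideal.Quotient.mk _ (X (i, a, b))) = aeval (ent M) (X (i, a, b)) from rfl]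
      simp [ent]
    simp [ψ, N0, this]
  · have := (diag_genM (K := K) (ι := ι)).map
      (Algebra.TensorProduct.includeRight (R := K) (A := A) (B := GenField K ι) :
        GenField K ι →+* A ⊗[K] GenField K ι)
    convert this using 2 with i
    ext a b
    have : φ0 (Ideal.Quotient.mk _ (X (i, a, b))) =
        algebraMap (GenRing K ι) (GenField K ι) (genM K ι i a b) := by
      rw [show φ0 (Ideal.Quotient.mk _ (X (i, a, b))) =
        algebraMap (GenRing K ι) (GenField K ι) (ev (X (i, a, b))) from rfl]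
      simp [ev, ent]
    simp [φ, N0, this]

section invariance

variable {A : Type u} [CommRing A] [Algebra K A]

theorem SmM.conj {M : Fin 3 → Matrix ι ι A} (hM : SmM K M) (p q : Matrix ι ι A)
    (hpq : p * q = 1) : SmM K fun i => p * M i * q := by
  obtain ⟨B, C, _, _, _, _, j, ψ, φ, N, hj, hφ, hN, g, h, hgh, l, hl⟩ := hM.transfer
  beta_reduce at hl
  have hjj : ∀ r : Matrix ι ι A, (r.map j).map ψ = r := fun r => by ext a b; simp [hj]
  have h1 : SmM K fun i => p.map j * N i * q.map j := by
    apply SmM.of_map φ hφ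
    apply Diag.smM
    have hqp : q * p = 1 := mul_eq_one_comm.1 hpq
    refine ⟨(p.map j).map φ * g, h * (q.map j).map φ, ?_, l, fun i => ?_⟩
    · rw [Matrix.mul_assoc, ← Matrix.mul_assoc g, hgh, Matrix.one_mul,
        ← Matrix.map_mul (f := φ), ← Matrix.map_mul (f := j), hpq,
        Matrix.map_one _ (map_zero _) (map_one _), Matrix.map_one _ (map_zero _) (map_one _)]
    · beta_reduce
      rw [Matrix.map_mul (f := φ), Matrix.map_mul (f := φ), hl i]
      simp only [Matrix.mul_assoc]
  have h2 := h1.map ψ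
  convert h2 using 2 with i
  rw [Matrix.map_mul (f := ψ), Matrix.map_mul (f := ψ), hjj, hjj, hN]

theorem SmM.transpose {M : Fin 3 → Matrix ι ι A} (hM : SmM K M) : SmM K fun i => (M i)ᵀ := by
  obtain ⟨B, C, _, _, _, _, j, ψ, φ, N, hj, hφ, hN, g, h, hgh, l, hl⟩ := hM.transfer
  beta_reduce at hl
  have h1 : SmM K fun i => (N i)ᵀ := by
    apply SmM.of_map φ hφ
    apply Diag.smM
    refine ⟨hᵀ, gᵀ, ?_, l, fun i => ?_⟩
    · rw [← transpose_mul, hgh, transpose_one]
    · beta_reduce
      rw [transpose_map, hl i, transpose_mul, transpose_mul, diagonal_transpose, Matrix.mul_assoc]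
  have h2 := h1.map ψ
  convert h2 using 2 with i
  rw [transpose_map, hN]

theorem SmM.translate {M : Fin 3 → Matrix ι ι A} (hM : SmM K M) (a : Fin 3 → A) :
    SmM K fun i => M i + a i • (1 : Matrix ι ι A) := by
  obtain ⟨B, C, _, _, _, _, j, ψ, φ, N, hj, hφ, hN, g, h, hgh, l, hl⟩ := hM.transfer
  beta_reduce at hl
  have h1 : SmM K fun i => N i + j (a i) • (1 : Matrix ι ι B) := by
    apply SmM.of_map φ hφ
    apply Diag.smM
    refine ⟨g, h, hgh, fun i b => l i b + φ (j (a i)), fun i => ?_⟩
    have e : diagonal (fun b => l i b + φ (j (a i))) =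
        diagonal (l i) + φ (j (a i)) • (1 : Matrix ι ι C) := by
      ext b c; by_cases hbc : b = c <;> simp [hbc]
    have e' : (N i + j (a i) • (1 : Matrix ι ι B)).map φ =
        (N i).map φ + φ (j (a i)) • (1 : Matrix ι ι C) := by
      ext b c; by_cases hbc : b = c <;> simp [hbc]
    beta_reduce
    rw [e, e', hl i, Matrix.mul_add, Matrix.add_mul, Matrix.mul_smul, Matrix.mul_one,
      Matrix.smul_mul, hgh]
  have h2 := h1.map ψ
  convert h2 using 2 with i
  rw [← hN i]
  ext b c; by_cases hbc : b = c <;> simp [hbc, hj]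

theorem SmM.submatrix {κ : Type} [Fintype κ] [DecidableEq κ] {M : Fin 3 → Matrix ι ι A}
    (hM : SmM K M) (e : κ ≃ ι) : SmM K fun i => (M i).submatrix e e := by
  obtain ⟨B, C, _, _, _, _, j, ψ, φ, N, hj, hφ, hN, g, h, hgh, l, hl⟩ := hM.transfer
  beta_reduce at hl
  have h1 : SmM K fun i => (N i).submatrix e e := by
    apply SmM.of_map φ hφ
    apply Diag.smM
    refine ⟨g.submatrix e e, h.submatrix e e, ?_, fun i => l i ∘ e, fun i => ?_⟩
    · rw [submatrix_mul_equiv, hgh, submatrix_one_equiv]
    · beta_reduce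
      rw [← submatrix_diagonal_equiv, submatrix_mul_equiv, submatrix_mul_equiv, ← hl i]
      rfl
  have h2 := h1.map ψ
  convert h2 using 2 with i
  rw [← hN i]
  rfl

theorem Diag.fromBlocks {κ : Type} [Fintype κ] [DecidableEq κ] {C : Type*} [CommRing C]
    {M : Fin 3 → Matrix ι ι C} {M' : Fin 3 → Matrix κ κ C} (h : Diag M) (h' : Diag M') :
    Diag fun i => fromBlocks (M i) 0 0 (M' i) := by
  obtain ⟨g, h, hgh, l, hl⟩ := h
  obtain ⟨g', h', hgh', l', hl'⟩ := h'
  refine ⟨Matrix.fromBlocks g 0 0 g', Matrix.fromBlocks h 0 0 h', ?_,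
    fun i => Sum.elim (l i) (l' i), fun i => ?_⟩
  · simp [fromBlocks_multiply, hgh, hgh']
  · beta_reduce
    rw [← fromBlocks_diagonal, hl i, hl' i, fromBlocks_multiply, fromBlocks_multiply]
    simp

theorem SmM.fromBlocks_of_diag {κ : Type} [Fintype κ] [DecidableEq κ]
    {M : Fin 3 → Matrix ι ι A} {M' : Fin 3 → Matrix κ κ A} (hM : Diag M) (hM' : SmM K M') :
    SmM K fun i => Matrix.fromBlocks (M i) 0 0 (M' i) := by
  obtain ⟨B, C, _, _, _, _, j, ψ, φ, N, hj, hφ, hN, hd⟩ := hM'.transfer
  have h1 : SmM K fun i => Matrix.fromBlocks ((M i).map j) 0 0 (N i) := by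
    apply SmM.of_map φ hφ
    apply Diag.smM
    have := ((hM.map (j : A →+* B)).map (φ : B →+* C)).fromBlocks hd
    convert this using 2 with i
    rw [fromBlocks_map]
    simp
  have h2 := h1.map ψ
  convert h2 using 2 with i
  rw [fromBlocks_map, hN]
  congr 1
  · ext a b; simp [hj]
  · simp
  · simp

theorem SmM.fromBlocks {κ : Type} [Fintype κ] [DecidableEq κ]
    {M : Fin 3 → Matrix ι ι A} {M' : Fin 3 → Matrix κ κ A} (hM : SmM K M) (hM' : SmM K M') :
    SmM K fun i => Matrix.fromBlocks (M i) 0 0 (M' i) := by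
  obtain ⟨B, C, _, _, _, _, j, ψ, φ, N, hj, hφ, hN, hd⟩ := hM.transfer
  have h1 : SmM K fun i => Matrix.fromBlocks (N i) 0 0 ((M' i).map j) := by
    apply SmM.of_map φ hφ
    have := SmM.fromBlocks_of_diag hd ((hM'.map j).map φ)
    convert this using 2 with i
    rw [fromBlocks_map]
    simp
  have h2 := h1.map ψ
  convert h2 using 2 with i
  rw [fromBlocks_map, hN]
  congr 1
  · simp
  · simp
  · ext a b; simp [hj]

end invariance

end Pool.Agent.Lib.MP_ed43e6_ag
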