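import Pool.Agent.Lib.MP_ed43e6_ag.Pencil

/-! The kernel of a map from a sum of monic complete intersections onto a smoothable cyclic
module is smoothable. -/

namespace Pool.Agent.Lib.MP_ed43e6_ag

open Matrix MvPolynomial IsLocalRing Module

universe u

variable {K : Type u} [Field K]

/-- The matrix of the map from the standard monomials to the cyclic module. -/
noncomputable def phiM {O : Type*} [CommRing O] {ι r : Type} [Fintype ι] [DecidableEq ι] (N : ℕ)
    (ρ : MvPolynomial (Fin 3) O →ₐ[O] Matrix ι ι O) (v : ι → O) (c : r → O) :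
    Matrix ι (Std N × r) O :=
  Matrix.of fun j x => c x.2 * (ρ (monomial (expo x.1) 1) *ᵥ v) j

theorem rep_stdL {O : Type*} [CommRing O] {ι : Type} [Fintype ι] [DecidableEq ι] {N : ℕ}
    (ρ : MvPolynomial (Fin 3) O →ₐ[O] Matrix ι ι O) (v : ι → O) (a : Std N → O) :
    ρ (stdL O N a) *ᵥ v = ∑ δ, a δ • (ρ (monomial (expo δ) 1) *ᵥ v) := by
  rw [stdL_apply, map_sum, sum_mulVec]
  refine Finset.sum_congr rfl fun δ _ => ?_
  rw [← smul_mulVec, ← map_smul, smul_monomial, smul_eq_mul, mul_one]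

theorem rep_span {O : Type*} [CommRing O] {ι : Type} [Fintype ι] [DecidableEq ι]
    (ρ : MvPolynomial (Fin 3) O →ₐ[O] Matrix ι ι O) (v : ι → O)
    {F : Fin 3 → MvPolynomial (Fin 3) O} (hF : ∀ i, ρ (F i) *ᵥ v = 0)
    {f : MvPolynomial (Fin 3) O} (hf : f ∈ Ideal.span (Set.range F)) : ρ f *ᵥ v = 0 := by
  obtain ⟨c, rfl⟩ := Ideal.mem_span_range_iff_exists_fun.1 hf
  rw [map_sum, sum_mulVec]
  refine Finset.sum_eq_zero fun i _ => ?_
  rw [map_mul, ← mulVec_mulVec, hF, mulVec_zero]

theorem phiM_mulVec {O : Type*} [CommRing O] {ι r : Type} [Fintype ι] [DecidableEq ι] [Fintype r]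
    {N : ℕ} (ρ : MvPolynomial (Fin 3) O →ₐ[O] Matrix ι ι O) (v : ι → O) (c : r → O)
    (a : Std N × r → O) :
    phiM N ρ v c *ᵥ a = ρ (∑ k, c k • stdL O N fun δ => a (δ, k)) *ᵥ v := by
  rw [map_sum, sum_mulVec]
  simp only [map_smul, smul_mulVec, rep_stdL]
  funext j
  simp only [phiM, Matrix.mulVec, dotProduct, of_apply, Fintype.sum_prod_type, Finset.sum_apply,
    Pi.smul_apply, smul_eq_mul, Finset.mul_sum]
  rw [Finset.sum_comm]
  refine Finset.sum_congr rfl fun k _ => Finset.sum_congr rfl fun δ _ => ?_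
  rw [Finset.sum_mul]
  refine Finset.sum_congr rfl fun x _ => ?_
  ring

theorem blockDiagonal_mulVec {O : Type*} [CommRing O] {σ r : Type} [Fintype σ] [Fintype r]
    [DecidableEq r] (A : r → Matrix σ σ O) (a : σ × r → O) (k : r) :
    (fun δ => (blockDiagonal A *ᵥ a) (δ, k)) = A k *ᵥ fun δ => a (δ, k) := by
  funext δ
  simp only [Matrix.mulVec, dotProduct, Fintype.sum_prod_type, blockDiagonal_apply']
  refine Finset.sum_congr rfl fun δ' _ => ?_
  simp

theorem phiM_mul {O : Type*} [CommRing O] {ι r : Type} [Fintype ι] [DecidableEq ι] [Fintype r]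
    [DecidableEq r] {N : ℕ} (ρ : MvPolynomial (Fin 3) O →ₐ[O] Matrix ι ι O) (v : ι → O) (c : r → O)
    {F : r → Fin 3 → MvPolynomial (Fin 3) O} (hF : ∀ k i, ρ (F k i) *ᵥ v = 0)
    {A : r → Fin 3 → Matrix (Std N) (Std N) O} (hA : ∀ k, IsReg (F k) (A k)) (i : Fin 3) :
    phiM N ρ v c * blockDiagonal (fun k => A k i) = ρ (X i) * phiM N ρ v c := by
  refine Matrix.toLin'.injective (LinearMap.ext fun a => ?_)
  rw [toLin'_apply, toLin'_apply, ← mulVec_mulVec, ← mulVec_mulVec, phiM_mulVec, phiM_mulVec,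
    mulVec_mulVec, ← map_mul, eq_comm, ← sub_eq_zero, ← sub_mulVec, ← map_sub, Finset.mul_sum,
    ← Finset.sum_sub_distrib, map_sum, sum_mulVec]
  refine Finset.sum_eq_zero fun k _ => ?_
  rw [blockDiagonal_mulVec, mul_smul_comm, ← smul_sub, map_smul, smul_mulVec,
    rep_span ρ v (hF k) ((hA k).mulVec i _), smul_zero]

theorem kt_mat [Infinite K] {ι r σ : Type} [Fintype ι] [DecidableEq ι] [Fintype r] [DecidableEq r]
    [Fintype σ] [DecidableEq σ] {N : ℕ} (hN : 0 < N) (hcard : Fintype.card ι ≤ N)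
    (ρ0 : MvPolynomial (Fin 3) K →ₐ[K] Matrix ι ι K) (hM : SmM K fun i => ρ0 (X i)) (v0 : ι → K)
    (m : ι → MvPolynomial (Fin 3) K) (hm : ∀ j, m j ∈ low K N)
    (hmv : ∀ j, ρ0 (m j) *ᵥ v0 = Pi.single j 1)
    (F : r → Fin 3 → MvPolynomial (Fin 3) K) (hF : ∀ k, IsMon N (F k))
    (hFv : ∀ k i, ρ0 (F k i) *ᵥ v0 = 0) (A0 : r → Fin 3 → Matrix (Std N) (Std N) K)
    (hA0 : ∀ k, IsReg (F k) (A0 k)) (c : r → K) (E0 : Matrix (Std N × r) σ K)
    (D0 : Matrix σ (Std N × r) K) (Ψ0 : Matrix (Std N × r) ι K) (h1 : phiM N ρ0 v0 c * Ψ0 = 1)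
    (h2 : phiM N ρ0 v0 c * E0 = 0) (h3 : D0 * E0 = 1) (h4 : D0 * Ψ0 = 0)
    (h5 : E0 * D0 + Ψ0 * phiM N ρ0 v0 c = 1) :
    SmM K fun i => D0 * blockDiagonal (fun k => A0 k i) * E0 := by
  obtain ⟨O, Φ, _, _, _, _, _, _, e, M, g, g', μ, he, hg, hMe, hres, -⟩ := hM.arc
  have hinj : ∀ A B : Matrix ι ι O, A.map e = B.map e → A = B := fun A B hAB => by
    ext a b; exact he (congrFun (congrFun hAB a) b)
  have hd : Diag fun i => (M i).map e := ⟨g, g', hg, _, hMe⟩
  have hMc : ∀ i j, M i * M j = M j * M i := fun i j => hinj _ _ (by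
    rw [Matrix.map_mul (f := e), Matrix.map_mul (f := e)]; exact hd.commute i j)
  obtain ⟨ρ, hρ⟩ := exists_rep M hMc
  obtain ⟨ρΦ, hρΦ⟩ := exists_rep (fun i => (M i).map e) hd.commute
  have hev : ∀ f, (ρ f).map e = g * diagonal (fun a => e (eval (fun i => μ i a) f)) * g' := by
    intro f
    rw [show (ρ f).map e = (ρ f).map (e : O →+* Φ) from rfl,
      rep_map ρ ρΦ (e : O →+* Φ) (fun i => by rw [hρ, hρΦ]; rfl) f,
      rep_diag ρΦ g g' hg _ (fun i => (hρΦ i).trans (hMe i))]
    congr 3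
    funext a
    rw [eval_map, show (fun i => e (μ i a)) = (e : O →+* Φ) ∘ fun i => μ i a from rfl,
      ← eval₂_comp]
    rfl
  let res := resA K O
  let ao := algebraMap K O
  let ak := algebraMap K (ResidueField O)
  let v : ι → O := ao ∘ v0
  have hπ : ∀ f0 j, res ((ρ (MvPolynomial.map ao f0) *ᵥ v) j) = ak ((ρ0 f0 *ᵥ v0) j) := by
    intro f0 j
    have := rep_res ρ0 ρ res (fun i => by rw [hρ, hres]) _ f0 (map_res_map res f0)
    rw [RingHom.map_mulVec, ← this]
    refine (RingHom.map_mulVec (res : O →+* ResidueField O) _ _ j).trans ?_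
    rfl
  let U : Matrix ι ι O := Matrix.of fun a j => (ρ (MvPolynomial.map ao (m j)) *ᵥ v) a
  obtain ⟨U', -, hUU, -⟩ := exists_inv_of_resA (K := K) U (by
    ext a j
    rw [Matrix.map_apply, show U a j = (ρ (MvPolynomial.map ao (m j)) *ᵥ v) a from rfl, hπ, hmv]
    by_cases h : a = j <;> simp [h, Matrix.one_apply])
  let cc : r → Fin 3 → ι → O := fun k i => U' *ᵥ (ρ (MvPolynomial.map ao (F k i)) *ᵥ v)
  have hcc : ∀ k i j, res (cc k i j) = 0 := fun k i j => by
    refine (RingHom.map_mulVec (res : O →+* ResidueField O) _ _ j).trans ?_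
    have : (res : O →+* ResidueField O) ∘ (ρ (MvPolynomial.map ao (F k i)) *ᵥ v) = 0 := by
      funext a
      refine (hπ _ a).trans ?_
      rw [hFv]; simp
    rw [this, mulVec_zero]; rfl
  let F1 : r → Fin 3 → MvPolynomial (Fin 3) O := fun k i =>
    MvPolynomial.map ao (F k i) - ∑ j, cc k i j • MvPolynomial.map ao (m j)
  have hF1v : ∀ k i, ρ (F1 k i) *ᵥ v = 0 := fun k i => by
    have : U *ᵥ cc k i = ρ (∑ j, cc k i j • MvPolynomial.map ao (m j)) *ᵥ v := by
      rw [map_sum, sum_mulVec]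
      funext a
      simp [U, Matrix.mulVec, dotProduct, Finset.mul_sum, mul_comm, mul_left_comm, mul_assoc]
    rw [map_sub, sub_mulVec, ← this, mulVec_mulVec, hUU, one_mulVec, sub_self]
  have hF1m : ∀ k i, F1 k i - X i ^ N ∈ low O N := fun k i => by
    rw [sub_right_comm]
    exact sub_mem (((hF k).map ao).2 i)
      (Submodule.sum_mem _ fun j _ => Submodule.smul_mem _ _ (map_mem_low (hm j) ao))
  have hF1r : ∀ k i, MvPolynomial.map (res : O →+* ResidueField O) (F1 k i) =
      MvPolynomial.map ak (F k i) := fun k i => by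
    rw [map_sub, map_res_map, map_sum, Finset.sum_eq_zero, sub_zero]
    intro j _
    rw [smul_eq_C_mul, map_mul, map_C, show (res : O →+* ResidueField O) (cc k i j) = 0 from
      hcc k i j, C_0, zero_mul]
  have : Infinite O := Infinite.of_injective ao ao.injective
  choose a ha haμ using fun i => exists_cover (μ i) hcard
  have hGv : ∀ i, ρ (grid a i) *ᵥ v = 0 := fun i => by
    have : ρ (grid a i) = 0 := hinj _ _ (by
      rw [hev]
      simp [fun j => eval_grid a (fun i => μ i j) i (haμ i j)])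
    rw [this, zero_mulVec]
  let cO : O →+* Polynomial O := Polynomial.C
  let Ft : r → Fin 3 → MvPolynomial (Fin 3) (Polynomial O) := fun k i =>
    (1 - Polynomial.X : Polynomial O) • MvPolynomial.map cO (F1 k i) +
      (Polynomial.X : Polynomial O) • MvPolynomial.map cO (grid a i)
  have hFt : ∀ k, IsMon N (Ft k) := fun k => ⟨hN, fun i => by
    have e1 : Ft k i - X i ^ N =
        (1 - Polynomial.X : Polynomial O) • MvPolynomial.map cO (F1 k i - X i ^ N) +
        (Polynomial.X : Polynomial O) • MvPolynomial.map cO (grid a i - X i ^ N) := by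
      simp only [Ft, map_sub, map_pow, map_X, smul_sub, sub_smul, one_smul]
      abel
    rw [e1]
    exact add_mem (Submodule.smul_mem _ _ (map_mem_low (hF1m k i) cO))
      (Submodule.smul_mem _ _ (map_mem_low ((grid_isMon hN a).2 i) cO))⟩
  have hFtev : ∀ {R : Type u} [CommRing R] (θ : Polynomial O →+* R) k i,
      MvPolynomial.map θ (Ft k i) = C (1 - θ Polynomial.X) * MvPolynomial.map (θ.comp cO) (F1 k i) +
        C (θ Polynomial.X) * MvPolynomial.map (θ.comp cO) (grid a i) := fun θ k i => by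
    simp [Ft, smul_eq_C_mul, MvPolynomial.map_map]
  obtain ⟨ρ', hρ'⟩ := exists_rep (fun i => (M i).map cO) fun i j => by
    rw [← Matrix.map_mul, ← Matrix.map_mul, hMc]
  have hπ' : ∀ f, ρ' (MvPolynomial.map cO f) *ᵥ (cO ∘ v) = cO ∘ (ρ f *ᵥ v) := fun f => by
    funext j
    rw [← rep_map ρ ρ' cO (fun i => by rw [hρ, hρ']) f]
    exact (RingHom.map_mulVec cO _ _ j).symm
  have hFtv : ∀ k i, ρ' (Ft k i) *ᵥ (cO ∘ v) = 0 := fun k i => by
    simp only [Ft, map_add, map_smul, add_mulVec, smul_mulVec, hπ', hF1v, hGv]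
    funext j; simp
  choose ρk hρk _ using fun k => exists_reg (hFt k)
  let ΦO := phiM N ρ v (ao ∘ c)
  have hΦ' : phiM N ρ' (cO ∘ v) (cO ∘ ao ∘ c) = ΦO.map cO := by
    ext j x
    have := congrFun (hπ' (monomial (expo x.1) 1)) j
    rw [map_monomial, map_one] at this
    simp only [phiM, ΦO, of_apply, Matrix.map_apply, this, map_mul, Function.comp]
  have hint := phiM_mul ρ' (cO ∘ v) (cO ∘ ao ∘ c) hFtv hρk
  rw [hΦ'] at hint
  have hΦr : ΦO.map res = (phiM N ρ0 v0 c).map ak := by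
    ext j x
    have := hπ (monomial (expo x.1) 1) j
    rw [map_monomial, map_one] at this
    simp only [phiM, ΦO, of_apply, Matrix.map_apply, this, map_mul, Function.comp]
    rw [res.commutes]
  obtain ⟨W, hW, -, -⟩ := exists_inv_of_resA (K := K) (ΦO * Ψ0.map ao) (by
    rw [Matrix.map_mul (f := res), hΦr, mat_res_map, ← Matrix.map_mul, h1,
      Matrix.map_one _ (map_zero _) (map_one _)])
  have hW' : ΦO * Ψ0.map ao * W = 1 := mul_eq_one_comm.1 hW
  let E := E0.map ao - Ψ0.map ao * W * ΦO * E0.map ao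
  have hΦE : ΦO * E = 0 := by
    simp only [E, Matrix.mul_sub, ← Matrix.mul_assoc, hW', Matrix.one_mul, sub_self]
  have hDE : D0.map ao * E = 1 := by
    simp only [E, Matrix.mul_sub, ← Matrix.mul_assoc, ← Matrix.map_mul, h3, h4]
    simp
  have hED : E * D0.map ao = 1 - Ψ0.map ao * W * ΦO := by
    have h6 : E0.map ao * D0.map ao = 1 - Ψ0.map ao * (phiM N ρ0 v0 c).map ao := by
      rw [← Matrix.map_mul, ← Matrix.map_mul, eq_sub_iff_add_eq, ← Matrix.map_add _ (map_add ao),
        h5, Matrix.map_one _ (map_zero _) (map_one _)]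
    have h7 : Ψ0.map ao * W * ΦO * (Ψ0.map ao * (phiM N ρ0 v0 c).map ao) =
        Ψ0.map ao * (phiM N ρ0 v0 c).map ao := by
      rw [Matrix.mul_assoc, Matrix.mul_assoc, ← Matrix.mul_assoc ΦO, ← Matrix.mul_assoc W, hW,
        Matrix.one_mul]
    rw [Matrix.sub_mul, Matrix.mul_assoc _ (E0.map ao), h6, Matrix.mul_sub, Matrix.mul_one, h7]
    abel
  have hEr : E.map res = E0.map ak := by
    rw [Matrix.map_sub _ (map_sub res), Matrix.mul_assoc, Matrix.map_mul (f := res),
      Matrix.map_mul (f := res) (L := ΦO), hΦr, mat_res_map, ← Matrix.map_mul, h2]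
    simp [ak]
  let Ω := AlgebraicClosure (FractionRing (Polynomial O))
  let φ' : Polynomial O →ₐ[K] Ω := IsScalarTower.toAlgHom K (Polynomial O) Ω
  have hφ' : Function.Injective φ' :=
    (algebraMap (FractionRing (Polynomial O)) Ω).injective.comp
      (IsFractionRing.injective (Polynomial O) (FractionRing (Polynomial O)))
  let res' : Polynomial O →ₐ[K] ResidueField O :=
    res.comp ((Polynomial.aeval (0 : O)).restrictScalars K)
  let φ1 : Polynomial O →ₐ[K] Φ := e.comp ((Polynomial.aeval (1 : O)).restrictScalars K)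
  have hres' : ∀ {p q : Type} (B : Matrix p q O), (B.map cO).map res' = B.map res := fun B => by
    ext x y; simp [res', cO]
  refine core0 φ' hφ' res' (fun i => blockDiagonal fun k => ρk k (X i)) (E.map cO)
    ((D0.map ao).map cO) ?_ (fun i => ?_) ?_ _ fun i => ?_
  · rw [← Matrix.map_mul, hDE, Matrix.map_one _ (map_zero _) (map_one _)]
  · rw [← Matrix.mul_assoc, ← Matrix.mul_assoc, ← Matrix.map_mul, hED,
      Matrix.map_sub _ (map_sub cO), Matrix.map_one _ (map_zero _) (map_one _), Matrix.sub_mul,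
      Matrix.sub_mul, Matrix.one_mul, Matrix.map_mul, Matrix.mul_assoc _ (ΦO.map cO), hint i,
      Matrix.mul_assoc, Matrix.mul_assoc, ← Matrix.map_mul, hΦE]
    simp
  · have := Diag.blockDiagonal fun k => diag_of_grid φ1 (φ' : Polynomial O →+* Ω) hφ' hN
      (fun i n => e (a i n)) (fun i => he.comp (ha i)) (Ft k) (fun i => by
        rw [hFtev, map_grid]
        simp [φ1, cO]) _ (hρk k) (fun i j => by rw [← map_mul, ← map_mul, mul_comm])
    convert this using 2 with i
    rw [blockDiagonal_map _ _ (map_zero _)]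
    rfl
  · have hk : ∀ k, (fun i => (ρk k (X i)).map res') = fun i => (A0 k i).map ak := fun k => by
      refine IsReg.unique ((hF k).map ak) ?_ ((hA0 k).map ak)
      have := (hρk k).map (res' : Polynomial O →+* ResidueField O)
      have e2 : (res' : Polynomial O →+* ResidueField O).comp cO = res := by
        ext x; simp [res', cO]
      have e3 : (fun i => MvPolynomial.map (res' : Polynomial O →+* ResidueField O) (Ft k i)) =
          fun i => MvPolynomial.map ak (F k i) := by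
        funext i
        rw [hFtev, ← hF1r, e2]
        simp [res']
      rw [e3] at this
      exact this
    rw [Matrix.map_mul (f := res'), Matrix.map_mul (f := res'), hres', hres', hEr, mat_res_map,
      Matrix.map_mul, Matrix.map_mul, blockDiagonal_map _ _ (map_zero _),
      blockDiagonal_map _ _ (map_zero _)]
    congr 3
    funext k
    exact congrFun (hk k) i

theorem smul_mk {R : Type*} [CommRing R] (I : Ideal R) (f g : R) :
    f • Ideal.Quotient.mk I g = Ideal.Quotient.mk I (f * g) := rfl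

theorem exists_low_sub_mem (N : ℕ) (f : MvPolynomial (Fin 3) K) :
    ∃ m ∈ low K N, f - m ∈ idealOfVars (Fin 3) K ^ N := by
  classical
  refine ⟨∑ x ∈ f.support.filter (fun x => Finsupp.degree x < N), monomial x (coeff x f),
    Submodule.sum_mem _ fun x hx => monomial_mem_low (Finset.mem_filter.1 hx).2 _, ?_⟩
  rw [mem_pow_idealOfVars_iff']
  intro x hx
  rw [coeff_sub, coeff_sum, Finset.sum_eq_single x (fun y _ hy => by rw [coeff_monomial, if_neg hy])
    (fun h => by
      rw [coeff_monomial, if_pos rfl]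
      by_contra h0
      exact h (Finset.mem_filter.2 ⟨MvPolynomial.mem_support_iff.2 h0, hx⟩))]
  simp

theorem kt [Infinite K] (J : Ideal (MvPolynomial (Fin 3) K))
    (hJ : Sm (act K (MvPolynomial (Fin 3) K ⧸ J))) {N : ℕ} (hN : idealOfVars (Fin 3) K ^ N ≤ J)
    (hcard : finrank K (MvPolynomial (Fin 3) K ⧸ J) ≤ N) {r : Type} [Fintype r] [DecidableEq r]
    (F : r → Fin 3 → MvPolynomial (Fin 3) K) (hF : ∀ k, IsMon N (F k)) (hFJ : ∀ k i, F k i ∈ J)
    (c : r → K) (k0 : r) (hc : c k0 ≠ 0) {W : Type*} [AddCommGroup W] [Module K W]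
    (T : Fin 3 → End K W)
    (E : ∀ k, W →ₗ[K] MvPolynomial (Fin 3) K ⧸ Ideal.span (Set.range (F k)))
    (hinj : ∀ w, (∀ k, E k w = 0) → w = 0)
    (hT : ∀ k i w, E k (T i w) = (X i : MvPolynomial (Fin 3) K) • E k w)
    (hr : ∀ b : r → MvPolynomial (Fin 3) K,
      ∑ k, c k • b k ∈ J ↔ ∃ w, ∀ k, E k w = Ideal.Quotient.mk _ (b k)) : Sm T := by
  obtain ⟨ι, _, _, b, hb⟩ := hJ
  have hv : ∀ f, repOf b f *ᵥ b.repr 1 = b.repr (Ideal.Quotient.mk J f) := fun f => by
    rw [repOf_mulVec, ← map_one (Ideal.Quotient.mk J), smul_mk, mul_one]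
  have hv0 : ∀ f, repOf b f *ᵥ b.repr 1 = 0 ↔ f ∈ J := fun f => by
    rw [hv, ← Ideal.Quotient.eq_zero_iff_mem, ← b.repr.map_eq_zero_iff]
    exact ⟨fun h => Finsupp.ext (congrFun h), fun h => by rw [h]; rfl⟩
  have hm : ∀ j, ∃ m ∈ low K N, repOf b m *ᵥ b.repr 1 = Pi.single j 1 := fun j => by
    obtain ⟨f, hf⟩ := Ideal.Quotient.mk_surjective (b j)
    obtain ⟨m, hm, hfm⟩ := exists_low_sub_mem N f
    refine ⟨m, hm, ?_⟩
    rw [hv, ← Ideal.Quotient.eq.2 (hN hfm), hf, b.repr_self, Finsupp.single_eq_pi_single]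
  choose m hm hmv using hm
  choose nf hn1 hn2 hn3 _ using fun k => exists_nf (hF k)
  choose ρk hρk hρk' using fun k => exists_reg (hF k)
  choose s hs using fun k => LinearMap.exists_rightInverse_of_surjective
    (Ideal.Quotient.mkₐ K (Ideal.span (Set.range (F k)))).toLinearMap
    (LinearMap.range_eq_top.2 Ideal.Quotient.mk_surjective)
  have hs' : ∀ k x, Ideal.Quotient.mk _ (s k x) = x := fun k x => LinearMap.congr_fun (hs k) x
  let E' : W →ₗ[K] (Std N × r → K) :=
    LinearMap.pi fun x => LinearMap.proj x.1 ∘ₗ nf x.2 ∘ₗ s x.2 ∘ₗ E x.2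
  have hE' : ∀ w k, Ideal.Quotient.mk _ (stdL K N fun δ => E' w (δ, k)) = E k w := fun w k => by
    rw [← hs' k (E k w), eq_comm, Ideal.Quotient.eq]
    exact hn2 k _
  have huniq : ∀ (a a' : Std N × r → K), (∀ k, Ideal.Quotient.mk (Ideal.span (Set.range (F k)))
      (stdL K N fun δ => a (δ, k)) = Ideal.Quotient.mk _ (stdL K N fun δ => a' (δ, k))) →
      a = a' := fun a a' h => by
    funext x
    exact congrFun ((hF x.2).eq_of_sub_mem (Ideal.Quotient.eq.1 (h x.2))) x.1
  have hEinj : LinearMap.ker E' = ⊥ := LinearMap.ker_eq_bot'.2 fun w hw => hinj w fun k => by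
    rw [← hE', hw]
    exact (congrArg _ (map_zero _)).trans (map_zero _)
  have : FiniteDimensional K W := Module.Finite.of_injective E' (LinearMap.ker_eq_bot.1 hEinj)
  let P := toLin' (phiM N (repOf b) (b.repr 1) c)
  have hP : ∀ a, P a = 0 ↔ ∃ w, E' w = a := fun a => by
    rw [toLin'_apply, phiM_mulVec, hv0, hr]
    exact ⟨fun ⟨w, hw⟩ => ⟨w, huniq _ _ fun k => by rw [hE', hw]⟩,
      fun ⟨w, hw⟩ => ⟨w, fun k => by rw [← hw, hE']⟩⟩
  have hPs : LinearMap.range P = ⊤ := LinearMap.range_eq_top.2 fun y => by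
    obtain ⟨f, hf⟩ := Ideal.Quotient.mk_surjective (b.equivFun.symm y)
    refine ⟨fun x => if x.2 = k0 then (c k0)⁻¹ * nf k0 f x.1 else 0, ?_⟩
    rw [toLin'_apply, phiM_mulVec, Finset.sum_eq_single k0 (fun k _ hk => by
      simp only [if_neg hk]
      exact (congrArg _ (map_zero _)).trans (smul_zero _)) (by simp), ← map_smul, hv]
    have e1 : (c k0 • fun δ => if k0 = k0 then (c k0)⁻¹ * nf k0 f δ else 0) = nf k0 f := by
      funext δ; simp [hc]
    have e2 : Ideal.span (Set.range (F k0)) ≤ J := by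
      rw [Ideal.span_le]; rintro _ ⟨i, rfl⟩; exact hFJ k0 i
    rw [e1, ← Ideal.Quotient.eq.2 (e2 (hn2 k0 f)), hf]
    exact b.equivFun.apply_symm_apply y
  obtain ⟨Q, hQ⟩ := LinearMap.exists_rightInverse_of_surjective P hPs
  obtain ⟨D', hD'⟩ := LinearMap.exists_leftInverse_of_injective E' hEinj
  have hQ' : ∀ y, P (Q y) = y := fun y => LinearMap.congr_fun hQ y
  have hD'' : ∀ w, D' (E' w) = w := fun w => LinearMap.congr_fun hD' w
  have hPE : ∀ w, P (E' w) = 0 := fun w => (hP _).2 ⟨w, rfl⟩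
  let D := D' ∘ₗ (LinearMap.id - Q ∘ₗ P)
  have hDE : ∀ w, D (E' w) = w := fun w => by simp [D, hPE, hD'']
  let cW := Module.finBasis K W
  let bs := Pi.basisFun K (Std N × r)
  have hPm : phiM N (repOf b) (b.repr 1) c = LinearMap.toMatrix bs (Pi.basisFun K ι) P := by
    exact (LinearMap.toMatrix'_toLin' _).symm
  have key := kt_mat (hF k0).1 (by rwa [← finrank_eq_card_basis b]) (repOf b) hb (b.repr 1) m hm
    hmv F hF (fun k i => (hv0 _).2 (hFJ k i)) (fun k i => ρk k (X i)) hρk c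
    (LinearMap.toMatrix cW bs E') (LinearMap.toMatrix bs cW D)
    (LinearMap.toMatrix (Pi.basisFun K ι) bs Q)
    (by rw [hPm, ← LinearMap.toMatrix_comp, hQ, LinearMap.toMatrix_id])
    (by rw [hPm, ← LinearMap.toMatrix_comp, show P ∘ₗ E' = 0 from LinearMap.ext hPE, map_zero])
    (by rw [← LinearMap.toMatrix_comp, show D ∘ₗ E' = LinearMap.id from LinearMap.ext hDE,
      LinearMap.toMatrix_id])
    (by
      rw [← LinearMap.toMatrix_comp, show D ∘ₗ Q = 0 from LinearMap.ext fun y => by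
        simp [D, hQ'], map_zero])
    (by
      rw [hPm, ← LinearMap.toMatrix_comp, ← LinearMap.toMatrix_comp, ← map_add,
        ← LinearMap.toMatrix_id bs]
      congr 1
      refine LinearMap.ext fun a => ?_
      obtain ⟨w, hw⟩ := (hP (a - Q (P a))).1 (by simp [hQ'])
      have : D a = w := by
        change D' (a - Q (P a)) = w
        rw [← hw, hD'']
      simp [this, hw])
  refine ⟨_, inferInstance, inferInstance, cW, ?_⟩
  convert key using 2 with i
  have e1 : (blockDiagonal fun k => ρk k (X i)) =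
      LinearMap.toMatrix bs bs (toLin' (blockDiagonal fun k => ρk k (X i))) := by simp [bs]
  rw [e1, ← LinearMap.toMatrix_comp, ← LinearMap.toMatrix_comp]
  congr 1
  refine LinearMap.ext fun w => ?_
  have : toLin' (blockDiagonal fun k => ρk k (X i)) (E' w) = E' (T i w) := huniq _ _ fun k => by
    rw [toLin'_apply, blockDiagonal_mulVec, hE', hT, ← hE', smul_mk, eq_comm,
      Ideal.Quotient.eq]
    exact hρk' k _ _
  simp only [LinearMap.comp_apply, this, hDE]

end Pool.Agent.Lib.MP_ed43e6_ag
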