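import Pool.Agent.Lib.MP_ed43e6_ag.KT

/-! Local lengths at the origin. -/

namespace Pool.Agent.Lib.MP_ed43e6_ag

open MvPolynomial Module

universe u

variable {K : Type u} [Field K]

/-- The polynomial ring in three variables. -/
abbrev SS (K : Type u) [Field K] := MvPolynomial (Fin 3) K

/-- The maximal ideal of the origin. -/
noncomputable abbrev mm (K : Type u) [Field K] : Ideal (SS K) := idealOfVars (Fin 3) K

theorem finite_quot {I : Ideal (SS K)} {N : ℕ} (h : mm K ^ N ≤ I) : Module.Finite K (SS K ⧸ I) := by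
  refine Module.Finite.of_surjective ((Ideal.Quotient.mkₐ K I).toLinearMap ∘ₗ stdL K N) fun x => ?_
  obtain ⟨f, rfl⟩ := Ideal.Quotient.mk_surjective x
  obtain ⟨m, hm, hfm⟩ := exists_low_sub_mem N f
  obtain ⟨a, rfl⟩ := exists_stdL hm
  exact ⟨a, (Ideal.Quotient.eq.2 (h hfm)).symm⟩

instance (I : Ideal (SS K)) (N : ℕ) : Module.Finite K (SS K ⧸ (I ⊔ mm K ^ N)) :=
  finite_quot le_sup_right

/-- The quotient map between two quotients. -/
noncomputable def qmap {I J : Ideal (SS K)} (h : I ≤ J) : (SS K ⧸ I) →ₗ[K] (SS K ⧸ J) :=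
  (Ideal.Quotient.factorₐ K h).toLinearMap

@[simp] theorem qmap_mk {I J : Ideal (SS K)} (h : I ≤ J) (f : SS K) :
    qmap h (Ideal.Quotient.mk I f) = Ideal.Quotient.mk J f := rfl

theorem qmap_surjective {I J : Ideal (SS K)} (h : I ≤ J) : Function.Surjective (qmap h) :=
  fun x => by
    obtain ⟨f, rfl⟩ := Ideal.Quotient.mk_surjective x
    exact ⟨_, qmap_mk h f⟩

theorem finite_of_le {I J : Ideal (SS K)} (h : I ≤ J) [Module.Finite K (SS K ⧸ I)] :
    Module.Finite K (SS K ⧸ J) := Module.Finite.of_surjective _ (qmap_surjective h)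

theorem finrank_add_le {U V W : Type*} [AddCommGroup U] [Module K U] [AddCommGroup V] [Module K V]
    [AddCommGroup W] [Module K W] [Module.Finite K V] (α : U →ₗ[K] V) (γ : V →ₗ[K] W)
    (hα : Function.Injective α) (hγ : Function.Surjective γ) (h : ∀ u, γ (α u) = 0) :
    finrank K U + finrank K W ≤ finrank K V := by
  have h1 := γ.finrank_range_add_finrank_ker
  rw [LinearMap.range_eq_top.2 hγ, finrank_top] at h1
  have h2 : finrank K (LinearMap.range α) ≤ finrank K (LinearMap.ker γ) :=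
    Submodule.finrank_mono (by rintro _ ⟨u, rfl⟩; exact h u)
  rw [LinearMap.finrank_range_of_inj hα] at h2
  omega

theorem finrank_quot_le {I J : Ideal (SS K)} (h : I ≤ J) [Module.Finite K (SS K ⧸ I)] :
    finrank K (SS K ⧸ J) ≤ finrank K (SS K ⧸ I) :=
  LinearMap.finrank_le_finrank_of_surjective (qmap_surjective h)

theorem finrank_quot_lt {I J : Ideal (SS K)} (h : I ≤ J) (h' : ¬ J ≤ I)
    [Module.Finite K (SS K ⧸ I)] : finrank K (SS K ⧸ J) < finrank K (SS K ⧸ I) := by
  obtain ⟨f, hfJ, hfI⟩ := SetLike.not_le_iff_exists.1 h'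
  have := finrank_add_le (LinearMap.toSpanSingleton K _ (Ideal.Quotient.mk I f)) (qmap h)
    (LinearMap.ker_eq_bot.1 (LinearMap.ker_toSpanSingleton K
      (mt Ideal.Quotient.eq_zero_iff_mem.1 hfI))) (qmap_surjective h) fun c => by
      rw [LinearMap.toSpanSingleton_apply, map_smul, qmap_mk,
        Ideal.Quotient.eq_zero_iff_mem.2 hfJ, smul_zero]
  rw [finrank_self] at this
  omega

theorem stab {R : Type*} [CommRing R] {I m : Ideal R} {j : ℕ} (h : m ^ j ≤ I ⊔ m ^ (j + 1))
    (k : ℕ) : m ^ j ≤ I ⊔ m ^ k := by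
  have : ∀ n, m ^ j ≤ I ⊔ m ^ (j + n) := by
    intro n
    induction n with
    | zero => exact le_sup_right
    | succ n ih =>
      refine ih.trans (sup_le le_sup_left ?_)
      calc m ^ (j + n) = m ^ j * m ^ n := pow_add _ _ _
        _ ≤ (I ⊔ m ^ (j + 1)) * m ^ n := Ideal.mul_mono_left h
        _ ≤ I ⊔ m ^ (j + (n + 1)) := by
          rw [Ideal.sup_mul, ← pow_add, show j + 1 + n = j + (n + 1) by ring]
          exact sup_le_sup_right Ideal.mul_le_left _
  exact (this k).trans (sup_le_sup_left (Ideal.pow_le_pow_right (Nat.le_add_left _ _)) _)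

theorem exists_stab (I : Ideal (SS K)) (M : ℕ) (h : finrank K (SS K ⧸ (I ⊔ mm K ^ M)) < M) :
    ∃ j < M, mm K ^ j ≤ I ⊔ mm K ^ (j + 1) := by
  by_contra hc
  push Not at hc
  have : ∀ j ≤ M, j ≤ finrank K (SS K ⧸ (I ⊔ mm K ^ j)) := by
    intro j
    induction j with
    | zero => intro _; exact Nat.zero_le _
    | succ j ih =>
      intro hj
      refine (ih (by omega)).trans_lt (finrank_quot_lt
        (sup_le_sup_left (Ideal.pow_le_pow_right (Nat.le_succ _)) _) fun h' => ?_)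
      exact hc j hj (le_sup_right.trans h')
  exact absurd (this M le_rfl) (not_le.2 h)

/-- The local length of `I` at the origin is at most `e`. -/
def LocLen (I : Ideal (SS K)) (e : ℕ) : Prop :=
  ∃ j, mm K ^ j ≤ I ⊔ mm K ^ (j + 1) ∧ finrank K (SS K ⧸ (I ⊔ mm K ^ j)) ≤ e

theorem LocLen.le {I : Ideal (SS K)} {e : ℕ} (h : LocLen I e) (k : ℕ) :
    finrank K (SS K ⧸ (I ⊔ mm K ^ k)) ≤ e := by
  obtain ⟨j, h1, h2⟩ := h
  exact (finrank_quot_le (sup_le le_sup_left (stab h1 k))).trans h2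

theorem locLen_of_le {I : Ideal (SS K)} {e M : ℕ} (h : finrank K (SS K ⧸ (I ⊔ mm K ^ M)) ≤ e)
    (hM : e < M) : LocLen I e := by
  obtain ⟨j, hj, h1⟩ := exists_stab I M (h.trans_lt hM)
  exact ⟨j, h1, (finrank_quot_le (sup_le_sup_left (Ideal.pow_le_pow_right hj.le) _)).trans h⟩

theorem LocLen.mono {I : Ideal (SS K)} {e e' : ℕ} (h : LocLen I e) (he : e ≤ e') : LocLen I e' := by
  obtain ⟨j, h1, h2⟩ := h
  exact ⟨j, h1, h2.trans he⟩

theorem exists_idem {I : Ideal (SS K)} {j : ℕ} (h : mm K ^ j ≤ I ⊔ mm K ^ (j + 1)) :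
    ∃ e ∈ mm K ^ j, e * e - e ∈ I ∧ mm K ^ j ≤ I ⊔ Ideal.span {e} := by
  let n := (mm K ^ j).map (Ideal.Quotient.mk I)
  have hn : IsIdempotentElem n := by
    refine le_antisymm Ideal.mul_le_right ?_
    rw [← Ideal.map_mul, ← pow_add, Ideal.map_le_iff_le_comap, Ideal.comap_map_of_surjective _
      Ideal.Quotient.mk_surjective, ← RingHom.ker_eq_comap_bot, Ideal.mk_ker, sup_comm]
    exact stab h _
  obtain ⟨e, he, hne⟩ := (Ideal.isIdempotentElem_iff_of_fg n (IsNoetherian.noetherian _)).1 hn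
  have : e ∈ n := hne ▸ Submodule.mem_span_singleton_self e
  obtain ⟨e', he', rfl⟩ := (Ideal.mem_map_iff_of_surjective _ Ideal.Quotient.mk_surjective).1 this
  refine ⟨e', he', Ideal.Quotient.eq.1 (by rw [map_mul]; exact he), fun f hf => ?_⟩
  have : Ideal.Quotient.mk I f ∈ n := Ideal.mem_map_of_mem _ hf
  rw [hne, Submodule.mem_span_singleton] at this
  obtain ⟨a, ha⟩ := this
  obtain ⟨a, rfl⟩ := Ideal.Quotient.mk_surjective a
  have h2 : f - a * e' ∈ I := Ideal.Quotient.eq.1 (by rw [map_mul]; exact ha.symm)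
  rw [← sub_add_cancel f (a * e')]
  exact add_mem (Ideal.mem_sup_left h2)
    (Ideal.mem_sup_right (Ideal.mul_mem_left _ _ (Ideal.mem_span_singleton_self _)))

theorem X_pow_mem (i : Fin 3) (N : ℕ) : (X i : SS K) ^ N ∈ mm K ^ N :=
  Ideal.pow_mem_pow (Ideal.subset_span (Set.mem_range_self i)) N

theorem exists_mon (f : Fin 3 → SS K) (L : ℕ) :
    ∃ N, L < N ∧ IsMon N fun i => f i + X i ^ N := by
  choose n hn using fun i => exists_mem_low (f i)
  refine ⟨L + 1 + ∑ i, n i, by omega, by omega, fun i => ?_⟩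
  rw [add_sub_cancel_right]
  refine low_mono ?_ (hn i)
  exact (Finset.single_le_sum (fun _ _ => Nat.zero_le _) (Finset.mem_univ i)).trans
    (Nat.le_add_left _ _)

theorem span_add_pow (f : Fin 3 → SS K) (N : ℕ) :
    Ideal.span (Set.range fun i => f i + X i ^ N) ⊔ mm K ^ N =
      Ideal.span (Set.range f) ⊔ mm K ^ N := by
  refine le_antisymm (sup_le ?_ le_sup_right) (sup_le ?_ le_sup_right) <;>
    rw [Ideal.span_le] <;> rintro _ ⟨i, rfl⟩
  · exact add_mem (Ideal.mem_sup_left (Ideal.subset_span ⟨i, rfl⟩))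
      (Ideal.mem_sup_right (X_pow_mem i N))
  · rw [← add_sub_cancel_right (f i) (X i ^ N)]
    exact sub_mem (Ideal.mem_sup_left (Ideal.subset_span ⟨i, rfl⟩))
      (Ideal.mem_sup_right (X_pow_mem i N))

theorem IsMon.finite {N : ℕ} {F : Fin 3 → SS K} (hF : IsMon N F) :
    Module.Finite K (SS K ⧸ Ideal.span (Set.range F)) := by
  obtain ⟨nf, -, h2, -, -⟩ := exists_nf hF
  refine Module.Finite.of_surjective ((Ideal.Quotient.mkₐ K _).toLinearMap ∘ₗ stdL K N) fun x => ?_
  obtain ⟨f, rfl⟩ := Ideal.Quotient.mk_surjective x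
  exact ⟨nf f, (Ideal.Quotient.eq.2 (h2 f)).symm⟩

theorem IsMon.frobenius {N : ℕ} {F : Fin 3 → SS K} (hF : IsMon N F) :
    ∃ τ : SS K →ₗ[K] K, (∀ f ∈ Ideal.span (Set.range F), τ f = 0) ∧
      ∀ b, (∀ c, τ (c * b) = 0) → b ∈ Ideal.span (Set.range F) := by
  classical
  obtain ⟨nf, -, h2, h3, h4⟩ := exists_nf hF
  have hN := hF.1
  let top : Std N := fun _ => ⟨N - 1, by omega⟩
  refine ⟨LinearMap.proj top ∘ₗ nf, fun f hf => by simp [h3 f hf], fun b hb => ?_⟩
  have : nf b = 0 := by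
    by_contra h0
    obtain ⟨δ, hδ, hmax⟩ := Finset.exists_max_image (Finset.univ.filter fun δ => nf b δ ≠ 0)
      (fun δ => Finsupp.degree (expo δ)) (by
        obtain ⟨δ, hδ⟩ := Function.ne_iff.1 h0
        exact ⟨δ, Finset.mem_filter.2 ⟨Finset.mem_univ _, hδ⟩⟩)
    let δ' : Std N := fun i => (δ i).rev
    have hadd : expo δ' + expo δ = expo top := by
      ext i
      have := (δ i).2
      simp [δ', top, Fin.val_rev]
      omega
    have hlow : stdL K N (nf b) ∈ low K (Finsupp.degree (expo δ) + 1) := by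
      rw [stdL_apply]
      refine Submodule.sum_mem _ fun γ _ => ?_
      by_cases hγ : nf b γ = 0
      · rw [hγ, map_zero]; exact zero_mem _
      · exact monomial_mem_low (Nat.lt_succ_of_le
          (hmax γ (Finset.mem_filter.2 ⟨Finset.mem_univ _, hγ⟩))) _
    have h5 := mul_mem_low (monomial_mem_low (Nat.lt_succ_self _) (1 : K) (m := expo δ')) hlow
    rw [show (Finsupp.degree (expo δ')).succ + Finsupp.degree (expo δ) =
      Finsupp.degree (expo top) + 1 by rw [← hadd, map_add]; omega] at h5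
    have h6 := h4 _ top h5
    rw [← hadd, coeff_monomial_mul, one_mul, coeff_stdL] at h6
    have h7 := h3 _ (Ideal.mul_mem_left _ (monomial (expo δ') 1) (h2 b))
    rw [mul_sub, map_sub, sub_eq_zero] at h7
    have h8 : nf (monomial (expo δ') 1 * b) top = 0 := hb _
    rw [h7, h6] at h8
    exact (Finset.mem_filter.1 hδ).2 h8
  simpa [this] using h2 b

end Pool.Agent.Lib.MP_ed43e6_ag
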