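import Pool.Agent.Lib.MP_ed43e6_ag.CaseB
import Pool.Agent.Lib.MP_ed43e6_ag.Dich

/-! Every quotient of the polynomial ring in three variables of dimension at most twelve is
smoothable. -/

namespace Pool.Agent.Lib.MP_ed43e6_ag

open MvPolynomial Module

universe u

variable {K : Type u} [Field K]

theorem LocLen.of_le {I J : Ideal (SS K)} {e : ℕ} (h : LocLen I e) (hIJ : I ≤ J) :
    LocLen J e := by
  obtain ⟨j, h1, h2⟩ := h
  exact ⟨j, h1.trans (sup_le_sup_right hIJ _), (finrank_quot_le (sup_le_sup_right hIJ _)).trans h2⟩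

theorem socle_mem {I : Ideal (SS K)} {M : ℕ} (hM : mm K ^ M ≤ I) (hI : ¬ mm K ≤ I) {s : SS K}
    (hs : ∀ i, X i * s ∈ I) : s ∈ mm K := by
  by_contra h
  have hc : coeff 0 s ≠ 0 := fun h0 => h (by simpa [h0] using sub_C_mem_mm s)
  refine hI ((pow_one (mm K)).ge.trans ((stab (I := I) (j := 1) ?_ M).trans (sup_le le_rfl hM)))
  rw [pow_one, Ideal.span_le]
  rintro _ ⟨i, rfl⟩
  have : (X i : SS K) = (coeff 0 s)⁻¹ • (X i * s - X i * (s - C (coeff 0 s))) := by
    rw [← mul_sub, sub_sub_cancel, mul_comm, ← smul_eq_C_mul, smul_smul, inv_mul_cancel₀ hc,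
      one_smul]
  rw [this]
  exact Submodule.smul_of_tower_mem _ _ (sub_mem (Ideal.mem_sup_left (hs i))
    (Ideal.mem_sup_right (X_mul_mem i ((pow_one (mm K)).ge (sub_C_mem_mm s)))))

theorem caseA [Infinite K] {I : Ideal (SS K)} {M : ℕ} (hM : mm K ^ M ≤ I) (hI : ¬ mm K ≤ I)
    (h12 : finrank K (SS K ⧸ I) ≤ 12) {s : SS K} (hs : ∀ i, X i * s ∈ I) (hsI : s ∉ I)
    (h3 : ¬ I ⊔ Ideal.span {s} ≤ mm K ^ 3)
    (IH : ∀ J : Ideal (SS K), Module.Finite K (SS K ⧸ J) →
      finrank K (SS K ⧸ J) < finrank K (SS K ⧸ I) → Sm (act K (SS K ⧸ J))) :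
    Sm (act K (SS K ⧸ I)) := by
  have := finite_quot hM
  have := finite_of_le (le_sup_left : I ≤ I ⊔ Ideal.span {s})
  have hlt := finrank_quot_lt (le_sup_left : I ≤ I ⊔ Ideal.span {s})
    fun h => hsI (h (Ideal.mem_sup_right (Ideal.mem_span_singleton_self _)))
  obtain ⟨f, hf, hl⟩ := exists_short (by omega) h3
  choose c hc using fun i => mem_sup_socle hs (hf i)
  by_cases h0 : ∀ i, c i = 0
  · exact link hM f (fun i => by simpa [h0 i] using hc i) hl (by omega) IH
  push Not at h0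
  obtain ⟨k, hk⟩ := h0
  let g : Fin 3 → SS K := fun i => f i - (c i / c k) • f k
  have hg : ∀ i, g i ∈ I := fun i => by
    have : g i = (f i - c i • s) - (c i / c k) • (f k - c k • s) := by
      simp only [g, smul_sub, smul_smul, div_mul_cancel₀ _ hk]; abel
    rw [this]
    exact sub_mem (hc i) (Submodule.smul_of_tower_mem _ _ (hc k))
  have hX : ∀ i, X i * f k ∈ I := fun i => by
    rw [← sub_add_cancel (f k) (c k • s), mul_add, mul_smul_comm]
    exact add_mem (Ideal.mul_mem_left _ _ (hc k)) (Submodule.smul_of_tower_mem _ _ (hs i))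
  refine dich hM ![g (Equiv.swap k 2 0), g (Equiv.swap k 2 1), f k] (hg _) (hg _) hX
    (fun h => hsI ?_) (socle_mem hM hI hX) (hl.of_le ?_) (by omega) IH
  · have := Submodule.smul_of_tower_mem I (c k)⁻¹ (sub_mem h (hc k))
    simpa [hk] using this
  · rw [Ideal.span_le]
    rintro _ ⟨i, rfl⟩
    set J := Ideal.span (Set.range ![g (Equiv.swap k 2 0), g (Equiv.swap k 2 1), f k])
    have h2 : f k ∈ J := Ideal.subset_span ⟨2, rfl⟩
    have h4 : ∀ j, g (Equiv.swap k 2 j) ∈ J := fun j => by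
      fin_cases j
      · exact Ideal.subset_span ⟨0, rfl⟩
      · exact Ideal.subset_span ⟨1, rfl⟩
      · simp [g, hk]
    have h5 := h4 (Equiv.swap k 2 i)
    rw [Equiv.swap_apply_self] at h5
    simpa [g] using add_mem h5 (Submodule.smul_of_tower_mem J (c i / c k) h2)

theorem local_case [Infinite K] {I : Ideal (SS K)} {M : ℕ} (hM : mm K ^ M ≤ I)
    (h12 : finrank K (SS K ⧸ I) ≤ 12)
    (IH : ∀ J : Ideal (SS K), Module.Finite K (SS K ⧸ J) →
      finrank K (SS K ⧸ J) < finrank K (SS K ⧸ I) → Sm (act K (SS K ⧸ J))) :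
    Sm (act K (SS K ⧸ I)) := by
  classical
  have := finite_quot hM
  by_cases hI : mm K ≤ I
  · refine sm_of_finrank_le_one ((LinearMap.finrank_le_finrank_of_surjective
      (f := Algebra.linearMap K (SS K ⧸ I)) fun x => ?_).trans (by simp)) _
    obtain ⟨f, rfl⟩ := Ideal.Quotient.mk_surjective x
    exact ⟨coeff 0 f, (Ideal.Quotient.eq.2 (hI (sub_C_mem_mm f))).symm⟩
  by_cases hB : ∀ s, (∀ i, X i * s ∈ I) → s ∈ mm K ^ 3
  · exact caseB h12 hB IH
  push Not at hB
  obtain ⟨s, hs, hs3⟩ := hB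
  by_cases hsI : s ∈ I
  · have hex : ∃ j, mm K ^ (j + 1) ≤ I :=
      ⟨M, (Ideal.pow_le_pow_right (Nat.le_succ _)).trans hM⟩
    have h1 : ¬ mm K ^ Nat.find hex ≤ I := by
      rcases Nat.eq_zero_or_pos (Nat.find hex) with h | h
      · have := Nat.find_spec hex
        rw [h, zero_add, pow_one] at this
        exact absurd this hI
      · have := Nat.find_min hex (Nat.sub_one_lt h.ne')
        rwa [Nat.sub_add_cancel h] at this
    obtain ⟨s', h2, h3⟩ := SetLike.not_le_iff_exists.1 h1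
    exact caseA hM hI h12 (fun i => Nat.find_spec hex (X_mul_mem i h2)) h3
      (fun h => hs3 (h (Ideal.mem_sup_left hsI))) IH
  · exact caseA hM hI h12 hs hsI
      (fun h => hs3 (h (Ideal.mem_sup_right (Ideal.mem_span_singleton_self _)))) IH

theorem origin_case [Infinite K] {I : Ideal (SS K)} [Module.Finite K (SS K ⧸ I)] (hI : I ≤ mm K)
    (h12 : finrank K (SS K ⧸ I) ≤ 12)
    (IH : ∀ J : Ideal (SS K), Module.Finite K (SS K ⧸ J) →
      finrank K (SS K ⧸ J) < finrank K (SS K ⧸ I) → Sm (act K (SS K ⧸ J))) :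
    Sm (act K (SS K ⧸ I)) := by
  obtain ⟨j, -, hj⟩ := exists_stab I 13 (((finrank_quot_le le_sup_left).trans h12).trans_lt
    (by omega))
  have hj' : mm K ^ (j + 1) ≤ I ⊔ mm K ^ (j + 1 + 1) :=
    (Ideal.pow_le_pow_right (Nat.le_succ _)).trans (stab hj _)
  obtain ⟨h, hh, hidem, hle⟩ := exists_idem hj'
  by_cases hhI : h ∈ I
  · exact local_case (hle.trans (sup_le le_rfl ((Ideal.span_singleton_le_iff_mem _).2 hhI))) h12 IH
  have hm : h ∈ mm K := Ideal.pow_le_self (by omega) hh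
  have h1 : 1 - h ∉ I := fun h' => by
    have := add_mem (hI h') hm
    rw [sub_add_cancel, ← pow_one (mm K), ← C_1, C_mem_pow_idealOfVars_iff] at this
    simp at this
  have aux : ∀ g, g ∉ I → Sm (act K (SS K ⧸ (I ⊔ Ideal.span {g}))) := fun g hg =>
    IH _ (finite_of_le le_sup_left) (finrank_quot_lt le_sup_left
      fun h => hg (h (Ideal.mem_sup_right (Ideal.mem_span_singleton_self _))))
  let e := (qmap (le_sup_left : I ≤ I ⊔ Ideal.span {h})).prod
    (qmap (le_sup_left : I ≤ I ⊔ Ideal.span {1 - h}))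
  have he : Function.Bijective e := by
    refine ⟨inj_of_ker _ fun x hx => ?_, fun ⟨x, y⟩ => ?_⟩
    · obtain ⟨f, rfl⟩ := Ideal.Quotient.mk_surjective x
      obtain ⟨g1, h1, _, h2, e1⟩ := Submodule.mem_sup.1
        (Ideal.Quotient.eq_zero_iff_mem.1 (congrArg Prod.fst hx))
      obtain ⟨g2, h3, _, h4, e2⟩ := Submodule.mem_sup.1
        (Ideal.Quotient.eq_zero_iff_mem.1 (congrArg Prod.snd hx))
      obtain ⟨a, rfl⟩ := Ideal.mem_span_singleton'.1 h2
      obtain ⟨b, rfl⟩ := Ideal.mem_span_singleton'.1 h4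
      refine Ideal.Quotient.eq_zero_iff_mem.2 ?_
      rw [show f = (1 - h) * g1 + h * g2 - (a + b) * (h * h - h) by
        linear_combination -(1 - h) * e1 - h * e2]
      exact sub_mem (add_mem (Ideal.mul_mem_left _ _ h1) (Ideal.mul_mem_left _ _ h3))
        (Ideal.mul_mem_left _ _ hidem)
    · obtain ⟨f, rfl⟩ := Ideal.Quotient.mk_surjective x
      obtain ⟨g, rfl⟩ := Ideal.Quotient.mk_surjective y
      refine ⟨Ideal.Quotient.mk _ ((1 - h) * f + h * g), Prod.ext (Ideal.Quotient.eq.2 ?_)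
        (Ideal.Quotient.eq.2 ?_)⟩
      · exact Ideal.mem_sup_right (Ideal.mem_span_singleton'.2 ⟨g - f, by ring⟩)
      · exact Ideal.mem_sup_right (Ideal.mem_span_singleton'.2 ⟨f - g, by ring⟩)
  refine ((aux h hhI).prod (aux _ h1)).of_equiv (LinearEquiv.ofBijective e he).symm fun i v => ?_
  obtain ⟨x, rfl⟩ := he.2 v
  obtain ⟨f, rfl⟩ := Ideal.Quotient.mk_surjective x
  rw [LinearEquiv.symm_apply_eq, ← LinearEquiv.ofBijective_apply (hf := he),
    LinearEquiv.symm_apply_apply]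
  rfl

theorem sm_quot [IsAlgClosed K] (d : ℕ) (hd : d ≤ 12) : ∀ I : Ideal (SS K),
    Module.Finite K (SS K ⧸ I) → finrank K (SS K ⧸ I) = d → Sm (act K (SS K ⧸ I)) := by
  induction d using Nat.strong_induction_on with | _ d ih => ?_
  intro I _ hI
  by_cases h0 : I = ⊤
  · refine sm_of_finrank_le_one ?_ _
    have : Subsingleton (SS K ⧸ I) := Ideal.Quotient.subsingleton_iff.2 h0
    rw [finrank_zero_of_subsingleton]; exact Nat.zero_le _
  obtain ⟨P, hP, hIP⟩ := Ideal.exists_le_maximal I h0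
  obtain ⟨a, rfl⟩ := isMaximal_iff_eq_vanishingIdeal_singleton.1 hP
  let α : SS K →ₐ[K] SS K := aeval fun i => X i - C (a i)
  have hα : Function.Surjective α := fun f => ⟨aeval (fun i => X i + C (a i)) f, by
    rw [← AlgHom.comp_apply, show α.comp (aeval fun i => X i + C (a i)) = AlgHom.id K _ from by
      ext i : 1; simp [α], AlgHom.id_apply]⟩
  let e0 := Ideal.quotientMapₐ I α (le_refl (I.comap α))
  let e := LinearEquiv.ofBijective e0.toLinearMap
    ⟨Ideal.quotientMap_injective, Ideal.quotientMap_surjective (H := le_rfl) hα⟩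
  have : Module.Finite K (SS K ⧸ I.comap α) := Module.Finite.equiv e.symm
  have hfin : finrank K (SS K ⧸ I.comap α) = d := e.finrank_eq.trans hI
  have hS : Sm (act K (SS K ⧸ I.comap α)) := by
    refine origin_case (fun f hf => ?_) (by omega) fun J hJ hlt => ih _ (by omega) (by omega) J hJ rfl
    have h1 := (mem_vanishingIdeal_singleton_iff _ _).1 (hIP hf)
    rw [← AlgHom.comp_apply, show (aeval a).comp α = aeval 0 from by ext i : 1; simp [α]] at h1
    have h2 : coeff 0 f = 0 := by simpa [constantCoeff_eq] using h1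
    simpa [h2] using sub_C_mem_mm f
  refine (hS.translate a).of_equiv e fun i x => ?_
  obtain ⟨f, rfl⟩ := Ideal.Quotient.mk_surjective x
  change Ideal.Quotient.mk I (α (X i * f + a i • f)) = Ideal.Quotient.mk I (X i * α f)
  congr 1
  simp only [map_add, map_mul, map_smul, α, aeval_X, smul_eq_C_mul, aeval_C, algebraMap_eq]
  ring

end Pool.Agent.Lib.MP_ed43e6_ag
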