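import Pool.Agent.Lib.MP_ed43e6_ag.Arc

/-! Smoothable triples of endomorphisms and modules over the polynomial ring. -/

namespace Pool.Agent.Lib.MP_ed43e6_ag

open Matrix MvPolynomial Module

universe u

variable {K : Type u} [Field K]

/-- A triple of endomorphisms whose matrices lie in the closure of the diagonalisable triples. -/
def Sm {V : Type*} [AddCommGroup V] [Module K V] (T : Fin 3 → End K V) : Prop :=
  ∃ (ι : Type) (_ : Fintype ι) (_ : DecidableEq ι) (b : Basis ι K V),
    SmM K fun i => LinearMap.toMatrix b b (T i)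

/-- Multiplication by the variables. -/
noncomputable def act (K : Type u) [Field K] (V : Type*) [AddCommGroup V] [Module K V]
    [Module (MvPolynomial (Fin 3) K) V] [IsScalarTower K (MvPolynomial (Fin 3) K) V] :
    Fin 3 → End K V := fun i => Algebra.lsmul K K V (X i : MvPolynomial (Fin 3) K)

@[simp] theorem act_apply (V : Type*) [AddCommGroup V] [Module K V]
    [Module (MvPolynomial (Fin 3) K) V] [IsScalarTower K (MvPolynomial (Fin 3) K) V] (i : Fin 3)
    (v : V) : act K V i v = (X i : MvPolynomial (Fin 3) K) • v := rfl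

variable {V W : Type*} [AddCommGroup V] [Module K V] [AddCommGroup W] [Module K W]

theorem Sm.finite {T : Fin 3 → End K V} (h : Sm T) : FiniteDimensional K V := by
  obtain ⟨ι, _, _, b, -⟩ := h
  exact Module.Finite.of_basis b

theorem Sm.smM {T : Fin 3 → End K V} (h : Sm T) {κ : Type} [Fintype κ] [DecidableEq κ]
    (c : Basis κ K V) : SmM K fun i => LinearMap.toMatrix c c (T i) := by
  obtain ⟨ι, _, _, b, hb⟩ := h
  let e := c.indexEquiv b
  have h1 := (hb.submatrix e).conj (c.toMatrix (b.reindex e.symm)) ((b.reindex e.symm).toMatrix c)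
    (by rw [Basis.toMatrix_mul_toMatrix, Basis.toMatrix_self])
  convert h1 using 2 with i
  have : (LinearMap.toMatrix b b (T i)).submatrix e e =
      LinearMap.toMatrix (b.reindex e.symm) (b.reindex e.symm) (T i) := by
    ext a a'; simp [LinearMap.toMatrix_apply]
  rw [this, basis_toMatrix_mul_linearMap_toMatrix_mul_basis_toMatrix]

theorem Sm.of_equiv {T : Fin 3 → End K V} {T' : Fin 3 → End K W} (h : Sm T) (e : V ≃ₗ[K] W)
    (he : ∀ i v, e (T i v) = T' i (e v)) : Sm T' := by
  obtain ⟨ι, _, _, b, hb⟩ := h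
  refine ⟨ι, inferInstance, inferInstance, b.map e, ?_⟩
  convert hb using 2 with i
  ext a a'
  simp [LinearMap.toMatrix_apply, ← he]

theorem Sm.prod {T : Fin 3 → End K V} {T' : Fin 3 → End K W} (h : Sm T) (h' : Sm T') :
    Sm fun i => ((T i).prodMap (T' i) : End K (V × W)) := by
  obtain ⟨ι, _, _, b, hb⟩ := h
  obtain ⟨κ, _, _, c, hc⟩ := h'
  refine ⟨ι ⊕ κ, inferInstance, inferInstance, b.prod c, ?_⟩
  convert hb.fromBlocks hc using 2 with i
  exact LinearMap.toMatrix_prodMap b c _ _

theorem Sm.translate {T : Fin 3 → End K V} (h : Sm T) (a : Fin 3 → K) :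
    Sm fun i => T i + a i • (1 : End K V) := by
  obtain ⟨ι, _, _, b, hb⟩ := h
  refine ⟨ι, inferInstance, inferInstance, b, ?_⟩
  convert hb.translate a using 2 with i
  rw [map_add, map_smul, LinearMap.toMatrix_one]

theorem Sm.dual [FiniteDimensional K W] {T : Fin 3 → End K V} {T' : Fin 3 → End K W} (h : Sm T)
    (e : V ≃ₗ[K] Dual K W) (he : ∀ i v w, e (T i v) w = e v (T' i w)) : Sm T' := by
  let c := Module.finBasis K W
  refine ⟨_, inferInstance, inferInstance, c, ?_⟩
  convert (h.smM (c.dualBasis.map e.symm)).transpose using 2 with i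
  ext a a'
  simp [LinearMap.toMatrix_apply, he]

theorem sm_of_finrank_le_one [FiniteDimensional K V] (hV : finrank K V ≤ 1) (T : Fin 3 → End K V) :
    Sm T := by
  let c := Module.finBasis K V
  refine ⟨_, inferInstance, inferInstance, c, Diag.smM ⟨1, 1, by simp,
    fun i a => LinearMap.toMatrix c c (T i) a a, fun i => ?_⟩⟩
  ext a a'
  have : a = a' := Fin.ext (by have := a.2; have := a'.2; omega)
  subst this
  simp

theorem core0 {O Ω κ : Type*} [CommRing O] [Field Ω] [Field κ] [Algebra K O] [Algebra K Ω]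
    [Algebra K κ] {ι ι' : Type} [Fintype ι] [DecidableEq ι] [Fintype ι'] [DecidableEq ι']
    (φ : O →ₐ[K] Ω) (hφ : Function.Injective φ) (res : O →ₐ[K] κ) (A : Fin 3 → Matrix ι ι O)
    (E : Matrix ι ι' O) (D : Matrix ι' ι O) (hDE : D * E = 1)
    (hA : ∀ i, E * (D * A i * E) = A i * E) (hd : Diag fun i => (A i).map φ)
    (Y : Fin 3 → Matrix ι' ι' K) (hY : ∀ i, (D * A i * E).map res = (Y i).map (algebraMap K κ)) :
    SmM K Y := by
  have h1 : SmM K fun i => D * A i * E := by
    apply SmM.of_map φ hφ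
    apply Diag.smM
    refine hd.sub (E.map φ) (D.map φ) ?_ fun i => ?_
    · rw [← Matrix.map_mul (f := φ), hDE, Matrix.map_one _ (map_zero _) (map_one _)]
    · rw [← Matrix.map_mul (f := φ), hA, Matrix.map_mul (f := φ)]
  have h2 := h1.map res
  simp only [hY] at h2
  exact SmM.of_map (Algebra.ofId K κ) (algebraMap K κ).injective h2

theorem rep_res {ι : Type} [Fintype ι] [DecidableEq ι] {O κ : Type*} [CommRing O] [CommRing κ]
    [Algebra K O] [Algebra K κ] (ρ0 : MvPolynomial (Fin 3) K →ₐ[K] Matrix ι ι K)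
    (ρ : MvPolynomial (Fin 3) O →ₐ[O] Matrix ι ι O) (res : O →ₐ[K] κ)
    (h : ∀ i, (ρ (X i)).map res = (ρ0 (X i)).map (algebraMap K κ))
    (f : MvPolynomial (Fin 3) O) (f0 : MvPolynomial (Fin 3) K)
    (hf : MvPolynomial.map (res : O →+* κ) f = MvPolynomial.map (algebraMap K κ) f0) :
    (ρ f).map res = (ρ0 f0).map (algebraMap K κ) := by
  obtain ⟨ρκ, hκ⟩ := exists_rep (fun i => (ρ0 (X i)).map (algebraMap K κ)) (fun i j => by
    rw [← Matrix.map_mul, ← Matrix.map_mul, ← map_mul, ← map_mul, mul_comm])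
  rw [rep_map ρ0 ρκ (algebraMap K κ) (fun i => (hκ i).symm), ← hf]
  exact rep_map ρ ρκ (res : O →+* κ) (fun i => (h i).trans (hκ i).symm) f

theorem map_res_map {O κ : Type*} [CommRing O] [CommRing κ] [Algebra K O] [Algebra K κ]
    (res : O →ₐ[K] κ) (f : MvPolynomial (Fin 3) K) :
    MvPolynomial.map (res : O →+* κ) (MvPolynomial.map (algebraMap K O) f) =
      MvPolynomial.map (algebraMap K κ) f := by
  rw [MvPolynomial.map_map]
  congr 2
  ext a; simp

theorem mat_res_map {ι ι' : Type*} {O κ : Type*} [CommRing O] [CommRing κ] [Algebra K O]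
    [Algebra K κ] (res : O →ₐ[K] κ) (A : Matrix ι ι' K) :
    (A.map (algebraMap K O)).map res = A.map (algebraMap K κ) := by
  ext a b; simp

/-- The representation of the polynomial ring on a module, in a basis. -/
noncomputable def repOf {ι : Type} [Fintype ι] [DecidableEq ι] [Module (MvPolynomial (Fin 3) K) V]
    [IsScalarTower K (MvPolynomial (Fin 3) K) V] (b : Basis ι K V) :
    MvPolynomial (Fin 3) K →ₐ[K] Matrix ι ι K :=
  (LinearMap.toMatrixAlgEquiv b).toAlgHom.comp (Algebra.lsmul K K V)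

theorem repOf_apply {ι : Type} [Fintype ι] [DecidableEq ι] [Module (MvPolynomial (Fin 3) K) V]
    [IsScalarTower K (MvPolynomial (Fin 3) K) V] (b : Basis ι K V) (f : MvPolynomial (Fin 3) K) :
    repOf b f = LinearMap.toMatrix b b (Algebra.lsmul K K V f) := rfl

theorem repOf_mulVec {ι : Type} [Fintype ι] [DecidableEq ι] [Module (MvPolynomial (Fin 3) K) V]
    [IsScalarTower K (MvPolynomial (Fin 3) K) V] (b : Basis ι K V) (f : MvPolynomial (Fin 3) K)
    (v : V) : repOf b f *ᵥ b.repr v = b.repr (f • v) := by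
  rw [repOf_apply, LinearMap.toMatrix_mulVec_repr]; rfl

end Pool.Agent.Lib.MP_ed43e6_ag
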