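import Pool.Agent.Lib.MP_ed43e6_ag.Mod
import Pool.Agent.Lib.MP_ed43e6_ag.CI

/-! Grids of points and pencils of complete intersections through a grid. -/

namespace Pool.Agent.Lib.MP_ed43e6_ag

open Matrix MvPolynomial

universe u

variable {K : Type u} [Field K]

theorem exists_notMem_of_ne_top [Infinite K] {E : Type*} [AddCommGroup E] [Module K E]
    {ι : Type*} [Finite ι] (p : ι → Submodule K E) (hp : ∀ i, p i ≠ ⊤) : ∃ v, ∀ i, v ∉ p i := by
  by_contra h
  push Not at h
  obtain ⟨i, hi⟩ := Subspace.exists_eq_top_of_iUnion_eq_univ (p := p)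
    (Set.eq_univ_of_forall fun v => Set.mem_iUnion.2 (h v))
  exact hp i hi

theorem exists_sep [Infinite K] {Φ : Type*} [Field Φ] [Algebra K Φ] {σ : Type*} [Finite σ]
    (p : σ → Fin 3 → Φ) (hp : Function.Injective p) :
    ∃ c : Fin 3 → K, Function.Injective fun s => ∑ i, c i • p s i := by
  let L : σ → (Fin 3 → K) →ₗ[K] Φ := fun s => Fintype.linearCombination K (p s)
  obtain ⟨c, hc⟩ := exists_notMem_of_ne_top (K := K)
    (fun x : {x : σ × σ // x.1 ≠ x.2} => LinearMap.ker (L x.1.1 - L x.1.2)) (by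
      rintro ⟨⟨s, t⟩, hst⟩ h
      apply hst
      apply hp
      funext i
      have : Pi.single i (1 : K) ∈ LinearMap.ker (L s - L t) := by
        rw [show LinearMap.ker (L s - L t) = ⊤ from h]; trivial
      simpa [L, sub_eq_zero] using this)
  refine ⟨c, fun s t h => ?_⟩
  by_contra hst
  apply hc ⟨(s, t), hst⟩
  simpa [L, sub_eq_zero, Fintype.linearCombination_apply] using h

theorem exists_cover {O : Type*} [Infinite O] {ι : Type*} [Fintype ι] (μ : ι → O) {N : ℕ}
    (h : Fintype.card ι ≤ N) : ∃ a : Fin N → O, Function.Injective a ∧ ∀ j, ∃ n, a n = μ j := by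
  classical
  obtain ⟨t, hst, ht⟩ := Infinite.exists_superset_card_eq (Finset.univ.image μ) N
    (Finset.card_image_le.trans h)
  let e := Finset.equivFinOfCardEq ht
  refine ⟨fun n => (e.symm n : O), Subtype.val_injective.comp e.symm.injective, fun j => ?_⟩
  exact ⟨e ⟨μ j, hst (Finset.mem_image_of_mem _ (Finset.mem_univ j))⟩, by simp⟩

/-- The equations of a grid. -/
noncomputable def grid {O : Type*} [CommRing O] {N : ℕ} (a : Fin 3 → Fin N → O) (i : Fin 3) :
    MvPolynomial (Fin 3) O := ∏ n, (X i - C (a i n))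

theorem grid_isMon {O : Type*} [CommRing O] {N : ℕ} (hN : 0 < N) (a : Fin 3 → Fin N → O) :
    IsMon N (grid a) := by
  refine ⟨hN, fun i => ?_⟩
  have h1 : ∀ c : O, Lead (X i - C c) (Finsupp.single i 1) := fun c => by
    rw [Lead, show (monomial (Finsupp.single i 1) (1 : O)) = X i from rfl, sub_sub_cancel_left,
      Finsupp.degree_single]
    exact neg_mem (monomial_mem_low (by simp) c)
  have h2 : ∀ s : Finset (Fin N), Lead (∏ n ∈ s, (X i - C (a i n))) (Finsupp.single i s.card) := by
    intro s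
    induction s using Finset.induction_on with
    | empty => simpa using lead_monomial (O := O) 0
    | insert n s hn ih =>
      rw [Finset.prod_insert hn, Finset.card_insert_of_notMem hn, add_comm, Finsupp.single_add]
      exact (h1 _).mul ih
  have := h2 Finset.univ
  rwa [Lead, Finset.card_univ, Fintype.card_fin, ← X_pow_eq_monomial, Finsupp.degree_single] at this

theorem eval_grid {O : Type*} [CommRing O] {N : ℕ} (a : Fin 3 → Fin N → O) (p : Fin 3 → O)
    (i : Fin 3) (h : ∃ n, a i n = p i) : eval p (grid a i) = 0 := by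
  obtain ⟨n, hn⟩ := h
  rw [grid, map_prod]
  exact Finset.prod_eq_zero (Finset.mem_univ n) (by simp [hn])

theorem map_grid {O O' : Type*} [CommRing O] [CommRing O'] (φ : O →+* O') {N : ℕ}
    (a : Fin 3 → Fin N → O) (i : Fin 3) :
    MvPolynomial.map φ (grid a i) = grid (fun i n => φ (a i n)) i := by
  simp [grid]

theorem diag_of_grid [Infinite K] {O Φ Ω : Type*} [CommRing O] [Field Φ] [Field Ω] [IsAlgClosed Ω]
    [Algebra K O] [Algebra K Φ] (φ : O →ₐ[K] Φ) (ψ : O →+* Ω) (hψ : Function.Injective ψ)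
    {N : ℕ} (hN : 0 < N) (a : Fin 3 → Fin N → Φ) (ha : ∀ i, Function.Injective (a i))
    (F : Fin 3 → MvPolynomial (Fin 3) O) (hF : ∀ i, MvPolynomial.map (φ : O →+* Φ) (F i) = grid a i)
    (A : Fin 3 → Matrix (Std N) (Std N) O) (hA : IsReg F A) (hc : ∀ i j, A i * A j = A j * A i) :
    Diag fun i => (A i).map ψ := by
  let p : Std N → Fin 3 → Φ := fun γ i => a i (γ i)
  have hp : Function.Injective p := fun γ γ' h => funext fun i => ha i (congrFun h i)
  obtain ⟨c, hcp⟩ := exists_sep (K := K) p hp
  let L : Matrix (Std N) (Std N) O := ∑ i, c i • A i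
  refine diag_of_separable _ (L.map ψ) (fun i => ?_) ?_
  · rw [← Matrix.map_mul, ← Matrix.map_mul]
    simp only [L, Finset.sum_mul, Finset.mul_sum, smul_mul_assoc, mul_smul_comm, hc]
  · rw [charpoly_map]
    refine separable_map_of_separable_map _ L.charpoly_monic (φ : O →+* Φ) ψ hψ ?_
    rw [← charpoly_map, ← charpoly_transpose]
    refine separable_charpoly_of_roots _ _ hcp fun γ => ?_
    have hA' := hA.map (φ : O →+* Φ)
    simp only [hF] at hA'
    have hv := hA'.vecMul_eval (p γ) fun i => eval_grid a _ i ⟨γ i, rfl⟩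
    refine isRoot_charpoly_of_mulVec (v := fun δ => eval (p γ) (monomial (expo δ) 1)) ?_ ?_
    · intro h
      have := congrFun h fun _ => ⟨0, hN⟩
      rw [show expo (fun _ => (⟨0, hN⟩ : Fin N)) = 0 from by ext; rfl] at this
      simp at this
    · have : (L.map (φ : O →+* Φ))ᵀ = ∑ i, c i • ((A i).map (φ : O →+* Φ))ᵀ := by
        ext x y
        simp [L, Matrix.sum_apply]
      rw [this, sum_mulVec, Finset.sum_smul]
      refine Finset.sum_congr rfl fun i _ => ?_
      rw [smul_mulVec, hv i, smul_assoc]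

theorem Diag.blockDiagonal {C : Type*} [CommRing C] {ι r : Type} [Fintype ι] [DecidableEq ι]
    [Fintype r] [DecidableEq r] {A : r → Fin 3 → Matrix ι ι C} (h : ∀ k, Diag (A k)) :
    Diag fun i => Matrix.blockDiagonal fun k => A k i := by
  choose g h hgh l hl using h
  refine ⟨Matrix.blockDiagonal g, Matrix.blockDiagonal h, ?_, fun i x => l x.2 i x.1, fun i => ?_⟩
  · rw [← blockDiagonal_mul]
    simp only [hgh]
    exact blockDiagonal_one
  · beta_reduce
    rw [← blockDiagonal_diagonal (fun k => l k i), ← blockDiagonal_mul, ← blockDiagonal_mul]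
    simp only [hl]

end Pool.Agent.Lib.MP_ed43e6_ag
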