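import Pool.Agent.Lib.MP_ed43e6_ag.Cert

/-! A decision tree over staircases with at most eleven boxes. -/

namespace Pool.Agent.Lib.MP_ed43e6_ag

universe u

def perm (p : ℕ) (m : Mono) : Mono :=
  match p with
  | 0 => m
  | 1 => (m.1, m.2.2, m.2.1)
  | 2 => (m.2.1, m.1, m.2.2)
  | 3 => (m.2.1, m.2.2, m.1)
  | 4 => (m.2.2, m.1, m.2.1)
  | _ => (m.2.2, m.2.1, m.1)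

def Cert.perm (c : Cert) (p : ℕ) : Cert :=
  ⟨c.f0.map (Pool.Agent.Lib.MP_ed43e6_ag.perm p), c.f1.map (Pool.Agent.Lib.MP_ed43e6_ag.perm p),
    c.f2.map (Pool.Agent.Lib.MP_ed43e6_ag.perm p), c.D,
    c.sp.map (Pool.Agent.Lib.MP_ed43e6_ag.perm p), c.n⟩

def certs : List Cert := [
  ⟨[(0,0,1)], [(0,1,0)], [(1,0,0)], 0, [(0,0,0)], 1⟩,
  ⟨[(0,0,2)], [(0,1,0)], [(1,0,0)], 1, [(0,0,1), (0,0,0)], 1⟩,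
  ⟨[(0,0,3)], [(0,1,0)], [(1,0,0)], 2, [(0,0,2), (0,0,1), (0,0,0)], 1⟩,
  ⟨[(0,0,2)], [(0,2,0)], [(1,0,0)], 2, [(0,1,1), (0,0,1), (0,1,0), (0,0,0)], 1⟩,
  ⟨[(0,0,4)], [(0,1,0)], [(1,0,0)], 3, [(0,0,3), (0,0,2), (0,0,1), (0,0,0)], 1⟩,
  ⟨[(0,0,3)], [(0,2,0)], [(1,0,0)], 3, [(0,1,2), (0,0,2), (0,1,1), (0,0,1), (0,1,0), (0,0,0)], 1⟩,
  ⟨[(0,0,2)], [(0,2,0)], [(2,0,0)], 3, [(1,1,1), (0,1,1), (1,0,1), (1,1,0), (0,0,1), (0,1,0), (1,0,0), (0,0,0)], 1⟩,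
  ⟨[(0,0,4)], [(0,2,0)], [(1,0,0)], 4, [(0,1,3), (0,0,3), (0,1,2), (0,0,2), (0,1,1), (0,0,1), (0,1,0), (0,0,0)], 1⟩,
  ⟨[(0,0,3), (0,2,0)], [(0,1,1)], [(2,0,0)], 4, [(1,0,3), (0,0,3), (1,0,2), (0,0,2), (1,0,1), (1,1,0), (0,0,1), (0,1,0), (1,0,0), (0,0,0)], 2⟩,
  ⟨[(0,0,3)], [(0,3,0)], [(1,0,0)], 4, [(0,2,2), (0,1,2), (0,2,1), (0,0,2), (0,1,1), (0,2,0), (0,0,1), (0,1,0), (0,0,0)], 1⟩,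
  ⟨[(0,0,5)], [(0,1,0)], [(1,0,0)], 4, [(0,0,4), (0,0,3), (0,0,2), (0,0,1), (0,0,0)], 1⟩,
  ⟨[(0,0,4), (0,2,0)], [(0,1,1)], [(2,0,0)], 5, [(1,0,4), (0,0,4), (1,0,3), (0,0,3), (1,0,2), (0,0,2), (1,0,1), (1,1,0), (0,0,1), (0,1,0), (1,0,0), (0,0,0)], 2⟩,
  ⟨[(0,0,3), (0,3,0)], [(0,1,1)], [(2,0,0)], 4, [(1,0,3), (0,0,3), (1,0,2), (1,2,0), (0,0,2), (0,2,0), (1,0,1), (1,1,0), (0,0,1), (0,1,0), (1,0,0), (0,0,0)], 2⟩,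
  ⟨[(0,0,6)], [(0,1,0)], [(1,0,0)], 5, [(0,0,5), (0,0,4), (0,0,3), (0,0,2), (0,0,1), (0,0,0)], 1⟩,
  ⟨[(0,0,5)], [(0,2,0)], [(1,0,0)], 5, [(0,1,4), (0,0,4), (0,1,3), (0,0,3), (0,1,2), (0,0,2), (0,1,1), (0,0,1), (0,1,0), (0,0,0)], 1⟩,
  ⟨[(0,0,4)], [(0,3,0)], [(1,0,0)], 5, [(0,2,3), (0,1,3), (0,2,2), (0,0,3), (0,1,2), (0,2,1), (0,0,2), (0,1,1), (0,2,0), (0,0,1), (0,1,0), (0,0,0)], 1⟩,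
  ⟨[(0,0,4), (0,3,0)], [(0,1,1)], [(2,0,0)], 5, [(1,0,4), (0,0,4), (1,0,3), (0,0,3), (1,0,2), (1,2,0), (0,0,2), (0,2,0), (1,0,1), (1,1,0), (0,0,1), (0,1,0), (1,0,0), (0,0,0)], 2⟩,
  ⟨[(0,0,3), (2,0,0)], [(0,3,0)], [(1,0,1)], 5, [(0,2,3), (0,1,3), (0,0,3), (0,2,2), (0,1,2), (0,2,1), (1,2,0), (0,0,2), (0,1,1), (0,2,0), (1,1,0), (0,0,1), (0,1,0), (1,0,0), (0,0,0)], 2⟩,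
  ⟨[(0,0,7)], [(0,1,0)], [(1,0,0)], 6, [(0,0,6), (0,0,5), (0,0,4), (0,0,3), (0,0,2), (0,0,1), (0,0,0)], 1⟩,
  ⟨[(0,0,3), (0,3,0)], [(0,1,1), (3,0,0)], [(1,0,1)], 5, [(3,2,0), (3,1,0), (0,0,3), (3,0,0), (2,2,0), (1,2,0), (2,1,0), (0,0,2), (0,2,0), (1,1,0), (2,0,0), (0,0,1), (0,1,0), (1,0,0), (0,0,0)], 2⟩,
  ⟨[(0,0,5)], [(0,3,0)], [(1,0,0)], 6, [(0,2,4), (0,1,4), (0,2,3), (0,0,4), (0,1,3), (0,2,2), (0,0,3), (0,1,2), (0,2,1), (0,0,2), (0,1,1), (0,2,0), (0,0,1), (0,1,0), (0,0,0)], 1⟩,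
  ⟨[(0,0,6)], [(0,2,0)], [(1,0,0)], 6, [(0,1,5), (0,0,5), (0,1,4), (0,0,4), (0,1,3), (0,0,3), (0,1,2), (0,0,2), (0,1,1), (0,0,1), (0,1,0), (0,0,0)], 1⟩,
  ⟨[(0,0,5), (0,2,0)], [(0,1,1)], [(2,0,0)], 6, [(1,0,5), (0,0,5), (1,0,4), (0,0,4), (1,0,3), (0,0,3), (1,0,2), (0,0,2), (1,0,1), (1,1,0), (0,0,1), (0,1,0), (1,0,0), (0,0,0)], 2⟩,
  ⟨[(0,0,4), (0,4,0)], [(0,1,1)], [(1,0,0)], 4, [(0,0,4), (0,0,3), (0,3,0), (0,0,2), (0,2,0), (0,0,1), (0,1,0), (0,0,0)], 2⟩,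
  ⟨[(0,0,8)], [(0,1,0)], [(1,0,0)], 7, [(0,0,7), (0,0,6), (0,0,5), (0,0,4), (0,0,3), (0,0,2), (0,0,1), (0,0,0)], 1⟩,
  ⟨[(0,0,4)], [(0,4,0)], [(1,0,0)], 6, [(0,3,3), (0,2,3), (0,3,2), (0,1,3), (0,2,2), (0,3,1), (0,0,3), (0,1,2), (0,2,1), (0,3,0), (0,0,2), (0,1,1), (0,2,0), (0,0,1), (0,1,0), (0,0,0)], 1⟩,
  ⟨[(0,0,4), (0,3,0)], [(0,1,1), (3,0,0)], [(1,0,1)], 5, [(0,0,5), (0,0,4), (3,1,0), (3,0,0), (2,2,0), (0,0,3), (1,2,0), (2,1,0), (0,0,2), (0,2,0), (1,1,0), (2,0,0), (0,0,1), (0,1,0), (1,0,0), (0,0,0)], 3⟩,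
  ⟨[(0,0,5), (0,3,0)], [(0,1,1)], [(2,0,0)], 6, [(1,0,5), (0,0,5), (1,0,4), (0,0,4), (1,0,3), (0,0,3), (1,0,2), (1,2,0), (0,0,2), (0,2,0), (1,0,1), (1,1,0), (0,0,1), (0,1,0), (1,0,0), (0,0,0)], 2⟩,
  ⟨[(0,0,7)], [(0,2,0)], [(1,0,0)], 7, [(0,1,6), (0,0,6), (0,1,5), (0,0,5), (0,1,4), (0,0,4), (0,1,3), (0,0,3), (0,1,2), (0,0,2), (0,1,1), (0,0,1), (0,1,0), (0,0,0)], 1⟩,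
  ⟨[(0,0,4), (0,4,0)], [(0,1,1)], [(2,0,0)], 5, [(1,0,4), (0,0,4), (1,0,3), (1,3,0), (0,0,3), (0,3,0), (1,0,2), (1,2,0), (0,0,2), (0,2,0), (1,0,1), (1,1,0), (0,0,1), (0,1,0), (1,0,0), (0,0,0)], 2⟩,
  ⟨[(0,0,6), (0,3,0)], [(0,1,1)], [(1,0,0)], 6, [(0,0,6), (0,0,5), (0,0,4), (0,0,3), (0,0,2), (0,2,0), (0,0,1), (0,1,0), (0,0,0)], 2⟩,
  ⟨[(0,0,4)], [(0,2,0)], [(2,0,0)], 5, [(1,1,3), (0,1,3), (1,0,3), (1,1,2), (0,0,3), (0,1,2), (1,0,2), (1,1,1), (0,0,2), (0,1,1), (1,0,1), (1,1,0), (0,0,1), (0,1,0), (1,0,0), (0,0,0)], 1⟩,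
  ⟨[(0,0,4), (0,3,0)], [(0,1,2), (2,0,0)], [(1,0,1)], 6, [(0,0,6), (0,0,5), (0,0,4), (0,2,2), (0,1,2), (0,0,3), (0,2,1), (1,2,0), (0,0,2), (0,1,1), (0,2,0), (1,1,0), (0,0,1), (0,1,0), (1,0,0), (0,0,0)], 3⟩,
  ⟨[(0,0,5), (0,4,0)], [(0,1,1)], [(1,0,0)], 5, [(0,0,5), (0,0,4), (0,0,3), (0,3,0), (0,0,2), (0,2,0), (0,0,1), (0,1,0), (0,0,0)], 2⟩,
  ⟨[(0,0,6), (0,2,0)], [(0,1,1)], [(2,0,0)], 7, [(1,0,6), (0,0,6), (1,0,5), (0,0,5), (1,0,4), (0,0,4), (1,0,3), (0,0,3), (1,0,2), (0,0,2), (1,0,1), (1,1,0), (0,0,1), (0,1,0), (1,0,0), (0,0,0)], 2⟩,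
  ⟨[(0,0,6)], [(0,3,0)], [(1,0,0)], 7, [(0,2,5), (0,1,5), (0,2,4), (0,0,5), (0,1,4), (0,2,3), (0,0,4), (0,1,3), (0,2,2), (0,0,3), (0,1,2), (0,2,1), (0,0,2), (0,1,1), (0,2,0), (0,0,1), (0,1,0), (0,0,0)], 1⟩,
  ⟨[(0,0,6), (0,4,0)], [(0,1,1)], [(1,0,0)], 6, [(0,0,6), (0,0,5), (0,0,4), (0,0,3), (0,3,0), (0,0,2), (0,2,0), (0,0,1), (0,1,0), (0,0,0)], 2⟩,
  ⟨[(0,0,4), (0,2,1), (2,0,0)], [(0,1,2), (0,4,0)], [(1,0,1)], 6, [(0,0,6), (0,0,5), (0,4,1), (0,3,1), (0,4,0), (0,0,4), (0,2,1), (1,3,0), (0,0,3), (0,3,0), (1,2,0), (0,0,2), (0,1,1), (0,2,0), (1,1,0), (0,0,1), (0,1,0), (1,0,0), (0,0,0)], 3⟩,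
  ⟨[(0,0,7), (0,2,0)], [(0,1,1)], [(2,0,0)], 8, [(1,0,7), (0,0,7), (1,0,6), (0,0,6), (1,0,5), (0,0,5), (1,0,4), (0,0,4), (1,0,3), (0,0,3), (1,0,2), (0,0,2), (1,0,1), (1,1,0), (0,0,1), (0,1,0), (1,0,0), (0,0,0)], 2⟩,
  ⟨[(0,0,7), (0,3,0)], [(0,1,1)], [(1,0,0)], 7, [(0,0,7), (0,0,6), (0,0,5), (0,0,4), (0,0,3), (0,0,2), (0,2,0), (0,0,1), (0,1,0), (0,0,0)], 2⟩,
  ⟨[(0,0,5), (0,2,0)], [(0,1,2)], [(2,0,0)], 7, [(1,0,6), (0,0,6), (1,0,5), (0,0,5), (1,0,4), (0,0,4), (1,0,3), (0,0,3), (1,0,2), (1,1,1), (0,0,2), (0,1,1), (1,0,1), (1,1,0), (0,0,1), (0,1,0), (1,0,0), (0,0,0)], 2⟩,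
  ⟨[(0,0,5), (0,4,0)], [(0,1,2)], [(1,0,0)], 6, [(0,0,6), (0,0,5), (0,0,4), (0,3,1), (0,0,3), (0,2,1), (0,3,0), (0,0,2), (0,1,1), (0,2,0), (0,0,1), (0,1,0), (0,0,0)], 2⟩,
  ⟨[(0,0,5), (0,4,0)], [(0,1,1)], [(2,0,0)], 6, [(1,0,5), (0,0,5), (1,0,4), (0,0,4), (1,0,3), (1,3,0), (0,0,3), (0,3,0), (1,0,2), (1,2,0), (0,0,2), (0,2,0), (1,0,1), (1,1,0), (0,0,1), (0,1,0), (1,0,0), (0,0,0)], 2⟩,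
  ⟨[(0,0,4), (0,3,0)], [(0,1,2), (3,0,0)], [(1,0,1)], 6, [(0,0,6), (0,0,5), (0,0,4), (0,2,2), (0,1,2), (2,2,0), (0,0,3), (0,2,1), (1,2,0), (2,1,0), (0,0,2), (0,1,1), (0,2,0), (1,1,0), (2,0,0), (0,0,1), (0,1,0), (1,0,0), (0,0,0)], 3⟩,
  ⟨[(0,0,4), (2,0,0)], [(0,3,0)], [(1,0,1)], 6, [(0,2,4), (0,1,4), (0,0,4), (0,2,3), (0,1,3), (0,2,2), (0,0,3), (0,1,2), (0,2,1), (1,2,0), (0,0,2), (0,1,1), (0,2,0), (1,1,0), (0,0,1), (0,1,0), (1,0,0), (0,0,0)], 2⟩,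
  ⟨[(0,0,5), (0,5,0)], [(0,1,1)], [(1,0,0)], 5, [(0,0,5), (0,0,4), (0,4,0), (0,0,3), (0,3,0), (0,0,2), (0,2,0), (0,0,1), (0,1,0), (0,0,0)], 2⟩,
  ⟨[(0,0,6), (0,3,0)], [(0,1,1)], [(2,0,0)], 7, [(1,0,6), (0,0,6), (1,0,5), (0,0,5), (1,0,4), (0,0,4), (1,0,3), (0,0,3), (1,0,2), (1,2,0), (0,0,2), (0,2,0), (1,0,1), (1,1,0), (0,0,1), (0,1,0), (1,0,0), (0,0,0)], 2⟩,
  ⟨[(0,0,9)], [(0,1,0)], [(1,0,0)], 8, [(0,0,8), (0,0,7), (0,0,6), (0,0,5), (0,0,4), (0,0,3), (0,0,2), (0,0,1), (0,0,0)], 1⟩,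
  ⟨[(0,0,4), (3,0,0)], [(0,1,1)], [(0,4,0), (1,0,1)], 6, [(2,4,0), (1,4,0), (0,0,4), (0,4,0), (2,3,0), (1,3,0), (2,2,0), (0,0,3), (0,3,0), (1,2,0), (2,1,0), (0,0,2), (0,2,0), (1,1,0), (2,0,0), (0,0,1), (0,1,0), (1,0,0), (0,0,0)], 2⟩,
  ⟨[(0,0,3)], [(0,3,0)], [(2,0,0)], 5, [(1,2,2), (0,2,2), (1,1,2), (1,2,1), (0,1,2), (0,2,1), (1,0,2), (1,1,1), (1,2,0), (0,0,2), (0,1,1), (0,2,0), (1,0,1), (1,1,0), (0,0,1), (0,1,0), (1,0,0), (0,0,0)], 1⟩,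
  ⟨[(0,0,5), (0,3,0)], [(0,1,1), (3,0,0)], [(1,0,1)], 6, [(0,0,6), (0,0,5), (3,1,0), (3,0,0), (0,0,4), (2,2,0), (0,0,3), (1,2,0), (2,1,0), (0,0,2), (0,2,0), (1,1,0), (2,0,0), (0,0,1), (0,1,0), (1,0,0), (0,0,0)], 3⟩,
  ⟨[(0,0,5), (0,3,0)], [(0,1,2), (2,0,0)], [(1,0,1)], 7, [(0,0,7), (0,0,6), (0,0,5), (0,2,2), (0,1,2), (0,0,4), (0,0,3), (0,2,1), (1,2,0), (0,0,2), (0,1,1), (0,2,0), (1,1,0), (0,0,1), (0,1,0), (1,0,0), (0,0,0)], 3⟩,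
  ⟨[(0,0,8)], [(0,2,0)], [(1,0,0)], 8, [(0,1,7), (0,0,7), (0,1,6), (0,0,6), (0,1,5), (0,0,5), (0,1,4), (0,0,4), (0,1,3), (0,0,3), (0,1,2), (0,0,2), (0,1,1), (0,0,1), (0,1,0), (0,0,0)], 1⟩,
  ⟨[(0,0,8), (0,2,0)], [(0,1,1)], [(2,0,0)], 9, [(1,0,8), (0,0,8), (1,0,7), (0,0,7), (1,0,6), (0,0,6), (1,0,5), (0,0,5), (1,0,4), (0,0,4), (1,0,3), (0,0,3), (1,0,2), (0,0,2), (1,0,1), (1,1,0), (0,0,1), (0,1,0), (1,0,0), (0,0,0)], 2⟩,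
  ⟨[(0,0,6), (0,3,0)], [(0,1,1), (3,0,0)], [(1,0,1)], 7, [(0,0,7), (0,0,6), (3,1,0), (0,0,5), (3,0,0), (0,0,4), (2,2,0), (0,0,3), (1,2,0), (2,1,0), (0,0,2), (0,2,0), (1,1,0), (2,0,0), (0,0,1), (0,1,0), (1,0,0), (0,0,0)], 3⟩,
  ⟨[(0,0,8), (0,3,0)], [(0,1,1)], [(1,0,0)], 8, [(0,0,8), (0,0,7), (0,0,6), (0,0,5), (0,0,4), (0,0,3), (0,0,2), (0,2,0), (0,0,1), (0,1,0), (0,0,0)], 2⟩,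
  ⟨[(0,0,10)], [(0,1,0)], [(1,0,0)], 9, [(0,0,9), (0,0,8), (0,0,7), (0,0,6), (0,0,5), (0,0,4), (0,0,3), (0,0,2), (0,0,1), (0,0,0)], 1⟩,
  ⟨[(0,0,5), (0,4,0)], [(0,1,2), (2,0,0)], [(1,0,1)], 7, [(0,0,7), (0,0,6), (0,0,5), (0,3,2), (0,2,2), (0,1,2), (0,0,4), (0,3,1), (1,3,0), (0,0,3), (0,2,1), (0,3,0), (1,2,0), (0,0,2), (0,1,1), (0,2,0), (1,1,0), (0,0,1), (0,1,0), (1,0,0), (0,0,0)], 3⟩,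
  ⟨[(0,0,4), (0,3,0)], [(0,1,2)], [(2,0,0)], 6, [(1,0,5), (0,0,5), (1,0,4), (0,0,4), (1,0,3), (1,2,1), (0,0,3), (0,2,1), (1,0,2), (1,1,1), (1,2,0), (0,0,2), (0,1,1), (0,2,0), (1,0,1), (1,1,0), (0,0,1), (0,1,0), (1,0,0), (0,0,0)], 2⟩,
  ⟨[(0,0,7), (0,4,0)], [(0,1,1)], [(1,0,0)], 7, [(0,0,7), (0,0,6), (0,0,5), (0,0,4), (0,0,3), (0,3,0), (0,0,2), (0,2,0), (0,0,1), (0,1,0), (0,0,0)], 2⟩,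
  ⟨[(0,0,7), (0,3,0)], [(0,1,1)], [(2,0,0)], 8, [(1,0,7), (0,0,7), (1,0,6), (0,0,6), (1,0,5), (0,0,5), (1,0,4), (0,0,4), (1,0,3), (0,0,3), (1,0,2), (1,2,0), (0,0,2), (0,2,0), (1,0,1), (1,1,0), (0,0,1), (0,1,0), (1,0,0), (0,0,0)], 2⟩,
  ⟨[(0,0,5), (0,3,0)], [(0,1,2), (3,0,0)], [(1,0,1)], 7, [(0,0,7), (0,0,6), (0,0,5), (0,2,2), (0,1,2), (0,0,4), (2,2,0), (0,0,3), (0,2,1), (1,2,0), (2,1,0), (0,0,2), (0,1,1), (0,2,0), (1,1,0), (2,0,0), (0,0,1), (0,1,0), (1,0,0), (0,0,0)], 3⟩,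
  ⟨[(0,0,6), (0,4,0)], [(0,1,1)], [(2,0,0)], 7, [(1,0,6), (0,0,6), (1,0,5), (0,0,5), (1,0,4), (0,0,4), (1,0,3), (1,3,0), (0,0,3), (0,3,0), (1,0,2), (1,2,0), (0,0,2), (0,2,0), (1,0,1), (1,1,0), (0,0,1), (0,1,0), (1,0,0), (0,0,0)], 2⟩,
  ⟨[(0,0,5), (0,5,0)], [(0,1,1)], [(2,0,0)], 6, [(1,0,5), (0,0,5), (1,0,4), (1,4,0), (0,0,4), (0,4,0), (1,0,3), (1,3,0), (0,0,3), (0,3,0), (1,0,2), (1,2,0), (0,0,2), (0,2,0), (1,0,1), (1,1,0), (0,0,1), (0,1,0), (1,0,0), (0,0,0)], 2⟩,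
  ⟨[(0,0,5)], [(0,4,0)], [(1,0,0)], 7, [(0,3,4), (0,2,4), (0,3,3), (0,1,4), (0,2,3), (0,3,2), (0,0,4), (0,1,3), (0,2,2), (0,3,1), (0,0,3), (0,1,2), (0,2,1), (0,3,0), (0,0,2), (0,1,1), (0,2,0), (0,0,1), (0,1,0), (0,0,0)], 1⟩,
  ⟨[(0,0,5), (0,4,0)], [(0,1,1), (3,0,0)], [(1,0,1)], 6, [(0,0,6), (0,0,5), (3,2,0), (3,1,0), (2,3,0), (3,0,0), (0,0,4), (1,3,0), (2,2,0), (0,0,3), (0,3,0), (1,2,0), (2,1,0), (0,0,2), (0,2,0), (1,1,0), (2,0,0), (0,0,1), (0,1,0), (1,0,0), (0,0,0)], 3⟩,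
  ⟨[(0,0,5), (0,3,0)], [(0,1,2), (2,0,0)], [(1,1,0)], 7, [(0,1,6), (0,1,5), (0,0,6), (0,0,5), (0,1,4), (0,1,3), (1,0,4), (0,1,2), (0,0,4), (1,0,3), (0,0,3), (0,2,1), (1,0,2), (0,0,2), (0,1,1), (0,2,0), (1,0,1), (0,0,1), (0,1,0), (1,0,0), (0,0,0)], 3⟩,
  ⟨[(0,0,6), (0,5,0)], [(0,1,1)], [(1,0,0)], 6, [(0,0,6), (0,0,5), (0,0,4), (0,4,0), (0,0,3), (0,3,0), (0,0,2), (0,2,0), (0,0,1), (0,1,0), (0,0,0)], 2⟩,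
  ⟨[(0,0,6), (0,4,0)], [(0,1,2)], [(1,0,0)], 7, [(0,0,7), (0,0,6), (0,0,5), (0,0,4), (0,3,1), (0,0,3), (0,2,1), (0,3,0), (0,0,2), (0,1,1), (0,2,0), (0,0,1), (0,1,0), (0,0,0)], 2⟩,
  ⟨[(0,0,7)], [(0,3,0)], [(1,0,0)], 8, [(0,2,6), (0,1,6), (0,2,5), (0,0,6), (0,1,5), (0,2,4), (0,0,5), (0,1,4), (0,2,3), (0,0,4), (0,1,3), (0,2,2), (0,0,3), (0,1,2), (0,2,1), (0,0,2), (0,1,1), (0,2,0), (0,0,1), (0,1,0), (0,0,0)], 1⟩,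
  ⟨[(0,0,5), (0,5,0)], [(0,1,2)], [(1,0,0)], 6, [(0,0,6), (0,0,5), (0,4,1), (0,0,4), (0,3,1), (0,4,0), (0,0,3), (0,2,1), (0,3,0), (0,0,2), (0,1,1), (0,2,0), (0,0,1), (0,1,0), (0,0,0)], 2⟩,
  ⟨[(0,0,6), (0,3,0)], [(0,1,2), (2,0,0)], [(1,0,1)], 8, [(0,0,8), (0,0,7), (0,0,6), (0,2,2), (0,0,5), (0,1,2), (0,0,4), (0,0,3), (0,2,1), (1,2,0), (0,0,2), (0,1,1), (0,2,0), (1,1,0), (0,0,1), (0,1,0), (1,0,0), (0,0,0)], 3⟩,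
  ⟨[(0,0,4), (0,3,0), (3,0,0)], [(0,1,2), (1,0,2)], [(1,1,0)], 6, [(0,1,5), (0,1,4), (0,1,3), (0,0,5), (0,3,1), (0,1,2), (0,0,4), (0,3,0), (0,0,3), (0,2,1), (2,0,1), (0,0,2), (0,1,1), (0,2,0), (1,0,1), (2,0,0), (0,0,1), (0,1,0), (1,0,0), (0,0,0)], 3⟩,
  ⟨[(0,0,9)], [(0,2,0)], [(1,0,0)], 9, [(0,1,8), (0,0,8), (0,1,7), (0,0,7), (0,1,6), (0,0,6), (0,1,5), (0,0,5), (0,1,4), (0,0,4), (0,1,3), (0,0,3), (0,1,2), (0,0,2), (0,1,1), (0,0,1), (0,1,0), (0,0,0)], 1⟩,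
  ⟨[(0,0,4), (0,4,0), (4,0,0)], [(0,1,1), (1,0,1)], [(1,1,0)], 5, [(0,1,4), (0,1,3), (0,1,2), (0,0,4), (0,4,0), (0,1,1), (0,0,3), (0,3,0), (3,0,0), (0,0,2), (0,2,0), (2,0,0), (0,0,1), (0,1,0), (1,0,0), (0,0,0)], 3⟩,
  ⟨[(0,0,6), (0,2,0)], [(0,1,2)], [(2,0,0)], 8, [(1,0,7), (0,0,7), (1,0,6), (0,0,6), (1,0,5), (0,0,5), (1,0,4), (0,0,4), (1,0,3), (0,0,3), (1,0,2), (1,1,1), (0,0,2), (0,1,1), (1,0,1), (1,1,0), (0,0,1), (0,1,0), (1,0,0), (0,0,0)], 2⟩,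
  ⟨[(0,0,5), (2,0,0)], [(0,3,0)], [(1,0,1)], 7, [(0,2,5), (0,1,5), (0,0,5), (0,2,4), (0,1,4), (0,2,3), (0,0,4), (0,1,3), (0,2,2), (0,0,3), (0,1,2), (0,2,1), (1,2,0), (0,0,2), (0,1,1), (0,2,0), (1,1,0), (0,0,1), (0,1,0), (1,0,0), (0,0,0)], 2⟩,
  ⟨[(0,0,4), (0,4,0), (3,0,0)], [(0,1,2), (1,0,1)], [(1,1,0)], 6, [(0,1,5), (0,1,4), (0,0,5), (0,1,3), (0,1,2), (0,0,4), (0,4,0), (0,3,1), (0,0,3), (0,2,1), (0,3,0), (0,0,2), (0,1,1), (0,2,0), (2,0,0), (0,0,1), (0,1,0), (1,0,0), (0,0,0)], 3⟩,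
  ⟨[(0,0,5), (0,4,0)], [(0,1,2), (2,0,0)], [(1,1,0)], 7, [(0,1,6), (0,1,5), (0,0,6), (0,0,5), (0,1,4), (0,1,3), (1,0,4), (0,1,2), (0,0,4), (0,3,1), (1,0,3), (0,0,3), (0,2,1), (0,3,0), (1,0,2), (0,0,2), (0,1,1), (0,2,0), (1,0,1), (0,0,1), (0,1,0), (1,0,0), (0,0,0)], 3⟩,
  ⟨[(0,0,9), (0,3,0)], [(0,1,1)], [(1,0,0)], 9, [(0,0,9), (0,0,8), (0,0,7), (0,0,6), (0,0,5), (0,0,4), (0,0,3), (0,0,2), (0,2,0), (0,0,1), (0,1,0), (0,0,0)], 2⟩,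
  ⟨[(0,0,8), (0,3,0)], [(0,1,1)], [(2,0,0)], 9, [(1,0,8), (0,0,8), (1,0,7), (0,0,7), (1,0,6), (0,0,6), (1,0,5), (0,0,5), (1,0,4), (0,0,4), (1,0,3), (0,0,3), (1,0,2), (1,2,0), (0,0,2), (0,2,0), (1,0,1), (1,1,0), (0,0,1), (0,1,0), (1,0,0), (0,0,0)], 2⟩,
  ⟨[(0,0,11)], [(0,1,0)], [(1,0,0)], 10, [(0,0,10), (0,0,9), (0,0,8), (0,0,7), (0,0,6), (0,0,5), (0,0,4), (0,0,3), (0,0,2), (0,0,1), (0,0,0)], 1⟩,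
  ⟨[(0,0,6), (0,5,0)], [(0,1,1)], [(2,0,0)], 7, [(1,0,6), (0,0,6), (1,0,5), (0,0,5), (1,0,4), (1,4,0), (0,0,4), (0,4,0), (1,0,3), (1,3,0), (0,0,3), (0,3,0), (1,0,2), (1,2,0), (0,0,2), (0,2,0), (1,0,1), (1,1,0), (0,0,1), (0,1,0), (1,0,0), (0,0,0)], 2⟩,
  ⟨[(0,0,5), (0,4,0)], [(0,2,1), (2,0,0)], [(1,0,1)], 7, [(0,1,6), (0,0,6), (0,1,5), (0,0,5), (0,3,1), (0,1,4), (0,2,1), (0,0,4), (0,1,3), (1,3,0), (0,0,3), (0,1,2), (0,3,0), (1,2,0), (0,0,2), (0,1,1), (0,2,0), (1,1,0), (0,0,1), (0,1,0), (1,0,0), (0,0,0)], 3⟩,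
  ⟨[(0,0,6), (0,4,0)], [(0,1,3)], [(1,0,0)], 8, [(0,0,8), (0,0,7), (0,0,6), (0,0,5), (0,3,2), (0,0,4), (0,2,2), (0,3,1), (0,0,3), (0,1,2), (0,2,1), (0,3,0), (0,0,2), (0,1,1), (0,2,0), (0,0,1), (0,1,0), (0,0,0)], 2⟩,
  ⟨[(0,0,5), (0,3,0)], [(0,2,1), (3,0,0)], [(1,0,1)], 7, [(0,1,6), (0,0,6), (0,1,5), (0,0,5), (0,1,4), (0,2,1), (0,0,4), (0,1,3), (2,2,0), (0,0,3), (0,1,2), (1,2,0), (2,1,0), (0,0,2), (0,1,1), (0,2,0), (1,1,0), (2,0,0), (0,0,1), (0,1,0), (1,0,0), (0,0,0)], 3⟩,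
  ⟨[(0,0,5), (0,3,0)], [(0,1,2)], [(2,0,0)], 7, [(1,0,6), (0,0,6), (1,0,5), (0,0,5), (1,0,4), (0,0,4), (1,0,3), (1,2,1), (0,0,3), (0,2,1), (1,0,2), (1,1,1), (1,2,0), (0,0,2), (0,1,1), (0,2,0), (1,0,1), (1,1,0), (0,0,1), (0,1,0), (1,0,0), (0,0,0)], 2⟩,
  ⟨[(0,0,9), (0,2,0)], [(0,1,1)], [(2,0,0)], 10, [(1,0,9), (0,0,9), (1,0,8), (0,0,8), (1,0,7), (0,0,7), (1,0,6), (0,0,6), (1,0,5), (0,0,5), (1,0,4), (0,0,4), (1,0,3), (0,0,3), (1,0,2), (0,0,2), (1,0,1), (1,1,0), (0,0,1), (0,1,0), (1,0,0), (0,0,0)], 2⟩,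
  ⟨[(0,0,4), (2,0,0)], [(0,4,0), (1,0,1)], [(1,1,0)], 7, [(0,4,3), (0,4,2), (0,4,1), (0,3,3), (0,0,4), (0,4,0), (0,2,3), (0,3,2), (0,1,3), (0,2,2), (0,3,1), (0,0,3), (0,1,2), (0,2,1), (0,3,0), (0,0,2), (0,1,1), (0,2,0), (0,0,1), (0,1,0), (1,0,0), (0,0,0)], 3⟩,
  ⟨[(0,0,10)], [(0,2,0)], [(1,0,0)], 10, [(0,1,9), (0,0,9), (0,1,8), (0,0,8), (0,1,7), (0,0,7), (0,1,6), (0,0,6), (0,1,5), (0,0,5), (0,1,4), (0,0,4), (0,1,3), (0,0,3), (0,1,2), (0,0,2), (0,1,1), (0,0,1), (0,1,0), (0,0,0)], 1⟩,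
  ⟨[(0,0,6), (2,0,0)], [(0,1,2)], [(0,3,0), (1,0,2)], 9, [(0,0,9), (0,0,8), (0,0,7), (0,0,6), (0,3,1), (0,0,5), (0,3,0), (0,0,4), (1,2,1), (0,0,3), (0,2,1), (1,1,1), (1,2,0), (0,0,2), (0,1,1), (0,2,0), (1,0,1), (1,1,0), (0,0,1), (0,1,0), (1,0,0), (0,0,0)], 2⟩,
  ⟨[(0,0,7), (0,4,0)], [(0,1,1)], [(2,0,0)], 8, [(1,0,7), (0,0,7), (1,0,6), (0,0,6), (1,0,5), (0,0,5), (1,0,4), (0,0,4), (1,0,3), (1,3,0), (0,0,3), (0,3,0), (1,0,2), (1,2,0), (0,0,2), (0,2,0), (1,0,1), (1,1,0), (0,0,1), (0,1,0), (1,0,0), (0,0,0)], 2⟩,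
  ⟨[(0,0,4), (0,3,0)], [(0,2,1)], [(2,0,0)], 6, [(1,1,4), (0,1,4), (1,0,4), (0,0,4), (1,1,3), (0,1,3), (1,0,3), (1,1,2), (0,0,3), (0,1,2), (1,0,2), (1,1,1), (1,2,0), (0,0,2), (0,1,1), (0,2,0), (1,0,1), (1,1,0), (0,0,1), (0,1,0), (1,0,0), (0,0,0)], 2⟩,
  ⟨[(0,0,6), (0,4,0)], [(0,1,2), (2,0,0)], [(1,0,1)], 8, [(0,0,8), (0,0,7), (0,0,6), (0,3,2), (0,2,2), (0,0,5), (0,1,2), (0,0,4), (0,3,1), (1,3,0), (0,0,3), (0,2,1), (0,3,0), (1,2,0), (0,0,2), (0,1,1), (0,2,0), (1,1,0), (0,0,1), (0,1,0), (1,0,0), (0,0,0)], 3⟩,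
  ⟨[(0,0,7), (0,5,0)], [(0,1,1)], [(1,0,0)], 7, [(0,0,7), (0,0,6), (0,0,5), (0,0,4), (0,4,0), (0,0,3), (0,3,0), (0,0,2), (0,2,0), (0,0,1), (0,1,0), (0,0,0)], 2⟩,
  ⟨[(0,0,4)], [(0,3,0), (2,0,0)], [(1,1,0)], 6, [(0,3,3), (0,3,2), (0,3,1), (0,2,3), (0,3,0), (0,1,3), (0,2,2), (1,0,3), (0,0,3), (0,1,2), (0,2,1), (1,0,2), (0,0,2), (0,1,1), (0,2,0), (1,0,1), (0,0,1), (0,1,0), (1,0,0), (0,0,0)], 2⟩,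
  ⟨[(0,0,6), (0,3,0)], [(0,1,3), (2,0,0)], [(1,0,1)], 9, [(0,0,9), (0,0,8), (0,0,7), (0,0,6), (0,2,3), (0,1,3), (0,0,5), (0,0,4), (0,2,2), (0,0,3), (0,1,2), (0,2,1), (1,2,0), (0,0,2), (0,1,1), (0,2,0), (1,1,0), (0,0,1), (0,1,0), (1,0,0), (0,0,0)], 3⟩,
  ⟨[(0,0,5), (0,4,0), (4,0,0)], [(0,1,1), (1,0,1)], [(1,1,0)], 6, [(0,1,5), (0,1,4), (0,1,3), (0,0,5), (0,4,0), (0,1,2), (0,0,4), (0,1,1), (0,0,3), (0,3,0), (3,0,0), (0,0,2), (0,2,0), (2,0,0), (0,0,1), (0,1,0), (1,0,0), (0,0,0)], 3⟩,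
  ⟨[(0,0,7), (0,4,0)], [(0,1,2)], [(1,0,0)], 8, [(0,0,8), (0,0,7), (0,0,6), (0,0,5), (0,0,4), (0,3,1), (0,0,3), (0,2,1), (0,3,0), (0,0,2), (0,1,1), (0,2,0), (0,0,1), (0,1,0), (0,0,0)], 2⟩,
  ⟨[(0,0,8), (0,4,0)], [(0,1,1)], [(1,0,0)], 8, [(0,0,8), (0,0,7), (0,0,6), (0,0,5), (0,0,4), (0,0,3), (0,3,0), (0,0,2), (0,2,0), (0,0,1), (0,1,0), (0,0,0)], 2⟩,
  ⟨[(0,0,5), (0,3,0), (3,0,0)], [(0,1,2), (1,0,2)], [(1,1,0)], 7, [(0,1,6), (0,1,5), (0,1,4), (0,0,6), (0,1,3), (0,3,1), (0,0,5), (0,1,2), (0,3,0), (0,0,4), (0,0,3), (0,2,1), (2,0,1), (0,0,2), (0,1,1), (0,2,0), (1,0,1), (2,0,0), (0,0,1), (0,1,0), (1,0,0), (0,0,0)], 3⟩,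
  ⟨[(0,0,5), (0,3,0)], [(0,1,2), (4,0,0)], [(1,0,1)], 7, [(0,0,7), (0,0,6), (0,0,5), (4,1,0), (4,0,0), (3,2,0), (0,0,4), (2,2,0), (3,1,0), (0,0,3), (0,2,1), (1,2,0), (2,1,0), (3,0,0), (0,0,2), (0,1,1), (0,2,0), (1,1,0), (2,0,0), (0,0,1), (0,1,0), (1,0,0), (0,0,0)], 3⟩,
  ⟨[(0,0,4), (0,2,1)], [(0,1,2), (0,4,0)], [(2,0,0)], 6, [(1,0,5), (0,0,5), (1,0,4), (1,4,0), (0,0,4), (0,4,0), (1,0,3), (1,3,0), (0,0,3), (0,3,0), (1,0,2), (1,1,1), (1,2,0), (0,0,2), (0,1,1), (0,2,0), (1,0,1), (1,1,0), (0,0,1), (0,1,0), (1,0,0), (0,0,0)], 2⟩,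
  ⟨[(0,0,4), (0,4,0), (4,0,0)], [(0,1,2), (1,0,1)], [(1,1,0)], 6, [(0,1,5), (0,1,4), (0,0,5), (0,1,3), (0,1,2), (0,0,4), (0,4,0), (0,3,1), (0,0,3), (0,2,1), (0,3,0), (3,0,0), (0,0,2), (0,1,1), (0,2,0), (2,0,0), (0,0,1), (0,1,0), (1,0,0), (0,0,0)], 3⟩,
  ⟨[(0,0,5), (0,2,1), (2,0,0)], [(0,1,2), (0,5,0)], [(1,0,1)], 7, [(0,0,7), (0,0,6), (0,5,1), (0,4,1), (0,5,0), (0,3,1), (0,0,5), (1,4,0), (0,2,1), (0,0,4), (0,4,0), (1,3,0), (0,0,3), (0,3,0), (1,2,0), (0,0,2), (0,1,1), (0,2,0), (1,1,0), (0,0,1), (0,1,0), (1,0,0), (0,0,0)], 3⟩,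
  ⟨[(0,0,5), (0,4,0), (3,0,0)], [(0,1,2), (1,0,1)], [(1,1,0)], 7, [(0,1,6), (0,1,5), (0,0,6), (0,1,4), (0,1,3), (0,0,5), (0,4,0), (0,1,2), (0,0,4), (0,3,1), (0,0,3), (0,2,1), (0,3,0), (0,0,2), (0,1,1), (0,2,0), (2,0,0), (0,0,1), (0,1,0), (1,0,0), (0,0,0)], 3⟩,
  ⟨[(0,0,4), (0,3,0)], [(0,2,1), (3,0,0)], [(1,1,0)], 6, [(0,2,4), (0,1,4), (0,2,3), (0,0,4), (0,2,2), (2,0,3), (0,2,1), (0,1,3), (1,0,3), (2,0,2), (0,0,3), (0,1,2), (1,0,2), (2,0,1), (0,0,2), (0,1,1), (0,2,0), (1,0,1), (2,0,0), (0,0,1), (0,1,0), (1,0,0), (0,0,0)], 3⟩,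
  ⟨[(0,0,5), (3,0,0)], [(0,1,1)], [(0,5,0), (1,0,1)], 7, [(2,5,0), (1,5,0), (0,0,5), (0,5,0), (2,4,0), (1,4,0), (2,3,0), (0,0,4), (0,4,0), (1,3,0), (2,2,0), (0,0,3), (0,3,0), (1,2,0), (2,1,0), (0,0,2), (0,2,0), (1,1,0), (2,0,0), (0,0,1), (0,1,0), (1,0,0), (0,0,0)], 2⟩,
  ⟨[(0,0,5), (0,3,0)], [(0,2,1), (2,0,0)], [(1,1,0)], 7, [(0,2,5), (0,1,5), (0,2,4), (0,0,5), (0,2,3), (0,2,2), (0,1,4), (1,0,4), (0,2,1), (0,0,4), (0,1,3), (1,0,3), (0,0,3), (0,1,2), (1,0,2), (0,0,2), (0,1,1), (0,2,0), (1,0,1), (0,0,1), (0,1,0), (1,0,0), (0,0,0)], 3⟩,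
  ⟨[(0,0,4), (0,2,1)], [(0,1,2), (0,4,0), (3,0,0)], [(1,1,0)], 6, [(0,1,5), (0,0,5), (0,1,4), (0,0,4), (0,1,3), (2,0,3), (0,4,0), (0,1,2), (1,0,3), (2,0,2), (0,0,3), (0,3,0), (1,0,2), (2,0,1), (0,0,2), (0,1,1), (0,2,0), (1,0,1), (2,0,0), (0,0,1), (0,1,0), (1,0,0), (0,0,0)], 3⟩,
  ⟨[(0,0,6), (0,5,0)], [(0,1,2)], [(1,0,0)], 7, [(0,0,7), (0,0,6), (0,0,5), (0,4,1), (0,0,4), (0,3,1), (0,4,0), (0,0,3), (0,2,1), (0,3,0), (0,0,2), (0,1,1), (0,2,0), (0,0,1), (0,1,0), (0,0,0)], 2⟩,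
  ⟨[(0,0,6), (0,4,0)], [(0,1,1), (3,0,0)], [(1,0,1)], 7, [(0,0,7), (0,0,6), (3,2,0), (3,1,0), (0,0,5), (2,3,0), (3,0,0), (0,0,4), (1,3,0), (2,2,0), (0,0,3), (0,3,0), (1,2,0), (2,1,0), (0,0,2), (0,2,0), (1,1,0), (2,0,0), (0,0,1), (0,1,0), (1,0,0), (0,0,0)], 3⟩,
  ⟨[(0,0,7), (0,3,0)], [(0,1,2), (2,0,0)], [(1,0,1)], 9, [(0,0,9), (0,0,8), (0,0,7), (0,0,6), (0,2,2), (0,0,5), (0,1,2), (0,0,4), (0,0,3), (0,2,1), (1,2,0), (0,0,2), (0,1,1), (0,2,0), (1,1,0), (0,0,1), (0,1,0), (1,0,0), (0,0,0)], 3⟩,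
  ⟨[(0,0,8), (0,3,0)], [(0,1,2)], [(1,0,0)], 9, [(0,0,9), (0,0,8), (0,0,7), (0,0,6), (0,0,5), (0,0,4), (0,0,3), (0,2,1), (0,0,2), (0,1,1), (0,2,0), (0,0,1), (0,1,0), (0,0,0)], 2⟩,
  ⟨[(0,0,6), (0,3,0)], [(0,1,2), (3,0,0)], [(1,0,1)], 8, [(0,0,8), (0,0,7), (0,0,6), (0,2,2), (0,0,5), (0,1,2), (0,0,4), (2,2,0), (0,0,3), (0,2,1), (1,2,0), (2,1,0), (0,0,2), (0,1,1), (0,2,0), (1,1,0), (2,0,0), (0,0,1), (0,1,0), (1,0,0), (0,0,0)], 3⟩,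
  ⟨[(0,0,7), (0,2,0)], [(0,1,2)], [(2,0,0)], 9, [(1,0,8), (0,0,8), (1,0,7), (0,0,7), (1,0,6), (0,0,6), (1,0,5), (0,0,5), (1,0,4), (0,0,4), (1,0,3), (0,0,3), (1,0,2), (1,1,1), (0,0,2), (0,1,1), (1,0,1), (1,1,0), (0,0,1), (0,1,0), (1,0,0), (0,0,0)], 2⟩,
  ⟨[(0,0,7), (0,3,0)], [(0,1,1), (3,0,0)], [(1,0,1)], 8, [(0,0,8), (0,0,7), (0,0,6), (3,1,0), (0,0,5), (3,0,0), (0,0,4), (2,2,0), (0,0,3), (1,2,0), (2,1,0), (0,0,2), (0,2,0), (1,1,0), (2,0,0), (0,0,1), (0,1,0), (1,0,0), (0,0,0)], 3⟩,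
  ⟨[(0,0,6), (0,6,0)], [(0,1,1)], [(1,0,0)], 6, [(0,0,6), (0,0,5), (0,5,0), (0,0,4), (0,4,0), (0,0,3), (0,3,0), (0,0,2), (0,2,0), (0,0,1), (0,1,0), (0,0,0)], 2⟩]

inductive Tr where
  | l (b p : ℕ) : Tr
  | s : Tr
  | n (a b c : ℕ) (x y : Tr) : Tr

def lows : List Mono := monsLE 2

def covered (out : List Mono) (m : Mono) : Bool :=
  out.any fun o => decide (o.1 ≤ m.1 ∧ o.2.1 ≤ m.2.1 ∧ o.2.2 ≤ m.2.2)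

def Tr.check : Tr → List Mono → List Mono → Bool
  | .l b p, inn, out =>
    match certs[b]? with
    | none => false
    | some c => decide (p < 6) && decide (c.sp.length ≤ 2 * inn.length + 1) &&
        ((c.perm p).f0 ++ ((c.perm p).f1 ++ (c.perm p).f2)).all (covered out)
  | .s, inn, _ => decide (11 < inn.length) || lows.all fun m => decide (m ∈ inn)
  | .n a b c x y, inn, out => decide (a + b + c < 20) && decide ((a, b, c) ∉ inn) &&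
      x.check ((a, b, c) :: inn) out && y.check inn ((a, b, c) :: out)

open Tr in
def tree : Tr :=
  (n 0 0 0 (n 0 0 1 (n 0 1 0 (n 1 0 0 (n 0 0 2 (n 0 2 0 (n 2 0 0 (n 0 0 3 (n 0 3 0 (n 3 0 0 (n 0 0
  4 (n 0 4 0 s (n 4 0 0 s (n 0 0 5 s (n 0 1 1 s (n 1 0 1 s (n 1 1 0 s (l 97 0))))))) (n 0 4 0 (n 4
  0 0 s (n 0 5 0 s (n 0 1 1 s (n 1 0 1 s (n 1 1 0 s (l 97 1)))))) (n 4 0 0 (n 5 0 0 s (n 0 1 1 s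
  (n 1 0 1 s (n 1 1 0 s (l 97 4))))) (n 0 1 1 (n 1 0 1 s (n 1 1 0 s (n 0 1 2 s (l 103 0)))) (n 1 0
  1 (n 1 1 0 s (n 1 0 2 s (l 103 2))) (n 1 1 0 (n 1 2 0 s (l 103 3)) (l 74 0))))))) (n 0 0 4 (n 0
  4 0 (n 0 0 5 s (n 0 5 0 s (n 0 1 1 s (n 1 0 1 s (l 107 0))))) (n 0 0 5 (n 0 0 6 s (n 0 1 1 s (n
  1 0 1 s (l 111 0)))) (n 0 1 1 (n 1 0 1 s (n 1 1 0 s (n 0 1 2 s (l 105 0)))) (n 1 0 1 (n 1 1 0 s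
  (l 107 1)) (l 65 0))))) (n 0 4 0 (n 0 5 0 (n 0 6 0 s (n 0 1 1 s (n 1 0 1 s (n 1 1 0 s (l 111
  1))))) (n 0 1 1 (n 1 0 1 s (n 1 1 0 s (n 0 1 2 s (n 0 2 1 s (l 105 1))))) (n 1 0 1 (n 1 1 0 s (l
  65 1)) (n 1 1 0 (l 107 0) (l 65 1))))) (n 0 1 1 (n 1 0 1 (n 1 1 0 s (n 0 1 2 s (n 0 2 1 s (l 109
  0)))) (n 1 1 0 (n 0 1 2 s (n 0 2 1 s (l 109 1))) (n 0 1 2 (n 0 2 1 s (l 77 1)) (l 77 0)))) (n 1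
  0 1 (n 1 1 0 (n 1 0 2 s (l 101 2)) (l 48 1)) (l 48 0)))))) (n 3 0 0 (n 0 0 4 (n 4 0 0 (n 0 0 5 s
  (n 5 0 0 s (n 0 1 1 s (n 1 0 1 s (l 107 2))))) (n 0 0 5 (n 0 0 6 s (n 0 1 1 s (n 1 0 1 s (l 111
  2)))) (n 0 1 1 (n 1 0 1 s (n 1 1 0 s (l 107 4))) (n 1 0 1 (n 1 1 0 s (n 1 0 2 s (l 105 2))) (l
  65 2))))) (n 4 0 0 (n 5 0 0 (n 6 0 0 s (n 0 1 1 s (n 1 0 1 s (n 1 1 0 s (l 111 4))))) (n 0 1 1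
  (n 1 0 1 s (n 1 1 0 s (l 65 4))) (n 1 0 1 (n 1 1 0 s (n 1 0 2 s (n 2 0 1 s (l 105 4)))) (n 1 1 0
  (l 107 2) (l 65 4))))) (n 0 1 1 (n 1 0 1 (n 1 1 0 s (n 0 1 2 s (n 0 2 1 s (n 1 0 2 s (n 2 0 1 s
  (l 109 2)))))) (n 1 1 0 (n 0 1 2 s (l 101 0)) (l 48 4))) (n 1 0 1 (n 1 1 0 (n 1 0 2 s (n 1 2 0 s
  (n 2 0 1 s (l 109 4)))) (n 1 0 2 (n 2 0 1 s (l 77 4)) (l 77 2))) (l 48 2))))) (n 0 0 4 (n 0 0 5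
  (n 0 0 6 (n 0 0 7 s (n 0 1 1 s (n 1 0 1 s (l 116 0)))) (n 0 1 1 (n 1 0 1 s (n 1 1 0 s (n 0 1 2 s
  (l 114 0)))) (n 1 0 1 (n 1 1 0 s (n 1 0 2 s (l 114 2))) (l 54 0)))) (n 0 1 1 (n 1 0 1 (n 1 1 0 s
  (n 0 1 2 s (n 0 2 1 s (n 1 0 2 s (l 100 0))))) (n 1 1 0 (n 0 1 2 s (l 61 0)) (n 0 1 2 (l 107 4)
  (l 61 0)))) (n 1 0 1 (n 1 1 0 (n 1 0 2 s (l 61 2)) (n 1 0 2 (l 107 1) (l 61 2))) (l 50 0)))) (n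
  0 1 1 (n 1 0 1 (n 1 1 0 s (n 0 1 2 (n 0 2 1 s (l 106 0)) (n 0 2 1 (n 1 0 2 s (l 72 0)) (n 1 0 2
  (l 106 0) (l 72 0))))) (n 1 1 0 (n 0 1 2 (n 0 2 1 s (l 85 0)) (l 43 0)) (l 48 4))) (n 1 0 1 (n 1
  1 0 (n 1 0 2 (n 1 2 0 s (l 101 3)) (l 43 2)) (l 48 1)) (l 26 0)))))) (n 0 3 0 (n 3 0 0 (n 0 4 0
  (n 4 0 0 (n 0 5 0 s (n 5 0 0 s (n 0 1 1 s (n 1 0 1 s (n 1 1 0 s (l 107 3)))))) (n 0 5 0 (n 0 6 0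
  s (n 0 1 1 s (n 1 0 1 s (n 1 1 0 s (l 111 3))))) (n 0 1 1 (n 1 0 1 s (n 1 1 0 s (l 107 5))) (n 1
  0 1 (n 1 1 0 s (l 65 3)) (n 1 1 0 (n 1 2 0 s (l 105 3)) (l 65 3)))))) (n 4 0 0 (n 5 0 0 (n 6 0 0
  s (n 0 1 1 s (n 1 0 1 s (n 1 1 0 s (l 111 5))))) (n 0 1 1 (n 1 0 1 s (n 1 1 0 s (l 65 5))) (n 1
  0 1 (n 1 1 0 s (l 107 3)) (n 1 1 0 (n 1 2 0 s (n 2 1 0 s (l 105 5))) (l 65 5))))) (n 0 1 1 (n 1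
  0 1 (n 1 1 0 s (n 0 1 2 s (n 0 2 1 s (l 101 1)))) (n 1 1 0 (n 0 1 2 s (n 0 2 1 s (n 1 2 0 s (n 2
  1 0 s (l 109 3))))) (l 48 5))) (n 1 0 1 (n 1 1 0 (n 1 0 2 s (n 1 2 0 s (n 2 0 1 s (n 2 1 0 s (l
  109 5))))) (l 48 3)) (n 1 1 0 (n 1 2 0 (n 2 1 0 s (l 77 5)) (l 77 3)) (l 48 3)))))) (n 0 4 0 (n
  0 5 0 (n 0 6 0 (n 0 7 0 s (n 0 1 1 s (n 1 0 1 s (n 1 1 0 s (l 116 1))))) (n 0 1 1 (n 1 0 1 s (n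
  1 1 0 s (n 0 1 2 s (n 0 2 1 s (l 114 1))))) (n 1 0 1 (n 1 1 0 s (l 54 1)) (n 1 1 0 (n 1 2 0 s (l
  114 3)) (l 54 1))))) (n 0 1 1 (n 1 0 1 (n 1 1 0 s (n 0 1 2 s (l 85 1))) (n 1 1 0 (n 0 1 2 s (n 0
  2 1 s (n 1 2 0 s (l 100 1)))) (n 0 1 2 (l 107 5) (n 0 2 1 (l 85 1) (l 61 1))))) (n 1 0 1 (n 1 1
  0 (n 1 0 2 s (n 1 2 0 s (l 61 3))) (l 50 1)) (n 1 1 0 (n 1 2 0 (l 107 0) (l 61 3)) (l 50 1)))))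
  (n 0 1 1 (n 1 0 1 (n 1 1 0 s (n 0 1 2 (n 0 2 1 s (l 43 1)) (n 0 2 1 (l 85 1) (l 43 1)))) (n 1 1
  0 (n 0 1 2 (n 0 2 1 s (n 1 2 0 s (l 72 1))) (n 0 2 1 (l 106 1) (n 1 2 0 (l 106 1) (l 72 1)))) (l
  48 5))) (n 1 0 1 (n 1 1 0 (n 1 0 2 (n 1 2 0 s (l 43 3)) (n 1 2 0 (l 101 2) (l 43 3))) (l 26 1))
  (n 1 1 0 (l 48 0) (l 26 1)))))) (n 3 0 0 (n 4 0 0 (n 5 0 0 (n 6 0 0 (n 7 0 0 s (n 0 1 1 s (n 1 0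
  1 s (n 1 1 0 s (l 116 4))))) (n 0 1 1 (n 1 0 1 s (n 1 1 0 s (l 54 4))) (n 1 0 1 (n 1 1 0 s (n 1
  0 2 s (n 2 0 1 s (l 114 4)))) (n 1 1 0 (n 1 2 0 s (n 2 1 0 s (l 114 5))) (l 54 4))))) (n 0 1 1
  (n 1 0 1 (n 1 1 0 s (n 0 1 2 s (n 0 2 1 s (n 1 0 2 s (l 85 4))))) (n 1 1 0 (n 0 1 2 s (n 0 2 1 s
  (n 1 2 0 s (l 85 5)))) (l 50 4))) (n 1 0 1 (n 1 1 0 (n 1 0 2 s (n 1 2 0 s (n 2 0 1 s (n 2 1 0 s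
  (l 100 4))))) (n 1 0 2 (l 107 3) (n 2 0 1 (l 85 4) (l 61 4)))) (n 1 1 0 (n 1 2 0 (l 107 2) (n 2
  1 0 (l 85 5) (l 61 5))) (l 50 4))))) (n 0 1 1 (n 1 0 1 (n 1 1 0 s (n 0 1 2 (n 0 2 1 s (l 101 1))
  (n 0 2 1 (n 1 0 2 s (l 85 4)) (n 1 0 2 (l 101 1) (n 2 0 1 (l 85 4) (l 43 4)))))) (n 1 1 0 (n 0 1
  2 (n 0 2 1 s (n 1 2 0 s (l 85 5))) (n 0 2 1 (l 101 0) (n 1 2 0 (l 101 0) (n 2 1 0 (l 85 5) (l 43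
  5))))) (l 26 4))) (n 1 0 1 (n 1 1 0 (n 1 0 2 (n 1 2 0 s (l 106 5)) (n 1 2 0 (l 106 4) (n 2 0 1
  (l 106 4) (n 2 1 0 (l 106 4) (l 72 4))))) (l 48 3)) (n 1 1 0 (l 48 2) (l 26 4))))) (n 0 1 1 (n 1
  0 1 (n 1 1 0 s (n 0 1 2 (n 0 2 1 (n 1 0 2 s (l 85 4)) (l 43 1)) (n 0 2 1 (n 1 0 2 (l 85 1) (l 72
  0)) (l 43 1)))) (n 1 1 0 (n 0 1 2 (n 0 2 1 (n 1 2 0 s (l 85 5)) (n 1 2 0 (l 85 0) (l 72 1))) (l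
  43 0)) (l 19 4))) (n 1 0 1 (n 1 1 0 (n 1 0 2 (n 1 2 0 (n 2 0 1 s (l 85 2)) (l 43 3)) (l 43 2))
  (l 19 1)) (l 19 0)))))) (n 0 0 3 (n 0 3 0 (n 0 0 4 (n 0 4 0 (n 0 0 5 (n 0 5 0 s (n 0 0 6 s (n 0
  1 1 s (l 82 0)))) (n 0 5 0 (n 0 6 0 s (n 0 1 1 s (l 82 1))) (n 0 1 1 (n 1 0 1 s (n 1 1 0 s (n 0
  1 2 s (n 0 2 1 s (l 104 0))))) (l 63 0)))) (n 0 0 5 (n 0 0 6 (n 0 0 7 s (n 0 1 1 s (l 91 0))) (n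
  0 1 1 (n 1 0 1 s (n 1 1 0 s (n 0 1 2 s (l 93 0)))) (l 62 0))) (n 0 1 1 (n 1 0 1 (n 1 1 0 s (n 0
  1 2 s (l 78 0))) (n 1 1 0 (n 0 1 2 s (l 57 0)) (n 0 1 2 (n 0 2 1 s (l 83 0)) (l 57 0)))) (l 42
  0)))) (n 0 4 0 (n 0 5 0 (n 0 6 0 (n 0 7 0 s (n 0 1 1 s (l 91 1))) (n 0 1 1 (n 1 0 1 s (n 1 1 0 s
  (n 0 1 2 s (n 0 2 1 s (l 93 1))))) (l 62 1))) (n 0 1 1 (n 1 0 1 (n 1 1 0 s (n 0 1 2 s (l 83 1)))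
  (n 1 1 0 (n 0 1 2 s (n 0 2 1 s (l 78 1))) (n 0 1 2 (n 0 2 1 s (l 57 1)) (n 0 2 1 (l 83 1) (l 57
  1))))) (l 42 1))) (n 0 1 1 (n 1 0 1 (n 1 1 0 (n 0 1 2 s (n 0 2 1 s (l 102 0))) (n 0 1 2 (n 0 2 1
  s (l 57 1)) (n 0 2 1 (l 78 0) (l 37 1)))) (n 1 1 0 (n 0 1 2 (n 0 2 1 s (l 78 1)) (l 57 0)) (n 0
  1 2 (n 0 2 1 (l 88 0) (l 57 1)) (l 77 0)))) (l 29 0)))) (n 0 0 4 (n 0 0 5 (n 0 0 6 (n 0 0 7 (n 0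
  0 8 s (n 0 1 1 s (l 80 0))) (n 0 1 1 (n 1 0 1 s (n 1 1 0 s (n 0 1 2 s (l 112 0)))) (l 60 0))) (n
  0 1 1 (n 1 0 1 (n 1 1 0 s (n 0 1 2 s (n 0 2 1 s (n 1 0 2 s (l 90 0))))) (n 1 1 0 (n 0 1 2 s (l
  71 0)) (n 0 1 2 (n 0 2 1 s (n 0 1 3 s (l 96 0))) (l 71 0)))) (l 46 0))) (n 0 1 1 (n 1 0 1 (n 1 1
  0 (n 0 1 2 s (l 86 0)) (n 0 1 2 (n 0 2 1 s (l 108 0)) (l 66 0))) (n 1 1 0 (l 76 0) (n 0 1 2 (l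
  76 0) (l 51 0)))) (l 27 0))) (n 0 1 1 (n 1 0 1 (n 1 1 0 (n 0 1 2 (n 0 2 1 s (l 92 0)) (l 58 0))
  (n 0 1 2 (l 95 0) (n 0 2 1 (l 58 0) (l 37 1)))) (n 1 1 0 (l 44 0) (n 0 1 2 (l 44 0) (l 32 0))))
  (l 16 0)))) (n 0 3 0 (n 0 4 0 (n 0 5 0 (n 0 6 0 (n 0 7 0 (n 0 8 0 s (n 0 1 1 s (l 80 1))) (n 0 1
  1 (n 1 0 1 s (n 1 1 0 s (n 0 1 2 s (n 0 2 1 s (l 112 1))))) (l 60 1))) (n 0 1 1 (n 1 0 1 (n 1 1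
  0 s (n 0 1 2 s (n 0 2 1 s (l 71 1)))) (n 1 1 0 (n 0 1 2 s (n 0 2 1 s (n 1 2 0 s (l 90 1)))) (n 0
  1 2 (n 0 2 1 s (l 71 1)) (n 0 2 1 (n 0 3 1 s (l 96 1)) (l 71 1))))) (l 46 1))) (n 0 1 1 (n 1 0 1
  (n 1 1 0 (n 0 1 2 s (n 0 2 1 s (l 86 1))) (l 76 1)) (n 1 1 0 (n 0 1 2 (n 0 2 1 s (l 66 1)) (n 0
  2 1 (l 108 1) (l 66 1))) (n 0 1 2 (l 76 1) (n 0 2 1 (l 76 1) (l 51 1))))) (l 27 1))) (n 0 1 1 (n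
  1 0 1 (n 1 1 0 (n 0 1 2 (n 0 2 1 s (l 58 1)) (n 0 2 1 (l 92 1) (l 58 1))) (l 44 1)) (n 1 1 0 (n
  0 1 2 (l 95 1) (n 0 2 1 (l 57 0) (l 37 0))) (n 0 1 2 (l 44 1) (n 0 2 1 (l 44 1) (l 32 1))))) (l
  16 1))) (n 0 1 1 (n 1 0 1 (n 1 1 0 (l 49 0) (l 17 1)) (l 17 0)) (l 12 0))))) (n 2 0 0 (n 0 0 3
  (n 3 0 0 (n 0 0 4 (n 4 0 0 (n 0 0 5 (n 5 0 0 s (n 0 0 6 s (n 0 1 1 s (n 1 0 1 s (l 82 2))))) (n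
  5 0 0 (n 6 0 0 s (n 0 1 1 s (n 1 0 1 s (l 82 4)))) (n 0 1 1 (n 1 0 1 s (l 63 2)) (n 1 0 1 (n 1 1
  0 s (n 1 0 2 s (n 2 0 1 s (l 104 2)))) (l 63 2))))) (n 0 0 5 (n 0 0 6 (n 0 0 7 s (n 0 1 1 s (n 1
  0 1 s (l 91 2)))) (n 0 1 1 (n 1 0 1 s (l 62 2)) (n 1 0 1 (n 1 1 0 s (n 1 0 2 s (l 93 2))) (l 62
  2)))) (n 0 1 1 (n 1 0 1 (n 1 1 0 s (n 0 1 2 s (n 1 0 2 s (l 78 2)))) (l 42 2)) (n 1 0 1 (n 1 1 0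
  (n 1 0 2 s (l 57 2)) (n 1 0 2 (n 2 0 1 s (l 83 2)) (l 57 2))) (l 42 2))))) (n 4 0 0 (n 5 0 0 (n
  6 0 0 (n 7 0 0 s (n 0 1 1 s (n 1 0 1 s (l 91 4)))) (n 0 1 1 (n 1 0 1 s (l 62 4)) (n 1 0 1 (n 1 1
  0 s (n 1 0 2 s (n 2 0 1 s (l 93 4)))) (l 62 4)))) (n 0 1 1 (n 1 0 1 (n 1 1 0 s (n 0 1 2 s (n 1 0
  2 s (l 83 4)))) (l 42 4)) (n 1 0 1 (n 1 1 0 (n 1 0 2 s (n 2 0 1 s (l 78 4))) (n 1 0 2 (n 2 0 1 s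
  (l 57 4)) (n 2 0 1 (l 83 4) (l 57 4)))) (l 42 4)))) (n 0 1 1 (n 1 0 1 (n 1 1 0 (n 0 1 2 s (n 1 0
  2 s (n 2 0 1 s (l 102 2)))) (n 0 1 2 (n 1 0 2 s (l 78 2)) (n 1 0 2 (n 2 0 1 s (l 57 4)) (n 2 0 1
  (l 78 2) (l 37 4))))) (l 29 2)) (n 1 0 1 (n 1 1 0 (n 1 0 2 (n 2 0 1 s (l 78 4)) (l 57 2)) (n 1 0
  2 (n 2 0 1 (l 88 2) (l 57 4)) (l 77 2))) (l 29 2))))) (n 0 0 4 (n 0 0 5 (n 0 0 6 (n 0 0 7 (n 0 0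
  8 s (n 0 1 1 s (n 1 0 1 s (l 80 2)))) (n 0 1 1 (n 1 0 1 s (l 60 2)) (n 1 0 1 (n 1 1 0 s (n 1 0 2
  s (l 112 2))) (l 60 2)))) (n 0 1 1 (n 1 0 1 (n 1 1 0 s (n 0 1 2 s (n 1 0 2 s (l 90 2)))) (l 46
  2)) (n 1 0 1 (n 1 1 0 (n 1 0 2 s (l 71 2)) (n 1 0 2 (n 2 0 1 s (n 1 0 3 s (l 96 2))) (l 71 2)))
  (l 46 2)))) (n 0 1 1 (n 1 0 1 (n 1 1 0 (n 0 1 2 s (n 1 0 2 s (l 86 2))) (n 0 1 2 (n 1 0 2 s (l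
  66 2)) (n 1 0 2 (n 2 0 1 s (l 108 2)) (l 66 2)))) (l 27 2)) (n 1 0 1 (n 1 1 0 (l 76 2) (n 1 0 2
  (l 76 2) (l 51 2))) (l 27 2)))) (n 0 1 1 (n 1 0 1 (n 1 1 0 (n 0 1 2 (n 1 0 2 s (l 58 2)) (n 1 0
  2 (n 2 0 1 s (l 92 2)) (l 58 2))) (n 0 1 2 (l 95 2) (n 1 0 2 (l 95 2) (n 2 0 1 (l 58 2) (l 37
  4))))) (l 16 2)) (n 1 0 1 (n 1 1 0 (l 44 2) (n 1 0 2 (l 44 2) (l 32 2))) (l 16 2))))) (n 3 0 0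
  (n 4 0 0 (n 5 0 0 (n 6 0 0 (n 7 0 0 (n 8 0 0 s (n 0 1 1 s (n 1 0 1 s (l 80 4)))) (n 0 1 1 (n 1 0
  1 s (l 60 4)) (n 1 0 1 (n 1 1 0 s (n 1 0 2 s (n 2 0 1 s (l 112 4)))) (l 60 4)))) (n 0 1 1 (n 1 0
  1 (n 1 1 0 s (n 0 1 2 s (n 1 0 2 s (n 2 0 1 s (l 71 4))))) (l 46 4)) (n 1 0 1 (n 1 1 0 (n 1 0 2
  s (n 2 0 1 s (n 2 1 0 s (l 90 4)))) (n 1 0 2 (n 2 0 1 s (l 71 4)) (n 2 0 1 (n 3 0 1 s (l 96 4))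
  (l 71 4)))) (l 46 4)))) (n 0 1 1 (n 1 0 1 (n 1 1 0 (n 0 1 2 s (n 1 0 2 s (n 2 0 1 s (l 86 4))))
  (l 76 4)) (l 27 4)) (n 1 0 1 (n 1 1 0 (n 1 0 2 (n 2 0 1 s (l 66 4)) (n 2 0 1 (l 108 4) (l 66
  4))) (n 1 0 2 (l 76 4) (n 2 0 1 (l 76 4) (l 51 4)))) (l 27 4)))) (n 0 1 1 (n 1 0 1 (n 1 1 0 (n 0
  1 2 (n 1 0 2 s (l 92 4)) (n 1 0 2 (n 2 0 1 s (l 58 4)) (n 2 0 1 (l 92 4) (l 58 4)))) (l 44 4))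
  (l 16 4)) (n 1 0 1 (n 1 1 0 (n 1 0 2 (l 95 4) (n 2 0 1 (l 57 2) (l 37 2))) (n 1 0 2 (l 44 4) (n
  2 0 1 (l 44 4) (l 32 4)))) (l 16 4)))) (n 0 1 1 (n 1 0 1 (n 1 1 0 (l 49 2) (l 17 4)) (l 12 2))
  (n 1 0 1 (l 17 2) (l 12 2))))) (n 0 0 3 (n 0 0 4 (n 0 0 5 (n 0 0 6 (n 0 0 7 (n 0 0 8 (n 0 0 9 s
  (n 0 1 1 s (l 87 0))) (n 0 1 1 (n 1 0 1 s (l 53 2)) (l 53 0))) (n 0 1 1 (n 1 0 1 (n 1 1 0 s (n 0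
  1 2 s (l 115 0))) (l 38 2)) (l 38 0))) (n 0 1 1 (n 1 0 1 (n 1 1 0 (n 0 1 2 s (l 75 0)) (n 0 1 2
  (n 1 0 2 s (l 75 2)) (l 75 0))) (l 34 2)) (l 34 0))) (n 0 1 1 (n 1 0 1 (n 1 1 0 (n 0 1 2 (n 1 0
  2 s (l 40 2)) (l 40 0)) (n 0 1 2 (n 1 0 2 (l 108 0) (l 40 2)) (l 40 0))) (l 22 2)) (l 22 0))) (n
  0 1 1 (n 1 0 1 (l 31 0) (l 11 2)) (l 11 0))) (n 0 1 1 (n 1 0 1 (n 1 1 0 (l 31 0) (l 17 1)) (l 8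
  2)) (l 8 0))))) (n 0 2 0 (n 2 0 0 (n 0 3 0 (n 3 0 0 (n 0 4 0 (n 4 0 0 (n 0 5 0 (n 5 0 0 s (n 0 6
  0 s (n 0 1 1 s (n 1 0 1 s (n 1 1 0 s (l 82 3)))))) (n 5 0 0 (n 6 0 0 s (n 0 1 1 s (n 1 0 1 s (n
  1 1 0 s (l 82 5))))) (n 0 1 1 (n 1 0 1 s (n 1 1 0 s (l 63 3))) (n 1 0 1 (n 1 1 0 s (l 63 3)) (n
  1 1 0 (n 1 2 0 s (n 2 1 0 s (l 104 3))) (l 63 3)))))) (n 0 5 0 (n 0 6 0 (n 0 7 0 s (n 0 1 1 s (n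
  1 0 1 s (n 1 1 0 s (l 91 3))))) (n 0 1 1 (n 1 0 1 s (n 1 1 0 s (l 62 3))) (n 1 0 1 (n 1 1 0 s (l
  62 3)) (n 1 1 0 (n 1 2 0 s (l 93 3)) (l 62 3))))) (n 0 1 1 (n 1 0 1 (n 1 1 0 s (l 42 3)) (n 1 1
  0 (n 0 2 1 s (n 1 2 0 s (l 78 3))) (l 42 3))) (n 1 0 1 (n 1 1 0 (n 1 2 0 s (l 57 3)) (l 42 3))
  (n 1 1 0 (n 1 2 0 (n 2 1 0 s (l 83 3)) (l 57 3)) (l 42 3)))))) (n 4 0 0 (n 5 0 0 (n 6 0 0 (n 7 0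
  0 s (n 0 1 1 s (n 1 0 1 s (n 1 1 0 s (l 91 5))))) (n 0 1 1 (n 1 0 1 s (n 1 1 0 s (l 62 5))) (n 1
  0 1 (n 1 1 0 s (l 62 5)) (n 1 1 0 (n 1 2 0 s (n 2 1 0 s (l 93 5))) (l 62 5))))) (n 0 1 1 (n 1 0
  1 (n 1 1 0 s (l 42 5)) (n 1 1 0 (n 0 2 1 s (n 1 2 0 s (l 83 5))) (l 42 5))) (n 1 0 1 (n 1 1 0 (n
  1 2 0 s (n 2 0 1 s (n 2 1 0 s (l 78 5)))) (l 42 5)) (n 1 1 0 (n 1 2 0 (n 2 1 0 s (l 57 5)) (n 2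
  1 0 (l 83 5) (l 57 5))) (l 42 5))))) (n 0 1 1 (n 1 0 1 (n 1 1 0 (n 0 2 1 s (n 1 2 0 s (n 2 0 1 s
  (n 2 1 0 s (l 102 3))))) (l 29 3)) (n 1 1 0 (n 0 2 1 (n 1 2 0 s (l 78 3)) (n 1 2 0 (n 2 1 0 s (l
  57 5)) (n 2 1 0 (l 78 3) (l 37 5)))) (l 29 3))) (n 1 0 1 (n 1 1 0 (n 1 2 0 (n 2 0 1 s (n 2 1 0 s
  (l 78 5))) (l 57 3)) (l 29 3)) (n 1 1 0 (n 1 2 0 (n 2 1 0 (l 88 3) (l 57 5)) (l 77 3)) (l 29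
  3)))))) (n 0 4 0 (n 0 5 0 (n 0 6 0 (n 0 7 0 (n 0 8 0 s (n 0 1 1 s (n 1 0 1 s (n 1 1 0 s (l 80
  3))))) (n 0 1 1 (n 1 0 1 s (n 1 1 0 s (l 60 3))) (n 1 0 1 (n 1 1 0 s (l 60 3)) (n 1 1 0 (n 1 2 0
  s (l 112 3)) (l 60 3))))) (n 0 1 1 (n 1 0 1 (n 1 1 0 s (l 46 3)) (n 1 1 0 (n 0 2 1 s (n 1 2 0 s
  (l 90 3))) (l 46 3))) (n 1 0 1 (n 1 1 0 (n 1 2 0 s (l 71 3)) (l 46 3)) (n 1 1 0 (n 1 2 0 (n 2 1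
  0 s (n 1 3 0 s (l 96 3))) (l 71 3)) (l 46 3))))) (n 0 1 1 (n 1 0 1 (n 1 1 0 (n 0 2 1 s (n 1 2 0
  s (l 86 3))) (l 27 3)) (n 1 1 0 (n 0 2 1 (n 1 2 0 s (l 66 3)) (n 1 2 0 (n 2 1 0 s (l 108 3)) (l
  66 3))) (l 27 3))) (n 1 0 1 (n 1 1 0 (l 76 3) (l 27 3)) (n 1 1 0 (n 1 2 0 (l 76 3) (l 51 3)) (l
  27 3))))) (n 0 1 1 (n 1 0 1 (n 1 1 0 (n 0 2 1 (n 1 2 0 s (l 58 3)) (n 1 2 0 (n 2 0 1 s (n 2 1 0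
  s (l 92 3))) (l 58 3))) (l 16 3)) (n 1 1 0 (n 0 2 1 (l 95 3) (n 1 2 0 (l 95 3) (n 2 1 0 (l 58 3)
  (l 37 5)))) (l 16 3))) (n 1 0 1 (n 1 1 0 (l 44 3) (l 16 3)) (n 1 1 0 (n 1 2 0 (l 44 3) (l 32 3))
  (l 16 3)))))) (n 3 0 0 (n 4 0 0 (n 5 0 0 (n 6 0 0 (n 7 0 0 (n 8 0 0 s (n 0 1 1 s (n 1 0 1 s (n 1
  1 0 s (l 80 5))))) (n 0 1 1 (n 1 0 1 s (n 1 1 0 s (l 60 5))) (n 1 0 1 (n 1 1 0 s (l 60 5)) (n 1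
  1 0 (n 1 2 0 s (n 2 1 0 s (l 112 5))) (l 60 5))))) (n 0 1 1 (n 1 0 1 (n 1 1 0 s (l 46 5)) (n 1 1
  0 (n 0 2 1 s (n 1 2 0 s (n 2 1 0 s (l 71 5)))) (l 46 5))) (n 1 0 1 (n 1 1 0 (n 1 2 0 s (n 2 0 1
  s (n 2 1 0 s (l 90 5)))) (l 46 5)) (n 1 1 0 (n 1 2 0 (n 2 1 0 s (l 71 5)) (n 2 1 0 (n 3 1 0 s (l
  96 5)) (l 71 5))) (l 46 5))))) (n 0 1 1 (n 1 0 1 (n 1 1 0 (n 0 2 1 s (n 1 2 0 s (n 2 0 1 s (n 2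
  1 0 s (l 86 5))))) (l 27 5)) (n 1 1 0 (l 76 5) (l 27 5))) (n 1 0 1 (n 1 1 0 (n 1 2 0 (n 2 0 1 s
  (n 2 1 0 s (l 66 5))) (n 2 0 1 (l 108 5) (n 2 1 0 (l 108 5) (l 66 5)))) (l 27 5)) (n 1 1 0 (n 1
  2 0 (l 76 5) (n 2 1 0 (l 76 5) (l 51 5))) (l 27 5))))) (n 0 1 1 (n 1 0 1 (n 1 1 0 (n 0 2 1 (n 1
  2 0 s (l 92 5)) (n 1 2 0 (n 2 0 1 s (n 2 1 0 s (l 58 5))) (n 2 0 1 (l 92 5) (n 2 1 0 (l 92 5) (l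
  58 5))))) (l 16 5)) (n 1 1 0 (l 44 5) (l 16 5))) (n 1 0 1 (n 1 1 0 (n 1 2 0 (l 95 5) (n 2 0 1 (l
  57 3) (n 2 1 0 (l 57 3) (l 37 3)))) (l 16 5)) (n 1 1 0 (n 1 2 0 (l 44 5) (n 2 1 0 (l 44 5) (l 32
  5))) (l 16 5))))) (n 0 1 1 (n 1 0 1 (n 1 1 0 (l 49 3) (l 12 3)) (l 17 5)) (n 1 0 1 (l 17 3) (n 1
  1 0 (l 17 3) (l 12 3)))))) (n 0 3 0 (n 0 4 0 (n 0 5 0 (n 0 6 0 (n 0 7 0 (n 0 8 0 (n 0 9 0 s (n 0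
  1 1 s (l 87 1))) (n 0 1 1 (n 1 0 1 s (n 1 1 0 s (l 53 3))) (l 53 1))) (n 0 1 1 (n 1 0 1 (n 1 1 0
  s (l 38 3)) (n 1 1 0 (n 0 2 1 s (l 115 1)) (l 38 3))) (l 38 1))) (n 0 1 1 (n 1 0 1 (n 1 1 0 (n 0
  2 1 s (l 75 1)) (l 34 3)) (n 1 1 0 (n 0 2 1 (n 1 2 0 s (l 75 3)) (l 75 1)) (l 34 3))) (l 34 1)))
  (n 0 1 1 (n 1 0 1 (n 1 1 0 (n 0 2 1 (n 1 2 0 s (l 40 3)) (l 40 1)) (l 22 3)) (n 1 1 0 (n 0 2 1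
  (n 1 2 0 (l 108 1) (l 40 3)) (l 40 1)) (l 22 3))) (l 22 1))) (n 0 1 1 (n 1 0 1 (l 31 1) (n 1 1 0
  (l 31 1) (l 11 3))) (l 11 1))) (n 0 1 1 (n 1 0 1 (n 1 1 0 (l 31 1) (l 8 3)) (n 1 1 0 (l 17 0) (l
  8 3))) (l 8 1)))) (n 2 0 0 (n 3 0 0 (n 4 0 0 (n 5 0 0 (n 6 0 0 (n 7 0 0 (n 8 0 0 (n 9 0 0 s (n 0
  1 1 s (n 1 0 1 s (l 87 4)))) (n 0 1 1 (n 1 0 1 s (l 53 4)) (n 1 0 1 (n 1 1 0 s (l 53 5)) (l 53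
  4)))) (n 0 1 1 (n 1 0 1 (n 1 1 0 s (l 38 5)) (l 38 4)) (n 1 0 1 (n 1 1 0 (n 2 0 1 s (l 115 4))
  (l 38 5)) (l 38 4)))) (n 0 1 1 (n 1 0 1 (n 1 1 0 (n 2 0 1 s (l 75 4)) (l 34 5)) (l 34 4)) (n 1 0
  1 (n 1 1 0 (n 2 0 1 (n 2 1 0 s (l 75 5)) (l 75 4)) (l 34 5)) (l 34 4)))) (n 0 1 1 (n 1 0 1 (n 1
  1 0 (n 2 0 1 (n 2 1 0 s (l 40 5)) (l 40 4)) (l 22 5)) (l 22 4)) (n 1 0 1 (n 1 1 0 (n 2 0 1 (n 2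
  1 0 (l 108 4) (l 40 5)) (l 40 4)) (l 22 5)) (l 22 4)))) (n 0 1 1 (n 1 0 1 (l 31 4) (l 11 4)) (n
  1 0 1 (n 1 1 0 (l 31 4) (l 11 5)) (l 11 4)))) (n 0 1 1 (n 1 0 1 (n 1 1 0 (l 31 4) (l 8 5)) (l 8
  4)) (n 1 0 1 (n 1 1 0 (l 17 2) (l 8 5)) (l 8 4)))) (l 6 0)))) (n 0 0 2 (n 0 2 0 (n 0 0 3 (n 0 3
  0 (n 0 0 4 (n 0 4 0 (n 0 0 5 (n 0 5 0 (n 0 0 6 s (n 0 6 0 s (n 0 1 1 s (l 117 0)))) (n 0 0 6 (n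
  0 0 7 s (n 0 1 1 s (l 94 0))) (n 0 1 1 (n 0 1 2 s (l 110 0)) (l 67 0)))) (n 0 5 0 (n 0 6 0 (n 0
  7 0 s (n 0 1 1 s (l 94 1))) (n 0 1 1 (n 0 1 2 s (n 0 2 1 s (l 110 1))) (l 67 1))) (n 0 1 1 (n 0
  1 2 (n 0 2 1 s (l 70 1)) (l 70 0)) (l 45 0)))) (n 0 0 5 (n 0 0 6 (n 0 0 7 (n 0 0 8 s (n 0 1 1 s
  (l 99 0))) (n 0 1 1 (n 0 1 2 s (l 98 0)) (l 59 0))) (n 0 1 1 (n 0 1 2 (n 0 2 1 s (n 0 1 3 s (l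
  84 0))) (l 68 0)) (l 36 0))) (n 0 1 1 (n 0 1 2 (l 64 0) (l 41 0)) (l 33 0)))) (n 0 4 0 (n 0 5 0
  (n 0 6 0 (n 0 7 0 (n 0 8 0 s (n 0 1 1 s (l 99 1))) (n 0 1 1 (n 0 1 2 s (n 0 2 1 s (l 98 1))) (l
  59 1))) (n 0 1 1 (n 0 1 2 (n 0 2 1 s (l 68 1)) (n 0 2 1 (n 0 3 1 s (l 84 1)) (l 68 1))) (l 36
  1))) (n 0 1 1 (n 0 1 2 (l 64 1) (l 70 0)) (l 33 1))) (n 0 1 1 (l 25 0) (l 23 0)))) (n 0 0 4 (n 0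
  0 5 (n 0 0 6 (n 0 0 7 (n 0 0 8 (n 0 0 9 s (n 0 1 1 s (l 79 0))) (n 0 1 1 (n 0 1 2 s (l 113 0))
  (l 55 0))) (n 0 1 1 (l 69 0) (l 39 0))) (n 0 1 1 (l 35 0) (l 30 0))) (l 20 0)) (l 15 0))) (n 0 3
  0 (n 0 4 0 (n 0 5 0 (n 0 6 0 (n 0 7 0 (n 0 8 0 (n 0 9 0 s (n 0 1 1 s (l 79 1))) (n 0 1 1 (n 0 1
  2 s (n 0 2 1 s (l 113 1))) (l 55 1))) (n 0 1 1 (l 69 1) (l 39 1))) (n 0 1 1 (l 35 1) (l 30 1)))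
  (l 20 1)) (l 15 1)) (l 9 0))) (n 0 0 3 (n 0 0 4 (n 0 0 5 (n 0 0 6 (n 0 0 7 (n 0 0 8 (n 0 0 9 (n
  0 0 10 s (l 89 0)) (l 73 0)) (l 52 0)) (l 28 0)) (l 21 0)) (l 14 0)) (l 7 0)) (l 5 0))) (n 0 2 0
  (n 0 3 0 (n 0 4 0 (n 0 5 0 (n 0 6 0 (n 0 7 0 (n 0 8 0 (n 0 9 0 (n 0 10 0 s (l 89 1)) (l 73 1))
  (l 52 1)) (l 28 1)) (l 21 1)) (l 14 1)) (l 7 1)) (l 5 1)) (l 3 0)))) (n 1 0 0 (n 0 0 2 (n 2 0 0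
  (n 0 0 3 (n 3 0 0 (n 0 0 4 (n 4 0 0 (n 0 0 5 (n 5 0 0 (n 0 0 6 s (n 6 0 0 s (n 1 0 1 s (l 117
  2)))) (n 0 0 6 (n 0 0 7 s (n 1 0 1 s (l 94 2))) (n 1 0 1 (n 1 0 2 s (l 110 2)) (l 67 2)))) (n 5
  0 0 (n 6 0 0 (n 7 0 0 s (n 1 0 1 s (l 94 4))) (n 1 0 1 (n 1 0 2 s (n 2 0 1 s (l 110 4))) (l 67
  4))) (n 1 0 1 (n 1 0 2 (n 2 0 1 s (l 70 4)) (l 70 2)) (l 45 2)))) (n 0 0 5 (n 0 0 6 (n 0 0 7 (n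
  0 0 8 s (n 1 0 1 s (l 99 2))) (n 1 0 1 (n 1 0 2 s (l 98 2)) (l 59 2))) (n 1 0 1 (n 1 0 2 (n 2 0
  1 s (n 1 0 3 s (l 84 2))) (l 68 2)) (l 36 2))) (n 1 0 1 (n 1 0 2 (l 64 2) (l 41 2)) (l 33 2))))
  (n 4 0 0 (n 5 0 0 (n 6 0 0 (n 7 0 0 (n 8 0 0 s (n 1 0 1 s (l 99 4))) (n 1 0 1 (n 1 0 2 s (n 2 0
  1 s (l 98 4))) (l 59 4))) (n 1 0 1 (n 1 0 2 (n 2 0 1 s (l 68 4)) (n 2 0 1 (n 3 0 1 s (l 84 4))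
  (l 68 4))) (l 36 4))) (n 1 0 1 (n 1 0 2 (l 64 4) (l 70 2)) (l 33 4))) (n 1 0 1 (l 25 2) (l 23
  2)))) (n 0 0 4 (n 0 0 5 (n 0 0 6 (n 0 0 7 (n 0 0 8 (n 0 0 9 s (n 1 0 1 s (l 79 2))) (n 1 0 1 (n
  1 0 2 s (l 113 2)) (l 55 2))) (n 1 0 1 (l 69 2) (l 39 2))) (n 1 0 1 (l 35 2) (l 30 2))) (l 20
  2)) (l 15 2))) (n 3 0 0 (n 4 0 0 (n 5 0 0 (n 6 0 0 (n 7 0 0 (n 8 0 0 (n 9 0 0 s (n 1 0 1 s (l 79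
  4))) (n 1 0 1 (n 1 0 2 s (n 2 0 1 s (l 113 4))) (l 55 4))) (n 1 0 1 (l 69 4) (l 39 4))) (n 1 0 1
  (l 35 4) (l 30 4))) (l 20 4)) (l 15 4)) (l 9 2))) (n 0 0 3 (n 0 0 4 (n 0 0 5 (n 0 0 6 (n 0 0 7
  (n 0 0 8 (n 0 0 9 (n 0 0 10 s (l 89 2)) (l 73 2)) (l 52 2)) (l 28 2)) (l 21 2)) (l 14 2)) (l 7
  2)) (l 5 2))) (n 2 0 0 (n 3 0 0 (n 4 0 0 (n 5 0 0 (n 6 0 0 (n 7 0 0 (n 8 0 0 (n 9 0 0 (n 10 0 0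
  s (l 89 4)) (l 73 4)) (l 52 4)) (l 28 4)) (l 21 4)) (l 14 4)) (l 7 4)) (l 5 4)) (l 3 2))) (n 0 0
  2 (n 0 0 3 (n 0 0 4 (n 0 0 5 (n 0 0 6 (n 0 0 7 (n 0 0 8 (n 0 0 9 (n 0 0 10 (n 0 0 11 s (l 81 0))
  (l 56 0)) (l 47 0)) (l 24 0)) (l 18 0)) (l 13 0)) (l 10 0)) (l 4 0)) (l 2 0)) (l 1 0)))) (n 0 1
  0 (n 1 0 0 (n 0 2 0 (n 2 0 0 (n 0 3 0 (n 3 0 0 (n 0 4 0 (n 4 0 0 (n 0 5 0 (n 5 0 0 (n 0 6 0 s (n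
  6 0 0 s (n 1 1 0 s (l 117 3)))) (n 0 6 0 (n 0 7 0 s (n 1 1 0 s (l 94 3))) (n 1 1 0 (n 1 2 0 s (l
  110 3)) (l 67 3)))) (n 5 0 0 (n 6 0 0 (n 7 0 0 s (n 1 1 0 s (l 94 5))) (n 1 1 0 (n 1 2 0 s (n 2
  1 0 s (l 110 5))) (l 67 5))) (n 1 1 0 (n 1 2 0 (n 2 1 0 s (l 70 5)) (l 70 3)) (l 45 3)))) (n 0 5
  0 (n 0 6 0 (n 0 7 0 (n 0 8 0 s (n 1 1 0 s (l 99 3))) (n 1 1 0 (n 1 2 0 s (l 98 3)) (l 59 3))) (n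
  1 1 0 (n 1 2 0 (n 2 1 0 s (n 1 3 0 s (l 84 3))) (l 68 3)) (l 36 3))) (n 1 1 0 (n 1 2 0 (l 64 3)
  (l 41 3)) (l 33 3)))) (n 4 0 0 (n 5 0 0 (n 6 0 0 (n 7 0 0 (n 8 0 0 s (n 1 1 0 s (l 99 5))) (n 1
  1 0 (n 1 2 0 s (n 2 1 0 s (l 98 5))) (l 59 5))) (n 1 1 0 (n 1 2 0 (n 2 1 0 s (l 68 5)) (n 2 1 0
  (n 3 1 0 s (l 84 5)) (l 68 5))) (l 36 5))) (n 1 1 0 (n 1 2 0 (l 64 5) (l 70 3)) (l 33 5))) (n 1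
  1 0 (l 25 3) (l 23 3)))) (n 0 4 0 (n 0 5 0 (n 0 6 0 (n 0 7 0 (n 0 8 0 (n 0 9 0 s (n 1 1 0 s (l
  79 3))) (n 1 1 0 (n 1 2 0 s (l 113 3)) (l 55 3))) (n 1 1 0 (l 69 3) (l 39 3))) (n 1 1 0 (l 35 3)
  (l 30 3))) (l 20 3)) (l 15 3))) (n 3 0 0 (n 4 0 0 (n 5 0 0 (n 6 0 0 (n 7 0 0 (n 8 0 0 (n 9 0 0 s
  (n 1 1 0 s (l 79 5))) (n 1 1 0 (n 1 2 0 s (n 2 1 0 s (l 113 5))) (l 55 5))) (n 1 1 0 (l 69 5) (l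
  39 5))) (n 1 1 0 (l 35 5) (l 30 5))) (l 20 5)) (l 15 5)) (l 9 3))) (n 0 3 0 (n 0 4 0 (n 0 5 0 (n
  0 6 0 (n 0 7 0 (n 0 8 0 (n 0 9 0 (n 0 10 0 s (l 89 3)) (l 73 3)) (l 52 3)) (l 28 3)) (l 21 3))
  (l 14 3)) (l 7 3)) (l 5 3))) (n 2 0 0 (n 3 0 0 (n 4 0 0 (n 5 0 0 (n 6 0 0 (n 7 0 0 (n 8 0 0 (n 9
  0 0 (n 10 0 0 s (l 89 5)) (l 73 5)) (l 52 5)) (l 28 5)) (l 21 5)) (l 14 5)) (l 7 5)) (l 5 5)) (l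
  3 3))) (n 0 2 0 (n 0 3 0 (n 0 4 0 (n 0 5 0 (n 0 6 0 (n 0 7 0 (n 0 8 0 (n 0 9 0 (n 0 10 0 (n 0 11
  0 s (l 81 1)) (l 56 1)) (l 47 1)) (l 24 1)) (l 18 1)) (l 13 1)) (l 10 1)) (l 4 1)) (l 2 1)) (l 1
  1))) (n 1 0 0 (n 2 0 0 (n 3 0 0 (n 4 0 0 (n 5 0 0 (n 6 0 0 (n 7 0 0 (n 8 0 0 (n 9 0 0 (n 10 0 0
  (n 11 0 0 s (l 81 4)) (l 56 4)) (l 47 4)) (l 24 4)) (l 18 4)) (l 13 4)) (l 10 4)) (l 4 4)) (l 2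
  4)) (l 1 4)) (l 0 0)))) (l 0 0))

theorem certs_ok : certs.all (fun c => (List.range 6).all fun p => (c.perm p).ok) = true := by
  decide +kernel

theorem tree_ok : tree.check [] [] = true := by
  decide +kernel

theorem Tr.sound (J : Mono → Prop)
    (hJ : ∀ o m : Mono, J o → o.1 ≤ m.1 → o.2.1 ≤ m.2.1 → o.2.2 ≤ m.2.2 → J m) {e : ℕ}
    (he : e ≤ 11) (hcard : ∀ inn : List Mono, inn.Nodup →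
      (∀ m ∈ inn, ¬ J m ∧ m.1 + m.2.1 + m.2.2 < 20) → inn.length ≤ e)
    (hlow : ∃ m : Mono, m.1 + m.2.1 + m.2.2 ≤ 2 ∧ J m) (t : Tr) :
    ∀ inn out : List Mono, t.check inn out = true → inn.Nodup →
      (∀ m ∈ inn, ¬ J m ∧ m.1 + m.2.1 + m.2.2 < 20) → (∀ m ∈ out, J m) →
      ∃ c : Cert, c.ok = true ∧ c.sp.length ≤ 2 * e + 1 ∧ ∀ m ∈ c.f0 ++ (c.f1 ++ c.f2), J m := by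
  induction t with
  | l b p =>
    intro inn out h hn hi ho
    rw [Tr.check] at h
    split at h
    · exact absurd h Bool.false_ne_true
    · rename_i c hc
      simp only [Bool.and_eq_true, decide_eq_true_eq, List.all_eq_true] at h
      obtain ⟨⟨h1, h2⟩, h3⟩ := h
      have h4 := certs_ok
      simp only [List.all_eq_true, List.mem_range] at h4
      refine ⟨c.perm p, h4 c (List.mem_of_getElem? hc) p h1, ?_, fun m hm => ?_⟩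
      · have := hcard inn hn hi
        simp only [Cert.perm, List.length_map]
        omega
      · have := h3 m hm
        simp only [covered, List.any_eq_true, decide_eq_true_eq] at this
        obtain ⟨o, h5, h6, h7, h8⟩ := this
        exact hJ o m (ho o h5) h6 h7 h8
  | s =>
    intro inn out h hn hi ho
    simp only [Tr.check, Bool.or_eq_true, decide_eq_true_eq, List.all_eq_true] at h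
    rcases h with h | h
    · have := hcard inn hn hi; omega
    · obtain ⟨m, h1, h2⟩ := hlow
      exact absurd h2 (hi m (h m ((mem_monsLE 2 m).2 h1))).1
  | n a b c x y ihx ihy =>
    intro inn out h hn hi ho
    simp only [Tr.check, Bool.and_eq_true, decide_eq_true_eq] at h
    obtain ⟨⟨⟨h1, h2⟩, h3⟩, h4⟩ := h
    by_cases hm : J (a, b, c)
    · refine ihy inn _ h4 hn hi fun m hm' => ?_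
      rcases List.mem_cons.1 hm' with rfl | hm'
      exacts [hm, ho m hm']
    · refine ihx _ out h3 (List.nodup_cons.2 ⟨h2, hn⟩) (fun m hm' => ?_) ho
      rcases List.mem_cons.1 hm' with rfl | hm'
      exacts [⟨hm, h1⟩, hi m hm']

end Pool.Agent.Lib.MP_ed43e6_ag
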